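import Pool.Agent.CSP.AlPrim

/-!
# CSP/AlNorm: (A2) the normal form
-/

namespace Pool.Agent.CSP

/-- `C = [[1,p,q],[0,a,b],[0,c,d]]` -/
structure NF (C : Matrix (Fin 3) (Fin 3) ℤ) : Prop where
  det : C.det = 1
  c00 : C 0 0 = 1
  c10 : C 1 0 = 0
  c20 : C 2 0 = 0
  /-- `a d - b c = 1` -/
  adbc : C 1 1 * C 2 2 - C 1 2 * C 2 1 = 1
  /-- `p (d - 1) - q c = ± 1` -/
  pq : C 0 1 * (C 2 2 - 1) - C 0 2 * C 2 1 = 1 ∨ C 0 1 * (C 2 2 - 1) - C 0 2 * C 2 1 = -1
  /-- `c` is odd -/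
  odd : Odd (C 2 1)
  /-- `gcd (p, c) = 1` -/
  cop : ∃ n0 n2 : ℤ, C 0 1 * n2 - n0 * C 2 1 = 1

theorem NF_of {C : Matrix (Fin 3) (Fin 3) ℤ} (hC : C.det = 1) (h0 : C 0 0 = 1) (h1 : C 1 0 = 0)
    (h2 : C 2 0 = 0) (hp : (Matrix.transvection 1 0 1 * C - 1).det = 1 ∨
      (Matrix.transvection 1 0 1 * C - 1).det = -1) : NF C := by
  have hentry : ∀ i j, (Matrix.transvection 1 0 1 * C : Matrix (Fin 3) (Fin 3) ℤ) i j =
      C i j + (if i = 1 then C 0 j else 0) := by
    intro i j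
    rw [Matrix.transvection, add_mul, one_mul, Matrix.add_apply]
    congr 1
    fin_cases i <;> simp [Matrix.mul_apply, Fin.sum_univ_three, Matrix.single]
  have hadbc : C 1 1 * C 2 2 - C 1 2 * C 2 1 = 1 := by
    rw [Matrix.det_fin_three, h0, h1, h2] at hC
    linarith
  have hdet : (Matrix.transvection 1 0 1 * C - 1).det =
      -(C 0 1 * (C 2 2 - 1) - C 0 2 * C 2 1) := by
    rw [Matrix.det_fin_three]
    simp only [Matrix.sub_apply, hentry, h0, h1, h2, Matrix.one_apply]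
    simp only [Fin.isValue, ↓reduceIte, Fin.reduceEq, add_zero, sub_zero, zero_ne_one, one_ne_zero]
    ring
  have hpq : C 0 1 * (C 2 2 - 1) - C 0 2 * C 2 1 = 1 ∨
      C 0 1 * (C 2 2 - 1) - C 0 2 * C 2 1 = -1 := by
    rw [hdet] at hp
    rcases hp with h | h
    · right; linarith
    · left; linarith
  refine ⟨hC, h0, h1, h2, hadbc, hpq, ?_, ?_⟩
  · rw [← Int.not_even_iff_odd]
    rintro ⟨e, he⟩
    rcases Int.even_or_odd (C 2 2) with ⟨f, hf⟩ | ⟨f, hf⟩
    · rw [he, hf] at hadbc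
      have h3 : 2 * (C 1 1 * f - C 1 2 * e) = 1 := by linear_combination hadbc
      omega
    · rw [he, hf] at hpq
      rcases hpq with h3 | h3
      · have h4 : 2 * (C 0 1 * f - C 0 2 * e) = 1 := by linear_combination h3
        omega
      · have h4 : 2 * (C 0 1 * f - C 0 2 * e) = -1 := by linear_combination h3
        omega
  · rcases hpq with h3 | h3
    · exact ⟨C 0 2, C 2 2 - 1, h3⟩
    · exact ⟨-C 0 2, -(C 2 2 - 1), by linear_combination -h3⟩

theorem normal_form {A : Matrix (Fin 3) (Fin 3) ℤ} (hA : A.det = 1)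
    (hA1 : (A - 1).det = 1 ∨ (A - 1).det = -1) :
    ∃ Q C : Matrix (Fin 3) (Fin 3) ℤ, IsUnit Q.det ∧
      A * Q = Q * (Matrix.transvection 1 0 1 * C) ∧ NF C := by
  obtain ⟨v, w, hvw⟩ := prim_pair hA hA1
  set u : Fin 3 → ℤ := A.mulVec v with hu
  set Q : Matrix (Fin 3) (Fin 3) ℤ := !![v 0, u 0 - v 0, w 0; v 1, u 1 - v 1, w 1;
    v 2, u 2 - v 2, w 2] with hQ
  have hQdet : Q.det = 1 := by
    rw [hQ, Matrix.det_fin_three]
    simp only [Matrix.of_apply, Matrix.cons_val', Matrix.cons_val_zero, Matrix.cons_val_one,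
      Matrix.cons_val, Matrix.cons_val_fin_one]
    rw [cross_apply] at hvw
    simp [dotProduct, Fin.sum_univ_three] at hvw
    linear_combination hvw
  have hQu : IsUnit Q.det := by rw [hQdet]; exact isUnit_one
  have hQi : Q * Q⁻¹ = 1 := Matrix.mul_nonsing_inv Q hQu
  have hQi' : Q⁻¹ * Q = 1 := Matrix.nonsing_inv_mul Q hQu
  have hT : Matrix.transvection (1 : Fin 3) 0 (1 : ℤ) * Matrix.transvection 1 0 (-1) = 1 := by
    rw [Matrix.transvection_mul_transvection_same _ _ (by decide)]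
    simp
  set G : Matrix (Fin 3) (Fin 3) ℤ := Q⁻¹ * A * Q with hG
  set C : Matrix (Fin 3) (Fin 3) ℤ := Matrix.transvection 1 0 (-1) * G with hC
  have hTC : Matrix.transvection 1 0 1 * C = G := by
    rw [hC, ← mul_assoc, hT, one_mul]
  have hcol : G.mulVec ![1, 0, 0] = ![1, 1, 0] := by
    have e1 : Q.mulVec ![1, 0, 0] = v := by
      rw [hQ]
      ext i
      fin_cases i <;> simp [Matrix.mulVec, dotProduct, Fin.sum_univ_three]
    have e2 : Q.mulVec ![1, 1, 0] = u := by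
      rw [hQ]
      ext i
      fin_cases i <;> simp [Matrix.mulVec, dotProduct, Fin.sum_univ_three]
    rw [hG, ← Matrix.mulVec_mulVec, ← Matrix.mulVec_mulVec, e1, ← hu, ← e2, Matrix.mulVec_mulVec,
      hQi', Matrix.one_mulVec]
  have hcol' : ∀ i, G i 0 = (![1, 1, 0] : Fin 3 → ℤ) i := by
    intro i
    have := congrFun hcol i
    simpa [Matrix.mulVec, dotProduct, Fin.sum_univ_three] using this
  have hentry : ∀ i j, C i j = G i j + (if i = 1 then -G 0 j else 0) := by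
    intro i j
    rw [hC, Matrix.transvection, add_mul, one_mul, Matrix.add_apply]
    congr 1
    fin_cases i <;> simp [Matrix.mul_apply, Fin.sum_univ_three, Matrix.single]
  have c0 : C 0 0 = 1 := by rw [hentry, hcol']; simp
  have c1 : C 1 0 = 0 := by rw [hentry, hcol', hcol']; simp
  have c2 : C 2 0 = 0 := by rw [hentry, hcol']; simp
  have hAQ : A * Q = Q * G := by
    rw [hG, ← mul_assoc, ← mul_assoc, hQi, one_mul]
  have hGdet : G.det = 1 := by
    have h1 := congrArg Matrix.det hAQ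
    rw [Matrix.det_mul, Matrix.det_mul, hA, hQdet] at h1
    linarith
  have hCdet : C.det = 1 := by
    rw [hC, Matrix.det_mul, hGdet, Matrix.det_transvection_of_ne _ _ (by decide)]
    simp
  have hGdet1 : (G - 1).det = (A - 1).det := by
    have h1 : (A - 1) * Q = Q * (G - 1) := by
      rw [sub_mul, mul_sub, hAQ, one_mul, mul_one]
    have h2 := congrArg Matrix.det h1
    rw [Matrix.det_mul, Matrix.det_mul, hQdet] at h2
    linarith
  refine ⟨Q, C, hQu, by rw [hTC]; exact hAQ, NF_of hCdet c0 c1 c2 ?_⟩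
  rw [hTC, hGdet1]
  exact hA1

/-- the change of basis `M`: `M e₁ = e₀`, `M C e₁ = e₁`, `M e₀ = (-a n2, n2, -c)`. -/
theorem NF.exists_M {C : Matrix (Fin 3) (Fin 3) ℤ} (h : NF C) :
    ∃ M N : Matrix (Fin 3) (Fin 3) ℤ, ∃ n0 n2 : ℤ, C 0 1 * n2 - n0 * C 2 1 = 1 ∧
      M * N = 1 ∧ N * M = 1 ∧ M.det = -1 ∧
      N = !![0, C 0 1, n0; 1, C 1 1, 0; 0, C 2 1, n2] ∧
      M.mulVec ![0, 1, 0] = ![1, 0, 0] ∧ M.mulVec (C.mulVec ![0, 1, 0]) = ![0, 1, 0] ∧
      M.mulVec ![n0, 0, n2] = ![0, 0, 1] ∧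
      M.mulVec ![1, 0, 0] = ![-(C 1 1 * n2), n2, -C 2 1] ∧
      IsCoprime (-(C 1 1 * n2)) (-C 2 1) ∧ IsCoprime n2 (-C 2 1) ∧ Odd (-C 2 1) := by
  obtain ⟨n0, n2, hn⟩ := h.cop
  set p := C 0 1 with hp
  set a := C 1 1 with ha
  set c := C 2 1 with hc
  set M : Matrix (Fin 3) (Fin 3) ℤ := !![-(a * n2), 1, a * n0; n2, 0, -n0; -c, 0, p] with hM
  set N : Matrix (Fin 3) (Fin 3) ℤ := !![0, p, n0; 1, a, 0; 0, c, n2] with hN
  have hMN : M * N = 1 := by
    rw [hM, hN]
    ext i j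
    fin_cases i <;> fin_cases j <;> simp [Matrix.mul_apply, Fin.sum_univ_three]
    · linear_combination -a * hn
    · ring
    · linear_combination hn
    · ring
    · ring
    · linear_combination hn
  have hNM : N * M = 1 := mul_eq_one_comm.1 hMN
  have hMdet : M.det = -1 := by
    rw [hM, Matrix.det_fin_three]
    simp
    linear_combination -hn
  have hCe : C.mulVec ![0, 1, 0] = ![p, a, c] := by
    ext i
    fin_cases i <;> simp [Matrix.mulVec, dotProduct, Fin.sum_univ_three, hp, ha, hc]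
  have hcop1 : IsCoprime n2 (-c) := ⟨p, n0, by linear_combination hn⟩
  have hcop2 : IsCoprime a (-c) := ⟨C 2 2, C 1 2, by linear_combination h.adbc⟩
  refine ⟨M, N, n0, n2, hn, hMN, hNM, hMdet, rfl, ?_, ?_, ?_, ?_, ?_, hcop1, ?_⟩
  · rw [hM]
    ext i
    fin_cases i <;> simp [Matrix.mulVec, dotProduct, Fin.sum_univ_three]
  · rw [hCe, hM]
    ext i
    fin_cases i <;> simp [Matrix.mulVec, dotProduct, Fin.sum_univ_three]
    · linear_combination -a * hn
    · linear_combination hn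
    · ring
  · rw [hM]
    ext i
    fin_cases i <;> simp [Matrix.mulVec, dotProduct, Fin.sum_univ_three]
    · ring
    · ring
    · linear_combination hn
  · rw [hM]
    ext i
    fin_cases i <;> simp [Matrix.mulVec, dotProduct, Fin.sum_univ_three]
  · exact (hcop2.mul_left hcop1).neg_left
  · exact h.odd.neg

end Pool.Agent.CSP
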