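import Pool.Agent.TS.PDef

/-!
# CSP/AlDefs: the isotopy `κ t` (block ALG)

`KapOK C κ δ`: `κ t` is the isotopy of `T^3 = R^3 / Z^3` of CSG/Kappa: it commutes with `Z^3` and with ALL
translations of the coordinate `x 0`, is the identity outside the tubes of radius `1/4` around the
axes `{x 1 ∈ Z, x 2 ∈ Z}`, preserves each tube, is linear near the axis `x 1 = x 2 = 0`
(with `e₀` fixed), constant in time for `t ≤ 1/4` and `t ≥ 3/4`, `κ t = 1` for `t ≤ 1/4`, and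
`act C ∘ κ 1` is the identity near the axis.
-/

open scoped Manifold ContDiff

namespace Pool.Agent.CSP
open Pool.Agent.CSG

structure KapOK (C : Matrix (Fin 3) (Fin 3) ℤ) (κ : ℝ → Equiv.Perm E3) (δ : ℝ) : Prop where
  pos : 0 < δ
  le : δ ≤ 1 / 8
  smooth : ContDiff ℝ ∞ fun q : E3 × ℝ => κ q.2 q.1
  smooth_symm : ContDiff ℝ ∞ fun q : E3 × ℝ => (κ q.2).symm q.1
  lat : ∀ t x m, κ t (x + vec m) = κ t x + vec m
  /-- commutes with the translations in the direction `x 0` -/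
  tr : ∀ t x (c : ℝ), κ t (x + pt c 0 0) = κ t x + pt c 0 0
  /-- identity outside the tubes -/
  off : ∀ t x, (∀ a b : ℤ, (1 : ℝ) / 16 ≤ (x 1 - (a : ℝ)) ^ 2 + (x 2 - (b : ℝ)) ^ 2) → κ t x = x
  /-- each tube is preserved -/
  tube : ∀ t x (a b : ℤ), (x 1 - (a : ℝ)) ^ 2 + (x 2 - (b : ℝ)) ^ 2 < 1 / 16 →
    ((κ t x) 1 - (a : ℝ)) ^ 2 + ((κ t x) 2 - (b : ℝ)) ^ 2 < 1 / 16
  start : ∀ t, t ≤ 1 / 4 → κ t = 1
  stop : ∀ t, 3 / 4 ≤ t → κ t = κ 1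
  /-- linear near the axis -/
  lin : ∃ L : ℝ → E3 ≃L[ℝ] E3, (ContDiff ℝ ∞ fun q : ℝ × E3 => L q.1 q.2) ∧
    (∀ t c, L t (pt c 0 0) = pt c 0 0) ∧ ∀ t x, |x 1| < δ → |x 2| < δ → κ t x = L t x
  axis : ∀ x, |x 1| < δ → |x 2| < δ → act C (κ 1 x) = x

end Pool.Agent.CSP
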