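import Pool.Agent.TS.PDef
import Pool.Agent.RBM.Defs
import Pool.Agent.CSG.EDef
import Pool.Agent.CSG.HHb

/-!
# CSP/Defs: from Cappell-Shaneson data to knots in circle bundles (MP_cb9bff_gt, part (a)), definitions

Coordinates `x = pt x0 u y` of `R³` (fibre direction, `u`, `y`), `t` in `(-1/8, 9/8)`, as in `TS/PDef`.

* `PDs κ ε k X` : as `PD κ ε k (-1) X`, but the framing of the surgered circle `C` rotates in the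
  `(y, t)`-plane: `jc (y, s e^{2πiu}) = H (C + ε s (y_0, e^{-2πiu} (y_1 + i y_2)))`.
* `OB J κ ε k P` : an open book structure of the 4-manifold `P`: the same coordinates `Th`, the same binding chart
  `Tb`, but the torus `y = t = 1/2` is filled in such a way that the `u`-circle bounds (chart `kK (l, v, τ)`).
* `Qm` : the map of the twin, `x0 = 1/2 + xiS`, `u = uS`, `(y - 1/2) + i (t - 1/2) = etaS`.
-/

open scoped Manifold ContDiff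
open Complex (I)

namespace Pool.Agent.CSP
open Pool.Agent.CSG (vec pt stp thc E3 S2)
open Pool.Agent.TS (OffAx OnC PD yc)
open Pool.Agent.RSG (E4 S4 ex c1 c2 ht fh)
open Pool.Agent.RBM (ThickT TwinP OnT)

/-! ## the rotations -/

/-- rotation in the plane of the coordinates `0, 1` -/
noncomputable def r01 (c : ℂ) (w : E3) : E3 :=
  pt (c * ⟨w 0, w 1⟩).re (c * ⟨w 0, w 1⟩).im (w 2)
/-- rotation in the plane of the coordinates `0, 2` -/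
noncomputable def r02 (c : ℂ) (w : E3) : E3 :=
  pt (c * ⟨w 0, w 2⟩).re (w 1) (c * ⟨w 0, w 2⟩).im

/-- the angle -/
noncomputable def tht (l u : ℝ) : ℝ := (1 - l) * thc u + l * u

/-- Homotopy of loops of rotations of the `(x0, y, t)`-space, from the rotation of the `(x0, t)`-plane (`l = 0`) to
the rotation of the `(y, t)`-plane (`l = 1`). -/
noncomputable def Vr (l u : ℝ) (w : E3) : E3 :=
  r01 (ex (l / 4)) (r02 (ex (-tht l u)) (r01 (ex (-(l / 4))) w))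
/-- the inverse of `Vr l u` -/
noncomputable def Vr' (l u : ℝ) (w : E3) : E3 :=
  r01 (ex (l / 4)) (r02 (ex (tht l u)) (r01 (ex (-(l / 4))) w))

/-- the position with respect to the nearest point of `C` with the same `u`: `(x0, y, t) - (1/2, 1/2, 1/2)` -/
noncomputable def cG (q : E3 × ℝ) : E3 :=
  pt (q.1 0 - 1 / 2 - round (q.1 0 - 1 / 2)) (q.1 2 - 1 / 2 - round (q.1 2 - 1 / 2)) (q.2 - 1 / 2)

/-- the translation of the coordinates `(x0, y, t)` by `w` -/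
noncomputable def trG (q : E3 × ℝ) (w : E3) : E3 × ℝ :=
  (pt (q.1 0 + w 0) (q.1 1) (q.1 2 + w 1), q.2 + w 2)

/-- `0` for `s ≤ 1/4`, `1` for `s ≥ 3/4` -/
noncomputable def LaG (s : ℝ) : ℝ := stp (1 / 16) (9 / 16) (s ^ 2)

open Classical in
/-- change of the framing near `C` -/
noncomputable def Gp (ε : ℝ) (q : E3 × ℝ) : E3 × ℝ :=
  if ‖cG q‖ < ε then
    trG q (Vr (LaG (‖cG q‖ / ε)) (q.1 1) (Vr' 1 (q.1 1) (cG q)) - cG q)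
  else q
open Classical in
/-- the inverse of `Gp ε` -/
noncomputable def Gp' (ε : ℝ) (q : E3 × ℝ) : E3 × ℝ :=
  if ‖cG q‖ < ε then
    trG q (Vr 1 (q.1 1) (Vr' (LaG (‖cG q‖ / ε)) (q.1 1) (cG q)) - cG q)
  else q

/-! ## straight P-data -/

/-- As `PD κ ε k (-1) X`, with the framing of `C` rotating in the `(y, t)`-plane. -/
structure PDs (κ : Equiv.Perm E3) (ε : ℝ) (k : ℤ) (X : Type*) [TopologicalSpace X]
    [ChartedSpace E4 X] where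
  H : E3 × ℝ → X
  jb : ℝ × ℝ × ℂ → X
  jc : S2 × ℂ → X
  H_loc : ∀ (x : E3) (t : ℝ), -(1 / 8) < t → t < 9 / 8 → OffAx x → ¬ OnC x t →
    IsLocalDiffeomorphAt 𝓘(ℝ, E3 × ℝ) (𝓡 4) ∞ H (x, t)
  H_per : ∀ (x : E3) (t : ℝ) (m : Fin 3 → ℤ), -(1 / 8) < t → t < 9 / 8 → OffAx x → H (x + vec m, t) = H (x, t)
  H_mon : ∀ (x : E3) (t : ℝ), -(1 / 8) < t → t < 1 / 8 → OffAx x → H (κ x, t) = H (x, t + 1)
  H_inj : ∀ (x y : E3) (s t : ℝ), OffAx x → ¬ OnC x s → OffAx y → ¬ OnC y t → 0 ≤ s → s < 1 → 0 ≤ t → t < 1 →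
    H (x, s) = H (y, t) → s = t ∧ ∃ m : Fin 3 → ℤ, y = x + vec m
  jb_per : ∀ (θ x : ℝ) (ζ : ℂ) (a b : ℤ), jb (θ + a, x + b, ζ) = jb (θ, x, ζ)
  jb_loc : ∀ (θ x : ℝ) (ζ : ℂ), ‖ζ‖ < 5 → IsLocalDiffeomorphAt 𝓘(ℝ, ℝ × ℝ × ℂ) (𝓡 4) ∞ jb (θ, x, ζ)
  jb_inj : ∀ (θ x : ℝ) (ζ : ℂ) (θ' x' : ℝ) (ζ' : ℂ), ‖ζ‖ < 5 → ‖ζ'‖ < 5 → jb (θ, x, ζ) = jb (θ', x', ζ') →
    (∃ a : ℤ, θ' = θ + a) ∧ (∃ b : ℤ, x' = x + b) ∧ ζ' = ζ
  jc_loc : ∀ (y : S2) (ζ : ℂ), ‖ζ‖ < 1 →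
    IsLocalDiffeomorphAt ((𝓡 2).prod 𝓘(ℝ, ℂ)) (𝓡 4) ∞ jc (y, ζ)
  jc_inj : ∀ (y y' : S2) (ζ ζ' : ℂ), ‖ζ‖ < 1 → ‖ζ'‖ < 1 → jc (y, ζ) = jc (y', ζ') → y = y' ∧ ζ = ζ'
  glueb : ∀ θ x t s : ℝ, -(1 / 8) < t → t < 9 / 8 → 0 < s → s < 5 →
    jb (θ, x, s * ex (t - 1 / 2)) =
      H (pt x (ε * s * ex (θ + k * (t - 1 / 2))).im (ε * s * ex (θ + k * (t - 1 / 2))).re, t)
  gluec : ∀ (y : S2) (u s : ℝ), 0 < s → s < 1 →
    jc (y, s * ex u) = H (pt (1 / 2 + ε * s * (y : E3) 0) u (1 / 2 + (ε * s * ex (-u) * yc y).re),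
      1 / 2 + (ε * s * ex (-u) * yc y).im)
  disjb : ∀ (θ x₀ : ℝ) (x : E3) (t : ℝ), OffAx x → ¬ OnC x t → 0 ≤ t → t < 1 → jb (θ, x₀, 0) ≠ H (x, t)
  disjc : ∀ (y : S2) (x : E3) (t : ℝ), OffAx x → ¬ OnC x t → 0 ≤ t → t < 1 → jc (y, 0) ≠ H (x, t)
  disjbc : ∀ (y : S2) (θ x₀ : ℝ), jc (y, 0) ≠ jb (θ, x₀, 0)
  cover : ∀ q : X, (∃ θ x₀, q = jb (θ, x₀, 0)) ∨ (∃ y, q = jc (y, 0)) ∨
    ∃ (x : E3) (t : ℝ), OffAx x ∧ ¬ OnC x t ∧ 0 ≤ t ∧ t < 1 ∧ q = H (x, t)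

/-! ## open books -/

/-- on the torus over `C` -/
def OnCT (x : E3) (t : ℝ) : Prop := t = 1 / 2 ∧ ∃ b : ℤ, x 2 = b + 1 / 2

section
variable {E : Type*} [NormedAddCommGroup E] [NormedSpace ℝ E] {HM : Type*} [TopologicalSpace HM]
  (J : ModelWithCorners ℝ E HM)

/-- `P` has the same open book coordinates as `PDs κ ε k X`, but the torus `y = t = 1/2` is replaced by a torus
`kK (l, 0, τ)` in whose neighbourhood the `u`-circle is the meridian. -/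
structure OB (κ : Equiv.Perm E3) (ε : ℝ) (k : ℤ) (P : Type*) [TopologicalSpace P]
    [ChartedSpace HM P] where
  Th : E3 × ℝ → P
  Tb : ℝ × ℝ × ℂ → P
  kK : ℝ × ℂ × ℝ → P
  T_loc : ∀ (x : E3) (t : ℝ), -(1 / 8) < t → t < 9 / 8 → OffAx x → ¬ OnCT x t →
    IsLocalDiffeomorphAt 𝓘(ℝ, E3 × ℝ) J ∞ Th (x, t)
  T_per : ∀ (x : E3) (t : ℝ) (m : Fin 3 → ℤ), -(1 / 8) < t → t < 9 / 8 → OffAx x → ¬ OnCT x t →
    Th (x + vec m, t) = Th (x, t)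
  T_mon : ∀ (x : E3) (t : ℝ), -(1 / 8) < t → t < 1 / 8 → OffAx x → Th (κ x, t) = Th (x, t + 1)
  T_inj : ∀ (x y : E3) (s t : ℝ), OffAx x → ¬ OnCT x s → OffAx y → ¬ OnCT y t → 0 ≤ s → s < 1 → 0 ≤ t → t < 1 →
    Th (x, s) = Th (y, t) → s = t ∧ ∃ m : Fin 3 → ℤ, y = x + vec m
  b_per : ∀ (θ x : ℝ) (ζ : ℂ) (a b : ℤ), Tb (θ + a, x + b, ζ) = Tb (θ, x, ζ)
  b_loc : ∀ (θ x : ℝ) (ζ : ℂ), ‖ζ‖ < 5 → IsLocalDiffeomorphAt 𝓘(ℝ, ℝ × ℝ × ℂ) J ∞ Tb (θ, x, ζ)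
  b_inj : ∀ (θ x : ℝ) (ζ : ℂ) (θ' x' : ℝ) (ζ' : ℂ), ‖ζ‖ < 5 → ‖ζ'‖ < 5 → Tb (θ, x, ζ) = Tb (θ', x', ζ') →
    (∃ a : ℤ, θ' = θ + a) ∧ (∃ b : ℤ, x' = x + b) ∧ ζ' = ζ
  thick : ThickT J kK
  glueb : ∀ θ x t s : ℝ, -(1 / 8) < t → t < 9 / 8 → 0 < s → s < 5 →
    Tb (θ, x, s * ex (t - 1 / 2)) =
      Th (pt x (ε * s * ex (θ + k * (t - 1 / 2))).im (ε * s * ex (θ + k * (t - 1 / 2))).re, t)
  glueK : ∀ l s u τ : ℝ, 0 < s → s < 1 →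
    kK (l, s * ex u, τ) = Th (pt τ u (1 / 2 + (ε * s * ex l).re), 1 / 2 + (ε * s * ex l).im)
  disjb : ∀ (θ x₀ : ℝ) (x : E3) (t : ℝ), OffAx x → ¬ OnCT x t → 0 ≤ t → t < 1 → Tb (θ, x₀, 0) ≠ Th (x, t)
  disjK : ∀ (l τ : ℝ) (x : E3) (t : ℝ), OffAx x → ¬ OnCT x t → 0 ≤ t → t < 1 → kK (l, 0, τ) ≠ Th (x, t)
  disjbK : ∀ l τ θ x₀ : ℝ, kK (l, 0, τ) ≠ Tb (θ, x₀, 0)
  cover : ∀ q : P, (∃ θ x₀, q = Tb (θ, x₀, 0)) ∨ (∃ l τ, q = kK (l, 0, τ)) ∨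
    ∃ (x : E3) (t : ℝ), OffAx x ∧ ¬ OnCT x t ∧ 0 ≤ t ∧ t < 1 ∧ q = Th (x, t)

end

/-! ## the map of the twin -/

/-- `1` for `a ≤ 1/20`, `0` for `a ≥ 1/10` -/
noncomputable def wX (a : ℝ) : ℝ := 1 - stp (1 / 20) (1 / 10) a

/-- `x0 - 1/2` -/
noncomputable def xiS (ε : ℝ) (z : S4) : ℝ :=
  (1 - wX (‖c1 z‖ ^ 2)) * (Complex.arg (-fh z) / (2 * Real.pi)) -
    wX (‖c1 z‖ ^ 2) * (2 * ε * ‖c1 z‖ * ht z)
/-- `u` -/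
noncomputable def uS (z : S4) : ℝ := Complex.arg (c1 z) / (2 * Real.pi)
/-- `(y - 1/2) + i (t - 1/2)` -/
noncomputable def etaS (ε : ℝ) (z : S4) : ℂ :=
  (2 * ε : ℝ) * (fh z / ‖fh z‖) * (starRingEnd ℂ) (c1 z) * c2 z

/-- the coordinates `(x, t)` of the point `z` -/
noncomputable def qS (ε : ℝ) (z : S4) : E3 × ℝ :=
  (pt (1 / 2 + xiS ε z) (uS z) (1 / 2 + (etaS ε z).re), 1 / 2 + (etaS ε z).im)

/-- `(- ht, (fh / |fh|) c2)`, normalised -/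
noncomputable def yS (z : S4) : S2 :=
  Pool.Agent.RSG.toSph ⟨EuclideanSpace.single 0 1, by simp⟩
    (WithLp.toLp 2 ![-ht z, (fh z / ‖fh z‖ * c2 z).re, (fh z / ‖fh z‖ * c2 z).im])
noncomputable def zeS (z : S4) : ℂ := (2 * Real.sqrt (1 - ‖c1 z‖ ^ 2) : ℝ) * c1 z

section
variable {X : Type*} [TopologicalSpace X] [ChartedSpace E4 X] {κ : Equiv.Perm E3} {ε : ℝ} {k : ℤ}

open Classical in
/-- the map of the twin -/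
noncomputable def Qm (D : PDs κ ε k X) (z : S4) : X :=
  if c1 z = 0 then D.jc (yS z, 0) else D.H (qS ε z)

end

/-! ## the function `x0` -/

/-- `|c1|²` of the point with `2 |c1| |c2| = r` and `arg fh = 2πφ` -/
noncomputable def aX (r φ : ℝ) : ℝ :=
  (Real.sqrt (1 - (1 - r ^ 2) * Real.sin (2 * Real.pi * φ) ^ 2) +
    Real.sqrt (1 - r ^ 2) * Real.cos (2 * Real.pi * φ)) / 2
/-- `ht` -/
noncomputable def hX (r φ : ℝ) : ℝ :=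
  Real.sqrt (1 - r ^ 2) * Real.sin (2 * Real.pi * φ) /
    Real.sqrt (1 + Real.sqrt (1 - (1 - r ^ 2) * Real.sin (2 * Real.pi * φ) ^ 2))
/-- `x0`, for `0 ≤ φ < 1` -/
noncomputable def XX0 (ε r φ : ℝ) : ℝ :=
  1 / 2 + (1 - wX (aX r φ)) * (φ - 1 / 2) - wX (aX r φ) * (2 * ε * Real.sqrt (aX r φ) * hX r φ)
/-- `x0` -/
noncomputable def XX (ε r φ : ℝ) : ℝ := ⌊φ⌋ + XX0 ε r (Int.fract φ)

end Pool.Agent.CSP
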