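import Pool.Agent.CSP.AlDefs
import Pool.Agent.CSG.PathC
import Pool.Agent.CSG.Kappa

/-!
# CSP/AlKap: existence of `KapOK`
`Al_exists_kappa` is `CSG.exists_kappa` (same construction) with three more conclusions.
-/

open scoped Manifold ContDiff

namespace Pool.Agent.CSP
open Pool.Agent.CSG

theorem Al_exists_kappa {B : ℝ → E3 ≃L[ℝ] E3} (hB : ContDiff ℝ ∞ fun q : ℝ × E3 => B q.1 q.2)
    (hB0 : ∀ z, B 0 z = z) (hBe : ∀ τ, B τ e₀ = e₀) :
    ∃ δ : ℝ, 0 < δ ∧ ∃ κ : ℝ → Equiv.Perm E3,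
      (ContDiff ℝ ∞ fun q : E3 × ℝ => κ q.2 q.1) ∧
      (ContDiff ℝ ∞ fun q : E3 × ℝ => (κ q.2).symm q.1) ∧
      (∀ t x m, κ t (x + vec m) = κ t x + vec m) ∧
      (∀ t, t ≤ 1 / 4 → κ t = 1) ∧ (∀ t, 3 / 4 ≤ t → κ t = κ 1) ∧
      (∀ t x, |x 1| < δ → |x 2| < δ → κ t x = B (stp (1 / 4) (3 / 4) t) x) ∧
      (∀ t x (c : ℝ), κ t (x + pt c 0 0) = κ t x + pt c 0 0) ∧
      (∀ t x, (∀ a b : ℤ, (1 : ℝ) / 16 ≤ (x 1 - (a : ℝ)) ^ 2 + (x 2 - (b : ℝ)) ^ 2) →
        κ t x = x) ∧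
      (∀ t x (a b : ℤ), (x 1 - (a : ℝ)) ^ 2 + (x 2 - (b : ℝ)) ^ 2 < 1 / 16 →
        ((κ t x) 1 - (a : ℝ)) ^ 2 + ((κ t x) 2 - (b : ℝ)) ^ 2 < 1 / 16) := by
  set M : ℝ → Kappa_F ≃L[ℝ] Kappa_F := fun τ => Kappa_M (B τ) (hBe τ) with hMdef
  have hMs : ContDiff ℝ ∞ fun q : ℝ × Kappa_F => M q.1 q.2 :=
    Kappa_p.contDiff.comp (hB.comp (contDiff_fst.prodMk (Kappa_i.contDiff.comp contDiff_snd)))
  have hM0 : ∀ z, M 0 z = z := by
    intro z
    show Kappa_p (B 0 (Kappa_i z)) = z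
    rw [hB0, Kappa_pi]
  obtain ⟨C, hC1, hC2, hC3, hC0⟩ := Kappa_bounds M hMs
  set st : ℝ → ℝ := stp (1 / 4) (3 / 4) with hst
  have hst0 : ∀ t, 0 ≤ st t := fun t => stp_nonneg _ _ _
  have hst1 : ∀ t, st t ≤ 1 := fun t => stp_le_one _ _ _
  have hsts : ContDiff ℝ ∞ st := stp_smooth _ _
  set L : ℝ → ℝ → Kappa_F ≃L[ℝ] Kappa_F := fun t τ => M (st t * τ) with hL
  have hmem : ∀ t τ, 0 ≤ τ → τ ≤ 1 → 0 ≤ st t * τ ∧ st t * τ ≤ 1 := by
    intro t τ h0 h1
    exact ⟨mul_nonneg (hst0 t) h0, mul_le_one₀ (hst1 t) h0 h1⟩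
  obtain ⟨r₀, hr0, hr1, θ, f, hθs, hθm, hθ1, hθ0, hf, hfs, hfs'⟩ := radial L
    (hMs.comp (((hsts.comp contDiff_fst).mul (contDiff_fst.comp contDiff_snd)).prodMk
      (contDiff_snd.comp contDiff_snd)))
    (by
      intro t z
      show M (st t * 0) z = z
      rw [mul_zero, hM0]) C
    (fun t τ z h0 h1 => hC1 _ z (hmem t τ h0 h1).1 (hmem t τ h0 h1).2)
    (fun t τ z h0 h1 => hC2 _ z (hmem t τ h0 h1).1 (hmem t τ h0 h1).2)
    (by
      intro t τ τ' z h0 h1 h0' h1'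
      refine (hC3 _ _ z (hmem t τ h0 h1).1 (hmem t τ h0 h1).2 (hmem t τ' h0' h1').1
        (hmem t τ' h0' h1').2).trans ?_
      apply mul_le_mul_of_nonneg_right _ (norm_nonneg z)
      apply mul_le_mul_of_nonneg_left _ hC0
      rw [← mul_sub, abs_mul, abs_of_nonneg (hst0 t)]
      have := abs_nonneg (τ - τ')
      nlinarith [hst1 t])
    (1 / 4) (by norm_num)
  have hfM : ∀ t z, f t z = M (st t * θ z) z := hf
  set D : Kappa_F × ℝ → E3 := fun q =>
    (B (st q.2 * θ q.1) (Kappa_i q.1)) 0 • e₀ + Kappa_i (f q.2 q.1 - q.1) with hD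
  have hDs : ContDiff ℝ ∞ D := by
    have h1 : ContDiff ℝ ∞ (fun q : Kappa_F × ℝ => B (st q.2 * θ q.1) (Kappa_i q.1)) :=
      hB.comp (((hsts.comp contDiff_snd).mul (hθs.comp contDiff_fst)).prodMk
        (Kappa_i.contDiff.comp contDiff_fst))
    have h2 : ContDiff ℝ ∞ (fun q : Kappa_F × ℝ => (B (st q.2 * θ q.1) (Kappa_i q.1)) 0) :=
      (contDiff_euclidean.1 h1 0)
    exact (h2.smul contDiff_const).add (Kappa_i.contDiff.comp (hfs.sub contDiff_fst))
  have hf1 : ∀ t Z, 1 / 4 ≤ ‖Z‖ → f t Z = Z := by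
    intro t Z hZ
    rw [hfM, hθ0 Z hZ, mul_zero, hM0]
  have hi0 : ∀ Z, (Kappa_i Z) 0 = 0 := by
    intro Z
    rw [Kappa_i_apply, pt_zero']
  have hD0 : ∀ Z t, 1 / 4 ≤ ‖Z‖ → D (Z, t) = 0 := by
    intro Z t hZ
    show (B (st t * θ Z) (Kappa_i Z)) 0 • e₀ + Kappa_i (f t Z - Z) = 0
    rw [hθ0 Z hZ, mul_zero, hB0, hi0, hf1 t Z hZ, sub_self, map_zero, zero_smul, zero_add]
  have hf2 : ∀ t Z, ‖Z‖ < 1 / 4 → ‖f t Z‖ < 1 / 4 := by
    intro t Z hZ
    by_contra hcon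
    push Not at hcon
    have h1 := hf1 t (f t Z) hcon
    have h2 := (f t).injective h1
    rw [h2] at hcon
    linarith
  have hf1' : ∀ t W, 1 / 4 ≤ ‖W‖ → (f t).symm W = W := by
    intro t W hW
    rw [Equiv.symm_apply_eq]
    exact (hf1 t W hW).symm
  have hf2' : ∀ t W, ‖W‖ < 1 / 4 → ‖(f t).symm W‖ < 1 / 4 := by
    intro t W hW
    by_contra hcon
    push Not at hcon
    have h1 := hf1 t _ hcon
    rw [Equiv.apply_symm_apply] at h1
    rw [← h1] at hcon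
    linarith
  have hpD : ∀ Z t, Kappa_p (D (Z, t)) = f t Z - Z := by
    intro Z t
    show Kappa_p ((B (st t * θ Z) (Kappa_i Z)) 0 • e₀ + Kappa_i (f t Z - Z)) = f t Z - Z
    rw [map_add, map_smul, Kappa_p_e, smul_zero, zero_add, Kappa_pi]
  have hsmall : ∀ Z : Kappa_F, ‖Z‖ < 1 / 4 → ∀ j, |Z j| < 1 / 2 := by
    intro Z hZ j
    linarith [Kappa_coord_le Z j]
  set k : ℝ → E3 → E3 := fun t x => x + D (Kappa_red (Kappa_p x), t) with hk
  set k' : ℝ → E3 → E3 := fun t x => x - D ((f t).symm (Kappa_red (Kappa_p x)), t) with hk'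
  have hred1 : ∀ t x, Kappa_red (Kappa_p (k t x)) = f t (Kappa_red (Kappa_p x)) := by
    intro t x
    set Z := Kappa_red (Kappa_p x) with hZ
    set m : Fin 2 → ℤ := fun j => round (Kappa_p x j) with hm
    have h1 : Kappa_p x = Kappa_z m + Z := Kappa_red_eq (Kappa_p x)
    have h2 : Kappa_p (k t x) = Kappa_z m + f t Z := by
      show Kappa_p (x + D (Z, t)) = _
      rw [map_add, hpD, h1]
      abel
    rcases lt_or_ge ‖Z‖ (1 / 4) with h | h
    · rw [h2, Kappa_red_small (hsmall _ (hf2 t Z h))]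
    · rw [h2, hf1 t Z h, ← h1]
  have hred2 : ∀ t x, Kappa_red (Kappa_p (k' t x)) = (f t).symm (Kappa_red (Kappa_p x)) := by
    intro t x
    set W := Kappa_red (Kappa_p x) with hW
    set m : Fin 2 → ℤ := fun j => round (Kappa_p x j) with hm
    have h1 : Kappa_p x = Kappa_z m + W := Kappa_red_eq (Kappa_p x)
    have h2 : Kappa_p (k' t x) = Kappa_z m + (f t).symm W := by
      show Kappa_p (x - D ((f t).symm W, t)) = _
      rw [map_sub, hpD, h1, Equiv.apply_symm_apply]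
      abel
    rcases lt_or_ge ‖W‖ (1 / 4) with h | h
    · rw [h2, Kappa_red_small (hsmall _ (hf2' t W h))]
    · rw [h2, hf1' t W h, ← h1]
  set κ : ℝ → Equiv.Perm E3 := fun t =>
    { toFun := k t
      invFun := k' t
      left_inv := by
        intro x
        show k t x - D ((f t).symm (Kappa_red (Kappa_p (k t x))), t) = x
        rw [hred1, Equiv.symm_apply_apply]
        show x + D (Kappa_red (Kappa_p x), t) - D (Kappa_red (Kappa_p x), t) = x
        rw [add_sub_cancel_right]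
      right_inv := by
        intro x
        show k' t x + D (Kappa_red (Kappa_p (k' t x)), t) = x
        rw [hred2]
        show x - D ((f t).symm (Kappa_red (Kappa_p x)), t) +
          D ((f t).symm (Kappa_red (Kappa_p x)), t) = x
        rw [sub_add_cancel] } with hκ
  have hκa : ∀ t x, κ t x = x + D (Kappa_red (Kappa_p x), t) := fun t x => rfl
  refine ⟨r₀ / 2, by linarith, κ, ?_, ?_, ?_, ?_, ?_, ?_, ?_, ?_, ?_⟩
  · exact contDiff_fst.add (Kappa_periodize hDs hD0)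
  · have h1 : ContDiff ℝ ∞ (fun q : Kappa_F × ℝ => D ((f q.2).symm q.1, q.2)) :=
      hDs.comp (hfs'.prodMk contDiff_snd)
    have h2 := Kappa_periodize h1 (by
      intro Z t hZ
      show D ((f t).symm Z, t) = 0
      rw [hf1' t Z hZ]
      exact hD0 Z t hZ)
    exact contDiff_fst.sub h2
  · intro t x m
    rw [hκa, hκa]
    have h1 : Kappa_p (x + vec m) = Kappa_p x + Kappa_z ![m 1, m 2] := by
      rw [map_add]
      congr 1
      ext j
      fin_cases j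
      · show Kappa_p (vec m) 0 = (m 1 : ℝ)
        rw [Kappa_p_zero]
        rfl
      · show Kappa_p (vec m) 1 = (m 2 : ℝ)
        rw [Kappa_p_one]
        rfl
    rw [h1, Kappa_red_add]
    abel
  · intro t ht
    apply Equiv.ext
    intro x
    rw [hκa]
    have h1 : st t = 0 := stp_zero (by norm_num) ht
    show x + ((B (st t * θ _) (Kappa_i _)) 0 • e₀ + Kappa_i (f t _ - _)) = x
    rw [hfM, h1, zero_mul, hM0, hB0, hi0, sub_self, map_zero, zero_smul, zero_add, add_zero]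
  · intro t ht
    apply Equiv.ext
    intro x
    rw [hκa, hκa]
    have h1 : st t = 1 := stp_one (by norm_num) ht
    have h2 : st 1 = 1 := stp_one (by norm_num) (by norm_num)
    show x + ((B (st t * θ _) (Kappa_i _)) 0 • e₀ + Kappa_i (f t _ - _)) =
      x + ((B (st 1 * θ _) (Kappa_i _)) 0 • e₀ + Kappa_i (f 1 _ - _))
    rw [hfM, hfM, h1, h2]
  · intro t x hx1 hx2
    rw [hκa]
    set Z := Kappa_p x with hZ
    have hZ0 : Z 0 = x 1 := Kappa_p_zero x
    have hZ1 : Z 1 = x 2 := Kappa_p_one x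
    have hZn : ‖Z‖ ≤ r₀ := by
      refine (Kappa_norm_le Z).trans ?_
      rw [hZ0, hZ1]
      linarith
    have hz0 : Kappa_z 0 + Z = Z := by
      ext j
      rw [PiLp.add_apply, Kappa_z_apply]
      simp
    have hredZ : Kappa_red Z = Z := by
      have h1 := Kappa_red_small (Z := Z) (by
        intro j
        have := Kappa_coord_le Z j
        linarith) 0
      rwa [hz0] at h1
    rw [hredZ]
    show x + ((B (st t * θ Z) (Kappa_i Z)) 0 • e₀ + Kappa_i (f t Z - Z)) = B (st t) x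
    rw [hfM, hθ1 Z hZn, mul_one]
    have h3 : M (st t) Z = Kappa_p (B (st t) (Kappa_i Z)) := rfl
    have h4 := Kappa_decomp (B (st t) (Kappa_i Z))
    have h5 := Kappa_decomp x
    rw [← hZ] at h5
    conv_rhs => rw [h5, map_add, map_smul, hBe, h4]
    rw [h3, map_sub]
    conv_lhs => rw [h5]
    abel_nf

  · intro t x c
    rw [hκa, hκa]
    have h1 : Kappa_p (x + pt c 0 0) = Kappa_p x := by
      ext j
      fin_cases j
      · show Kappa_p (x + pt c 0 0) 0 = Kappa_p x 0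
        rw [Kappa_p_zero, Kappa_p_zero, PiLp.add_apply, pt_one', add_zero]
      · show Kappa_p (x + pt c 0 0) 1 = Kappa_p x 1
        rw [Kappa_p_one, Kappa_p_one, PiLp.add_apply, pt_two', add_zero]
    rw [h1]
    abel
  · intro t x hx
    rw [hκa, hD0, add_zero]
    have h1 := hx (round (Kappa_p x 0)) (round (Kappa_p x 1))
    have h2 : ‖Kappa_red (Kappa_p x)‖ ^ 2 = (x 1 - (round (Kappa_p x 0) : ℝ)) ^ 2 +
        (x 2 - (round (Kappa_p x 1) : ℝ)) ^ 2 := by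
      rw [EuclideanSpace.norm_sq_eq, Fin.sum_univ_two, Real.norm_eq_abs, Real.norm_eq_abs, sq_abs,
        sq_abs, Kappa_red_apply, Kappa_red_apply, Kappa_p_zero, Kappa_p_one]
    rw [← h2] at h1
    have h3 := norm_nonneg (Kappa_red (Kappa_p x))
    nlinarith
  · intro t x a b hx
    set m : Fin 2 → ℤ := ![a, b] with hm
    set Z : Kappa_F := Kappa_p x - Kappa_z m with hZ
    have e0 : Z 0 = x 1 - (a : ℝ) := by
      rw [hZ, PiLp.sub_apply, Kappa_p_zero, Kappa_z_apply, hm]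
      simp
    have e1 : Z 1 = x 2 - (b : ℝ) := by
      rw [hZ, PiLp.sub_apply, Kappa_p_one, Kappa_z_apply, hm]
      simp
    have hn : ‖Z‖ < 1 / 4 := by
      have h2 : ‖Z‖ ^ 2 < 1 / 16 := by
        rw [EuclideanSpace.norm_sq_eq, Fin.sum_univ_two, Real.norm_eq_abs, Real.norm_eq_abs, sq_abs,
          sq_abs, e0, e1]
        exact hx
      have h3 := norm_nonneg Z
      nlinarith
    have hpx : Kappa_p x = Kappa_z m + Z := by rw [hZ]; abel
    have hr : Kappa_red (Kappa_p x) = Z := by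
      rw [hpx]
      exact Kappa_red_small (hsmall _ hn) m
    have h2 : Kappa_p (κ t x) = Kappa_z m + f t Z := by
      rw [hκa, map_add, hpD, hr, hpx]
      abel
    have h4 : f t Z = Kappa_p (κ t x) - Kappa_z m := by rw [h2]; abel
    have f0 : f t Z 0 = (κ t x) 1 - (a : ℝ) := by
      rw [h4, PiLp.sub_apply, Kappa_p_zero, Kappa_z_apply, hm]
      simp
    have f1 : f t Z 1 = (κ t x) 2 - (b : ℝ) := by
      rw [h4, PiLp.sub_apply, Kappa_p_one, Kappa_z_apply, hm]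
      simp
    rw [← f0, ← f1]
    have h5 := hf2 t Z hn
    have h6 : ‖f t Z‖ ^ 2 = (f t Z 0) ^ 2 + (f t Z 1) ^ 2 := by
      rw [EuclideanSpace.norm_sq_eq, Fin.sum_univ_two, Real.norm_eq_abs, Real.norm_eq_abs, sq_abs,
        sq_abs]
    rw [← h6]
    have h7 := norm_nonneg (f t Z)
    nlinarith

theorem exists_kapOK {C : Matrix (Fin 3) (Fin 3) ℤ} (hC : C.det = 1) (h0 : C 0 0 = 1)
    (h1 : C 1 0 = 0) (h2 : C 2 0 = 0) :
    ∃ (κ : ℝ → Equiv.Perm E3) (δ : ℝ), KapOK C κ δ := by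
  obtain ⟨B, hBs, hB0, hBe, hB1⟩ := exists_path hC h0 h1 h2
  obtain ⟨δ, hδ, κ, hκs, hκs', hκlat, hκstart, hκstop, hκ, htr, hoff, htube⟩ :=
    Al_exists_kappa hBs hB0 hBe
  have hst1 : stp (1 / 4) (3 / 4) 1 = 1 := stp_one (by norm_num) (by norm_num)
  refine ⟨κ, min δ (1 / 8), ⟨lt_min hδ (by norm_num), min_le_right _ _, hκs, hκs', hκlat, htr,
    hoff, htube, hκstart, hκstop, ⟨fun t => B (stp (1 / 4) (3 / 4) t), ?_, ?_, ?_⟩, ?_⟩⟩
  · exact hBs.comp (((stp_smooth _ _).comp contDiff_fst).prodMk contDiff_snd)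
  · intro t c
    have hc : pt c 0 0 = c • e₀ := by
      ext j
      fin_cases j <;> simp [pt, e₀]
    rw [hc, map_smul, hBe]
  · intro t x hx1 hx2
    exact hκ t x (hx1.trans_le (min_le_left _ _)) (hx2.trans_le (min_le_left _ _))
  · intro x hx1 hx2
    rw [hκ 1 x (hx1.trans_le (min_le_left _ _)) (hx2.trans_le (min_le_left _ _)), hst1, hB1]

end Pool.Agent.CSP
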