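import Pool.Agent.CSP.AlKap
import Pool.Agent.CSP.AlNorm
import Pool.Agent.TSK.CsPDf
import Pool.Agent.TSK.IsotB
import Pool.Agent.TS.Swap
import Pool.Agent.CSG.Move

/-!
# CSP/AlPD: (A3) from CS data to P-data
-/

open scoped Manifold ContDiff Topology
open Set Filter

namespace Pool.Agent.CSP
open Pool.Agent.CSG

/-- `κ` as an isotopy -/
theorem KapOK.exists_isot {C : Matrix (Fin 3) (Fin 3) ℤ} {κ : ℝ → Equiv.Perm E3} {δ : ℝ}
    (hκ : KapOK C κ δ) : ∃ Ψ : Isot, Ψ.ψ = κ := by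
  obtain ⟨L, hLs, -, hL⟩ := hκ.lin
  refine ⟨⟨κ, hκ.smooth, hκ.smooth_symm, hκ.lat, hκ.start, hκ.stop, δ, hκ.pos, L, hLs, ?_⟩, rfl⟩
  intro t x hx
  refine hL t x ?_ ?_
  · exact lt_of_le_of_lt (by simpa using PiLp.norm_apply_le x 1) hx
  · exact lt_of_le_of_lt (by simpa using PiLp.norm_apply_le x 2) hx

theorem KapOK.mono {C : Matrix (Fin 3) (Fin 3) ℤ} {κ : ℝ → Equiv.Perm E3} {δ : ℝ}
    (hκ : KapOK C κ δ) (t : ℝ) : Mono 1 (κ t) where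
  smooth := hκ.smooth.comp (contDiff_id.prodMk contDiff_const)
  smooth_symm := hκ.smooth_symm.comp (contDiff_id.prodMk contDiff_const)
  lat := fun x m => by rw [hκ.lat, Matrix.one_mulVec]
  zero := by
    obtain ⟨L, hLs, -, hL⟩ := hκ.lin
    rw [hL t 0 (by simpa using hκ.pos) (by simpa using hκ.pos), map_zero]
  unit := by simp

/-- the monodromy `κ₀ = act C ∘ κ 1` -/
theorem KapOK.exists_kap0 {C : Matrix (Fin 3) (Fin 3) ℤ} (hC : C.det = 1)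
    {κ : ℝ → Equiv.Perm E3} {δ : ℝ} (hκ : KapOK C κ δ) :
    ∃ κ₀ : Equiv.Perm E3, (∀ x, κ₀ x = act C (κ 1 x)) ∧ Mono C κ₀ ∧ TS.AxMono κ₀ δ := by
  obtain ⟨aC, haC, hmC⟩ := exists_actE (A := C) (by rw [hC]; exact isUnit_one)
  have hm : Mono C (aC * κ 1) := by simpa using hmC.mul (hκ.mono 1)
  have h0 : ∀ x, (aC * κ 1) x = act C (κ 1 x) := fun x => haC (κ 1 x)
  refine ⟨aC * κ 1, h0, hm, TSK.axMono_of hm hκ.pos ?_⟩
  intro x hx1 hx2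
  rw [h0]
  exact hκ.axis x hx1 hx2

variable {X : Type*} [TopologicalSpace X] [ChartedSpace E4 X]

/-- (A3) -/
theorem pd_of_cs {C : Matrix (Fin 3) (Fin 3) ℤ} (hC : C.det = 1)
    {κ : ℝ → Equiv.Perm E3} {δ : ℝ} (hκ : KapOK C κ δ) {κ₀ : Equiv.Perm E3}
    (hκ₀ : ∀ x, κ₀ x = act C (κ 1 x)) (D : CSData (Matrix.transvection 1 0 1 * C) X) :
    ∃ (k : ℤ) (ε₀ : ℝ), 0 < ε₀ ∧ ε₀ ≤ 1 / 1000 ∧
      ∀ ε, 0 < ε → ε ≤ ε₀ → Nonempty (TS.PD κ₀ ε k (-1) X) := by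
  have hdetT : (Matrix.transvection (1 : Fin 3) 0 (1 : ℤ)).det = 1 :=
    Matrix.det_transvection_of_ne _ _ (by decide) _
  have hdet : (Matrix.transvection 1 0 1 * C).det = 1 := by
    rw [Matrix.det_mul, hC, hdetT]
    simp
  obtain ⟨aC, haC, hmC⟩ := exists_actE (A := C) (by rw [hC]; exact isUnit_one)
  obtain ⟨B, hB, hBm⟩ := exists_actE (A := Matrix.transvection 1 0 1 * C) (by
    rw [hdet]; exact isUnit_one)
  have hk0 : κ₀ = aC * κ 1 := by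
    ext1 x
    rw [hκ₀, ← haC]
    rfl
  have hκm : Mono C κ₀ := by
    rw [hk0]
    simpa using hmC.mul (hκ.mono 1)
  have haxis : ∀ x, |x 1| < δ → |x 2| < δ → κ₀ x = x := by
    intro x hx1 hx2
    rw [hκ₀]
    exact hκ.axis x hx1 hx2
  -- the isotopy
  obtain ⟨Ψκ, hΨκ⟩ := hκ.exists_isot
  obtain ⟨Ω, hΩ⟩ := TSK.isot_lam 1
  obtain ⟨Ω', hΩ'⟩ := TSK.isot_conj hmC haC Ω
  obtain ⟨Ψ, hΨ⟩ := TSK.isot_mul Ω' Ψκ
  have key : B * Ψ.ψ 1 = sh (fun y _ => lam y) * κ₀ := by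
    rw [hΨ, hΩ', hΩ, hΨκ, hk0]
    have e1 : B = sh (fun y _ => y) * aC := by
      ext1 x
      show B x = sh (fun y _ => y) (aC x)
      rw [hB, act_mul, haC, Isots_act_transvection]
      simp
    have e3 : sh (fun y _ => y) * sh (fun y _ => ((1 : ℤ) : ℝ) * (lam y - y)) =
        sh (fun y _ => lam y) := by
      rw [sh_mul]
      congr 1
      funext n y
      push_cast
      ring
    rw [e1, ← e3]
    group
  obtain ⟨S, -⟩ := surg_of_cs hB D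
  obtain ⟨S₁⟩ := surg_isot hBm S Ψ
  rw [key] at S₁
  have hmono : ∃ A, Mono A (sh (fun y _ => lam y) * κ₀) := by
    refine ⟨_, (sh_mono (f := fun y _ => lam y) (lam_smooth.comp contDiff_fst) 1 0 ?_ ?_).mul hκm⟩
    · intro n y a b
      simp [lam_add_int]
    · exact lam_zero (by norm_num) (by norm_num)
  obtain ⟨A₁, hA₁⟩ := hmono
  obtain ⟨S₂, ε, hε, hε', k, hP⟩ := surg_normal hA₁ (Move_eventually hκ.pos haxis) S₁
  have hδ := hκ.pos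
  have hδ' := hκ.le
  refine ⟨-k, min ε (min (1 / 1000) (δ / 6)), lt_min hε (lt_min (by norm_num) (by positivity)),
    (min_le_right _ _).trans (min_le_left _ _), ?_⟩
  intro η hη hη'
  have h1 : η ≤ ε := hη'.trans (min_le_left _ _)
  have h2 : η ≤ 1 / 1000 := hη'.trans ((min_le_right _ _).trans (min_le_left _ _))
  have h3 : η ≤ δ / 6 := hη'.trans ((min_le_right _ _).trans (min_le_right _ _))
  obtain ⟨S₃, hS₃⟩ := surg_shrink hA₁ S₂ (η / ε) (by positivity) ((div_le_one hε).2 h1)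
  have hce : η / ε * ε = η := div_mul_cancel₀ η hε.ne'
  have N : Nrm S₃ κ₀ δ η k :=
    { δpos := hδ
      εpos := hη
      εle := by linarith
      fac := rfl
      axis := haxis
      P_eq := by
        intro t z h1 h2
        rw [hS₃, hP t z h1 h2, smul_smul, hce]
      mono := ⟨C, hκm⟩ }
  exact TSK.pd_of_nrm (TS.swap X) N (ρ := δ) h2 (by linarith) hδ' le_rfl

/-- Summary: from CS data of any Cappell-Shaneson matrix to P-data in normal form. -/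
theorem pd_normal {A : Matrix (Fin 3) (Fin 3) ℤ} (hA : A.det = 1)
    (hA1 : (A - 1).det = 1 ∨ (A - 1).det = -1) (D : CSData A X) :
    ∃ (C : Matrix (Fin 3) (Fin 3) ℤ) (κ : ℝ → Equiv.Perm E3) (δ : ℝ) (κ₀ : Equiv.Perm E3)
      (k : ℤ) (ε₀ : ℝ), NF C ∧ KapOK C κ δ ∧ (∀ x, κ₀ x = act C (κ 1 x)) ∧ Mono C κ₀ ∧
      TS.AxMono κ₀ δ ∧ 0 < ε₀ ∧ ε₀ ≤ 1 / 1000 ∧
      ∀ ε, 0 < ε → ε ≤ ε₀ → Nonempty (TS.PD κ₀ ε k (-1) X) := by
  obtain ⟨Q, C, hQ, hAQ, hC⟩ := normal_form hA hA1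
  have hQi : Q * Q⁻¹ = 1 := Matrix.mul_nonsing_inv Q hQ
  have hQi' : Q⁻¹ * Q = 1 := Matrix.nonsing_inv_mul Q hQ
  have hQu : IsUnit (Q⁻¹).det := by
    have h1 : Q⁻¹.det * Q.det = 1 := by rw [← Matrix.det_mul, hQi', Matrix.det_one]
    exact IsUnit.of_mul_eq_one _ h1
  obtain ⟨D'⟩ := cs_conj (A := A) (B := Matrix.transvection 1 0 1 * C) hQu (by
    calc Q⁻¹ * A = Q⁻¹ * (A * Q) * Q⁻¹ := by
          rw [mul_assoc, mul_assoc, hQi, mul_one]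
      _ = Q⁻¹ * (Q * (Matrix.transvection 1 0 1 * C)) * Q⁻¹ := by rw [hAQ]
      _ = Matrix.transvection 1 0 1 * C * Q⁻¹ := by rw [← mul_assoc Q⁻¹, hQi', one_mul]) D
  obtain ⟨κ, δ, hκ⟩ := exists_kapOK hC.det hC.c00 hC.c10 hC.c20
  obtain ⟨κ₀, h0, hm, hax⟩ := hκ.exists_kap0 hC.det
  obtain ⟨k, ε₀, he, he', hP⟩ := pd_of_cs hC.det hκ h0 D'
  exact ⟨C, κ, δ, κ₀, k, ε₀, hC, hκ, h0, hm, hax, he, he', hP⟩

end Pool.Agent.CSP
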