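import Mathlib

/-!
# CSP/AlPrim: (A1)

`AlF A v = v × A v`, `AlN A w = det (w, Aᵀ w, Aᵀ Aᵀ w)`.
-/

namespace Pool.Agent.CSP
open Matrix

/-- `v × A v` -/
def AlF {R : Type*} [CommRing R] (A : Matrix (Fin 3) (Fin 3) R) (v : Fin 3 → R) : Fin 3 → R :=
  crossProduct v (A *ᵥ v)

/-- the determinant with rows `w, Aᵀ w, Aᵀ Aᵀ w` -/
def AlN {R : Type*} [CommRing R] (A : Matrix (Fin 3) (Fin 3) R) (w : Fin 3 → R) : R :=
  (Matrix.of ![w, Aᵀ *ᵥ w, Aᵀ *ᵥ (Aᵀ *ᵥ w)]).det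

section basic
variable {R S : Type*} [CommRing R] [CommRing S]

theorem AlF_map (f : R →+* S) (A : Matrix (Fin 3) (Fin 3) R) (v : Fin 3 → R) (i : Fin 3) :
    AlF (A.map f) (fun j => f (v j)) i = f (AlF A v i) := by
  fin_cases i <;>
    simp [AlF, cross_apply, Matrix.mulVec, dotProduct, Fin.sum_univ_three]

theorem AlN_map (f : R →+* S) (A : Matrix (Fin 3) (Fin 3) R) (w : Fin 3 → R) :
    AlN (A.map f) (fun j => f (w j)) = f (AlN A w) := by
  simp [AlN, Matrix.det_fin_three, Matrix.mulVec, dotProduct, Fin.sum_univ_three,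
    -Matrix.mulVec_mulVec]

theorem AlN_mulVec (A : Matrix (Fin 3) (Fin 3) R) (v w : Fin 3 → R) :
    (Matrix.of ![w, Aᵀ *ᵥ w, Aᵀ *ᵥ (Aᵀ *ᵥ w)]) *ᵥ v =
      ![w ⬝ᵥ v, w ⬝ᵥ (A *ᵥ v), w ⬝ᵥ (A *ᵥ (A *ᵥ v))] := by
  ext i
  fin_cases i
  · simp [Matrix.mulVec, dotProduct, Fin.sum_univ_three]
  · simp [Matrix.mulVec, dotProduct, Fin.sum_univ_three]
    ring
  · simp [Matrix.mulVec, dotProduct, Fin.sum_univ_three, -Matrix.mulVec_mulVec]
    ring

end basic

section field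
variable {K : Type*} [Field K]

theorem AlF_eig {A : Matrix (Fin 3) (Fin 3) K} {v : Fin 3 → K} (hv : v ≠ 0)
    (h : AlF A v = 0) : ∃ l : K, A *ᵥ v = l • v := by
  obtain ⟨i, hi⟩ := Function.ne_iff.1 hv
  have hi' : v i ≠ 0 := hi
  have h0 := congrFun h 0
  have h1 := congrFun h 1
  have h2 := congrFun h 2
  simp only [AlF, cross_apply, Pi.zero_apply, Matrix.cons_val_zero, Matrix.cons_val_one,
    Matrix.cons_val] at h0 h1 h2
  refine ⟨(A *ᵥ v) i / v i, ?_⟩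
  ext j
  rw [Pi.smul_apply, smul_eq_mul, div_mul_eq_mul_div, eq_div_iff hi']
  fin_cases i <;> fin_cases j <;> simp only [Fin.zero_eta, Fin.mk_one, Fin.reduceFinMk]
  · linear_combination h2
  · linear_combination -h1
  · linear_combination -h2
  · linear_combination h0
  · linear_combination h1
  · linear_combination -h0

theorem AlN_zero_of {A : Matrix (Fin 3) (Fin 3) K} {v w : Fin 3 → K} (hv : v ≠ 0)
    (h : AlF A v = 0) (hw : w ⬝ᵥ v = 0) : AlN A w = 0 := by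
  obtain ⟨l, hl⟩ := AlF_eig hv h
  unfold AlN
  rw [← Matrix.exists_mulVec_eq_zero_iff]
  refine ⟨v, hv, ?_⟩
  rw [AlN_mulVec, hl, Matrix.mulVec_smul, hl, dotProduct_smul, dotProduct_smul, dotProduct_smul, hw]
  ext i
  fin_cases i <;> simp

/-- three values of a quadratic polynomial -/
theorem Al_quad {a b c : K} (h2 : (2 : K) ≠ 0) (hc : c ≠ 0) :
    a ≠ 0 ∨ a + b + c ≠ 0 ∨ a + 2 * b + 4 * c ≠ 0 := by
  by_contra hcon
  push Not at hcon
  obtain ⟨e1, e2, e3⟩ := hcon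
  have : 2 * c = 0 := by linear_combination e3 - 2 * e2 + e1
  rcases mul_eq_zero.1 this with h | h
  · exact h2 h
  · exact hc h

end field

theorem AlF_add {R : Type*} [CommRing R] (A : Matrix (Fin 3) (Fin 3) R) (a b : Fin 3 → R) (t : R)
    (i : Fin 3) :
    AlF A (fun j => a j + t * b j) i =
      AlF A a i + t * (crossProduct a (A *ᵥ b) i + crossProduct b (A *ᵥ a) i) + t ^ 2 * AlF A b i := by
  fin_cases i <;>
    · simp [AlF, cross_apply, Matrix.mulVec, dotProduct, Fin.sum_univ_three]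
      ring

/-- Bezout for three integers -/
theorem Al_bez (u : Fin 3 → ℤ) : ∃ (g : ℤ) (t : Fin 3 → ℤ), u ⬝ᵥ t = g ∧ ∀ i, g ∣ u i := by
  refine ⟨(Int.gcd (Int.gcd (u 0) (u 1)) (u 2) : ℤ),
    ![Int.gcdA (u 0) (u 1) * Int.gcdA (Int.gcd (u 0) (u 1)) (u 2),
      Int.gcdB (u 0) (u 1) * Int.gcdA (Int.gcd (u 0) (u 1)) (u 2),
      Int.gcdB (Int.gcd (u 0) (u 1)) (u 2)], ?_, ?_⟩
  · have h1 := Int.gcd_eq_gcd_ab (u 0) (u 1)
    have h2 := Int.gcd_eq_gcd_ab (Int.gcd (u 0) (u 1)) (u 2)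
    simp only [dotProduct, Fin.sum_univ_three, Matrix.cons_val_zero, Matrix.cons_val_one,
      Matrix.cons_val]
    rw [h2]
    linear_combination -(Int.gcdA (Int.gcd (u 0) (u 1)) (u 2)) * h1
  · have h3 : (Int.gcd (Int.gcd (u 0) (u 1)) (u 2) : ℤ) ∣ (Int.gcd (u 0) (u 1) : ℤ) :=
      Int.gcd_dvd_left ..
    intro i
    fin_cases i
    · exact h3.trans (Int.gcd_dvd_left ..)
    · exact h3.trans (Int.gcd_dvd_right ..)
    · exact Int.gcd_dvd_right ..

theorem Al_bez1 {u : Fin 3 → ℤ} (h : ∀ p : ℕ, p.Prime → ¬ ∀ i, (p : ℤ) ∣ u i) :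
    ∃ t : Fin 3 → ℤ, u ⬝ᵥ t = 1 := by
  obtain ⟨g, t, hg, hd⟩ := Al_bez u
  by_cases h1 : g.natAbs = 1
  · rcases Int.natAbs_eq g with h2 | h2
    · rw [h1] at h2
      exact ⟨t, by rw [hg, h2]; rfl⟩
    · rw [h1] at h2
      refine ⟨-t, ?_⟩
      rw [dotProduct_neg, hg, h2]
      rfl
  · obtain ⟨p, hp, hpg⟩ := Nat.exists_prime_and_dvd h1
    exfalso
    refine h p hp fun i => ?_
    exact (Int.natCast_dvd.2 hpg).trans (hd i)

theorem Al_prim {w : Fin 3 → ℤ} (hw : w ≠ 0) :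
    ∃ (g : ℤ) (w' t : Fin 3 → ℤ), g ≠ 0 ∧ w = g • w' ∧ w' ⬝ᵥ t = 1 := by
  obtain ⟨g, t, hg, hd⟩ := Al_bez w
  have hg0 : g ≠ 0 := by
    rintro rfl
    apply hw
    ext i
    exact zero_dvd_iff.1 (hd i)
  choose w' hw' using hd
  refine ⟨g, w', t, hg0, ?_, ?_⟩
  · ext i
    rw [hw' i]
    rfl
  · have h1 : g * (w' ⬝ᵥ t) = g * 1 := by
      rw [mul_one]
      conv_rhs => rw [← hg]
      simp only [dotProduct, Fin.sum_univ_three, hw']
      ring
    exact mul_left_cancel₀ hg0 h1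

/-- an integer eigenvalue divides the determinant -/
theorem Al_dvd {M : Matrix (Fin 3) (Fin 3) ℤ} {w t : Fin 3 → ℤ} {l : ℤ} (h : M *ᵥ w = l • w)
    (ht : w ⬝ᵥ t = 1) : l ∣ M.det := by
  have h1 : M.adjugate *ᵥ (M *ᵥ w) = M.det • w := by
    rw [Matrix.mulVec_mulVec, Matrix.adjugate_mul, Matrix.smul_mulVec, Matrix.one_mulVec]
  rw [h, Matrix.mulVec_smul] at h1
  have h2 : (l • (M.adjugate *ᵥ w)) ⬝ᵥ t = (M.det • w) ⬝ᵥ t := by rw [h1]
  rw [smul_dotProduct, smul_dotProduct, ht, smul_eq_mul, smul_eq_mul, mul_one] at h2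
  exact ⟨_, h2.symm⟩

/-- no rational eigenvectors -/
theorem AlF_ne {M : Matrix (Fin 3) (Fin 3) ℤ} (hM : M.det = 1)
    (hM1 : (M - 1).det = 1 ∨ (M - 1).det = -1) {w : Fin 3 → ℤ} (hw : w ≠ 0) : AlF M w ≠ 0 := by
  intro h
  obtain ⟨g, w', t, hg, rfl, ht⟩ := Al_prim hw
  have h' : AlF M w' = 0 := by
    have e : ∀ i, AlF M (g • w') i = g ^ 2 * AlF M w' i := by
      intro i
      fin_cases i <;>
        · simp [AlF, cross_apply, Matrix.mulVec, dotProduct, Fin.sum_univ_three]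
          ring
    ext i
    have h1 := e i
    rw [h] at h1
    have h2 : g ^ 2 * AlF M w' i = 0 := h1.symm
    exact (mul_eq_zero.1 h2).resolve_left (pow_ne_zero 2 hg)
  set l : ℤ := (M *ᵥ w') ⬝ᵥ t with hl
  have hMw : M *ᵥ w' = l • w' := by
    have h0 := congrFun h' 0
    have h1 := congrFun h' 1
    have h2 := congrFun h' 2
    simp only [AlF, cross_apply, Pi.zero_apply, Matrix.cons_val_zero, Matrix.cons_val_one,
      Matrix.cons_val] at h0 h1 h2
    generalize M *ᵥ w' = u at *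
    simp only [dotProduct, Fin.sum_univ_three] at ht hl
    ext i
    rw [Pi.smul_apply, smul_eq_mul, hl]
    fin_cases i <;> simp only [Fin.zero_eta, Fin.mk_one, Fin.reduceFinMk]
    · linear_combination -(u 0) * ht - t 1 * h2 + t 2 * h1
    · linear_combination -(u 1) * ht + t 0 * h2 - t 2 * h0
    · linear_combination -(u 2) * ht - t 0 * h1 + t 1 * h0
  have d1 : l ∣ 1 := by rw [← hM]; exact Al_dvd hMw ht
  have d2 : l - 1 ∣ 1 := by
    have h3 : (M - 1) *ᵥ w' = (l - 1) • w' := by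
      rw [Matrix.sub_mulVec, Matrix.one_mulVec, hMw, sub_smul, one_smul]
    have h4 := Al_dvd h3 ht
    rcases hM1 with h5 | h5
    · rwa [h5] at h4
    · rw [h5] at h4
      simpa using h4
  rcases Int.isUnit_iff.1 (isUnit_of_dvd_one d1) with h6 | h6 <;>
    rcases Int.isUnit_iff.1 (isUnit_of_dvd_one d2) with h7 | h7 <;> omega

theorem AlN_ne {A : Matrix (Fin 3) (Fin 3) ℤ} (hA : A.det = 1)
    (hA1 : (A - 1).det = 1 ∨ (A - 1).det = -1) {w : Fin 3 → ℤ} (hw : w ≠ 0) : AlN A w ≠ 0 := by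
  intro h
  set M := Aᵀ with hM
  have hMdet : M.det = 1 := by rw [hM, Matrix.det_transpose, hA]
  have hAM : A = Mᵀ := by rw [hM, Matrix.transpose_transpose]
  have hMdet1 : (M - 1).det = 1 ∨ (M - 1).det = -1 := by
    have e : M - 1 = (A - 1)ᵀ := by rw [Matrix.transpose_sub, Matrix.transpose_one]
    rw [e, Matrix.det_transpose]
    exact hA1
  have hu : AlF M w ≠ 0 := AlF_ne hMdet hMdet1 hw
  -- `u' = M w × M M w`
  set x := M *ᵥ w with hx
  set y := M *ᵥ x with hy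
  have hdet : (AlF M w) ⬝ᵥ y = 0 := by
    rw [← h]
    simp only [AlN, ← hM, ← hx, ← hy, AlF, Matrix.det_fin_three, cross_apply, dotProduct,
      Fin.sum_univ_three]
    simp
    ring
  have hMu : A *ᵥ (crossProduct x y) = AlF M w := by
    have e : A *ᵥ (crossProduct (M *ᵥ w) (M *ᵥ x)) = M.det • crossProduct w x := by
      rw [hAM, Matrix.det_fin_three]
      ext i
      fin_cases i <;>
        · simp [cross_apply, Matrix.mulVec, dotProduct, Fin.sum_univ_three]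
          ring
    rw [← hx, ← hy, hMdet, one_smul] at e
    exact e
  have hne : crossProduct x y ≠ 0 := by
    intro h0
    rw [h0, Matrix.mulVec_zero] at hMu
    exact hu hMu.symm
  refine AlF_ne hA hA1 hne ?_
  unfold AlF
  rw [hMu]
  have hperp : (AlF M w) ⬝ᵥ x = 0 := by
    simp only [AlF, ← hx, cross_apply, dotProduct, Fin.sum_univ_three]
    simp
    ring
  generalize AlF M w = u at *
  simp only [dotProduct, Fin.sum_univ_three] at hperp hdet
  ext i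
  fin_cases i
  · simp [cross_apply]
    linear_combination y 0 * hperp - x 0 * hdet
  · simp [cross_apply]
    linear_combination y 1 * hperp - x 1 * hdet
  · simp [cross_apply]
    linear_combination y 2 * hperp - x 2 * hdet

/-- the arithmetic of scalar matrices modulo a prime -/
theorem Al_core {p : ℕ} (hp : p.Prime) {L s m d : ℤ}
    (h1 : L ^ 3 + p * L ^ 2 * s + p ^ 2 * L * m + p ^ 3 * d = 1)
    (h2 : (L - 1) ^ 3 + p * (L - 1) ^ 2 * s + p ^ 2 * (L - 1) * m + p ^ 3 * d = 1 ∨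
      (L - 1) ^ 3 + p * (L - 1) ^ 2 * s + p ^ 2 * (L - 1) * m + p ^ 3 * d = -1) : False := by
  have hpp : Prime (p : ℤ) := Nat.prime_iff_prime_int.1 hp
  have hp1 : ¬ (p : ℤ) ∣ 1 := fun h => hpp.not_dvd_one h
  have hL1 : ¬ (p : ℤ) ∣ L - 1 := by
    rintro ⟨e, he⟩
    rcases h2 with h2 | h2
    · apply hp1
      rw [← h2, he]
      exact ⟨p ^ 2 * e ^ 3 + p ^ 2 * e ^ 2 * s + p ^ 2 * e * m + p ^ 2 * d, by ring⟩
    · apply hp1
      rw [← Int.dvd_neg, ← h2, he]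
      exact ⟨p ^ 2 * e ^ 3 + p ^ 2 * e ^ 2 * s + p ^ 2 * e * m + p ^ 2 * d, by ring⟩
  have hL0 : ¬ (p : ℤ) ∣ L := by
    rintro ⟨e, he⟩
    apply hp1
    rw [← h1, he]
    exact ⟨p ^ 2 * e ^ 3 + p ^ 2 * e ^ 2 * s + p ^ 2 * e * m + p ^ 2 * d, by ring⟩
  have hp2 : ¬ (p : ℤ) ∣ 2 := by
    intro h
    have h3 : (p : ℤ) ∣ L * (L - 1) := h.trans (by
      rcases Int.even_or_odd L with h4 | h4
      · exact (even_iff_two_dvd.1 h4).mul_right _
      · exact (even_iff_two_dvd.1 (h4.sub_odd odd_one)).mul_left _)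
    rcases hpp.dvd_or_dvd h3 with h4 | h4
    · exact hL0 h4
    · exact hL1 h4
  have hq : (p : ℤ) ∣ L ^ 2 + L + 1 := by
    have h3 : (p : ℤ) ∣ (L - 1) * (L ^ 2 + L + 1) :=
      ⟨-(L ^ 2 * s + p * L * m + p ^ 2 * d), by linear_combination h1⟩
    exact (hpp.dvd_or_dvd h3).resolve_left hL1
  have key : (p : ℤ) ∣ 3 * L + 1 ∧ (L - 1) ^ 3 + p * (L - 1) ^ 2 * s + p ^ 2 * (L - 1) * m +
      p ^ 3 * d = 1 ∨ (p : ℤ) ∣ 3 * L + 2 ∧ (L - 1) ^ 3 + p * (L - 1) ^ 2 * s +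
      p ^ 2 * (L - 1) * m + p ^ 3 * d = -1 := by
    obtain ⟨e, he⟩ := hq
    rcases h2 with h2 | h2
    · left
      refine ⟨?_, h2⟩
      have h3 : (p : ℤ) ∣ 2 * (3 * L + 1) :=
        ⟨-(e * (L - 4) + (L - 1) ^ 2 * s + p * (L - 1) * m + p ^ 2 * d), by
          linear_combination h2 - (L - 4) * he⟩
      exact (hpp.dvd_or_dvd h3).resolve_left hp2
    · right
      refine ⟨?_, h2⟩
      have h3 : (p : ℤ) ∣ 2 * (3 * L + 2) :=
        ⟨-(e * (L - 4) + (L - 1) ^ 2 * s + p * (L - 1) * m + p ^ 2 * d), by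
          linear_combination h2 - (L - 4) * he⟩
      exact (hpp.dvd_or_dvd h3).resolve_left hp2
  have hp7 : p = 7 := by
    have h7 : (p : ℤ) ∣ 7 := by
      obtain ⟨e, he⟩ := hq
      rcases key with ⟨⟨f, hf⟩, -⟩ | ⟨⟨f, hf⟩, -⟩
      · exact ⟨9 * e - f * (3 * L + 1) - f, by linear_combination 9 * he - (3 * L + 2) * hf⟩
      · exact ⟨9 * e - f * (3 * L + 2) + f, by linear_combination 9 * he - (3 * L + 1) * hf⟩
    have h8 : p ∣ 7 := by exact_mod_cast h7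
    rcases (Nat.dvd_prime (by norm_num : Nat.Prime 7)).1 h8 with h9 | h9
    · exact absurd h9 hp.one_lt.ne'
    · exact h9
  subst hp7
  push_cast at *
  rcases key with ⟨⟨f, hf⟩, h3⟩ | ⟨⟨f, hf⟩, h3⟩
  · obtain ⟨l, hl⟩ : ∃ l, L = 2 + 7 * l := ⟨(L - 2) / 7, by omega⟩
    subst hl
    have e1 : 8 + 28 * (s + 3 * l) + 98 * (m + 2 * l * s + 3 * l ^ 2) +
        343 * (d + l * m + l ^ 2 * s + l ^ 3) = 1 := by linear_combination h1
    have e2 : 1 + 7 * (s + 3 * l) + 49 * (m + 2 * l * s + 3 * l ^ 2) +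
        343 * (d + l * m + l ^ 2 * s + l ^ 3) = 1 := by linear_combination h3
    generalize s + 3 * l = s' at *
    generalize m + 2 * l * s + 3 * l ^ 2 = m' at *
    generalize d + l * m + l ^ 2 * s + l ^ 3 = d' at *
    omega
  · obtain ⟨l, hl⟩ : ∃ l, L = 4 + 7 * l := ⟨(L - 4) / 7, by omega⟩
    subst hl
    have e1 : 64 + 112 * (s + 3 * l) + 196 * (m + 2 * l * s + 3 * l ^ 2) +
        343 * (d + l * m + l ^ 2 * s + l ^ 3) = 1 := by linear_combination h1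
    have e2 : 27 + 63 * (s + 3 * l) + 147 * (m + 2 * l * s + 3 * l ^ 2) +
        343 * (d + l * m + l ^ 2 * s + l ^ 3) = -1 := by linear_combination h3
    generalize s + 3 * l = s' at *
    generalize m + 2 * l * s + 3 * l ^ 2 = m' at *
    generalize d + l * m + l ^ 2 * s + l ^ 3 = d' at *
    omega

/-- not scalar modulo primes: some vector is not an eigenvector modulo `p` -/
theorem Al_exists_vec {A : Matrix (Fin 3) (Fin 3) ℤ} (hA : A.det = 1)
    (hA1 : (A - 1).det = 1 ∨ (A - 1).det = -1) {p : ℕ} (hp : p.Prime) :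
    ∃ v : Fin 3 → ℕ, ¬ ∀ i, (p : ℤ) ∣ AlF A (fun j => (v j : ℤ)) i := by
  by_contra hcon
  push Not at hcon
  have h0 := hcon ![1, 0, 0]
  have h1 := hcon ![0, 1, 0]
  have h2 := hcon ![0, 0, 1]
  have h3 := hcon ![1, 1, 0]
  have h4 := hcon ![1, 0, 1]
  have a1 := h0 1
  have a2 := h0 2
  have b0 := h1 0
  have b2 := h1 2
  have c0 := h2 0
  have c1 := h2 1
  have d2 := h3 2
  have f1 := h4 1
  simp [AlF, cross_apply, Matrix.mulVec, dotProduct, Fin.sum_univ_three] at a1 a2 b0 b2 c0 c1 d2 f1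
  obtain ⟨a1, ha1⟩ := a1
  obtain ⟨a2, ha2⟩ := a2
  obtain ⟨b0, hb0⟩ := b0
  obtain ⟨b2, hb2⟩ := b2
  obtain ⟨c0, hc0⟩ := c0
  obtain ⟨c1, hc1⟩ := c1
  obtain ⟨d2, hd2⟩ := d2
  obtain ⟨f1, hf1⟩ := f1
  have g1 : A 1 1 = A 0 0 + p * (d2 - a2 + b2) := by linear_combination hd2 - ha2 + hb2
  have g2 : A 2 2 = A 0 0 + p * (c1 - a1 - f1) := by linear_combination -hf1 + hc1 - ha1
  generalize d2 - a2 + b2 = b11 at *
  generalize c1 - a1 - f1 = b22 at *
  rw [Matrix.det_fin_three] at hA hA1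
  simp only [Matrix.sub_apply, Matrix.one_apply] at hA1
  simp only [Fin.isValue, ↓reduceIte, Fin.reduceEq, sub_zero, zero_ne_one, one_ne_zero] at hA1
  rw [g1, g2, ha1, ha2, hb0, hb2, hc0, hc1] at hA hA1
  refine Al_core hp (L := A 0 0) (s := b11 + b22)
    (m := b11 * b22 - b2 * a2 - c1 * a1 - c0 * b0)
    (d := -b2 * (a2 * b22 - c0 * a1) + c1 * (a2 * b0 - b11 * a1)) ?_ ?_
  · linear_combination hA
  · rcases hA1 with h | h
    · left; linear_combination h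
    · right; linear_combination h

theorem Al_crt {S : Finset ℕ} (hS : ∀ p ∈ S, p.Prime) (r : ℕ → ℕ) :
    ∃ k : ℕ, 0 < k ∧ ∀ p ∈ S, (p : ℤ) ∣ (k : ℤ) - (r p : ℤ) := by
  obtain ⟨k0, hk0⟩ := Nat.chineseRemainderOfFinset r id S (fun p hp => (hS p hp).ne_zero)
    (fun p hp q hq hpq => (Nat.coprime_primes (hS p hp) (hS q hq)).2 hpq)
  have hprod : 0 < ∏ p ∈ S, p := Finset.prod_pos fun p hp => (hS p hp).pos
  refine ⟨k0 + ∏ p ∈ S, p, by omega, fun p hp => ?_⟩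
  have h1 : (p : ℤ) ∣ (k0 : ℤ) - (r p : ℤ) := (Nat.modEq_iff_dvd.1 (hk0 p hp).symm)
  have h2 : (p : ℤ) ∣ ((∏ p ∈ S, p : ℕ) : ℤ) := by
    exact_mod_cast Finset.dvd_prod_of_mem (fun p => p) hp
  have e : ((k0 + ∏ p ∈ S, p : ℕ) : ℤ) - (r p : ℤ) =
      ((k0 : ℤ) - (r p : ℤ)) + ((∏ p ∈ S, p : ℕ) : ℤ) := by
    push_cast
    ring
  rw [e]
  exact dvd_add h1 h2

theorem Al_cast (A : Matrix (Fin 3) (Fin 3) ℤ) (p : ℕ) (v : Fin 3 → ℤ) (i : Fin 3) :
    ((AlF A v i : ℤ) : ZMod p) =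
      AlF (A.map (Int.castRingHom (ZMod p))) (fun j => (Int.castRingHom (ZMod p)) (v j)) i := by
  rw [AlF_map]
  rfl

theorem Al_congr {A : Matrix (Fin 3) (Fin 3) ℤ} {p : ℕ} {v v' : Fin 3 → ℤ}
    (h : ∀ j, (p : ℤ) ∣ v j - v' j) (i : Fin 3) :
    (p : ℤ) ∣ AlF A v i ↔ (p : ℤ) ∣ AlF A v' i := by
  rw [← ZMod.intCast_zmod_eq_zero_iff_dvd, ← ZMod.intCast_zmod_eq_zero_iff_dvd, Al_cast, Al_cast]
  have e : (fun j => (Int.castRingHom (ZMod p)) (v j)) =
      fun j => (Int.castRingHom (ZMod p)) (v' j) := by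
    funext j
    have h1 := (ZMod.intCast_zmod_eq_zero_iff_dvd (v j - v' j) p).2 (h j)
    rw [Int.cast_sub, sub_eq_zero] at h1
    exact h1
  rw [e]

theorem Al_step {A : Matrix (Fin 3) (Fin 3) ℤ} {a b : Fin 3 → ℤ} {p : ℕ} (hp : p.Prime)
    (h : (¬ ∀ i, (p : ℤ) ∣ AlF A a i) ∨ (p ≠ 2 ∧ ∃ i, ¬ (p : ℤ) ∣ AlF A b i)) :
    ∃ t : ℕ, ¬ ∀ i, (p : ℤ) ∣ AlF A (fun j => a j + t * b j) i := by
  rcases h with h | ⟨h2, i, hi⟩
  · refine ⟨0, ?_⟩
    simpa using h
  · by_contra hcon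
    push Not at hcon
    have h0 := hcon 0 i
    have h1 := hcon 1 i
    have h3 := hcon 2 i
    rw [AlF_add] at h0 h1 h3
    push_cast at h0 h1 h3
    have hpp : Prime (p : ℤ) := Nat.prime_iff_prime_int.1 hp
    have h4 : (p : ℤ) ∣ 2 * AlF A b i := by
      obtain ⟨x0, hx0⟩ := h0
      obtain ⟨x1, hx1⟩ := h1
      obtain ⟨x3, hx3⟩ := h3
      exact ⟨x3 - 2 * x1 + x0, by linear_combination hx3 - 2 * hx1 + hx0⟩
    rcases hpp.dvd_or_dvd h4 with h5 | h5
    · have h6 : p ∣ 2 := by exact_mod_cast h5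
      rcases (Nat.dvd_prime Nat.prime_two).1 h6 with h7 | h7
      · exact hp.one_lt.ne' h7
      · exact h2 h7
    · exact hi h5

theorem Al_dvdN {A : Matrix (Fin 3) (Fin 3) ℤ} {a b : Fin 3 → ℤ} {k : ℤ} {p : ℕ} (hp : p.Prime)
    (h : ∀ i, (p : ℤ) ∣ AlF A (fun j => a j + k * b j) i) :
    (p : ℤ) ∣ AlN A (crossProduct a b) := by
  have : Fact p.Prime := ⟨hp⟩
  rw [← ZMod.intCast_zmod_eq_zero_iff_dvd]
  set f : ℤ →+* ZMod p := Int.castRingHom (ZMod p) with hf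
  have e : ((AlN A (crossProduct a b) : ℤ) : ZMod p) =
      AlN (A.map f) (fun j => f (crossProduct a b j)) := by
    rw [AlN_map]
    rfl
  rw [e]
  set v : Fin 3 → ZMod p := fun j => f (a j + k * b j) with hv
  have hF : AlF (A.map f) v = 0 := by
    ext i
    rw [hv, AlF_map f A (fun j => a j + k * b j) i]
    exact (ZMod.intCast_zmod_eq_zero_iff_dvd _ p).2 (h i)
  by_cases hv0 : v = 0
  · have hw : (fun j => f (crossProduct a b j)) = 0 := by
      have hv' : ∀ j, ((a j : ℤ) : ZMod p) = -((k : ZMod p) * ((b j : ℤ) : ZMod p)) := by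
        intro j
        have h1 : f (a j + k * b j) = 0 := congrFun hv0 j
        rw [map_add, map_mul] at h1
        simp only [hf, eq_intCast] at h1
        linear_combination h1
      ext i
      fin_cases i
      · simp [cross_apply, hv']
        ring
      · simp [cross_apply, hv']
        ring
      · simp [cross_apply, hv']
        ring
    rw [hw]
    simp [AlN, Matrix.det_fin_three]
  · refine AlN_zero_of hv0 hF ?_
    simp [hv, dotProduct, Fin.sum_univ_three, cross_apply]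
    ring

/-- (A1) some `v` such that `(v, A v)` extends to a basis of `Z^3` -/
theorem prim_pair {A : Matrix (Fin 3) (Fin 3) ℤ} (hA : A.det = 1)
    (hA1 : (A - 1).det = 1 ∨ (A - 1).det = -1) :
    ∃ v w : Fin 3 → ℤ, dotProduct (crossProduct v (A.mulVec v)) w = 1 := by
  obtain ⟨b, hbdef⟩ : ∃ b : Fin 3 → ℤ, b = ![1, 0, 0] := ⟨_, rfl⟩
  have hb : b ≠ 0 := by
    intro h
    have := congrFun h 0
    rw [hbdef] at this
    simp at this
  obtain ⟨i0, hi0⟩ := Function.ne_iff.1 (AlF_ne hA hA1 hb)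
  have hi0' : AlF A b i0 ≠ 0 := hi0
  set S1 : Finset ℕ := (2 * AlF A b i0).natAbs.primeFactors with hS1
  choose! r hr using fun p (hp : Nat.Prime p) => Al_exists_vec hA hA1 hp
  have hS1p : ∀ p ∈ S1, p.Prime := fun p hp => Nat.prime_of_mem_primeFactors hp
  obtain ⟨k0, -, hk0⟩ := Al_crt hS1p (fun p => r p 0)
  obtain ⟨k1, hk1pos, hk1⟩ := Al_crt hS1p (fun p => r p 1)
  obtain ⟨k2, -, hk2⟩ := Al_crt hS1p (fun p => r p 2)
  obtain ⟨a, hadef⟩ : ∃ a : Fin 3 → ℤ, a = ![(k0 : ℤ), k1, k2] := ⟨_, rfl⟩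
  have ha : ∀ p ∈ S1, ¬ ∀ i, (p : ℤ) ∣ AlF A a i := by
    intro p hp hcon
    refine hr p (hS1p p hp) fun i => ?_
    rw [← Al_congr (v := a)]
    · exact hcon i
    · intro j
      rw [hadef]
      fin_cases j
      · exact hk0 p hp
      · exact hk1 p hp
      · exact hk2 p hp
  have hw : crossProduct a b ≠ 0 := by
    intro h
    have := congrFun h 2
    rw [hadef, hbdef] at this
    simp [cross_apply] at this
    omega
  have hR := AlN_ne hA hA1 hw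
  have hstep : ∀ p : ℕ, p.Prime → ∃ t : ℕ, ¬ ∀ i, (p : ℤ) ∣ AlF A (fun j => a j + t * b j) i := by
    intro p hp
    apply Al_step hp
    by_cases hpS : p ∈ S1
    · exact Or.inl (ha p hpS)
    · right
      have hpS' : ¬ (p : ℤ) ∣ 2 * AlF A b i0 := by
        intro h
        apply hpS
        rw [hS1, Nat.mem_primeFactors]
        refine ⟨hp, Int.natCast_dvd.1 h, ?_⟩
        rw [Int.natAbs_ne_zero]
        exact mul_ne_zero two_ne_zero hi0'
      refine ⟨?_, i0, fun h => hpS' (h.mul_left 2)⟩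
      rintro rfl
      exact hpS' ⟨AlF A b i0, by push_cast; ring⟩
  choose! t ht using hstep
  set S2 : Finset ℕ := (AlN A (crossProduct a b)).natAbs.primeFactors with hS2
  obtain ⟨k, -, hk⟩ := Al_crt (S := S2) (fun p hp => Nat.prime_of_mem_primeFactors hp) t
  obtain ⟨u, hu⟩ := Al_bez1 (u := AlF A (fun j => a j + k * b j)) (by
    intro p hp hdvd
    have h1 : (p : ℤ) ∣ AlN A (crossProduct a b) := Al_dvdN hp hdvd
    have hpS : p ∈ S2 := by
      rw [hS2, Nat.mem_primeFactors]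
      exact ⟨hp, Int.natCast_dvd.1 h1, Int.natAbs_ne_zero.2 hR⟩
    apply ht p hp
    intro i
    rw [← Al_congr (v := fun j => a j + k * b j)]
    · exact hdvd i
    · intro j
      obtain ⟨e, he⟩ := hk p hpS
      exact ⟨e * b j, by linear_combination b j * he⟩)
  exact ⟨_, u, hu⟩

end Pool.Agent.CSP
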