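import Pool.Agent.CSP.VrM
import Pool.Agent.CSG.LDa
import Pool.Agent.CSG.LDb
import Pool.Agent.CSG.FunBasic

/-!
# CSP/GpM: the change of framing `Gp`   (difficulty 3)

Throughout `0 < ε ≤ 1/1000`.
Write `q = (x, t)`, `w = cG q`, `a = round (x 0 - 1/2)`, `b = round (x 2 - 1/2)`; so
`x 0 = a + 1/2 + w 0`, `x 2 = b + 1/2 + w 1`, `t = 1/2 + w 2`, `|w 0|, |w 1| ≤ 1/2`.
* `cG_eq`: if `|w 0| < 1/2`, `|w 1| < 1/2` then `cG (pt (a + 1/2 + w 0) u (b + 1/2 + w 1), 1/2 + w 2) = w`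
  (`round_add_intCast`, `round_eq_zero_iff`), since `round (a + w 0) = a`.  `|w i| ≤ ‖w‖` (`PiLp.norm_apply_le`).
* `Gp_near`: `trG q (w' - w)` is the point with `w'` instead of `w`; `cG` of it is `w'` (`‖w'‖ = ‖w‖ < ε`).
  Gp_far: definition.
* `Gp'_Gp`: for `‖w‖ < ε`, `cG (Gp q) = w' = Vr (La) u (Vr' 1 u w)`, `‖w'‖ = ‖w‖`, the coordinate `u` is unchanged, so
  `Gp'` gives `Vr 1 u (Vr' (La) u w') = w`.  For `‖w‖ ≥ ε` clear.  `Gp_Gp'` is the same.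
* `Gp_per`: `cG (x + vec m, t) = cG (x, t)` (`round_add_intCast`), `Vr_per`.
* `Gp_ld` (at `q` with `cG q ≠ 0`): three cases.  (i) `‖cG q‖ > 3/4 ε`, or `ε ≤ ‖cG q‖`: near `q` `Gp` is the identity:
  indeed `LaG (s) = 1` for `s ≥ 3/4` and `Vr 1 u (Vr' 1 u w) = w`; to avoid the discontinuity of `round` use: if
  `Gp q' ≠ q'` then `‖cG q'‖ < 3/4 ε`, and the set of `q'` with `‖cG q'‖ < ε'` is open with `cG` continuous there, as
  it is the set `∃ a b, ‖(x 0 - a - 1/2, x 2 - b - 1/2, t - 1/2)‖ < ε'`; similarly its closure (`≤`) is closed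
  (locally finite union; or: the function `cG` composed with `‖·‖` is continuous: `|frc|` is continuous:
  `‖cG q‖² = d(x 0 - 1/2, ℤ)² + d(x 2 - 1/2, ℤ)² + (t - 1/2)²` and `|x - round x|` is continuous, it is the
  1-periodic distance; in Mathlib `abs_sub_round_eq_min`, or `Metric.continuous_infDist_pt`).
  (ii) `0 < ‖cG q‖ < ε`: fix `a, b`; near `q` the map is, in the coordinates `w` (translation by the constants
  `a + 1/2` ..), `(w, u) ↦ (Vr (LaG (‖w‖/ε)) u (Vr' 1 u w), u)` with the inverse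
  `(w, u) ↦ (Vr 1 u (Vr' (LaG (‖w‖/ε)) u w), u)`; both are smooth for `w ≠ 0` (`LaG (‖w‖ / ε)` is a smooth function of
  `‖w‖²`, even everywhere smooth).  They are globally defined inverse bijections of `E3 × ℝ` and smooth
  EVERYWHERE (`LaG (‖w‖/ε) = stp (1/16) (9/16) (‖w‖²/ε²)`), so `ld_of_perm` applies.  (So the condition
  `cG q ≠ 0` is not even needed: `Gp` is a diffeomorphism of `E3 × ℝ`.)
* `cG_Gp`: from `Gp_near`, `Vr_norm`.  `OffAx`: if `‖w‖ < ε` then neither `x 2` nor `(Gp q).1 2` is an integer.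
  `OnC_iff`: `OnC x t ↔ cG (x, t) = 0` (`x 0 - 1/2` is an integer iff `x 0 - 1/2 - round (x 0 - 1/2) = 0`).
-/

open scoped Manifold ContDiff Topology
open Complex (I)

namespace Pool.Agent.CSP
open Pool.Agent.CSG
open Pool.Agent.TS (OffAx OnC)
open Pool.Agent.RSG (ex)

/-- the point with the given position -/
noncomputable def GpM_P (a b : ℤ) (u : ℝ) (w : E3) : E3 × ℝ :=
  (pt (a + 1 / 2 + w 0) u (b + 1 / 2 + w 1), 1 / 2 + w 2)

theorem GpM_abs (w : E3) (i : Fin 3) : |w i| ≤ ‖w‖ := by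
  have := PiLp.norm_apply_le w i
  rwa [Real.norm_eq_abs] at this

theorem GpM_round {a : ℤ} {y : ℝ} (h : |y| < 1 / 2) : round ((a : ℝ) + y) = a := by
  have h1 : round y = 0 := by
    rw [round_eq_zero_iff]
    rw [abs_lt] at h
    exact ⟨by linarith [h.1], by linarith [h.2]⟩
  have h2 : (a : ℝ) + y = y + a := by ring
  rw [h2, round_add_intCast, h1, zero_add]

theorem cG_eq {a b : ℤ} {u : ℝ} {w : E3} (h : ‖w‖ < 1 / 2) :
    cG (pt (a + 1 / 2 + w 0) u (b + 1 / 2 + w 1), 1 / 2 + w 2) = w := by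
  have h0 : |w 0| < 1 / 2 := (GpM_abs w 0).trans_lt h
  have h1 : |w 1| < 1 / 2 := (GpM_abs w 1).trans_lt h
  unfold cG
  simp only [pt_zero', pt_two']
  have e0 : (a : ℝ) + 1 / 2 + w 0 - 1 / 2 = a + w 0 := by ring
  have e1 : (b : ℝ) + 1 / 2 + w 1 - 1 / 2 = b + w 1 := by ring
  rw [e0, e1, GpM_round h0, GpM_round h1]
  have e2 : (a : ℝ) + w 0 - a = w 0 := by ring
  have e3 : (b : ℝ) + w 1 - b = w 1 := by ring
  have e4 : (1 : ℝ) / 2 + w 2 - 1 / 2 = w 2 := by ring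
  rw [e2, e3, e4, pt_eta]

theorem cG_add (x : E3) (t : ℝ) (m : Fin 3 → ℤ) : cG (x + vec m, t) = cG (x, t) := by
  unfold cG
  have h0 : (x + vec m) 0 = x 0 + m 0 := by simp [vec]
  have h2 : (x + vec m) 2 = x 2 + m 2 := by simp [vec]
  simp only [h0, h2]
  have e0 : x 0 + (m 0 : ℝ) - 1 / 2 = x 0 - 1 / 2 + m 0 := by ring
  have e2 : x 2 + (m 2 : ℝ) - 1 / 2 = x 2 - 1 / 2 + m 2 := by ring
  rw [e0, e2, round_add_intCast, round_add_intCast]
  push_cast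
  congr 1 <;> ring

theorem OnC_iff (x : E3) (t : ℝ) : OnC x t ↔ cG (x, t) = 0 := by
  unfold OnC cG
  simp only
  constructor
  · rintro ⟨rfl, ⟨a, ha⟩, ⟨b, hb⟩⟩
    rw [ha, hb]
    have e0 : (a : ℝ) + 1 / 2 - 1 / 2 = a := by ring
    have e1 : (b : ℝ) + 1 / 2 - 1 / 2 = b := by ring
    rw [e0, e1, round_intCast, round_intCast, sub_self, sub_self, sub_self]
    ext i
    fin_cases i <;> simp [pt]
  · intro h
    have h0 := congrArg (fun v : E3 => v 0) h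
    have h1 := congrArg (fun v : E3 => v 1) h
    have h2 := congrArg (fun v : E3 => v 2) h
    simp only [pt_zero', pt_one', pt_two', PiLp.zero_apply] at h0 h1 h2
    exact ⟨by linarith, ⟨round (x 0 - 1 / 2), by linarith⟩, ⟨round (x 2 - 1 / 2), by linarith⟩⟩

theorem GpM_rep (q : E3 × ℝ) :
    q = GpM_P (round (q.1 0 - 1 / 2)) (round (q.1 2 - 1 / 2)) (q.1 1) (cG q) := by
  unfold GpM_P cG
  simp only [pt_zero', pt_one', pt_two']
  have e0 : ((round (q.1 0 - 1 / 2) : ℤ) : ℝ) + 1 / 2 + (q.1 0 - 1 / 2 - (round (q.1 0 - 1 / 2) : ℤ)) =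
      q.1 0 := by ring
  have e1 : ((round (q.1 2 - 1 / 2) : ℤ) : ℝ) + 1 / 2 + (q.1 2 - 1 / 2 - (round (q.1 2 - 1 / 2) : ℤ)) =
      q.1 2 := by ring
  have e2 : 1 / 2 + (q.2 - 1 / 2) = q.2 := by ring
  rw [e0, e1, e2, pt_eta]

theorem GpM_rep' (q : E3 × ℝ) : ∃ a b : ℤ, q = GpM_P a b (q.1 1) (cG q) := ⟨_, _, GpM_rep q⟩

theorem GpM_cG {a b : ℤ} {u : ℝ} {w : E3} (h : ‖w‖ < 1 / 2) : cG (GpM_P a b u w) = w := cG_eq h

theorem GpM_tr (a b : ℤ) (u : ℝ) (w w' : E3) : trG (GpM_P a b u w) (w' - w) = GpM_P a b u w' := by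
  unfold trG GpM_P
  simp only [pt_zero', pt_one', pt_two', PiLp.sub_apply]
  have e0 : (a : ℝ) + 1 / 2 + w 0 + (w' 0 - w 0) = a + 1 / 2 + w' 0 := by ring
  have e1 : (b : ℝ) + 1 / 2 + w 1 + (w' 1 - w 1) = b + 1 / 2 + w' 1 := by ring
  have e2 : 1 / 2 + w 2 + (w' 2 - w 2) = 1 / 2 + w' 2 := by ring
  rw [e0, e1, e2]

variable {ε : ℝ}

theorem GpM_near (hε' : ε ≤ 1 / 1000) {a b : ℤ} {u : ℝ} {w : E3} (h : ‖w‖ < ε) :
    Gp ε (GpM_P a b u w) = GpM_P a b u (Vr (LaG (‖w‖ / ε)) u (Vr' 1 u w)) := by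
  have h1 : cG (GpM_P a b u w) = w := GpM_cG (by linarith)
  have h2 : (GpM_P a b u w).1 1 = u := by unfold GpM_P; simp
  unfold Gp
  rw [h1, if_pos h, h2, GpM_tr]

theorem GpM_near' (hε' : ε ≤ 1 / 1000) {a b : ℤ} {u : ℝ} {w : E3} (h : ‖w‖ < ε) :
    Gp' ε (GpM_P a b u w) = GpM_P a b u (Vr 1 u (Vr' (LaG (‖w‖ / ε)) u w)) := by
  have h1 : cG (GpM_P a b u w) = w := GpM_cG (by linarith)
  have h2 : (GpM_P a b u w).1 1 = u := by unfold GpM_P; simp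
  unfold Gp'
  rw [h1, if_pos h, h2, GpM_tr]

theorem Gp_near (hε : 0 < ε) (hε' : ε ≤ 1 / 1000) {a b : ℤ} {u : ℝ} {w : E3} (h : ‖w‖ < ε) :
    Gp ε (pt (a + 1 / 2 + w 0) u (b + 1 / 2 + w 1), 1 / 2 + w 2) =
      (pt (a + 1 / 2 + (Vr (LaG (‖w‖ / ε)) u (Vr' 1 u w)) 0) u
        (b + 1 / 2 + (Vr (LaG (‖w‖ / ε)) u (Vr' 1 u w)) 1),
        1 / 2 + (Vr (LaG (‖w‖ / ε)) u (Vr' 1 u w)) 2) :=
  GpM_near hε' h

theorem GpM_far {q : E3 × ℝ} (h : ¬ ‖cG q‖ < ε) : Gp ε q = q := by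
  unfold Gp
  rw [if_neg h]

theorem GpM_far' {q : E3 × ℝ} (h : ¬ ‖cG q‖ < ε) : Gp' ε q = q := by
  unfold Gp'
  rw [if_neg h]

theorem Gp_far {q : E3 × ℝ} (h : 3 / 4 * ε ≤ ‖cG q‖) (hε : 0 < ε) : Gp ε q = q := by
  by_cases h1 : ‖cG q‖ < ε
  · unfold Gp
    rw [if_pos h1]
    have h2 : LaG (‖cG q‖ / ε) = 1 := by
      unfold LaG
      apply stp_one (by norm_num)
      have h3 : 3 / 4 ≤ ‖cG q‖ / ε := by rwa [le_div_iff₀ hε]
      nlinarith
    rw [h2, Vr_inv, sub_self]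
    unfold trG
    simp only [PiLp.zero_apply, add_zero, pt_eta]
  · exact GpM_far h1

theorem GpM_norm (l u : ℝ) (w : E3) : ‖Vr l u (Vr' 1 u w)‖ = ‖w‖ := by
  rw [Vr_norm, Vr'_norm]

theorem GpM_norm' (l u : ℝ) (w : E3) : ‖Vr 1 u (Vr' l u w)‖ = ‖w‖ := by
  rw [Vr_norm, Vr'_norm]

theorem Gp'_Gp (hε : 0 < ε) (hε' : ε ≤ 1 / 1000) (q : E3 × ℝ) : Gp' ε (Gp ε q) = q := by
  by_cases h : ‖cG q‖ < ε
  · obtain ⟨a, b, hq⟩ := GpM_rep' q
    generalize cG q = w at h hq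
    generalize q.1 1 = u at hq
    subst hq
    rw [GpM_near hε' h, GpM_near' hε' (by rw [GpM_norm]; exact h), GpM_norm, Vr_inv', Vr_inv]
  · rw [GpM_far h, GpM_far' h]

theorem Gp_Gp' (hε : 0 < ε) (hε' : ε ≤ 1 / 1000) (q : E3 × ℝ) : Gp ε (Gp' ε q) = q := by
  by_cases h : ‖cG q‖ < ε
  · obtain ⟨a, b, hq⟩ := GpM_rep' q
    generalize cG q = w at h hq
    generalize q.1 1 = u at hq
    subst hq
    rw [GpM_near' hε' h, GpM_near hε' (by rw [GpM_norm']; exact h), GpM_norm', Vr_inv', Vr_inv]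
  · rw [GpM_far' h, GpM_far h]

theorem Gp_per (hε : 0 < ε) (hε' : ε ≤ 1 / 1000) (x : E3) (t : ℝ) (m : Fin 3 → ℤ) :
    Gp ε (x + vec m, t) = ((Gp ε (x, t)).1 + vec m, (Gp ε (x, t)).2) := by
  unfold Gp
  rw [cG_add]
  by_cases h : ‖cG (x, t)‖ < ε
  · rw [if_pos h, if_pos h]
    have h1 : (x + vec m) 1 = x 1 + m 1 := by simp [vec]
    simp only [h1]
    rw [Vr_per, Vr'_per]
    generalize Vr (LaG (‖cG (x, t)‖ / ε)) (x 1) (Vr' 1 (x 1) (cG (x, t))) - cG (x, t) = w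
    unfold trG
    have h0 : (x + vec m) 0 = x 0 + m 0 := by simp [vec]
    have h2 : (x + vec m) 2 = x 2 + m 2 := by simp [vec]
    simp only [h0, h1, h2]
    rw [pt_add_vec]
    have e0 : x 0 + (m 0 : ℝ) + w 0 = x 0 + w 0 + m 0 := by ring
    have e2 : x 2 + (m 2 : ℝ) + w 1 = x 2 + w 1 + m 2 := by ring
    rw [e0, e2]
  · rw [if_neg h, if_neg h]

theorem GpM_pt {F : Type*} [NormedAddCommGroup F] [NormedSpace ℝ F] {f g h : F → ℝ}
    (hf : ContDiff ℝ ∞ f) (hg : ContDiff ℝ ∞ g) (hh : ContDiff ℝ ∞ h) :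
    ContDiff ℝ ∞ fun x => pt (f x) (g x) (h x) := by
  rw [contDiff_euclidean]
  intro i
  fin_cases i
  · simpa using hf
  · simpa using hg
  · simpa using hh

theorem GpM_co {F : Type*} [NormedAddCommGroup F] [NormedSpace ℝ F] {f : F → E3}
    (hf : ContDiff ℝ ∞ f) (i : Fin 3) : ContDiff ℝ ∞ fun x => f x i :=
  (contDiff_euclidean.1 hf) i

/-- the position with respect to a fixed point -/
noncomputable def GpM_w (a b : ℤ) (q : E3 × ℝ) : E3 :=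
  pt (q.1 0 - 1 / 2 - a) (q.1 2 - 1 / 2 - b) (q.2 - 1 / 2)

theorem GpM_w_smooth (a b : ℤ) : ContDiff ℝ ∞ (GpM_w a b) := by
  unfold GpM_w
  refine GpM_pt ?_ ?_ ?_
  · exact ((GpM_co contDiff_fst 0).sub contDiff_const).sub contDiff_const
  · exact ((GpM_co contDiff_fst 2).sub contDiff_const).sub contDiff_const
  · exact contDiff_snd.sub contDiff_const

theorem GpM_P_smooth {F : Type*} [NormedAddCommGroup F] [NormedSpace ℝ F] (a b : ℤ) {u : F → ℝ}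
    {w : F → E3} (hu : ContDiff ℝ ∞ u) (hw : ContDiff ℝ ∞ w) :
    ContDiff ℝ ∞ fun x => GpM_P a b (u x) (w x) := by
  unfold GpM_P
  refine (GpM_pt ?_ hu ?_).prodMk ?_
  · exact contDiff_const.add (GpM_co hw 0)
  · exact contDiff_const.add (GpM_co hw 1)
  · exact contDiff_const.add (GpM_co hw 2)

theorem GpM_w_P (a b : ℤ) (u : ℝ) (w : E3) : GpM_w a b (GpM_P a b u w) = w := by
  unfold GpM_w GpM_P
  simp only [pt_zero', pt_two']
  have e0 : (a : ℝ) + 1 / 2 + w 0 - 1 / 2 - a = w 0 := by ring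
  have e1 : (b : ℝ) + 1 / 2 + w 1 - 1 / 2 - b = w 1 := by ring
  have e2 : 1 / 2 + w 2 - 1 / 2 = w 2 := by ring
  rw [e0, e1, e2, pt_eta]

theorem GpM_P_w (a b : ℤ) (q : E3 × ℝ) : GpM_P a b (q.1 1) (GpM_w a b q) = q := by
  unfold GpM_w GpM_P
  simp only [pt_zero', pt_one', pt_two']
  have e0 : (a : ℝ) + 1 / 2 + (q.1 0 - 1 / 2 - a) = q.1 0 := by ring
  have e1 : (b : ℝ) + 1 / 2 + (q.1 2 - 1 / 2 - b) = q.1 2 := by ring
  have e2 : 1 / 2 + (q.2 - 1 / 2) = q.2 := by ring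
  rw [e0, e1, e2, pt_eta]

theorem GpM_P_one (a b : ℤ) (u : ℝ) (w : E3) : (GpM_P a b u w).1 1 = u := by
  unfold GpM_P; simp

/-- the smooth permutation which is equal to `Gp` near the point -/
noncomputable def GpM_perm (ε : ℝ) (a b : ℤ) : Equiv.Perm (E3 × ℝ) where
  toFun q := GpM_P a b (q.1 1) (Vr (LaG (‖GpM_w a b q‖ / ε)) (q.1 1) (Vr' 1 (q.1 1) (GpM_w a b q)))
  invFun q := GpM_P a b (q.1 1) (Vr 1 (q.1 1) (Vr' (LaG (‖GpM_w a b q‖ / ε)) (q.1 1) (GpM_w a b q)))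
  left_inv q := by
    simp only
    rw [GpM_P_one, GpM_w_P, GpM_norm, Vr_inv', Vr_inv, GpM_P_w]
  right_inv q := by
    simp only
    rw [GpM_P_one, GpM_w_P, GpM_norm', Vr_inv', Vr_inv, GpM_P_w]

theorem GpM_La_smooth {F : Type*} [NormedAddCommGroup F] [NormedSpace ℝ F] {w : F → E3} (ε : ℝ)
    (hw : ContDiff ℝ ∞ w) : ContDiff ℝ ∞ fun x => LaG (‖w x‖ / ε) := by
  have h1 : (fun x => LaG (‖w x‖ / ε)) = fun x => stp (1 / 16) (9 / 16) (‖w x‖ ^ 2 / ε ^ 2) := by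
    funext x
    unfold LaG
    rw [div_pow]
  rw [h1]
  exact (stp_smooth _ _).comp ((hw.norm_sq ℝ).div_const _)

theorem GpM_u_smooth : ContDiff ℝ ∞ fun q : E3 × ℝ => q.1 1 := GpM_co contDiff_fst 1

theorem GpM_perm_ld (ε : ℝ) (a b : ℤ) (q : E3 × ℝ) :
    IsLocalDiffeomorphAt 𝓘(ℝ, E3 × ℝ) 𝓘(ℝ, E3 × ℝ) ∞ (GpM_perm ε a b) q := by
  have hL := GpM_La_smooth ε (GpM_w_smooth a b)
  refine ld_of_perm ?_ ?_ q
  · refine GpM_P_smooth a b GpM_u_smooth ?_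
    exact Vr_smooth.comp (hL.prodMk (GpM_u_smooth.prodMk
      (Vr'_smooth.comp (contDiff_const.prodMk (GpM_u_smooth.prodMk (GpM_w_smooth a b))))))
  · refine GpM_P_smooth a b GpM_u_smooth ?_
    exact Vr_smooth.comp (contDiff_const.prodMk (GpM_u_smooth.prodMk
      (Vr'_smooth.comp (hL.prodMk (GpM_u_smooth.prodMk (GpM_w_smooth a b))))))

theorem GpM_cont : Continuous fun q : E3 × ℝ => ‖cG q‖ := by
  have hf : Continuous fun x : ℝ => |x - round x| := by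
    have h1 : (fun x : ℝ => |x - round x|) = fun x : ℝ => ‖(x : UnitAddCircle)‖ := by
      funext x
      rw [UnitAddCircle.norm_eq]
    rw [h1]
    exact continuous_norm.comp (AddCircle.continuous_mk' 1)
  have h2 : (fun q : E3 × ℝ => ‖cG q‖) = fun q : E3 × ℝ =>
      Real.sqrt (|(q.1 0 - 1 / 2) - round (q.1 0 - 1 / 2)| ^ 2 +
        |(q.1 2 - 1 / 2) - round (q.1 2 - 1 / 2)| ^ 2 + (q.2 - 1 / 2) ^ 2) := by
    funext q
    rw [EuclideanSpace.norm_eq]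
    congr 1
    rw [Fin.sum_univ_three]
    unfold cG
    simp only [pt_zero', pt_one', pt_two', Real.norm_eq_abs, sq_abs]
  rw [h2]
  have c0 : Continuous fun q : E3 × ℝ => q.1 0 - 1 / 2 := by fun_prop
  have c2 : Continuous fun q : E3 × ℝ => q.1 2 - 1 / 2 := by fun_prop
  have c3 : Continuous fun q : E3 × ℝ => q.2 - 1 / 2 := by fun_prop
  exact Real.continuous_sqrt.comp ((((hf.comp c0).pow 2).add ((hf.comp c2).pow 2)).add (c3.pow 2))

theorem Gp_ld (hε : 0 < ε) (hε' : ε ≤ 1 / 1000) (q : E3 × ℝ) :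
    IsLocalDiffeomorphAt 𝓘(ℝ, E3 × ℝ) 𝓘(ℝ, E3 × ℝ) ∞ (Gp ε) q := by
  rcases lt_or_ge (3 / 4 * ε) ‖cG q‖ with h | h
  · refine ld_congr (ld_id q) ?_
    filter_upwards [(isOpen_lt continuous_const GpM_cont).mem_nhds h] with q' hq'
    exact Gp_far hq'.le hε
  · obtain ⟨a, b, hq⟩ := GpM_rep' q
    have hw : GpM_w a b q = cG q := by
      conv_lhs => rw [hq]
      rw [GpM_w_P]
    refine ld_congr (GpM_perm_ld ε a b q) ?_
    have hc : Continuous fun q' : E3 × ℝ => ‖GpM_w a b q'‖ := (GpM_w_smooth a b).continuous.norm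
    have hlt : ‖GpM_w a b q‖ < ε := by rw [hw]; linarith
    filter_upwards [(isOpen_lt hc continuous_const).mem_nhds hlt] with q' hq'
    show Gp ε q' = GpM_P a b (q'.1 1)
      (Vr (LaG (‖GpM_w a b q'‖ / ε)) (q'.1 1) (Vr' 1 (q'.1 1) (GpM_w a b q')))
    conv_lhs => rw [← GpM_P_w a b q']
    exact GpM_near hε' hq'

theorem cG_Gp (hε : 0 < ε) (hε' : ε ≤ 1 / 1000) (q : E3 × ℝ) : ‖cG (Gp ε q)‖ = ‖cG q‖ := by
  by_cases h : ‖cG q‖ < ε
  · obtain ⟨a, b, hq⟩ := GpM_rep' q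
    have hs := hq
    generalize hwd : cG q = w at h hq
    generalize q.1 1 = u at hq
    rw [hq, GpM_near hε' h, GpM_cG (by rw [GpM_norm]; linarith), GpM_norm]
  · rw [GpM_far h]

theorem GpM_off {a b : ℤ} {u : ℝ} {w : E3} (h : ‖w‖ < 1 / 2) : OffAx (GpM_P a b u w).1 := by
  rintro ⟨-, c, hc⟩
  unfold GpM_P at hc
  simp only [pt_two'] at hc
  have h1 := (GpM_abs w 1).trans_lt h
  rw [abs_lt] at h1
  have h2 : (c : ℝ) < b + 1 := by linarith [h1.2]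
  have h3 : (b : ℝ) < c := by linarith [h1.1]
  have h4 : c < b + 1 := by exact_mod_cast h2
  have h5 : b < c := by exact_mod_cast h3
  omega

theorem Gp_off (hε : 0 < ε) (hε' : ε ≤ 1 / 1000) (q : E3 × ℝ) :
    OffAx (Gp ε q).1 ↔ OffAx q.1 := by
  by_cases h : ‖cG q‖ < ε
  · obtain ⟨a, b, hq⟩ := GpM_rep' q
    generalize cG q = w at h hq
    generalize q.1 1 = u at hq
    subst hq
    rw [GpM_near hε' h]
    exact ⟨fun _ => GpM_off (by linarith), fun _ => GpM_off (by rw [GpM_norm]; linarith)⟩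
  · rw [GpM_far h]

theorem Gp_time (hε : 0 < ε) (hε' : ε ≤ 1 / 1000) (q : E3 × ℝ) :
    Gp ε q = q ∨ (|q.2 - 1 / 2| < ε ∧ |(Gp ε q).2 - 1 / 2| < ε) := by
  by_cases h : ‖cG q‖ < ε
  · right
    obtain ⟨a, b, hq⟩ := GpM_rep' q
    generalize cG q = w at h hq
    generalize q.1 1 = u at hq
    subst hq
    rw [GpM_near hε' h]
    unfold GpM_P
    simp only [add_sub_cancel_left]
    exact ⟨(GpM_abs w 2).trans_lt h, (GpM_abs _ 2).trans_lt (by rw [GpM_norm]; exact h)⟩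
  · exact Or.inl (GpM_far h)

end Pool.Agent.CSP
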