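import Pool.Agent.CSP.GpM
import Pool.Agent.RSG.Sph
import Pool.Agent.RSG.LDc

/-!
# CSP/PdsM: `PD` gives `PDs`   (difficulty 3)

`H' = D.H ∘ Gp ε`, `jb' = D.jb`, and `jc' (y, ζ) = D.jc (si (Vr' 0 u (Vr (LaG s) u y)), ζ)`, where `s = ‖ζ‖`,
`u = arg ζ / 2π`, `si w = (w 1, w 0, w 2)` (everything preserves the norm, so these are points of `S2`).
`D` has `e = -1`, so `gluec` reads: for `0 < s < 1`, with `w = Vr 0 u (si Y)` (`si (si w) = w`; `Vr_zero`: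
`(w 0, w 1, w 2) = (Re z, Y 0, Im z)`, `z = ex (-thc u) yc Y`, `yc Y = Y 1 + i Y 2`)
  (1) `D.jc (Y, s ex u) = D.H (pt (1/2 + ε s w 0) u (1/2 + ε s w 1), 1/2 + ε s w 2)`.
* `jc'` near `ζ = 0`: for `s ≤ 1/4` `LaG s = 0`, so `jc' (y, ζ) = D.jc (si y, ζ)`: local diffeomorphism
  (composition with the diffeomorphism `y ↦ si y` of `S2`, a reflection), also `jc' (y, 0) = D.jc (si y, 0)`.
* `jc'` for `ζ ≠ 0`: near `ζ₀ ≠ 0` choose the branch `u = u₀ + arg (ζ / ζ₀) / 2π` (`Vr` has period 1 in `u`: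
  `Vr_per`, so the formula does not depend on the branch); `(y, ζ) ↦ (si (Vr' 0 u (Vr (LaG s) u y)), ζ)` is smooth
  with smooth inverse `(Y, ζ) ↦ (Vr' (LaG s) u (Vr 0 u (si Y)), ζ)` (`ld_two`; a smooth map into `E3` with values in
  the unit sphere is smooth as a map into `S2`: `ContMDiff.codRestrict_sphere`, or write the map into `S2` as
  `toSph` of the smooth map into `E3` and use `toSph_smooth`, RSG/SphA).
* `gluec'`: `jc' (y, s ex u) = D.jc (Y, s ex u)`, `Y = si (Vr' 0 u (Vr (LaG s) u y))`, so `Vr 0 u (si Y) = Vr (LaG s) u y`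
  and by (1) it is `D.H` of the point `C + ε s Vr (LaG s) u y`, where `C + w` stands for
  `(pt (1/2 + w 0) u (1/2 + w 1), 1/2 + w 2)`.  On the other side, the point in `gluec` of `PDs` is
  `C + ε s Vr 1 u y` (`Vr_one`), and by `Gp_near` (a = b = 0), `‖ε s Vr 1 u y‖ = ε s`, `Vr' 1 u (Vr 1 u y) = y`,
  linearity: `Gp` of it is `C + ε s Vr (LaG s) u y`.  For the arbitrary real `u` versus `arg`: `s ex u` has
  argument `u` modulo `1`.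
* `jc'_inj`: `ζ = ζ'`, then the isometries are injective.
* `H'`: `H_loc`: `Gp_ld`, `D.H_loc` at `Gp (x, t)` (time: `Gp_time`; `Gp_off`; `OnC_iff`, `cG_Gp`).  `H_per`: `Gp_per`.
  `H_mon`: for `|t| < 1/8` both points are not moved by `Gp` (`Gp_time`).  `H_inj`: `Gp` maps
  `0 ≤ t < 1` to itself (`Gp_time`), `D.H_inj`, then `Gp'_Gp`, `Gp_per`.  `glueb`: the points `x` with
  `|x 1|, |x 2| ≤ 5 ε` are not moved (`‖cG‖ ≥ 1/2 - 5 ε - .. ≥ 3/4 ε`): `|x 2 - 1/2 - round (x 2 - 1/2)| ≥ 2/5`.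
  `disjb`, `disjc`, `disjbc`, `cover`: by `Gp_Gp'`, `jc' (y, 0) = D.jc (si y, 0)`, `si` is an involution of `S2`.
-/

open scoped Manifold ContDiff Topology
open Complex (I)

namespace Pool.Agent.CSP
open Pool.Agent.CSG
open Pool.Agent.TS (OffAx OnC PD yc)
open Pool.Agent.RSG (ex)

/-! ### the isometries -/

noncomputable def PdsM_si (w : E3) : E3 := pt (w 1) (w 0) (w 2)

theorem PdsM_si_si (w : E3) : PdsM_si (PdsM_si w) = w := by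
  ext i
  fin_cases i <;> simp [PdsM_si, pt]

theorem PdsM_si_norm (w : E3) : ‖PdsM_si w‖ = ‖w‖ := by
  rw [EuclideanSpace.norm_eq, EuclideanSpace.norm_eq, Fin.sum_univ_three, Fin.sum_univ_three]
  simp only [PdsM_si, pt_zero', pt_one', pt_two']
  congr 1
  ring

theorem PdsM_si_smooth : ContDiff ℝ ∞ PdsM_si :=
  FunBasic_pt (FunBasic_coord 1) (FunBasic_coord 0) (FunBasic_coord 2)

noncomputable def PdsM_la (ρ : ℝ) : ℝ := stp (1 / 16) (9 / 16) ρ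

noncomputable def PdsM_F (q : ℝ × ℝ × E3) : E3 :=
  PdsM_si (Vr' 0 q.2.1 (Vr (PdsM_la q.1) q.2.1 q.2.2))
noncomputable def PdsM_G (q : ℝ × ℝ × E3) : E3 :=
  Vr' (PdsM_la q.1) q.2.1 (Vr 0 q.2.1 (PdsM_si q.2.2))

theorem PdsM_F_smooth : ContDiff ℝ ∞ PdsM_F := by
  have h1 : ContDiff ℝ ∞ fun q : ℝ × ℝ × E3 => Vr (PdsM_la q.1) q.2.1 q.2.2 :=
    Vr_smooth.comp (((stp_smooth _ _).comp contDiff_fst).prodMk
      ((contDiff_fst.comp contDiff_snd).prodMk (contDiff_snd.comp contDiff_snd)))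
  exact PdsM_si_smooth.comp (Vr'_smooth.comp (contDiff_const.prodMk
    ((contDiff_fst.comp contDiff_snd).prodMk h1)))

theorem PdsM_G_smooth : ContDiff ℝ ∞ PdsM_G := by
  have h1 : ContDiff ℝ ∞ fun q : ℝ × ℝ × E3 => Vr 0 q.2.1 (PdsM_si q.2.2) :=
    Vr_smooth.comp (contDiff_const.prodMk
      ((contDiff_fst.comp contDiff_snd).prodMk (PdsM_si_smooth.comp (contDiff_snd.comp contDiff_snd))))
  exact Vr'_smooth.comp (((stp_smooth _ _).comp contDiff_fst).prodMk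
    ((contDiff_fst.comp contDiff_snd).prodMk h1))

theorem PdsM_FG (ρ u : ℝ) (w : E3) : PdsM_F (ρ, u, PdsM_G (ρ, u, w)) = w := by
  simp only [PdsM_F, PdsM_G]
  rw [Vr_inv, Vr_inv', PdsM_si_si]

theorem PdsM_GF (ρ u : ℝ) (w : E3) : PdsM_G (ρ, u, PdsM_F (ρ, u, w)) = w := by
  simp only [PdsM_F, PdsM_G]
  rw [PdsM_si_si, Vr_inv, Vr_inv']

theorem PdsM_F_norm (ρ u : ℝ) (w : E3) : ‖PdsM_F (ρ, u, w)‖ = ‖w‖ := by
  simp only [PdsM_F]
  rw [PdsM_si_norm, Vr'_norm, Vr_norm]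

theorem PdsM_G_norm (ρ u : ℝ) (w : E3) : ‖PdsM_G (ρ, u, w)‖ = ‖w‖ := by
  simp only [PdsM_G]
  rw [Vr'_norm, Vr_norm, PdsM_si_norm]

theorem PdsM_F_per (ρ u : ℝ) (m : ℤ) (w : E3) : PdsM_F (ρ, u + m, w) = PdsM_F (ρ, u, w) := by
  simp only [PdsM_F]
  rw [Vr_per, Vr'_per]

theorem PdsM_G_per (ρ u : ℝ) (m : ℤ) (w : E3) : PdsM_G (ρ, u + m, w) = PdsM_G (ρ, u, w) := by
  simp only [PdsM_G]
  rw [Vr_per, Vr'_per]

theorem PdsM_la_zero {ρ : ℝ} (h : ρ ≤ 1 / 16) : PdsM_la ρ = 0 :=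
  stp_zero (by norm_num) h

theorem PdsM_F_zero {ρ : ℝ} (h : ρ ≤ 1 / 16) (u : ℝ) (w : E3) :
    PdsM_F (ρ, u, w) = PdsM_si w := by
  simp only [PdsM_F]
  rw [PdsM_la_zero h, Vr_inv']

theorem PdsM_G_zero {ρ : ℝ} (h : ρ ≤ 1 / 16) (u : ℝ) (w : E3) :
    PdsM_G (ρ, u, w) = PdsM_si w := by
  simp only [PdsM_G]
  rw [PdsM_la_zero h, Vr_inv']

/-! ### the maps of the sphere -/

noncomputable def PdsM_e : S2 := ⟨EuclideanSpace.single 0 1, by simp⟩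

noncomputable def PdsM_u (ζ : ℂ) : ℝ := Complex.arg ζ / (2 * Real.pi)

/-- for a family of isometries with period 1 -/
structure PdsMFam (F : ℝ × ℝ × E3 → E3) : Prop where
  smooth : ContDiff ℝ ∞ F
  norm : ∀ ρ u w, ‖F (ρ, u, w)‖ = ‖w‖
  per : ∀ (ρ u : ℝ) (m : ℤ) (w : E3), F (ρ, u + m, w) = F (ρ, u, w)
  zero : ∀ (ρ u : ℝ) (w : E3), ρ ≤ 1 / 16 → F (ρ, u, w) = PdsM_si w

theorem PdsM_Ffam : PdsMFam PdsM_F :=
  ⟨PdsM_F_smooth, PdsM_F_norm, PdsM_F_per, fun _ u w h => PdsM_F_zero h u w⟩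
theorem PdsM_Gfam : PdsMFam PdsM_G :=
  ⟨PdsM_G_smooth, PdsM_G_norm, PdsM_G_per, fun _ u w h => PdsM_G_zero h u w⟩

noncomputable def PdsM_A (F : ℝ × ℝ × E3 → E3) (p : S2 × ℂ) : S2 :=
  RSG.toSph PdsM_e (F (‖p.2‖ ^ 2, PdsM_u p.2, (p.1 : E3)))

theorem PdsM_norm (y : S2) : ‖(y : E3)‖ = 1 := norm_eq_of_mem_sphere y

theorem PdsM_ne {v : E3} (h : ‖v‖ = 1) : v ≠ 0 := by
  intro h0
  rw [h0, norm_zero] at h
  exact zero_ne_one h

theorem PdsM_A_coe {F : ℝ × ℝ × E3 → E3} (hF : PdsMFam F) (p : S2 × ℂ) :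
    (PdsM_A F p : E3) = F (‖p.2‖ ^ 2, PdsM_u p.2, (p.1 : E3)) := by
  have h1 : ‖F (‖p.2‖ ^ 2, PdsM_u p.2, (p.1 : E3))‖ = 1 := by rw [hF.norm, PdsM_norm]
  unfold PdsM_A
  rw [RSG.toSph_coe _ (PdsM_ne h1), h1, inv_one, one_smul]

theorem PdsM_u_ex {ζ : ℂ} (h : ζ ≠ 0) : ex (PdsM_u ζ) = ζ / ‖ζ‖ := by
  have h1 := RSG.ex_arg (p := ζ)
  have h2 : (‖ζ‖ : ℂ) ≠ 0 := by exact_mod_cast norm_ne_zero_iff.2 h
  rw [eq_div_iff h2, mul_comm]
  exact h1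

/-- the branch -/
theorem PdsM_branch {ζ₀ ζ : ℂ} (h0 : ζ₀ ≠ 0) (h : ζ ≠ 0) :
    ∃ m : ℤ, PdsM_u ζ = PdsM_u ζ₀ + PdsM_u (ζ / ζ₀) + m := by
  have h1 : ex (PdsM_u ζ₀ + PdsM_u (ζ / ζ₀)) = ex (PdsM_u ζ) := by
    rw [RSG.ex_add, PdsM_u_ex h0, PdsM_u_ex h, PdsM_u_ex (div_ne_zero h h0), norm_div]
    have h2 : (‖ζ‖ : ℂ) ≠ 0 := by exact_mod_cast norm_ne_zero_iff.2 h
    have h3 : (‖ζ₀‖ : ℂ) ≠ 0 := by exact_mod_cast norm_ne_zero_iff.2 h0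
    push_cast
    field_simp
  exact RSG.ex_eq_iff.1 h1

theorem PdsM_A_smooth {F : ℝ × ℝ × E3 → E3} (hF : PdsMFam F) (p : S2 × ℂ) :
    ContMDiffAt ((𝓡 2).prod 𝓘(ℝ, ℂ)) (𝓡 2) ∞ (PdsM_A F) p := by
  have hfin : Fact (Module.finrank ℝ E3 = 2 + 1) := Fact.mk (@finrank_euclideanSpace_fin ℝ _ (2 + 1))
  have hcoe : ContMDiff (𝓡 2) 𝓘(ℝ, E3) ∞ (Subtype.val : S2 → E3) := contMDiff_coe_sphere (n := 2)
  have hn : ContDiff ℝ ∞ fun z : ℂ => ‖z‖ ^ 2 := contDiff_norm_sq ℝ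
  -- the general statement: a smooth function `ν` which is a branch of `u`
  have key : ∀ ν : ℂ → ℝ, ContDiffAt ℝ ∞ ν p.2 →
      (∀ᶠ q : S2 × ℂ in 𝓝 p, F (‖q.2‖ ^ 2, PdsM_u q.2, (q.1 : E3)) = F (‖q.2‖ ^ 2, ν q.2, (q.1 : E3))) →
      ContMDiffAt ((𝓡 2).prod 𝓘(ℝ, ℂ)) (𝓡 2) ∞ (PdsM_A F) p := by
    intro ν hν hev
    have h2 : ContMDiffAt ((𝓡 2).prod 𝓘(ℝ, ℂ)) 𝓘(ℝ, ℝ) ∞ (fun q : S2 × ℂ => ‖q.2‖ ^ 2) p :=
      (hn.contMDiff.comp contMDiff_snd) p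
    have h3 : ContMDiffAt ((𝓡 2).prod 𝓘(ℝ, ℂ)) 𝓘(ℝ, ℝ) ∞ (fun q : S2 × ℂ => ν q.2) p :=
      hν.contMDiffAt.comp p (contMDiff_snd p)
    have h4 : ContMDiffAt ((𝓡 2).prod 𝓘(ℝ, ℂ)) 𝓘(ℝ, E3) ∞ (fun q : S2 × ℂ => (q.1 : E3)) p :=
      (hcoe.comp contMDiff_fst) p
    have h5 : ContMDiffAt ((𝓡 2).prod 𝓘(ℝ, ℂ)) 𝓘(ℝ, ℝ × ℝ × E3) ∞
        (fun q : S2 × ℂ => (‖q.2‖ ^ 2, ν q.2, (q.1 : E3))) p :=
      h2.prodMk_space (h3.prodMk_space h4)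
    have h6 : ContMDiffAt ((𝓡 2).prod 𝓘(ℝ, ℂ)) 𝓘(ℝ, E3) ∞
        (fun q : S2 × ℂ => F (‖q.2‖ ^ 2, ν q.2, (q.1 : E3))) p :=
      (hF.smooth.contMDiff _).comp p h5
    have h7 : F (‖p.2‖ ^ 2, ν p.2, (p.1 : E3)) ≠ 0 :=
      PdsM_ne (by rw [hF.norm, PdsM_norm])
    have h8 : ContMDiffAt ((𝓡 2).prod 𝓘(ℝ, ℂ)) (𝓡 2) ∞
        (fun q : S2 × ℂ => RSG.toSph PdsM_e (F (‖q.2‖ ^ 2, ν q.2, (q.1 : E3)))) p :=
      (RSG.toSph_smooth (E := E3) (n := 2) PdsM_e h7).comp p h6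
    refine h8.congr_of_eventuallyEq ?_
    filter_upwards [hev] with q hq
    unfold PdsM_A
    rw [hq]
  by_cases h : p.2 = 0
  · refine key (fun _ => 0) contDiffAt_const ?_
    have h1 : ∀ᶠ q : S2 × ℂ in 𝓝 p, ‖q.2‖ ^ 2 < 1 / 16 := by
      have hc : Continuous fun q : S2 × ℂ => ‖q.2‖ ^ 2 := by fun_prop
      refine hc.continuousAt.eventually_lt continuousAt_const ?_
      rw [h]
      norm_num
    filter_upwards [h1] with q hq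
    rw [hF.zero _ _ _ hq.le, hF.zero _ _ _ hq.le]
  · refine key (fun ζ => PdsM_u p.2 + PdsM_u (ζ / p.2)) ?_ ?_
    · have h1 : ContDiffAt ℝ ∞ (fun ζ : ℂ => Complex.arg (ζ / p.2)) p.2 := by
        have h2 : (fun ζ : ℂ => Complex.arg (ζ / p.2)) = fun ζ => (Complex.log (ζ / p.2)).im := by
          funext ζ
          rw [Complex.log_im]
        rw [h2]
        have h3 : ContDiffAt ℂ ∞ (fun ζ : ℂ => Complex.log (ζ / p.2)) p.2 := by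
          have h4 : p.2 / p.2 ∈ Complex.slitPlane := by
            rw [div_self h]
            exact Complex.one_mem_slitPlane
          exact ContDiffAt.comp (g := Complex.log) (f := fun ζ : ℂ => ζ / p.2) p.2
            (Complex.contDiffAt_log h4) (contDiffAt_id.div_const _)
        exact (Complex.imCLM.contDiff.contDiffAt).comp p.2 (h3.restrict_scalars ℝ)
      unfold PdsM_u
      exact contDiffAt_const.add (h1.div_const _)
    · have h1 : ∀ᶠ q : S2 × ℂ in 𝓝 p, q.2 ≠ 0 := by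
        have hc : ContinuousAt (fun q : S2 × ℂ => q.2) p := continuous_snd.continuousAt
        exact hc.eventually_ne h
      filter_upwards [h1] with q hq
      obtain ⟨m, hm⟩ := PdsM_branch h hq
      rw [hm, hF.per]

noncomputable def PdsM_Phi (F : ℝ × ℝ × E3 → E3) (p : S2 × ℂ) : S2 × ℂ := (PdsM_A F p, p.2)

theorem PdsM_Phi_smooth {F : ℝ × ℝ × E3 → E3} (hF : PdsMFam F) (p : S2 × ℂ) :
    ContMDiffAt ((𝓡 2).prod 𝓘(ℝ, ℂ)) ((𝓡 2).prod 𝓘(ℝ, ℂ)) ∞ (PdsM_Phi F) p :=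
  (PdsM_A_smooth hF p).prodMk (contMDiff_snd p)

theorem PdsM_Phi_inv {F G : ℝ × ℝ × E3 → E3} (hF : PdsMFam F) (hG : PdsMFam G)
    (h : ∀ ρ u w, G (ρ, u, F (ρ, u, w)) = w) (p : S2 × ℂ) : PdsM_Phi G (PdsM_Phi F p) = p := by
  refine Prod.ext ?_ rfl
  apply Subtype.ext
  change (PdsM_A G (PdsM_Phi F p) : E3) = p.1
  rw [PdsM_A_coe hG]
  change G (‖p.2‖ ^ 2, PdsM_u p.2, (PdsM_A F p : E3)) = p.1
  rw [PdsM_A_coe hF, h]

theorem PdsM_Phi_ld (p : S2 × ℂ) :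
    IsLocalDiffeomorphAt ((𝓡 2).prod 𝓘(ℝ, ℂ)) ((𝓡 2).prod 𝓘(ℝ, ℂ)) ∞ (PdsM_Phi PdsM_F) p :=
  RSG.ld_two (g := PdsM_Phi PdsM_G)
    (Filter.Eventually.of_forall fun q => PdsM_Phi_smooth PdsM_Ffam q)
    (Filter.Eventually.of_forall fun q => PdsM_Phi_smooth PdsM_Gfam q)
    (Filter.Eventually.of_forall fun q => PdsM_Phi_inv PdsM_Ffam PdsM_Gfam PdsM_GF q)
    (Filter.Eventually.of_forall fun q => PdsM_Phi_inv PdsM_Gfam PdsM_Ffam PdsM_FG q)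

/-! ### the change of framing -/

theorem PdsM_near {ε : ℝ} (hε : 0 < ε) (hε' : ε ≤ 1 / 1000) {u : ℝ} {w w' : E3} (h : ‖w‖ < ε)
    (hw : Vr (LaG (‖w‖ / ε)) u (Vr' 1 u w) = w') :
    Gp ε (pt (1 / 2 + w 0) u (1 / 2 + w 1), 1 / 2 + w 2) =
      (pt (1 / 2 + w' 0) u (1 / 2 + w' 1), 1 / 2 + w' 2) := by
  have h1 := Gp_near hε hε' (a := 0) (b := 0) (u := u) h
  rw [hw] at h1
  simpa only [Int.cast_zero, zero_add] using h1

theorem PdsM_mul (a b : ℝ) (c d : ℂ) : ((a : ℂ) * (b : ℂ) * c * d).re = a * b * (c * d).re ∧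
    ((a : ℂ) * (b : ℂ) * c * d).im = a * b * (c * d).im := by
  have h : (a : ℂ) * (b : ℂ) * c * d = ((a * b : ℝ) : ℂ) * (c * d) := by
    push_cast
    ring
  rw [h, Complex.re_ofReal_mul, Complex.im_ofReal_mul]
  exact ⟨rfl, rfl⟩

theorem PdsM_yc (y : S2) : yc y = ⟨(y : E3) 1, (y : E3) 2⟩ := by
  unfold yc
  apply Complex.ext <;> simp

theorem PdsM_TSex (x : ℝ) : Pool.Agent.TS.ex x = ex x := rfl

/-- the coordinates of `Vr 0 u (si Y)` -/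
theorem PdsM_W (u : ℝ) (Y : S2) (W : E3) (h : Vr 0 u (PdsM_si (Y : E3)) = W) :
    W 0 = (ex (-thc u) * yc Y).re ∧ W 1 = (Y : E3) 0 ∧ W 2 = (ex (-thc u) * yc Y).im := by
  rw [Vr_zero] at h
  rw [← h, PdsM_yc]
  simp only [pt_zero', pt_one', pt_two', PdsM_si, and_self]

theorem PdsM_A_ex {F : ℝ × ℝ × E3 → E3} (hF : PdsMFam F) (y : S2) {s : ℝ} (hs : 0 < s) (u : ℝ) :
    (PdsM_A F (y, (s : ℂ) * ex u) : E3) = F (s ^ 2, u, (y : E3)) := by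
  rw [PdsM_A_coe hF]
  have h1 : ‖(s : ℂ) * ex u‖ = s := by
    rw [norm_mul, RSG.ex_norm, mul_one, Complex.norm_real, Real.norm_eq_abs, abs_of_pos hs]
  have h2 : (s : ℂ) * ex u ≠ 0 := by
    rw [← norm_pos_iff, h1]
    exact hs
  have h3 : ex u = ex (PdsM_u ((s : ℂ) * ex u)) := by
    rw [PdsM_u_ex h2, h1]
    have h4 : (s : ℂ) ≠ 0 := by exact_mod_cast hs.ne'
    field_simp
  obtain ⟨m, hm⟩ := RSG.ex_eq_iff.1 h3
  simp only [h1]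
  rw [hm, hF.per]

theorem PdsM_far {ε : ℝ} (hε : 0 < ε) (hε' : ε ≤ 1 / 1000) {x : E3} {t : ℝ} (h : |x 2| ≤ 5 * ε) :
    Gp ε (x, t) = (x, t) := by
  apply Gp_far _ hε
  have h1 : |(cG (x, t)) 1| ≤ ‖cG (x, t)‖ := by
    have := PiLp.norm_apply_le (cG (x, t)) 1
    rwa [Real.norm_eq_abs] at this
  refine le_trans ?_ h1
  have h2 : (cG (x, t)) 1 = x 2 - 1 / 2 - round (x 2 - 1 / 2) := by
    simp [cG]
  rw [h2]
  set n : ℤ := round (x 2 - 1 / 2) with hn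
  rw [abs_le] at h
  rcases le_or_gt 0 n with h3 | h3
  · have h4 : (0 : ℝ) ≤ n := by exact_mod_cast h3
    rw [abs_of_nonpos (by linarith)]
    linarith
  · have h4 : (n : ℝ) ≤ -1 := by
      have : n ≤ -1 := by omega
      exact_mod_cast this
    rw [abs_of_nonneg (by linarith)]
    linarith

theorem PdsM_onC {ε : ℝ} (hε : 0 < ε) (hε' : ε ≤ 1 / 1000) (q : E3 × ℝ) :
    OnC (Gp ε q).1 (Gp ε q).2 ↔ OnC q.1 q.2 := by
  rw [OnC_iff, OnC_iff]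
  have h := cG_Gp hε hε' q
  constructor
  · intro h1
    rw [← norm_eq_zero] at h1 ⊢
    rw [← h]
    exact h1
  · intro h1
    rw [← norm_eq_zero] at h1 ⊢
    rw [← h] at h1
    exact h1

theorem PdsM_rng {ε : ℝ} (hε : 0 < ε) (hε' : ε ≤ 1 / 1000) (q : E3 × ℝ) {a b : ℝ} (ha : a ≤ 1 / 4)
    (hb : 3 / 4 ≤ b) : (a < (Gp ε q).2 ↔ a < q.2) ∧ (a ≤ (Gp ε q).2 ↔ a ≤ q.2) ∧
      ((Gp ε q).2 < b ↔ q.2 < b) := by
  rcases Gp_time hε hε' q with h | ⟨h1, h2⟩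
  · rw [h]
    exact ⟨Iff.rfl, Iff.rfl, Iff.rfl⟩
  · rw [abs_lt] at h1 h2
    exact ⟨⟨fun _ => by linarith, fun _ => by linarith⟩, ⟨fun _ => by linarith, fun _ => by linarith⟩,
      ⟨fun _ => by linarith, fun _ => by linarith⟩⟩

theorem pds_of_pd {X : Type*} [TopologicalSpace X] [ChartedSpace E4 X] {κ : Equiv.Perm E3} {ε : ℝ} {k : ℤ}
    (D : PD κ ε k (-1) X) (hε : 0 < ε) (hε' : ε ≤ 1 / 1000) : Nonempty (PDs κ ε k X) := by
  have hjc0 : ∀ y : S2, ∃ Y : S2, PdsM_Phi PdsM_F (Y, 0) = (y, 0) := fun y =>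
    ⟨PdsM_A PdsM_G (y, 0), PdsM_Phi_inv PdsM_Gfam PdsM_Ffam PdsM_FG (y, 0)⟩
  refine ⟨{ H := fun q => D.H (Gp ε q), jb := D.jb, jc := fun p => D.jc (PdsM_Phi PdsM_F p),
            H_loc := ?_, H_per := ?_, H_mon := ?_, H_inj := ?_, jb_per := D.jb_per, jb_loc := D.jb_loc,
            jb_inj := D.jb_inj, jc_loc := ?_, jc_inj := ?_, glueb := ?_, gluec := ?_, disjb := ?_,
            disjc := ?_, disjbc := ?_, cover := ?_ }⟩
  · intro x t h1 h2 h3 h4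
    have h5 : IsLocalDiffeomorphAt 𝓘(ℝ, E3 × ℝ) (𝓡 4) ∞ D.H (Gp ε (x, t)) := by
      have h6 := D.H_loc (Gp ε (x, t)).1 (Gp ε (x, t)).2
        (((PdsM_rng hε hε' (x, t) (a := -(1 / 8)) (b := 9 / 8) (by norm_num) (by norm_num)).1).2 h1)
        (((PdsM_rng hε hε' (x, t) (a := -(1 / 8)) (b := 9 / 8) (by norm_num) (by norm_num)).2.2).2 h2)
        ((Gp_off hε hε' (x, t)).2 h3) (fun h => h4 ((PdsM_onC hε hε' (x, t)).1 h))
      exact h6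
    exact IsLocalDiffeomorphAt.comp (hf := Gp_ld hε hε' (x, t)) (g := D.H) (hg := h5)
  · intro x t m h1 h2 h3
    rw [Gp_per hε hε']
    exact D.H_per _ _ m
        (((PdsM_rng hε hε' (x, t) (a := -(1 / 8)) (b := 9 / 8) (by norm_num) (by norm_num)).1).2 h1)
        (((PdsM_rng hε hε' (x, t) (a := -(1 / 8)) (b := 9 / 8) (by norm_num) (by norm_num)).2.2).2 h2)
        ((Gp_off hε hε' (x, t)).2 h3)
  · intro x t h1 h2 h3
    have e1 : Gp ε (κ x, t) = (κ x, t) := by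
      rcases Gp_time hε hε' (κ x, t) with h | ⟨h4, _⟩
      · exact h
      · exfalso
        rw [abs_lt] at h4
        have h5 := h4.1
        simp only at h5
        linarith
    have e2 : Gp ε (x, t + 1) = (x, t + 1) := by
      rcases Gp_time hε hε' (x, t + 1) with h | ⟨h4, _⟩
      · exact h
      · exfalso
        rw [abs_lt] at h4
        have h5 := h4.2
        simp only at h5
        linarith
    rw [e1, e2]
    exact D.H_mon x t h1 h2 h3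
  · intro x y s t h1 h2 h3 h4 h5 h6 h7 h8 h9
    have h9' : D.H ((Gp ε (x, s)).1, (Gp ε (x, s)).2) = D.H ((Gp ε (y, t)).1, (Gp ε (y, t)).2) := h9
    obtain ⟨h10, m, h11⟩ := D.H_inj (Gp ε (x, s)).1 (Gp ε (y, t)).1 (Gp ε (x, s)).2 (Gp ε (y, t)).2
      ((Gp_off hε hε' (x, s)).2 h1) (fun h => h2 ((PdsM_onC hε hε' (x, s)).1 h))
      ((Gp_off hε hε' (y, t)).2 h3) (fun h => h4 ((PdsM_onC hε hε' (y, t)).1 h))
      (((PdsM_rng hε hε' (x, s) (a := 0) (b := 1) (by norm_num) (by norm_num)).2.1).2 h5)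
      (((PdsM_rng hε hε' (x, s) (a := 0) (b := 1) (by norm_num) (by norm_num)).2.2).2 h6)
      (((PdsM_rng hε hε' (y, t) (a := 0) (b := 1) (by norm_num) (by norm_num)).2.1).2 h7)
      (((PdsM_rng hε hε' (y, t) (a := 0) (b := 1) (by norm_num) (by norm_num)).2.2).2 h8) h9'
    have h12 : Gp ε (y, t) = Gp ε (x + vec m, s) := by
      rw [Gp_per hε hε']
      exact Prod.ext h11 h10.symm
    have h13 := congrArg (Gp' ε) h12
    rw [Gp'_Gp hε hε', Gp'_Gp hε hε'] at h13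
    have h14 := congrArg Prod.fst h13
    have h15 := congrArg Prod.snd h13
    exact ⟨h15.symm, m, h14⟩
  · intro y ζ h1
    have h2 : IsLocalDiffeomorphAt ((𝓡 2).prod 𝓘(ℝ, ℂ)) (𝓡 4) ∞ D.jc (PdsM_Phi PdsM_F (y, ζ)) :=
      D.jc_loc _ _ h1
    exact IsLocalDiffeomorphAt.comp (hf := PdsM_Phi_ld (y, ζ)) (g := D.jc) (hg := h2)
  · intro y y' ζ ζ' h1 h2 h3
    have h4 := D.jc_inj (PdsM_A PdsM_F (y, ζ)) (PdsM_A PdsM_F (y', ζ')) ζ ζ' h1 h2 h3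
    have h5 : PdsM_Phi PdsM_F (y, ζ) = PdsM_Phi PdsM_F (y', ζ') := Prod.ext h4.1 h4.2
    have h6 := congrArg (PdsM_Phi PdsM_G) h5
    rw [PdsM_Phi_inv PdsM_Ffam PdsM_Gfam PdsM_GF, PdsM_Phi_inv PdsM_Ffam PdsM_Gfam PdsM_GF] at h6
    exact ⟨congrArg Prod.fst h6, congrArg Prod.snd h6⟩
  · intro θ x t s h1 h2 h3 h4
    have h5 := D.glueb θ x t s h1 h2 h3 h4
    change D.jb (θ, x, s * ex (t - 1 / 2)) = D.H (Gp ε _)
    rw [PdsM_far hε hε']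
    · exact h5
    · rw [pt_two']
      refine (Complex.abs_re_le_norm _).trans ?_
      rw [norm_mul, norm_mul, RSG.ex_norm, Complex.norm_real, Complex.norm_real, Real.norm_eq_abs,
        Real.norm_eq_abs, abs_of_pos hε, abs_of_pos h3]
      nlinarith
  · intro y u s h1 h2
    change D.jc (PdsM_A PdsM_F (y, s * ex u), s * ex u) = D.H (Gp ε _)
    set Y : S2 := PdsM_A PdsM_F (y, s * ex u) with hY
    have hYc : (Y : E3) = PdsM_F (s ^ 2, u, (y : E3)) := PdsM_A_ex PdsM_Ffam y h1 u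
    have hW : Vr 0 u (PdsM_si (Y : E3)) = Vr (LaG s) u (y : E3) := by
      rw [hYc]
      change Vr 0 u (PdsM_si (PdsM_si (Vr' 0 u (Vr (PdsM_la (s ^ 2)) u (y : E3))))) = _
      rw [PdsM_si_si, Vr_inv]
      rfl
    obtain ⟨w0, w1, w2⟩ := PdsM_W u Y _ hW
    have h3 := D.gluec Y u s h1 h2
    have e1 : D.jc (Y, (s : ℂ) * ex u) = D.jc (Y, (s : ℂ) * Pool.Agent.TS.ex u) := rfl
    rw [e1, h3]
    -- the point on the other side
    have hlin : (ε * s) • Vr 1 u (y : E3) = (ε * s) • Vr 1 u (y : E3) := rfl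
    set w : E3 := (ε * s) • Vr 1 u (y : E3) with hw
    have hes : 0 < ε * s := mul_pos hε h1
    have hnw : ‖w‖ = ε * s := by
      rw [hw, norm_smul, Vr_norm, PdsM_norm, mul_one, Real.norm_eq_abs, abs_of_pos hes]
    have hn1 : ‖w‖ < ε := by
      rw [hnw]
      nlinarith
    have hdiv : ‖w‖ / ε = s := by
      rw [hnw]
      field_simp
    have hw' : Vr (LaG (‖w‖ / ε)) u (Vr' 1 u w) = (ε * s) • Vr (LaG s) u (y : E3) := by
      rw [hdiv, hw, Vr'_smul, Vr_inv', Vr_smul]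
    have h4 := PdsM_near hε hε' hn1 hw'
    have hv := Vr_one u (y : E3)
    have c0 : w 0 = ε * s * (y : E3) 0 := by
      rw [hw, hv]
      simp
    have c1 : w 1 = ((ε : ℂ) * s * ex (-u) * yc y).re := by
      rw [hw, hv, (PdsM_mul ε s _ _).1, PdsM_yc]
      simp
    have c2 : w 2 = ((ε : ℂ) * s * ex (-u) * yc y).im := by
      rw [hw, hv, (PdsM_mul ε s _ _).2, PdsM_yc]
      simp
    rw [c0, c1, c2] at h4
    rw [h4]
    have d0 : ((ε * s) • Vr (LaG s) u (y : E3)) 0 =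
        ((ε : ℂ) * s * Pool.Agent.TS.ex (((-1 : ℤ) : ℝ) * thc u) * yc Y).re := by
      rw [(PdsM_mul ε s _ _).1]
      rw [show ((-1 : ℤ) : ℝ) * thc u = -thc u by push_cast; ring, PdsM_TSex, ← w0]
      rfl
    have d1 : ((ε * s) • Vr (LaG s) u (y : E3)) 1 = ε * s * (Y : E3) 0 := by
      rw [← w1]
      rfl
    have d2 : ((ε * s) • Vr (LaG s) u (y : E3)) 2 =
        ((ε : ℂ) * s * Pool.Agent.TS.ex (((-1 : ℤ) : ℝ) * thc u) * yc Y).im := by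
      rw [(PdsM_mul ε s _ _).2]
      rw [show ((-1 : ℤ) : ℝ) * thc u = -thc u by push_cast; ring, PdsM_TSex, ← w2]
      rfl
    rw [d0, d1, d2]
  · intro θ x₀ x t h1 h2 h3 h4
    exact D.disjb θ x₀ (Gp ε (x, t)).1 (Gp ε (x, t)).2
      ((Gp_off hε hε' (x, t)).2 h1) (fun h => h2 ((PdsM_onC hε hε' (x, t)).1 h))
      (((PdsM_rng hε hε' (x, t) (a := 0) (b := 1) (by norm_num) (by norm_num)).2.1).2 h3)
      (((PdsM_rng hε hε' (x, t) (a := 0) (b := 1) (by norm_num) (by norm_num)).2.2).2 h4)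
  · intro y x t h1 h2 h3 h4
    exact D.disjc (PdsM_A PdsM_F (y, 0)) (Gp ε (x, t)).1 (Gp ε (x, t)).2
      ((Gp_off hε hε' (x, t)).2 h1) (fun h => h2 ((PdsM_onC hε hε' (x, t)).1 h))
      (((PdsM_rng hε hε' (x, t) (a := 0) (b := 1) (by norm_num) (by norm_num)).2.1).2 h3)
      (((PdsM_rng hε hε' (x, t) (a := 0) (b := 1) (by norm_num) (by norm_num)).2.2).2 h4)
  · intro y θ x₀
    exact D.disjbc (PdsM_A PdsM_F (y, 0)) θ x₀
  · intro q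
    rcases D.cover q with h | ⟨y, hy⟩ | ⟨x, t, h1, h2, h3, h4, h5⟩
    · exact Or.inl h
    · obtain ⟨Y, hY⟩ := hjc0 y
      refine Or.inr (Or.inl ⟨Y, ?_⟩)
      rw [hY, hy]
    · refine Or.inr (Or.inr ⟨(Gp' ε (x, t)).1, (Gp' ε (x, t)).2, ?_, ?_, ?_, ?_, ?_⟩)
      · rw [← Gp_off hε hε' (Gp' ε (x, t)), Gp_Gp' hε hε']
        exact h1
      · rw [← PdsM_onC hε hε' (Gp' ε (x, t)), Gp_Gp' hε hε']
        exact h2
      · have h6 := (PdsM_rng hε hε' (Gp' ε (x, t)) (a := 0) (b := 1) (by norm_num) (by norm_num)).2.1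
        rw [Gp_Gp' hε hε'] at h6
        exact h6.1 h3
      · have h6 := (PdsM_rng hε hε' (Gp' ε (x, t)) (a := 0) (b := 1) (by norm_num) (by norm_num)).2.2
        rw [Gp_Gp' hε hε'] at h6
        exact h6.1 h4
      · change q = D.H (Gp ε (Gp' ε (x, t)))
        rw [Gp_Gp' hε hε']
        exact h5

end Pool.Agent.CSP
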