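import Pool.Agent.CSP.QsM
import Pool.Agent.CSG.LDa
import Pool.Agent.CSG.LDb
import Pool.Agent.RSG.LDc
import Pool.Agent.RSG.ExM
import Pool.Agent.RSG.GlkM

/-!
# CSP/QmA: `Qm` near the sphere `c1 = 0`   (difficulty 3)

`fh z ≠ 0`, `a = ‖c1 z‖² < 1/20`.  `yS z` is the point `(-ht, Re (ω c2), Im (ω c2))/√(1 - a)`, `ω = fh/|fh|`:
the vector has norm `√(ht² + ‖c2‖²) = √(1 - a) > 0` (`S4_sq`, `toSph`).
* `Qm_jc`: `Qm D z = D.jc (yS z, zeS z)`.  For `c1 z = 0`: definition (`zeS z = 0`).  For `c1 z ≠ 0`: let `u = uS z`,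
  `s = ‖zeS z‖ = 2 ‖c1‖ √(1 - a)`, `0 < s < 1`, `zeS z = s ex u` (`c1 z = ‖c1 z‖ ex u`, `Complex.norm_mul_exp_arg_mul_I`);
  `D.gluec`: the point is `D.H (pt (1/2 + ε s y0) u (1/2 + Re ζ), 1/2 + Im ζ)`, `ε s y0 = -2 ε ‖c1‖ ht = xiS ε z`
  (`wX a = 1` as `a ≤ 1/20`), `ζ = ε s ex (-u) yc (yS z) = 2 ε ‖c1‖ ex (-u) ω c2 = etaS ε z` (`‖c1‖ ex (-u) = conj (c1)`).
* `Qm_ldA` at `c1 z = 0`: near `z` `a < 1/20` and `fh ≠ 0`, so `Qm D = D.jc ∘ (yS, zeS)` near `z`, and `(yS, zeS)`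
  is a local diffeomorphism `S4 → S2 × ℂ` at `z`: smooth near `z` (`toSph_smooth`, `SphA_*`, `fh z ≠ 0`); the inverse:
  given `(y, ζ)` with `‖ζ‖ < 1/4`, let `q = ‖ζ‖²`, `a = (1 - √(1 - q))/2` (so `4 a (1 - a) = q`, smooth in `ζ`),
  `c1 = ζ/(2 √(1 - a))`, `ht = -√(1 - a) y0`, `‖c2‖² = 1 - a - ht²` is known, so `fh = (a - ‖c2‖²) + i ht √(2 - ht²)`
  is a smooth function `f (y, ζ)` of `(y, ζ)`, not zero near the point (where `a = 0`, `|f| = 1`), and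
  `c2 = conj (f/|f|) √(1 - a) yc y`.  The map `(y, ζ) ↦ pS4 c1 c2 ht` is smooth and inverse to
  `(yS, zeS)` near the point: `ld_two` (compare GlkM_P, GlkM_R in RSG/GlkM).  Then `D.jc_loc`.
-/

open scoped Manifold ContDiff Topology

namespace Pool.Agent.CSP
open Pool.Agent.CSG (pt)
open Pool.Agent.RSG (E4 S4 ex c1 c2 ht fh)

/-! ### the point `yS z` -/

/-- `ω c2`, `ω = fh/|fh|` -/
noncomputable def QmA_w (z : S4) : ℂ := fh z / ‖fh z‖ * c2 z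

theorem QmA_yS (z : S4) : yS z = RSG.pS2 ⟨-ht z, (QmA_w z).re⟩ (QmA_w z).im := rfl

theorem QmA_unit {w : ℂ} (h : w ≠ 0) : ‖w / (‖w‖ : ℂ)‖ = 1 := RSG.GlkM_unit h

theorem QmA_w_norm {z : S4} (h : fh z ≠ 0) : ‖QmA_w z‖ = ‖c2 z‖ := by
  unfold QmA_w
  rw [norm_mul, QmA_unit h, one_mul]

theorem QmA_y0 (y : CSG.S2) : (y : CSG.E3) 0 = (RSG.hz y).re := rfl

theorem QmA_yc (y : CSG.S2) : TS.yc y = ⟨(RSG.hz y).im, RSG.ho y⟩ := by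
  apply Complex.ext <;> simp [TS.yc, RSG.hz, RSG.ho]

theorem QmA_ysq (y : CSG.S2) : (y : CSG.E3) 0 ^ 2 + ‖TS.yc y‖ ^ 2 = 1 := by
  have h1 := RSG.S2_sq y
  rw [QmA_y0, QmA_yc]
  rw [Complex.sq_norm, Complex.normSq_apply] at h1 ⊢
  simp only
  linarith

theorem QmA_ext {y y' : CSG.S2} (h0 : (y : CSG.E3) 0 = (y' : CSG.E3) 0) (h1 : TS.yc y = TS.yc y') : y = y' := by
  rw [QmA_yc, QmA_yc] at h1
  have h2 := congrArg Complex.re h1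
  have h3 := congrArg Complex.im h1
  exact RSG.S2_ext (Complex.ext h0 h2) h3

/-- normalisation -/
theorem QmA_pS2 {h ρ : ℝ} {b : ℂ} (hρ : 0 < ρ) (H : h ^ 2 + ‖b‖ ^ 2 = ρ ^ 2) :
    ((RSG.pS2 ⟨h, b.re⟩ b.im : CSG.S2) : CSG.E3) 0 = h / ρ ∧
      TS.yc (RSG.pS2 ⟨h, b.re⟩ b.im) = b / ρ := by
  have H' : ‖(⟨h, b.re⟩ : ℂ)‖ ^ 2 + b.im ^ 2 = ρ ^ 2 := by
    rw [← H, Complex.sq_norm, Complex.normSq_apply, Complex.sq_norm, Complex.normSq_apply]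
    simp only
    ring
  obtain ⟨e1, e2⟩ := RSG.GlkM_pS2 hρ H'
  constructor
  · rw [QmA_y0, e1, Complex.div_ofReal_re]
  · rw [QmA_yc, e1, e2]
    apply Complex.ext
    · change ((⟨h, b.re⟩ : ℂ) / (ρ : ℂ)).im = (b / (ρ : ℂ)).re
      rw [Complex.div_ofReal_im, Complex.div_ofReal_re]
    · change b.im / ρ = (b / (ρ : ℂ)).im
      rw [Complex.div_ofReal_im]

theorem QmA_yS_c {z : S4} (h : fh z ≠ 0) (h1 : ‖c1 z‖ ^ 2 < 1) :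
    (yS z : CSG.E3) 0 = -ht z / Real.sqrt (1 - ‖c1 z‖ ^ 2) ∧
      TS.yc (yS z) = QmA_w z / Real.sqrt (1 - ‖c1 z‖ ^ 2) := by
  have h2 : 0 < Real.sqrt (1 - ‖c1 z‖ ^ 2) := Real.sqrt_pos.2 (by linarith)
  rw [QmA_yS]
  refine QmA_pS2 h2 ?_
  rw [QmA_w_norm h, Real.sq_sqrt (by linarith), neg_sq]
  linarith [RSG.S4_sq z]

theorem QmA_conj {z : S4} : (starRingEnd ℂ) (c1 z) = ‖c1 z‖ * ex (-uS z) := by
  have h1 : (‖c1 z‖ : ℂ) * ex (uS z) = c1 z := RSG.ex_arg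
  rw [RSG.ex_neg]
  conv_lhs => rw [← h1]
  rw [map_mul, Complex.conj_ofReal]

variable {X : Type*} [TopologicalSpace X] [ChartedSpace E4 X] {κ : Equiv.Perm CSG.E3} {ε : ℝ} {k : ℤ}

theorem Qm_jc (D : PDs κ ε k X) (hε : 0 < ε) (hε' : ε ≤ 1 / 1000) {z : S4} (h : fh z ≠ 0)
    (h1 : ‖c1 z‖ ^ 2 < 1 / 20) : Qm D z = D.jc (yS z, zeS z) := by
  by_cases h0 : c1 z = 0
  · unfold Qm
    rw [if_pos h0]
    unfold zeS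
    rw [h0, mul_zero]
  · have hp : 0 < ‖c1 z‖ := norm_pos_iff.2 h0
    have hρ : 0 < Real.sqrt (1 - ‖c1 z‖ ^ 2) := Real.sqrt_pos.2 (by linarith)
    have hρ2 : Real.sqrt (1 - ‖c1 z‖ ^ 2) ^ 2 = 1 - ‖c1 z‖ ^ 2 := Real.sq_sqrt (by linarith)
    have hu : (‖c1 z‖ : ℂ) * ex (uS z) = c1 z := RSG.ex_arg
    obtain ⟨y0, y1⟩ := QmA_yS_c h (by linarith)
    set ρ := Real.sqrt (1 - ‖c1 z‖ ^ 2)
    have hs1 : 2 * ρ * ‖c1 z‖ < 1 := by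
      have : (2 * ρ * ‖c1 z‖) ^ 2 < 1 := by
        have : (2 * ρ * ‖c1 z‖) ^ 2 = 4 * ρ ^ 2 * ‖c1 z‖ ^ 2 := by ring
        rw [this, hρ2]
        nlinarith [sq_nonneg ‖c1 z‖]
      nlinarith [mul_pos (mul_pos two_pos hρ) hp]
    have hz : zeS z = ((2 * ρ * ‖c1 z‖ : ℝ) : ℂ) * ex (uS z) := by
      have : zeS z = ((2 * ρ : ℝ) : ℂ) * ((‖c1 z‖ : ℂ) * ex (uS z)) := by
        rw [hu]
        rfl
      rw [this]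
      push_cast
      ring
    rw [hz, D.gluec (yS z) (uS z) (2 * ρ * ‖c1 z‖) (by positivity) hs1]
    unfold Qm
    rw [if_neg h0]
    have hw : wX (‖c1 z‖ ^ 2) = 1 := by
      unfold wX
      rw [CSG.stp_zero (by norm_num) h1.le, sub_zero]
    have e0 : xiS ε z = ε * (2 * ρ * ‖c1 z‖) * (yS z : CSG.E3) 0 := by
      unfold xiS
      rw [hw, y0]
      field_simp
      ring
    have e1 : etaS ε z = (ε : ℂ) * ((2 * ρ * ‖c1 z‖ : ℝ) : ℂ) * ex (-uS z) * TS.yc (yS z) := by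
      unfold etaS
      rw [y1, QmA_conj]
      unfold QmA_w
      have : (ρ : ℂ) ≠ 0 := by exact_mod_cast hρ.ne'
      push_cast
      field_simp
    unfold qS
    rw [e0, e1]

/-! ### the inverse -/

/-- `1 - a` as a function of `ζ` -/
noncomputable def QmA_b (ζ : ℂ) : ℝ := (1 + Real.sqrt (1 - ‖ζ‖ ^ 2)) / 2
noncomputable def QmA_yv (v : CSG.E3) : ℂ := ⟨v 1, v 2⟩
noncomputable def QmA_h (q : CSG.E3 × ℂ) : ℝ := -(Real.sqrt (QmA_b q.2) * q.1 0)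
noncomputable def QmA_f (q : CSG.E3 × ℂ) : ℂ :=
  ⟨(1 - QmA_b q.2) - QmA_b q.2 * ‖QmA_yv q.1‖ ^ 2, QmA_h q * Real.sqrt (2 - QmA_h q ^ 2)⟩
noncomputable def QmA_c1 (q : CSG.E3 × ℂ) : ℂ := ((1 / (2 * Real.sqrt (QmA_b q.2)) : ℝ) : ℂ) * q.2
noncomputable def QmA_c2 (q : CSG.E3 × ℂ) : ℂ :=
  (starRingEnd ℂ) (QmA_f q) / ‖QmA_f q‖ * (((Real.sqrt (QmA_b q.2) : ℝ) : ℂ) * QmA_yv q.1)
noncomputable def QmA_g (q : CSG.S2 × ℂ) : S4 :=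
  RSG.pS4 (QmA_c1 ((q.1 : CSG.E3), q.2)) (QmA_c2 ((q.1 : CSG.E3), q.2)) (QmA_h ((q.1 : CSG.E3), q.2))

theorem QmA_yv_eq (y : CSG.S2) : QmA_yv (y : CSG.E3) = TS.yc y := by
  rw [QmA_yc]
  rfl

theorem QmA_b_pos (ζ : ℂ) : 1 / 2 ≤ QmA_b ζ := by
  unfold QmA_b
  linarith [Real.sqrt_nonneg (1 - ‖ζ‖ ^ 2)]

theorem QmA_b_q {ζ : ℂ} (h : ‖ζ‖ < 1) : 4 * (1 - QmA_b ζ) * QmA_b ζ = ‖ζ‖ ^ 2 := by
  unfold QmA_b
  have h1 : Real.sqrt (1 - ‖ζ‖ ^ 2) ^ 2 = 1 - ‖ζ‖ ^ 2 := Real.sq_sqrt (by nlinarith [norm_nonneg ζ])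
  linear_combination (-1) * h1

theorem QmA_b_le {ζ : ℂ} (h : ‖ζ‖ < 1) : QmA_b ζ ≤ 1 := by
  unfold QmA_b
  have h1 : Real.sqrt (1 - ‖ζ‖ ^ 2) ≤ 1 := Real.sqrt_le_one.2 (by nlinarith [sq_nonneg ‖ζ‖])
  linarith

theorem QmA_h_sq (y : CSG.S2) (ζ : ℂ) : QmA_h ((y : CSG.E3), ζ) ^ 2 = QmA_b ζ * (y : CSG.E3) 0 ^ 2 := by
  unfold QmA_h
  have h1 : Real.sqrt (QmA_b ζ) ^ 2 = QmA_b ζ := Real.sq_sqrt (by linarith [QmA_b_pos ζ])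
  linear_combination ((y : CSG.E3) 0 ^ 2) * h1

theorem QmA_h_lt (y : CSG.S2) {ζ : ℂ} (h : ‖ζ‖ < 1) : QmA_h ((y : CSG.E3), ζ) ^ 2 ≤ 1 := by
  rw [QmA_h_sq]
  have h1 := QmA_ysq y
  have h2 := QmA_b_le h
  have h3 := QmA_b_pos ζ
  nlinarith [sq_nonneg ‖TS.yc y‖, sq_nonneg ((y : CSG.E3) 0)]

theorem QmA_f_sq (y : CSG.S2) {ζ : ℂ} (h : ‖ζ‖ < 1) :
    ‖QmA_f ((y : CSG.E3), ζ)‖ ^ 2 = 1 - ‖ζ‖ ^ 2 * ‖TS.yc y‖ ^ 2 := by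
  have h1 := QmA_h_sq y ζ
  have h2 := QmA_h_lt y h
  have h3 := QmA_ysq y
  have h4 := QmA_b_q h
  have h5 : Real.sqrt (2 - QmA_h ((y : CSG.E3), ζ) ^ 2) ^ 2 = 2 - QmA_h ((y : CSG.E3), ζ) ^ 2 :=
    Real.sq_sqrt (by linarith)
  unfold QmA_f
  rw [RSG.SphB_cx, mul_pow, h5, h1, QmA_yv_eq]
  simp only
  have h6 : (y : CSG.E3) 0 ^ 2 = 1 - ‖TS.yc y‖ ^ 2 := by linarith
  rw [h6]
  linear_combination (-‖TS.yc y‖ ^ 2) * h4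

theorem QmA_f_ne (y : CSG.S2) {ζ : ℂ} (h : ‖ζ‖ < 1) : QmA_f ((y : CSG.E3), ζ) ≠ 0 := by
  intro h0
  have h1 := QmA_f_sq y h
  rw [h0, norm_zero] at h1
  have h2 := QmA_ysq y
  have h3 : ‖ζ‖ ^ 2 < 1 := by nlinarith [norm_nonneg ζ]
  nlinarith [sq_nonneg ‖TS.yc y‖, sq_nonneg ((y : CSG.E3) 0), sq_nonneg ‖ζ‖]

theorem QmA_c1_norm {y : CSG.S2} {ζ : ℂ} (h : ‖ζ‖ < 1) :
    ‖QmA_c1 ((y : CSG.E3), ζ)‖ ^ 2 = 1 - QmA_b ζ := by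
  have h1 := QmA_b_pos ζ
  have h2 : Real.sqrt (QmA_b ζ) ^ 2 = QmA_b ζ := Real.sq_sqrt (by linarith)
  have h3 : 0 < Real.sqrt (QmA_b ζ) := Real.sqrt_pos.2 (by linarith)
  have h4 := QmA_b_q h
  unfold QmA_c1
  rw [norm_mul, Complex.norm_real, Real.norm_of_nonneg (by positivity), mul_pow, div_pow, mul_pow, h2]
  simp only
  rw [← h4]
  field_simp
  ring

theorem QmA_c2_norm (y : CSG.S2) {ζ : ℂ} (h : ‖ζ‖ < 1) :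
    ‖QmA_c2 ((y : CSG.E3), ζ)‖ ^ 2 = QmA_b ζ * ‖TS.yc y‖ ^ 2 := by
  have h1 := QmA_b_pos ζ
  have h2 : Real.sqrt (QmA_b ζ) ^ 2 = QmA_b ζ := Real.sq_sqrt (by linarith)
  unfold QmA_c2
  rw [norm_mul, RSG.GlkM_unit' (QmA_f_ne y h), one_mul, norm_mul, Complex.norm_real,
    Real.norm_of_nonneg (Real.sqrt_nonneg _), mul_pow, h2, QmA_yv_eq]

theorem QmA_g_c (y : CSG.S2) {ζ : ℂ} (h : ‖ζ‖ < 1) :
    c1 (QmA_g (y, ζ)) = QmA_c1 ((y : CSG.E3), ζ) ∧ c2 (QmA_g (y, ζ)) = QmA_c2 ((y : CSG.E3), ζ) ∧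
      ht (QmA_g (y, ζ)) = QmA_h ((y : CSG.E3), ζ) := by
  refine RSG.pS4_c ?_
  rw [QmA_c1_norm h, QmA_c2_norm y h, QmA_h_sq]
  linear_combination (QmA_b ζ) * (QmA_ysq y)

theorem QmA_g_fh (y : CSG.S2) {ζ : ℂ} (h : ‖ζ‖ < 1) : fh (QmA_g (y, ζ)) = QmA_f ((y : CSG.E3), ζ) := by
  obtain ⟨e1, e2, e3⟩ := QmA_g_c y h
  unfold fh
  rw [e1, e2, e3, QmA_c1_norm h, QmA_c2_norm y h]
  unfold QmA_f
  rw [QmA_yv_eq]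

/-- `(yS, zeS) ∘ g = id` -/
theorem QmA_Fg (q : CSG.S2 × ℂ) (h : ‖q.2‖ < 1) : (yS (QmA_g q), zeS (QmA_g q)) = q := by
  obtain ⟨y, ζ⟩ := q
  obtain ⟨e1, e2, e3⟩ := QmA_g_c y h
  have e4 := QmA_g_fh y h
  have h1 := QmA_b_pos ζ
  have h2 : Real.sqrt (QmA_b ζ) ^ 2 = QmA_b ζ := Real.sq_sqrt (by linarith)
  have h3 : 0 < Real.sqrt (QmA_b ζ) := Real.sqrt_pos.2 (by linarith)
  have hn : 1 - ‖c1 (QmA_g (y, ζ))‖ ^ 2 = QmA_b ζ := by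
    rw [e1, QmA_c1_norm h]
    ring
  have hfn : fh (QmA_g (y, ζ)) ≠ 0 := by
    rw [e4]
    exact QmA_f_ne y h
  obtain ⟨y0, y1⟩ := QmA_yS_c (z := QmA_g (y, ζ)) hfn (by linarith)
  rw [hn] at y0 y1
  have hne : (Real.sqrt (QmA_b ζ) : ℂ) ≠ 0 := by exact_mod_cast h3.ne'
  refine Prod.ext (QmA_ext ?_ ?_) ?_
  · change (yS (QmA_g (y, ζ)) : CSG.E3) 0 = (y : CSG.E3) 0
    rw [y0, e3]
    unfold QmA_h
    rw [neg_neg]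
    exact mul_div_cancel_left₀ _ h3.ne'
  · change TS.yc (yS (QmA_g (y, ζ))) = TS.yc y
    rw [y1]
    unfold QmA_w
    rw [e2, e4]
    unfold QmA_c2
    rw [← mul_assoc, QmA_yv_eq]
    have h5 : QmA_f ((y : CSG.E3), ζ) / ‖QmA_f ((y : CSG.E3), ζ)‖ *
        ((starRingEnd ℂ) (QmA_f ((y : CSG.E3), ζ)) / ‖QmA_f ((y : CSG.E3), ζ)‖) = 1 := by
      have h6 : (‖QmA_f ((y : CSG.E3), ζ)‖ : ℂ) ≠ 0 := by
        exact_mod_cast norm_ne_zero_iff.2 (QmA_f_ne y h)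
      have h7 := Complex.mul_conj' (QmA_f ((y : CSG.E3), ζ))
      field_simp
      exact h7
    rw [h5, one_mul]
    exact mul_div_cancel_left₀ _ hne
  · change zeS (QmA_g (y, ζ)) = ζ
    unfold zeS
    rw [hn, e1]
    unfold QmA_c1
    push_cast
    field_simp

/-- `g ∘ (yS, zeS) = id` -/
theorem QmA_gF {z : S4} (h : fh z ≠ 0) (h1 : ‖c1 z‖ ^ 2 < 1 / 2) : QmA_g (yS z, zeS z) = z := by
  have hρ : 0 < Real.sqrt (1 - ‖c1 z‖ ^ 2) := Real.sqrt_pos.2 (by linarith)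
  have hρ2 : Real.sqrt (1 - ‖c1 z‖ ^ 2) ^ 2 = 1 - ‖c1 z‖ ^ 2 := Real.sq_sqrt (by linarith)
  obtain ⟨y0, y1⟩ := QmA_yS_c h (by linarith)
  have hze : ‖zeS z‖ ^ 2 = 4 * (1 - ‖c1 z‖ ^ 2) * ‖c1 z‖ ^ 2 := by
    unfold zeS
    rw [norm_mul, Complex.norm_real, Real.norm_of_nonneg (by positivity), mul_pow, mul_pow, hρ2]
    ring
  have hzl : ‖zeS z‖ < 1 := by
    have : ‖zeS z‖ ^ 2 < 1 := by
      rw [hze]
      nlinarith [sq_nonneg (1 - 2 * ‖c1 z‖ ^ 2)]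
    nlinarith [norm_nonneg (zeS z)]
  have hb : QmA_b (zeS z) = 1 - ‖c1 z‖ ^ 2 := by
    unfold QmA_b
    rw [hze]
    have : 1 - 4 * (1 - ‖c1 z‖ ^ 2) * ‖c1 z‖ ^ 2 = (1 - 2 * ‖c1 z‖ ^ 2) ^ 2 := by ring
    rw [this, Real.sqrt_sq (by linarith)]
    ring
  obtain ⟨e1, e2, e3⟩ := QmA_g_c (yS z) hzl
  have hne : (Real.sqrt (1 - ‖c1 z‖ ^ 2) : ℂ) ≠ 0 := by exact_mod_cast hρ.ne'
  have hyn : ‖TS.yc (yS z)‖ ^ 2 = ‖c2 z‖ ^ 2 / (1 - ‖c1 z‖ ^ 2) := by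
    rw [y1, norm_div, Complex.norm_real, Real.norm_of_nonneg hρ.le, div_pow, hρ2, QmA_w_norm h]
  have hh : QmA_h ((yS z : CSG.E3), zeS z) = ht z := by
    unfold QmA_h
    rw [hb, y0]
    field_simp
  have hf : QmA_f ((yS z : CSG.E3), zeS z) = fh z := by
    unfold QmA_f fh
    rw [hh, hb, QmA_yv_eq, hyn]
    have h3 : (1 - ‖c1 z‖ ^ 2) ≠ 0 := by
      intro h4
      linarith
    congr 1
    field_simp
    ring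
  refine RSG.S4_ext ?_ ?_ ?_
  · rw [e1]
    change ((1 / (2 * Real.sqrt (QmA_b (zeS z))) : ℝ) : ℂ) * zeS z = c1 z
    rw [hb]
    unfold zeS
    push_cast
    field_simp
  · rw [e2]
    unfold QmA_c2
    rw [hf, hb, QmA_yv_eq, y1]
    unfold QmA_w
    have h6 : (‖fh z‖ : ℂ) ≠ 0 := by exact_mod_cast norm_ne_zero_iff.2 h
    have h7 := Complex.mul_conj' (fh z)
    field_simp
    linear_combination (c2 z) * h7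
  · rw [e3, hh]

/-! ### smoothness -/

theorem QmA_b_smooth {q : CSG.E3 × ℂ} (h : ‖q.2‖ < 1) : ContDiffAt ℝ ∞ (fun q : CSG.E3 × ℂ => QmA_b q.2) q := by
  have h1 : ContDiffAt ℝ ∞ (fun q : CSG.E3 × ℂ => 1 - ‖q.2‖ ^ 2) q :=
    contDiffAt_const.sub (((contDiff_norm_sq ℝ).comp contDiff_snd).contDiffAt)
  have h2 : (1 : ℝ) - ‖q.2‖ ^ 2 ≠ 0 := by nlinarith [norm_nonneg q.2]
  exact (contDiffAt_const.add (h1.sqrt h2)).div_const 2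

theorem QmA_sb_smooth {q : CSG.E3 × ℂ} (h : ‖q.2‖ < 1) :
    ContDiffAt ℝ ∞ (fun q : CSG.E3 × ℂ => Real.sqrt (QmA_b q.2)) q :=
  (QmA_b_smooth h).sqrt (by have := QmA_b_pos q.2; intro h1; linarith)

theorem QmA_coord (i : Fin 3) (q : CSG.E3 × ℂ) : ContDiffAt ℝ ∞ (fun q : CSG.E3 × ℂ => q.1 i) q := by
  have h1 : ContDiff ℝ ∞ fun z : CSG.E3 => z i := (EuclideanSpace.proj (𝕜 := ℝ) i).contDiff
  exact (h1.comp contDiff_fst).contDiffAt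

theorem QmA_mk {V : Type*} [NormedAddCommGroup V] [NormedSpace ℝ V] {f g : V → ℝ} {x : V}
    (hf : ContDiffAt ℝ ∞ f x) (hg : ContDiffAt ℝ ∞ g x) : ContDiffAt ℝ ∞ (fun x => (⟨f x, g x⟩ : ℂ)) x := by
  have h1 : ContDiff ℝ ∞ fun z : ℝ × ℝ => (⟨z.1, z.2⟩ : ℂ) :=
    Complex.equivRealProdCLM.symm.contDiff
  exact h1.contDiffAt.comp x (hf.prodMk hg)

theorem QmA_h_smooth {q : CSG.E3 × ℂ} (h : ‖q.2‖ < 1) : ContDiffAt ℝ ∞ QmA_h q :=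
  ((QmA_sb_smooth h).mul (QmA_coord 0 q)).neg

theorem QmA_yv_smooth (q : CSG.E3 × ℂ) : ContDiffAt ℝ ∞ (fun q : CSG.E3 × ℂ => QmA_yv q.1) q :=
  QmA_mk (QmA_coord 1 q) (QmA_coord 2 q)

theorem QmA_f_smooth {q : CSG.E3 × ℂ} (h : ‖q.2‖ < 1) (h2 : QmA_h q ^ 2 < 2) : ContDiffAt ℝ ∞ QmA_f q := by
  have h3 : ContDiffAt ℝ ∞ (fun q : CSG.E3 × ℂ => ‖QmA_yv q.1‖ ^ 2) q :=
    (contDiff_norm_sq ℝ (E := ℂ)).contDiffAt.comp q (QmA_yv_smooth q)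
  have h4 : ContDiffAt ℝ ∞ (fun q : CSG.E3 × ℂ => Real.sqrt (2 - QmA_h q ^ 2)) q :=
    (contDiffAt_const.sub ((QmA_h_smooth h).pow 2)).sqrt (by intro h5; linarith)
  exact QmA_mk ((contDiffAt_const.sub (QmA_b_smooth h)).sub ((QmA_b_smooth h).mul h3))
    ((QmA_h_smooth h).mul h4)

theorem QmA_ofReal {V : Type*} [NormedAddCommGroup V] [NormedSpace ℝ V] {f : V → ℝ} {x : V}
    (hf : ContDiffAt ℝ ∞ f x) : ContDiffAt ℝ ∞ (fun x => ((f x : ℝ) : ℂ)) x :=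
  Complex.ofRealCLM.contDiff.contDiffAt.comp x hf

theorem QmA_c1_smooth {q : CSG.E3 × ℂ} (h : ‖q.2‖ < 1) : ContDiffAt ℝ ∞ QmA_c1 q := by
  have h1 : ContDiffAt ℝ ∞ (fun q : CSG.E3 × ℂ => 1 / (2 * Real.sqrt (QmA_b q.2))) q := by
    refine contDiffAt_const.div (contDiffAt_const.mul (QmA_sb_smooth h)) ?_
    have h3 : 0 < Real.sqrt (QmA_b q.2) := Real.sqrt_pos.2 (by linarith [QmA_b_pos q.2])
    positivity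
  exact (QmA_ofReal h1).mul contDiffAt_snd

theorem QmA_c2_smooth {q : CSG.E3 × ℂ} (h : ‖q.2‖ < 1) (h2 : QmA_h q ^ 2 < 2) (h3 : QmA_f q ≠ 0) :
    ContDiffAt ℝ ∞ QmA_c2 q := by
  have h4 : ContDiffAt ℝ ∞ (fun q : CSG.E3 × ℂ => (starRingEnd ℂ) (QmA_f q) / ‖QmA_f q‖) q :=
    ContDiffAt.comp (g := fun w : ℂ => (starRingEnd ℂ) w / (‖w‖ : ℂ)) q (RSG.GlkM_dir'_smooth h3)
      (QmA_f_smooth h h2)
  exact h4.mul ((QmA_ofReal (QmA_sb_smooth h)).mul (QmA_yv_smooth q))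

theorem QmA_incl (q : CSG.S2 × ℂ) : ContMDiffAt ((𝓡 2).prod 𝓘(ℝ, ℂ)) 𝓘(ℝ, CSG.E3 × ℂ) ∞
    (fun q : CSG.S2 × ℂ => (((q.1 : CSG.E3), q.2) : CSG.E3 × ℂ)) q := by
  have := Fact.mk (@finrank_euclideanSpace_fin ℝ _ (2 + 1))
  have h0 : ContMDiff (𝓡 2) 𝓘(ℝ, CSG.E3) ∞ (Subtype.val : CSG.S2 → CSG.E3) := contMDiff_coe_sphere (n := 2)
  have h1 : ContMDiffAt ((𝓡 2).prod 𝓘(ℝ, ℂ)) 𝓘(ℝ, CSG.E3) ∞ (fun q : CSG.S2 × ℂ => (q.1 : CSG.E3)) q :=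
    (h0 q.1).comp q contMDiffAt_fst
  exact h1.prodMk_space contMDiffAt_snd

theorem QmA_g_smooth {q : CSG.S2 × ℂ} (h : ‖q.2‖ < 1) :
    ContMDiffAt ((𝓡 2).prod 𝓘(ℝ, ℂ)) (𝓡 4) ∞ QmA_g q := by
  have hi := QmA_incl q
  have h2 : QmA_h ((q.1 : CSG.E3), q.2) ^ 2 < 2 := by linarith [QmA_h_lt q.1 h]
  have h3 := QmA_f_ne q.1 h
  have a1 : ContMDiffAt ((𝓡 2).prod 𝓘(ℝ, ℂ)) 𝓘(ℝ, ℂ) ∞
      (fun q : CSG.S2 × ℂ => QmA_c1 ((q.1 : CSG.E3), q.2)) q :=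
    ContMDiffAt.comp (g := QmA_c1) q (QmA_c1_smooth (q := ((q.1 : CSG.E3), q.2)) h).contMDiffAt hi
  have a2 : ContMDiffAt ((𝓡 2).prod 𝓘(ℝ, ℂ)) 𝓘(ℝ, ℂ) ∞
      (fun q : CSG.S2 × ℂ => QmA_c2 ((q.1 : CSG.E3), q.2)) q :=
    ContMDiffAt.comp (g := QmA_c2) q (QmA_c2_smooth (q := ((q.1 : CSG.E3), q.2)) h h2 h3).contMDiffAt hi
  have a3 : ContMDiffAt ((𝓡 2).prod 𝓘(ℝ, ℂ)) 𝓘(ℝ, ℝ) ∞
      (fun q : CSG.S2 × ℂ => QmA_h ((q.1 : CSG.E3), q.2)) q :=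
    ContMDiffAt.comp (g := QmA_h) q (QmA_h_smooth (q := ((q.1 : CSG.E3), q.2)) h).contMDiffAt hi
  refine RSG.pS4_smooth a1 a2 a3 ?_
  rw [QmA_c1_norm h, QmA_c2_norm q.1 h, QmA_h_sq]
  have := QmA_ysq q.1
  nlinarith [QmA_b_pos q.2]

theorem QmA_ze_smooth {z : S4} (h : ‖c1 z‖ ^ 2 < 1) : ContMDiffAt (𝓡 4) 𝓘(ℝ, ℂ) ∞ zeS z := by
  have h1 : ContDiffAt ℝ ∞ (fun w : ℂ => ((2 * Real.sqrt (1 - ‖w‖ ^ 2) : ℝ) : ℂ) * w) (c1 z) := by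
    have h2 : ContDiffAt ℝ ∞ (fun w : ℂ => Real.sqrt (1 - ‖w‖ ^ 2)) (c1 z) :=
      (contDiffAt_const.sub ((contDiff_norm_sq ℝ).contDiffAt)).sqrt (by intro h5; linarith)
    exact (QmA_ofReal (contDiffAt_const.mul h2)).mul contDiffAt_id
  exact ContMDiffAt.comp (g := fun w : ℂ => ((2 * Real.sqrt (1 - ‖w‖ ^ 2) : ℝ) : ℂ) * w) z
    h1.contMDiffAt (RSG.c1_smooth z)

theorem QmA_w_smooth {z : S4} (h : fh z ≠ 0) : ContMDiffAt (𝓡 4) 𝓘(ℝ, ℂ) ∞ QmA_w z := by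
  have h1 : ContMDiffAt (𝓡 4) 𝓘(ℝ, ℂ) ∞ (fun z : S4 => fh z / (‖fh z‖ : ℂ)) z :=
    ContMDiffAt.comp (g := fun w : ℂ => w / (‖w‖ : ℂ)) z (RSG.GlkM_dir_smooth h).contMDiffAt
      (RSG.fh_smooth z)
  exact RSG.GlkM_mul h1 (RSG.c2_smooth z)

theorem QmA_yS_smooth {z : S4} (h : fh z ≠ 0) (h1 : ‖c1 z‖ ^ 2 < 1) :
    ContMDiffAt (𝓡 4) (𝓡 2) ∞ yS z := by
  have h2 := RSG.SphA_c (QmA_w_smooth h)
  have h3 : ContMDiffAt (𝓡 4) 𝓘(ℝ, ℂ) ∞ (fun z : S4 => (⟨-ht z, (QmA_w z).re⟩ : ℂ)) z := by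
    have h4 : ContDiff ℝ ∞ fun z : ℝ × ℝ => (⟨-z.1, z.2⟩ : ℂ) := by
      have h5 : ContDiff ℝ ∞ fun z : ℝ × ℝ => (⟨z.1, z.2⟩ : ℂ) :=
        Complex.equivRealProdCLM.symm.contDiff
      exact h5.comp (contDiff_fst.neg.prodMk contDiff_snd)
    exact ContMDiffAt.comp (g := fun z : ℝ × ℝ => (⟨-z.1, z.2⟩ : ℂ)) z h4.contDiffAt.contMDiffAt
      ((RSG.ht_smooth z).prodMk_space h2.1)
  refine RSG.pS2_smooth h3 h2.2 ?_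
  have h4 : ‖(⟨-ht z, (QmA_w z).re⟩ : ℂ)‖ ^ 2 + (QmA_w z).im ^ 2 = ht z ^ 2 + ‖QmA_w z‖ ^ 2 := by
    rw [Complex.sq_norm, Complex.normSq_apply, Complex.sq_norm, Complex.normSq_apply]
    simp only
    ring
  change 0 < ‖(⟨-ht z, (QmA_w z).re⟩ : ℂ)‖ ^ 2 + (QmA_w z).im ^ 2
  rw [h4, QmA_w_norm h]
  linarith [RSG.S4_sq z]

theorem QmA_F_ld {z : S4} (h : fh z ≠ 0) (h1 : c1 z = 0) :
    IsLocalDiffeomorphAt (𝓡 4) ((𝓡 2).prod 𝓘(ℝ, ℂ)) ∞ (fun z => (yS z, zeS z)) z := by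
  have ev1 : ∀ᶠ y in 𝓝 z, fh y ≠ 0 := RSG.fh_smooth.continuous.continuousAt.eventually_ne h
  have ev2 : ∀ᶠ y in 𝓝 z, ‖c1 y‖ ^ 2 < 1 / 2 := by
    refine (((RSG.c1_smooth.continuous.norm).pow 2).continuousAt).eventually_lt_const ?_
    change ‖c1 z‖ ^ 2 < 1 / 2
    rw [h1, norm_zero]
    norm_num
  have hz : zeS z = 0 := by
    unfold zeS
    rw [h1, mul_zero]
  have ev3 : ∀ᶠ q in 𝓝 ((yS z, zeS z) : CSG.S2 × ℂ), ‖q.2‖ < 1 := by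
    refine (continuous_snd.norm.continuousAt).eventually_lt_const ?_
    change ‖zeS z‖ < 1
    rw [hz, norm_zero]
    exact zero_lt_one
  refine RSG.ld_two (g := QmA_g) ?_ ?_ ?_ ?_
  · filter_upwards [ev1, ev2] with y hy hy'
    exact (QmA_yS_smooth hy (by linarith)).prodMk (QmA_ze_smooth (by linarith))
  · filter_upwards [ev3] with q hq using QmA_g_smooth hq
  · filter_upwards [ev1, ev2] with y hy hy' using QmA_gF hy hy'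
  · filter_upwards [ev3] with q hq using QmA_Fg q hq

theorem Qm_ldA (D : PDs κ ε k X) (hε : 0 < ε) (hε' : ε ≤ 1 / 1000) {z : S4} (h : fh z ≠ 0) (h1 : c1 z = 0) :
    IsLocalDiffeomorphAt (𝓡 4) (𝓡 4) ∞ (Qm D) z := by
  have hz : zeS z = 0 := by
    unfold zeS
    rw [h1, mul_zero]
  have h2 : IsLocalDiffeomorphAt ((𝓡 2).prod 𝓘(ℝ, ℂ)) (𝓡 4) ∞ D.jc (yS z, zeS z) :=
    D.jc_loc (yS z) (zeS z) (by rw [hz, norm_zero]; exact zero_lt_one)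
  have h3 : IsLocalDiffeomorphAt (𝓡 4) (𝓡 4) ∞ (D.jc ∘ fun z => (yS z, zeS z)) z :=
    IsLocalDiffeomorphAt.comp (hf := QmA_F_ld h h1) (hg := h2) ..
  refine CSG.ld_congr h3 ?_
  have ev1 : ∀ᶠ y in 𝓝 z, fh y ≠ 0 := RSG.fh_smooth.continuous.continuousAt.eventually_ne h
  have ev2 : ∀ᶠ y in 𝓝 z, ‖c1 y‖ ^ 2 < 1 / 20 := by
    refine (((RSG.c1_smooth.continuous.norm).pow 2).continuousAt).eventually_lt_const ?_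
    change ‖c1 z‖ ^ 2 < 1 / 20
    rw [h1, norm_zero]
    norm_num
  filter_upwards [ev1, ev2] with y hy hy'
  exact Qm_jc D hε hε' hy hy'

/-- every point of the core is reached -/
theorem yS_surj (y : CSG.S2) : ∃ z : S4, c1 z = 0 ∧ fh z ≠ 0 ∧ yS z = y := by
  have h0 : ‖(0 : ℂ)‖ < 1 := by
    rw [norm_zero]
    exact zero_lt_one
  refine ⟨QmA_g (y, 0), ?_, ?_, ?_⟩
  · rw [(QmA_g_c y h0).1]
    unfold QmA_c1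
    rw [mul_zero]
  · rw [QmA_g_fh y h0]
    exact QmA_f_ne y h0
  · exact congrArg Prod.fst (QmA_Fg (y, 0) h0)

theorem yS_inj {z z' : S4} (h : c1 z = 0) (h' : c1 z' = 0) (he : yS z = yS z') : z = z' := by
  have hf : ∀ {z : S4}, c1 z = 0 → fh z ≠ 0 := by
    intro z hz
    rw [RSG.fh_ne_iff, hz, norm_zero]
    norm_num
  have hz : ∀ {z : S4}, c1 z = 0 → zeS z = 0 := by
    intro z hz
    unfold zeS
    rw [hz, mul_zero]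
  have hn : ∀ {z : S4}, c1 z = 0 → ‖c1 z‖ ^ 2 < 1 / 2 := by
    intro z hz
    rw [hz, norm_zero]
    norm_num
  rw [← QmA_gF (hf h) (hn h), ← QmA_gF (hf h') (hn h'), he, hz h, hz h']

end Pool.Agent.CSP
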