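import Pool.Agent.CSP.QsM
import Pool.Agent.CSG.LDa
import Pool.Agent.CSG.LDb
import Pool.Agent.RSG.LDc
import Pool.Agent.RSG.ExM

/-!
# CSP/QmB: `Qm` is a local diffeomorphism at the points with `c1, c2 ≠ 0`   (difficulty 3)

`z = Gc (-1) 1 (l, v, t)`, `0 < ‖v‖ < 1` for some `(l, v, t)` (`Gc_eq`: every `z` with `fh, c1, c2 ≠ 0` is such a point).
`Gc_ld`: `Gc (-1) 1` is a local diffeomorphism at `(l, v, t)`, so it suffices that `Qm D ∘ Gc (-1) 1` is one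
(`ld_of_comp_left`).  Near `(l, v, t)` (`v ≠ 0`) by `Gc_spec` (`c1 ≠ 0`), `qS_Gc` and `D.H_per` (`qS_off`, `qS_time`)
`Qm D (Gc (-1) 1 (l, v, t)) = D.H (pt (XX ε ‖v‖ (l + t)) (arg v / 2π) (1/2 + (ε ‖v‖ ex l).re), 1/2 + (..).im)`,
and `arg v/2π` may be replaced by `m₀ + arg (v / v₀) / 2π`, `m₀ = arg v₀ / 2π` (they differ by an integer, `D.H_per`).
The map `E (l, v, t) = (pt (XX ε ‖v‖ (l + t)) (m₀ + arg (v/v₀)/2π) (1/2 + (ε ‖v‖ ex l).re), 1/2 + (ε ‖v‖ ex l).im)`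
is smooth near the point and has the differentiable left inverse (`ld_left`, dimensions `1 + 2 + 1 = 3 + 1`)
or use `ld_of_fderiv`: let `(l', v', t')` be in the kernel of the derivative.  From the coordinates 3, 4:
`(‖v‖ ex l)' = 0`, i.e. `‖v‖' = 0` and `l' = 0` (polar coordinates); from the second coordinate `(arg v)' = 0`, so `v' = 0`;
then the first coordinate gives `∂XX/∂φ · t' = 0`, `t' = 0` (`XX_deriv`).
(Alternative: factor `E` as `(l, v, t) ↦ (‖v‖, arg, l, φ = l + t) ↦ (‖v‖, arg, l, XX ‖v‖ φ) ↦ ..`; the middle map is a local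
diffeomorphism by `XX_deriv`, the outer ones are polar coordinates.)
`D.H_loc` at the image (`qS_off`, `qS_time`, `qS_onC`).
-/

open scoped Manifold ContDiff Topology

namespace Pool.Agent.CSP
open Pool.Agent.CSG (pt)
open Pool.Agent.RSG (E4 S4 ex c1 c2 ht fh Gc)

theorem QmB_pt {V : Type*} [NormedAddCommGroup V] [NormedSpace ℝ V] {f g h : V → ℝ} {x : V}
    (hf : ContDiffAt ℝ ∞ f x) (hg : ContDiffAt ℝ ∞ g x) (hh : ContDiffAt ℝ ∞ h x) :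
    ContDiffAt ℝ ∞ (fun y => pt (f y) (g y) (h y)) x := by
  rw [contDiffAt_euclidean]
  intro i
  fin_cases i
  · simpa using hf
  · simpa using hg
  · simpa using hh

/-- the general scheme -/
theorem QmB_base {X : Type*} [TopologicalSpace X] [ChartedSpace E4 X] {κ : Equiv.Perm CSG.E3} {ε : ℝ}
    {k : ℤ} (D : PDs κ ε k X) (hε : 0 < ε) (hε' : ε ≤ 1 / 1000)
    {V : Type*} [NormedAddCommGroup V] [NormedSpace ℝ V] {s : V → S4} {E : V → CSG.E3 × ℝ} {a : V}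
    (hs : IsLocalDiffeomorphAt 𝓘(ℝ, V) (𝓡 4) ∞ s a)
    (hE : IsLocalDiffeomorphAt 𝓘(ℝ, V) 𝓘(ℝ, CSG.E3 × ℝ) ∞ E a)
    (hEa : E a = qS ε (s a)) (h : fh (s a) ≠ 0) (h1 : c1 (s a) ≠ 0)
    (hev : ∀ᶠ b in 𝓝 a, c1 (s b) ≠ 0 ∧ fh (s b) ≠ 0 ∧ (E b).2 = (qS ε (s b)).2 ∧
      ∃ m : Fin 3 → ℤ, (E b).1 = (qS ε (s b)).1 + CSG.vec m) :
    IsLocalDiffeomorphAt (𝓡 4) (𝓡 4) ∞ (Qm D) (s a) := by
  have ht := abs_lt.1 (qS_time hε hε' h)
  have hH : IsLocalDiffeomorphAt 𝓘(ℝ, CSG.E3 × ℝ) (𝓡 4) ∞ D.H (E a) := by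
    rw [hEa]
    exact D.H_loc (qS ε (s a)).1 (qS ε (s a)).2 (by linarith [ht.1]) (by linarith [ht.2])
      (qS_off hε hε' h)
      (qS_onC hε hε' h h1)
  have h2 : IsLocalDiffeomorphAt 𝓘(ℝ, V) (𝓡 4) ∞ (D.H ∘ E) a :=
    IsLocalDiffeomorphAt.comp (hf := hE) (g := D.H) (hg := hH)
  have h3 : IsLocalDiffeomorphAt 𝓘(ℝ, V) (𝓡 4) ∞ (Qm D ∘ s) a := by
    apply CSG.ld_congr h2
    filter_upwards [hev] with b hb
    obtain ⟨b1, b2, b3, m, b4⟩ := hb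
    have htb := abs_lt.1 (qS_time hε hε' b2)
    have h4 := D.H_per (qS ε (s b)).1 (qS ε (s b)).2 m (by linarith [htb.1]) (by linarith [htb.2])
      (qS_off hε hε' b2)
    change Qm D (s b) = D.H (E b)
    unfold Qm
    rw [if_neg b1]
    have h5 : E b = ((qS ε (s b)).1 + CSG.vec m, (qS ε (s b)).2) := Prod.ext b4 b3
    rw [h5, h4]
  exact CSG.ld_of_comp_left h3 hs

theorem QmB_log {r x r₀ x₀ : ℝ} (hr : 0 < r) (hr₀ : 0 < r₀) (h : |x - x₀| < 1 / 2) :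
    (Complex.log (((r : ℂ) * ex x) / ((r₀ : ℂ) * ex x₀))).im = 2 * Real.pi * (x - x₀) := by
  have hne : ((r₀ : ℂ) * ex x₀) ≠ 0 :=
    mul_ne_zero (by exact_mod_cast hr₀.ne') (RSG.ex_ne x₀)
  have h1 : ((r : ℂ) * ex x) / ((r₀ : ℂ) * ex x₀) = ((r / r₀ : ℝ) : ℂ) * ex (x - x₀) := by
    rw [div_eq_iff hne]
    have h2 : ex x = ex (x - x₀) * ex x₀ := by
      rw [← RSG.ex_add]
      congr 1
      ring
    rw [h2, Complex.ofReal_div]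
    have h3 : (r₀ : ℂ) ≠ 0 := by exact_mod_cast hr₀.ne'
    field_simp
  rw [h1, RSG.ex_log (by positivity) (by linarith [(abs_lt.1 h).1]) (by linarith [(abs_lt.1 h).2])]

theorem QmB_slit {r x r₀ x₀ : ℝ} (hr : 0 < r) (hr₀ : 0 < r₀) (h : |x - x₀| < 1 / 4) :
    ((r : ℂ) * ex x) / ((r₀ : ℂ) * ex x₀) ∈ Complex.slitPlane := by
  have hne : ((r₀ : ℂ) * ex x₀) ≠ 0 :=
    mul_ne_zero (by exact_mod_cast hr₀.ne') (RSG.ex_ne x₀)
  have h1 : ((r : ℂ) * ex x) / ((r₀ : ℂ) * ex x₀) = ((r / r₀ : ℝ) : ℂ) * ex (x - x₀) := by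
    rw [div_eq_iff hne]
    have h2 : ex x = ex (x - x₀) * ex x₀ := by
      rw [← RSG.ex_add]
      congr 1
      ring
    rw [h2, Complex.ofReal_div]
    have h3 : (r₀ : ℂ) ≠ 0 := by exact_mod_cast hr₀.ne'
    field_simp
  rw [h1]
  left
  rw [Complex.re_ofReal_mul, RSG.ex_re]
  have hp := Real.pi_pos
  have ha := abs_lt.1 h
  have h4 : 0 < Real.cos (2 * Real.pi * (x - x₀)) := by
    apply Real.cos_pos_of_mem_Ioo
    constructor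
    · nlinarith [ha.1, ha.2]
    · nlinarith [ha.1, ha.2]
  positivity

theorem QmB_ex_diff (x : ℝ) : ContDiffAt ℝ ∞ ex x := RSG.ex_smooth.contDiffAt

/-- polar coordinates in the target -/
theorem QmB_A {ε : ℝ} (hε : 0 < ε) (m₁ u₀ : ℝ) {r₀ x₀ u₁ l₀ : ℝ} (hr : 0 < r₀) :
    IsLocalDiffeomorphAt 𝓘(ℝ, (ℝ × ℝ) × (ℝ × ℝ)) 𝓘(ℝ, CSG.E3 × ℝ) ∞
      (fun q : (ℝ × ℝ) × (ℝ × ℝ) => (pt (q.1.2 + m₁) (u₀ + q.2.1)
        (1 / 2 + ((ε : ℂ) * (q.1.1 : ℂ) * ex q.2.2).re),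
          1 / 2 + ((ε : ℂ) * (q.1.1 : ℂ) * ex q.2.2).im)) ((r₀, x₀), (u₁, l₀)) := by
  have hsm : ∀ q : (ℝ × ℝ) × (ℝ × ℝ), ContDiffAt ℝ ∞
      (fun q : (ℝ × ℝ) × (ℝ × ℝ) => (ε : ℂ) * (q.1.1 : ℂ) * ex q.2.2) q := by
    intro q
    have a1 : ContDiffAt ℝ ∞ (fun q : (ℝ × ℝ) × (ℝ × ℝ) => ((q.1.1 : ℝ) : ℂ)) q :=
      Complex.ofRealCLM.contDiff.contDiffAt.comp q contDiff_fst.fst.contDiffAt
    have a2 : ContDiffAt ℝ ∞ (fun q : (ℝ × ℝ) × (ℝ × ℝ) => ex q.2.2) q :=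
      RSG.ex_smooth.contDiffAt.comp q contDiff_snd.snd.contDiffAt
    exact (contDiffAt_const.mul a1).mul a2
  set w₀ : ℂ := (ε : ℂ) * (r₀ : ℂ) * ex l₀ with hw₀
  have hw : w₀ = ((ε * r₀ : ℝ) : ℂ) * ex l₀ := by rw [hw₀]; push_cast; ring
  have hw0 : w₀ ≠ 0 := by
    rw [hw]
    exact mul_ne_zero (by exact_mod_cast (mul_pos hε hr).ne') (RSG.ex_ne l₀)
  let W : CSG.E3 × ℝ → ℂ := fun p => ((p.1 2 - 1 / 2 : ℝ) : ℂ) + ((p.2 - 1 / 2 : ℝ) : ℂ) * Complex.I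
  let g : CSG.E3 × ℝ → (ℝ × ℝ) × (ℝ × ℝ) := fun p =>
    ((‖W p‖ / ε, p.1 0 - m₁), (p.1 1 - u₀, l₀ + (Complex.log (W p / w₀)).im / (2 * Real.pi)))
  have hWf : ∀ q : (ℝ × ℝ) × (ℝ × ℝ), W (pt (q.1.2 + m₁) (u₀ + q.2.1)
        (1 / 2 + ((ε : ℂ) * (q.1.1 : ℂ) * ex q.2.2).re),
          1 / 2 + ((ε : ℂ) * (q.1.1 : ℂ) * ex q.2.2).im) = ((ε * q.1.1 : ℝ) : ℂ) * ex q.2.2 := by
    intro q
    simp only [W, CSG.pt_two', add_sub_cancel_left]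
    rw [Complex.re_add_im]
    push_cast
    ring
  have hco : ∀ (i : Fin 3) (p : CSG.E3 × ℝ), DifferentiableAt ℝ (fun p : CSG.E3 × ℝ => p.1 i) p := by
    intro i p
    exact ((EuclideanSpace.proj i : CSG.E3 →L[ℝ] ℝ).differentiableAt).comp p differentiableAt_fst
  have hWd : ∀ p, DifferentiableAt ℝ W p := by
    intro p
    have b1 : DifferentiableAt ℝ (fun p : CSG.E3 × ℝ => ((p.1 2 - 1 / 2 : ℝ) : ℂ)) p :=
      Complex.ofRealCLM.differentiableAt.comp p ((hco 2 p).sub_const _)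
    have b2 : DifferentiableAt ℝ (fun p : CSG.E3 × ℝ => ((p.2 - 1 / 2 : ℝ) : ℂ)) p :=
      Complex.ofRealCLM.differentiableAt.comp p (differentiableAt_snd.sub_const _)
    exact b1.add (b2.mul_const _)
  refine RSG.ld_left (g := g) ?_ ?_ ?_ ?_
  · refine Filter.Eventually.of_forall fun q => ?_
    have a1 := hsm q
    have a2 : ContDiffAt ℝ ∞ (fun q : (ℝ × ℝ) × (ℝ × ℝ) =>
        ((ε : ℂ) * (q.1.1 : ℂ) * ex q.2.2).re) q :=
      Complex.reCLM.contDiff.contDiffAt.comp q a1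
    have a3 : ContDiffAt ℝ ∞ (fun q : (ℝ × ℝ) × (ℝ × ℝ) =>
        ((ε : ℂ) * (q.1.1 : ℂ) * ex q.2.2).im) q :=
      Complex.imCLM.contDiff.contDiffAt.comp q a1
    refine (QmB_pt ?_ ?_ ?_).prodMk ?_
    · exact (contDiff_fst.snd.contDiffAt).add contDiffAt_const
    · exact contDiffAt_const.add (contDiff_snd.fst.contDiffAt)
    · exact contDiffAt_const.add a2
    · exact contDiffAt_const.add a3
  · simp
  · set p₀ : CSG.E3 × ℝ := (pt (x₀ + m₁) (u₀ + u₁) (1 / 2 + ((ε : ℂ) * (r₀ : ℂ) * ex l₀).re),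
          1 / 2 + ((ε : ℂ) * (r₀ : ℂ) * ex l₀).im) with hp₀
    have hWp : W p₀ = w₀ := by
      rw [hw]
      exact hWf ((r₀, x₀), (u₁, l₀))
    change DifferentiableAt ℝ g p₀
    have hW0 : W p₀ ≠ 0 := by rw [hWp]; exact hw0
    have b1 : DifferentiableAt ℝ (fun p => ‖W p‖) p₀ := (hWd p₀).norm ℝ hW0
    have b2 : DifferentiableAt ℝ (fun p => (Complex.log (W p / w₀)).im) p₀ := by
      have c1 : DifferentiableAt ℝ (fun p => W p / w₀) p₀ := by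
        simp only [div_eq_mul_inv]
        exact (hWd p₀).mul_const _
      have c2 : DifferentiableAt ℝ Complex.log (W p₀ / w₀) := by
        have : W p₀ / w₀ ∈ Complex.slitPlane := by
          rw [hWp, div_self hw0]
          exact Complex.one_mem_slitPlane
        exact (Complex.differentiableAt_log this).restrictScalars ℝ
      exact Complex.imCLM.differentiableAt.comp p₀ (c2.comp p₀ c1)
    have b3 : DifferentiableAt ℝ (fun p => ‖W p‖ / ε) p₀ := by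
      simp only [div_eq_mul_inv]
      exact b1.mul_const _
    have b4 : DifferentiableAt ℝ (fun p => (Complex.log (W p / w₀)).im / (2 * Real.pi)) p₀ := by
      have b5 := b2.mul_const ((2 * Real.pi)⁻¹)
      simpa only [div_eq_mul_inv] using b5
    exact ((b3.prodMk ((hco 0 p₀).sub_const _))).prodMk
      (((hco 1 p₀).sub_const _).prodMk (b4.const_add _))
  · have e1 : ∀ᶠ q : (ℝ × ℝ) × (ℝ × ℝ) in 𝓝 ((r₀, x₀), (u₁, l₀)), 0 < q.1.1 :=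
      (continuous_fst.fst).continuousAt.eventually (lt_mem_nhds hr)
    have e2 : ∀ᶠ q : (ℝ × ℝ) × (ℝ × ℝ) in 𝓝 ((r₀, x₀), (u₁, l₀)), |q.2.2 - l₀| < 1 / 2 := by
      have c : Continuous fun q : (ℝ × ℝ) × (ℝ × ℝ) => |q.2.2 - l₀| := by fun_prop
      apply c.continuousAt.eventually_lt continuousAt_const
      simp
    filter_upwards [e1, e2] with q q1 q2
    obtain ⟨⟨r, x⟩, ⟨u, l⟩⟩ := q
    simp only at q1 q2
    have hq := hWf ((r, x), (u, l))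
    simp only at hq
    simp only [g]
    rw [hq]
    refine Prod.ext (Prod.ext ?_ ?_) (Prod.ext ?_ ?_)
    · simp only
      rw [norm_mul, RSG.ex_norm, Complex.norm_real, Real.norm_of_nonneg (by positivity)]
      field_simp
    · simp
    · simp
    · simp only
      rw [hw, QmB_log (by positivity) (by positivity) q2]
      have hp := Real.pi_pos
      field_simp
      ring

/-- the middle map -/
theorem QmB_Psi {ε : ℝ} (hε : 0 < ε) (hε' : ε ≤ 1 / 1000) {r₀ φ₀ : ℝ} (b : ℝ × ℝ) (hr : 0 < r₀)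
    (hr' : r₀ < 1) :
    IsLocalDiffeomorphAt 𝓘(ℝ, (ℝ × ℝ) × (ℝ × ℝ)) 𝓘(ℝ, (ℝ × ℝ) × (ℝ × ℝ)) ∞
      (fun q : (ℝ × ℝ) × (ℝ × ℝ) => ((q.1.1, XX ε q.1.1 q.1.2), q.2)) ((r₀, φ₀), b) := by
  have hXs : ∀ q : (ℝ × ℝ) × (ℝ × ℝ), 0 < q.1.1 → q.1.1 < 1 →
      ContDiffAt ℝ ∞ (fun q : (ℝ × ℝ) × (ℝ × ℝ) => XX ε q.1.1 q.1.2) q := by
    intro q h1 h2
    have h3 : ContDiffAt ℝ ∞ (fun q : ℝ × ℝ => XX ε q.1 q.2) q.1 := XX_smooth h1 h2 q.1.2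
    exact h3.comp q contDiffAt_fst
  refine CSG.ld_of_fderiv ?_ rfl ?_
  · have e1 : ∀ᶠ q : (ℝ × ℝ) × (ℝ × ℝ) in 𝓝 ((r₀, φ₀), b), 0 < q.1.1 :=
      (continuous_fst.fst).continuousAt.eventually (lt_mem_nhds hr)
    have e2 : ∀ᶠ q : (ℝ × ℝ) × (ℝ × ℝ) in 𝓝 ((r₀, φ₀), b), q.1.1 < 1 :=
      (continuous_fst.fst).continuousAt.eventually (gt_mem_nhds hr')
    filter_upwards [e1, e2] with q q1 q2
    exact ((contDiff_fst.fst.contDiffAt).prodMk (hXs q q1 q2)).prodMk contDiffAt_snd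
  · intro v hv
    have dX : DifferentiableAt ℝ (fun q : (ℝ × ℝ) × (ℝ × ℝ) => XX ε q.1.1 q.1.2) ((r₀, φ₀), b) :=
      (hXs ((r₀, φ₀), b) hr hr').differentiableAt (by simp)
    have d1 : HasFDerivAt (fun q : (ℝ × ℝ) × (ℝ × ℝ) => q.1.1)
        ((ContinuousLinearMap.fst ℝ ℝ ℝ).comp (ContinuousLinearMap.fst ℝ (ℝ × ℝ) (ℝ × ℝ)))
        ((r₀, φ₀), b) :=
      ((ContinuousLinearMap.fst ℝ ℝ ℝ).comp
        (ContinuousLinearMap.fst ℝ (ℝ × ℝ) (ℝ × ℝ))).hasFDerivAt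
    have d2 : HasFDerivAt (fun q : (ℝ × ℝ) × (ℝ × ℝ) => q.2)
        (ContinuousLinearMap.snd ℝ (ℝ × ℝ) (ℝ × ℝ)) ((r₀, φ₀), b) :=
      (ContinuousLinearMap.snd ℝ (ℝ × ℝ) (ℝ × ℝ)).hasFDerivAt
    have d3 := (d1.prodMk dX.hasFDerivAt).prodMk d2
    rw [d3.fderiv] at hv
    set L := fderiv ℝ (fun q : (ℝ × ℝ) × (ℝ × ℝ) => XX ε q.1.1 q.1.2) ((r₀, φ₀), b) with hL
    have v1 : v.1.1 = 0 := congrArg (fun q : (ℝ × ℝ) × (ℝ × ℝ) => q.1.1) hv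
    have v2 : L v = 0 := congrArg (fun q : (ℝ × ℝ) × (ℝ × ℝ) => q.1.2) hv
    have v3 : v.2 = 0 := congrArg (fun q : (ℝ × ℝ) × (ℝ × ℝ) => q.2) hv
    -- the derivative in the direction of `φ`
    have hc : HasDerivAt (fun φ : ℝ => (((r₀, φ), b) : (ℝ × ℝ) × (ℝ × ℝ))) ((0, 1), 0) φ₀ :=
      ((hasDerivAt_const φ₀ r₀).prodMk (hasDerivAt_id φ₀)).prodMk (hasDerivAt_const φ₀ b)
    have h4' : HasFDerivAt (fun q : (ℝ × ℝ) × (ℝ × ℝ) => XX ε q.1.1 q.1.2) L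
        ((fun φ : ℝ => (((r₀, φ), b) : (ℝ × ℝ) × (ℝ × ℝ))) φ₀) := dX.hasFDerivAt
    have h4'' := HasFDerivAt.comp_hasDerivAt φ₀ h4' hc
    have h4 : HasDerivAt (fun φ => XX ε r₀ φ) (L ((0, 1), 0)) φ₀ := h4''
    have h5 := XX_deriv hε hε' hr hr' φ₀
    rw [h4.deriv] at h5
    have h6 : v = v.1.2 • (((0, 1), 0) : (ℝ × ℝ) × (ℝ × ℝ)) := by
      refine Prod.ext (Prod.ext ?_ ?_) ?_
      · simp [v1]
      · simp
      · simp [v3]
    have h7 : v.1.2 * L ((0, 1), 0) = 0 := by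
      rw [← smul_eq_mul, ← L.map_smul, ← h6]
      exact v2
    have h8 : v.1.2 = 0 := by
      rcases mul_eq_zero.1 h7 with h | h
      · exact h
      · exact absurd h h5.ne'
    rw [h6, h8, zero_smul]

/-- polar coordinates in the source -/
theorem QmB_B {l t : ℝ} {v : ℂ} (h0 : v ≠ 0) :
    IsLocalDiffeomorphAt 𝓘(ℝ, ℝ × ℂ × ℝ) 𝓘(ℝ, (ℝ × ℝ) × (ℝ × ℝ)) ∞
      (fun a : ℝ × ℂ × ℝ => ((‖a.2.1‖, a.1 + a.2.2),
        ((Complex.log (a.2.1 / v)).im / (2 * Real.pi), a.1))) (l, v, t) := by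
  have hv : 0 < ‖v‖ := norm_pos_iff.2 h0
  have hvv : (v / (‖v‖ : ℂ)) * (‖v‖ : ℂ) = v := by
    have : (‖v‖ : ℂ) ≠ 0 := by exact_mod_cast hv.ne'
    field_simp
  have hslit : ∀ᶠ a : ℝ × ℂ × ℝ in 𝓝 (l, v, t), a.2.1 / v ∈ Complex.slitPlane := by
    have c : Continuous fun a : ℝ × ℂ × ℝ => a.2.1 / v := by fun_prop
    apply c.continuousAt.eventually_mem
    apply Complex.isOpen_slitPlane.mem_nhds
    change v / v ∈ _
    rw [div_self h0]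
    exact Complex.one_mem_slitPlane
  let g : (ℝ × ℝ) × (ℝ × ℝ) → ℝ × ℂ × ℝ := fun q =>
    (q.2.2, (q.1.1 : ℂ) * (v / (‖v‖ : ℂ) * ex q.2.1), q.1.2 - q.2.2)
  refine RSG.ld_left (g := g) ?_ ?_ ?_ ?_
  · have e1 : ∀ᶠ a : ℝ × ℂ × ℝ in 𝓝 (l, v, t), a.2.1 ≠ 0 :=
      (continuous_snd.fst).continuousAt.eventually_ne h0
    filter_upwards [e1, hslit] with a a1 a2
    have c0 : ContDiffAt ℝ ∞ (fun a : ℝ × ℂ × ℝ => a.2.1) a := contDiff_snd.fst.contDiffAt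
    have c1 : ContDiffAt ℝ ∞ (fun a : ℝ × ℂ × ℝ => ‖a.2.1‖) a := c0.norm ℝ a1
    have c2 : ContDiffAt ℝ ∞ (fun a : ℝ × ℂ × ℝ => a.2.1 / v) a := c0.div_const v
    have c3 := RSG.GcM_log_smooth c2 a2
    have c4 : ContDiffAt ℝ ∞ (fun a : ℝ × ℂ × ℝ => a.1) a := contDiffAt_fst
    have c5 : ContDiffAt ℝ ∞ (fun a : ℝ × ℂ × ℝ => a.2.2) a := contDiff_snd.snd.contDiffAt
    exact (c1.prodMk (c4.add c5)).prodMk ((c3.div_const _).prodMk c4)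
  · simp
  · have hex : Differentiable ℝ ex := RSG.ex_smooth.differentiable (by simp)
    have a1 : Differentiable ℝ (fun q : (ℝ × ℝ) × (ℝ × ℝ) => ((q.1.1 : ℝ) : ℂ)) :=
      Complex.ofRealCLM.differentiable.comp (differentiable_fst.fst)
    have a2 : Differentiable ℝ (fun q : (ℝ × ℝ) × (ℝ × ℝ) => ex q.2.1) :=
      hex.comp (differentiable_snd.fst)
    have a3 : Differentiable ℝ (fun q : (ℝ × ℝ) × (ℝ × ℝ) =>
        (q.1.1 : ℂ) * (v / (‖v‖ : ℂ) * ex q.2.1)) := a1.mul (a2.const_mul _)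
    have a4 : Differentiable ℝ g :=
      (differentiable_snd.snd).prodMk (a3.prodMk ((differentiable_fst.snd).sub differentiable_snd.snd))
    exact a4 _
  · have e1 : ∀ᶠ a : ℝ × ℂ × ℝ in 𝓝 (l, v, t), a.2.1 ≠ 0 :=
      (continuous_snd.fst).continuousAt.eventually_ne h0
    filter_upwards [e1] with a a1
    obtain ⟨l', v', t'⟩ := a
    simp only at a1
    simp only [g]
    refine Prod.ext rfl (Prod.ext ?_ ?_)
    · simp only
      have h1 := RSG.ex_arg (p := v' / v)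
      rw [Complex.log_im]
      rw [norm_div] at h1
      have h2 : (‖v‖ : ℂ) ≠ 0 := by exact_mod_cast hv.ne'
      push_cast at h1
      calc (‖v'‖ : ℂ) * (v / (‖v‖ : ℂ) * ex (Complex.arg (v' / v) / (2 * Real.pi)))
          = v * ((‖v'‖ : ℂ) / (‖v‖ : ℂ) * ex (Complex.arg (v' / v) / (2 * Real.pi))) := by
            field_simp
        _ = v * (v' / v) := by rw [h1]
        _ = v' := by field_simp
    · simp

theorem QmB_E {ε : ℝ} (hε : 0 < ε) (hε' : ε ≤ 1 / 1000) (m₁ u₀ : ℝ) {l t : ℝ} {v : ℂ}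
    (h0 : v ≠ 0) (h1 : ‖v‖ < 1) :
    IsLocalDiffeomorphAt 𝓘(ℝ, ℝ × ℂ × ℝ) 𝓘(ℝ, CSG.E3 × ℝ) ∞
      (fun a : ℝ × ℂ × ℝ => (pt (XX ε ‖a.2.1‖ (a.1 + a.2.2) + m₁)
        (u₀ + (Complex.log (a.2.1 / v)).im / (2 * Real.pi))
        (1 / 2 + ((ε : ℂ) * (‖a.2.1‖ : ℂ) * ex a.1).re),
          1 / 2 + ((ε : ℂ) * (‖a.2.1‖ : ℂ) * ex a.1).im)) (l, v, t) := by
  have hv : 0 < ‖v‖ := norm_pos_iff.2 h0
  have hB := QmB_B (l := l) (t := t) h0
  have hP := QmB_Psi hε hε' (φ₀ := l + t) ((Complex.log (v / v)).im / (2 * Real.pi), l) hv h1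
  have hA := QmB_A hε m₁ u₀ (x₀ := XX ε ‖v‖ (l + t)) (u₁ := (Complex.log (v / v)).im / (2 * Real.pi))
    (l₀ := l) hv
  have h2 := IsLocalDiffeomorphAt.comp (hf := hB)
    (g := fun q : (ℝ × ℝ) × (ℝ × ℝ) => ((q.1.1, XX ε q.1.1 q.1.2), q.2)) (hg := hP)
  exact IsLocalDiffeomorphAt.comp (hf := h2)
    (g := fun q : (ℝ × ℝ) × (ℝ × ℝ) => (pt (q.1.2 + m₁) (u₀ + q.2.1)
        (1 / 2 + ((ε : ℂ) * (q.1.1 : ℂ) * ex q.2.2).re),
          1 / 2 + ((ε : ℂ) * (q.1.1 : ℂ) * ex q.2.2).im)) (hg := hA)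

theorem Qm_ldB {X : Type*} [TopologicalSpace X] [ChartedSpace E4 X] {κ : Equiv.Perm CSG.E3} {ε : ℝ} {k : ℤ}
    (D : PDs κ ε k X) (hε : 0 < ε) (hε' : ε ≤ 1 / 1000) {z : S4} (h : fh z ≠ 0) (h1 : c1 z ≠ 0) (h2 : c2 z ≠ 0) :
    IsLocalDiffeomorphAt (𝓡 4) (𝓡 4) ∞ (Qm D) z := by
  have p1 : 0 < ‖c1 z‖ := norm_pos_iff.2 h1
  have p2 : 0 < ‖c2 z‖ := norm_pos_iff.2 h2
  have pf : 0 < ‖fh z‖ := norm_pos_iff.2 h
  have hun : ∀ w : ℂ, w ≠ 0 → ∃ x, w = ‖w‖ * ex x := by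
    intro w hw
    exact ⟨_, (RSG.ex_arg (p := w)).symm⟩
  obtain ⟨m, hm⟩ := hun _ h1
  obtain ⟨m', hm'⟩ := hun _ h2
  obtain ⟨l', hl'⟩ := hun _ h
  have hz := RSG.Gc_eq (-1) 1 (z := z) (l := l' - (m - m')) (m := m) (t := m - m') h h1 h2
    (by
      rw [hm]
      congr 2
      · rw [← hm]
      · push_cast
        ring)
    (by
      rw [hm']
      congr 2
      · rw [← hm']
      · push_cast
        ring)
    (by
      rw [hl']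
      congr 2
      · rw [← hl']
      · push_cast
        ring)
  set l : ℝ := l' - (m - m') with hl
  set t : ℝ := m - m' with ht
  set v : ℂ := ((2 * ‖c1 z‖ * ‖c2 z‖ : ℝ) : ℂ) * ex m with hv
  have hr0 : 0 < 2 * ‖c1 z‖ * ‖c2 z‖ := by positivity
  have hvn : ‖v‖ = 2 * ‖c1 z‖ * ‖c2 z‖ := by
    rw [hv, norm_mul, RSG.ex_norm, Complex.norm_real, Real.norm_of_nonneg hr0.le, mul_one]
  have hv0 : v ≠ 0 := by
    rw [← norm_pos_iff, hvn]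
    exact hr0
  have hv1 : ‖v‖ < 1 := by
    rw [hvn]
    exact (RSG.fh_ne_iff z).1 h
  rw [hz] at h h1 ⊢
  obtain ⟨m₁, hq⟩ := qS_Gc (ε := ε) (l := l) (t := t) hv0 hv1
  refine QmB_base D hε hε' (s := Gc (-1) 1) (RSG.Gc_ld (-1) 1 hv0 hv1)
    (QmB_E hε hε' (m₁ : ℝ) (Complex.arg v / (2 * Real.pi)) (l := l) (t := t) hv0 hv1) ?_ h h1 ?_
  · rw [hq]
    simp [div_self hv0]
  · have A1 : ∀ᶠ a : ℝ × ℂ × ℝ in 𝓝 (l, v, t), a.2.1 ≠ 0 :=
      (continuous_snd.fst).continuousAt.eventually_ne hv0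
    have A2 : ∀ᶠ a : ℝ × ℂ × ℝ in 𝓝 (l, v, t), ‖a.2.1‖ < 1 :=
      (continuous_snd.fst.norm).continuousAt.eventually_lt continuousAt_const hv1
    filter_upwards [A1, A2] with a a1 a2
    obtain ⟨la, va, ta⟩ := a
    simp only at a1 a2
    obtain ⟨s1, s2, -, -, -, -, -⟩ := RSG.Gc_spec (-1) 1 (l := la) (t := ta) a1 a2
    obtain ⟨m₂, hq2⟩ := qS_Gc (ε := ε) (l := la) (t := ta) a1 a2
    refine ⟨s2, s1, ?_, ?_⟩
    · rw [hq2]
    · have hva : 0 < ‖va‖ := norm_pos_iff.2 a1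
      have hvp : 0 < ‖v‖ := norm_pos_iff.2 hv0
      have e1 := RSG.ex_arg (p := v)
      have e2 := RSG.ex_arg (p := va / v)
      have e3 := RSG.ex_arg (p := va)
      have e4 : (‖va‖ : ℂ) * ex (Complex.arg va / (2 * Real.pi)) =
          (‖va‖ : ℂ) * ex (Complex.arg v / (2 * Real.pi) + Complex.arg (va / v) / (2 * Real.pi)) := by
        rw [e3, RSG.ex_add]
        rw [norm_div] at e2
        push_cast at e2
        have h5 : (‖v‖ : ℂ) ≠ 0 := by exact_mod_cast hvp.ne'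
        calc va = v * (va / v) := by field_simp
          _ = ((‖v‖ : ℂ) * ex (Complex.arg v / (2 * Real.pi))) *
              ((‖va‖ : ℂ) / (‖v‖ : ℂ) * ex (Complex.arg (va / v) / (2 * Real.pi))) := by
                rw [e1, e2]
          _ = _ := by field_simp
      obtain ⟨-, m₃, hm₃⟩ := RSG.ex_polar hva hva e4
      refine ⟨![m₁ - m₂, m₃, 0], ?_⟩
      rw [hq2]
      simp only [Complex.log_im]
      rw [hm₃]
      ext i
      fin_cases i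
      · simp [CSG.vec]
      · simp [CSG.vec]
      · simp [CSG.vec]

end Pool.Agent.CSP
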