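import Pool.Agent.CSP.QsM
import Pool.Agent.RSG.Sph
import Pool.Agent.RSG.GcM
import Pool.Agent.CSG.LDa
import Pool.Agent.CSG.LDb
import Pool.Agent.RSG.LDc
import Pool.Agent.RSG.ExM

/-!
# CSP/QmC: `Qm` is a local diffeomorphism at the points with `c2 = 0`   (difficulty 3)

Let `c2 z₀ = 0` (then `c1 z₀ ≠ 0`, as `fh z₀ ≠ 0` is automatic but `‖c1‖² + ht² = 1`; the case `c1 z₀ = 0` is QmA).
Chart: `sB (u, w, h) = pS4 (√(1 - ‖w‖² - h²) ex u) w h`, `‖w‖² + h² < 1`: `c1 = √(..) ex u`, `c2 = w`, `ht = h`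
(`pS4_c`).  It is a local diffeomorphism `ℝ × ℂ × ℝ → S4` (smooth: `pS4_smooth`; local inverse
`z ↦ (u₀ + arg (c1 z / c1 z₀)/2π, c2 z, ht z)`, `ld_two`, `pS4_self`).  By `ld_of_comp_left` it suffices that
`Qm D ∘ sB` is a local diffeomorphism at `(u₀, 0, h₀)`, `h₀² < 1`.  Near this point `c1 ≠ 0`, so this is
`D.H (pt (1/2 + ξ) u (1/2 + Re η), 1/2 + Im η)` with (up to integers in the first two coordinates, `D.H_per`)
`u = u`, `η = 2 ε (fh/|fh|) √(1 - ‖w‖² - h²) ex (-u) w`, `ξ = (1 - W) α - W 2 ε √(1 - ‖w‖² - h²) h`,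
`W = wX (1 - ‖w‖² - h²)`, `α = arg (-fh)/2π` or, near a point with `fh` real positive (`h₀ = 0`), `W = 0` and
`α` may be replaced by `arg (fh)/2π + 1/2` (differs by an integer).  All functions are smooth near `(u₀, 0, h₀)`:
`fh = (1 - 2‖w‖² - h²) + i h √(2 - h²)`, not `0`, real part `> 0` at `w = 0`.
Kernel of the derivative at `(u₀, 0, h₀)` (`ld_of_fderiv`): `(u', w', h')`.  `u' = 0` from the coordinate `u`;
`η` vanishes at `w = 0`, so its derivative is `2 ε (fh/|fh|) √(1 - h₀²) ex (-u₀) w'`: `w' = 0`.  Finally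
`∂ξ/∂h (0, h₀) h' = 0`, and `∂ξ/∂h > 0` at `w = 0`: along `w = 0`, `g (h) = ξ (0, h)`: `fh = (1 - h²) + i h √(2 - h²)` is a
unit vector, `arg fh = arcsin (h √(2 - h²))`-like, derivative of the angle `= 2/√(2 - h²) > 0` (compute:
`d (arg) = Im (conj f f')`, `f' = -2h + i (2 - 2h²)/√(2 - h²)`, `Im (conj f f') = (1 - h²)(2 - 2h²)/√(2 - h²) + 2h² √(2 - h²)
= (2 - 4h² + 2h⁴ + 4h² - 2h⁴)/√(2 - h²) = 2/√(2 - h²)`).  With `a = 1 - h²`, `W = wX a`, `P = √(1 - h²) h`: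
`g' = (1 - W) α' - W 2 ε P' - (dW/dh) (α + 2 ε P)`, `α' = 1/(π √(2 - h²)) > 0`; where `W ≠ 0`: `a ≤ 1/10`,
`h² ≥ 9/10`, `P' = (1 - 2h²)/√(1 - h²) < 0`, so `-W P' ≥ 0`, `> 0` for `W = 1`; `dW/dh = stp' (a) · 2h` has the
sign of `h`, while `α + 2 ε P` has the sign of `-h`: for `h > 0`: `α = arg f/2π - 1/2 ≤ -1/4` (as `arg f ≤ π/2`),
and `2 ε P ≤ 1/500`.  So `g' > 0`.  (At points where `W = 0` nearby only `α` matters.)
Then `D.H_loc` (`qS_off`, `qS_time`, `qS_onC`).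
-/

open scoped Manifold ContDiff Topology

namespace Pool.Agent.CSP
open Pool.Agent.CSG (pt)
open Pool.Agent.RSG (E4 S4 ex c1 c2 ht fh)

theorem QmC_pt {V : Type*} [NormedAddCommGroup V] [NormedSpace ℝ V] {f g h : V → ℝ} {x : V}
    (hf : ContDiffAt ℝ ∞ f x) (hg : ContDiffAt ℝ ∞ g x) (hh : ContDiffAt ℝ ∞ h x) :
    ContDiffAt ℝ ∞ (fun y => pt (f y) (g y) (h y)) x := by
  rw [contDiffAt_euclidean]
  intro i
  fin_cases i
  · simpa using hf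
  · simpa using hg
  · simpa using hh

/-- the general scheme -/
theorem QmC_base {X : Type*} [TopologicalSpace X] [ChartedSpace E4 X] {κ : Equiv.Perm CSG.E3} {ε : ℝ}
    {k : ℤ} (D : PDs κ ε k X) (hε : 0 < ε) (hε' : ε ≤ 1 / 1000)
    {V : Type*} [NormedAddCommGroup V] [NormedSpace ℝ V] {s : V → S4} {E : V → CSG.E3 × ℝ} {a : V}
    (hs : IsLocalDiffeomorphAt 𝓘(ℝ, V) (𝓡 4) ∞ s a)
    (hE : IsLocalDiffeomorphAt 𝓘(ℝ, V) 𝓘(ℝ, CSG.E3 × ℝ) ∞ E a)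
    (hEa : E a = qS ε (s a)) (h : fh (s a) ≠ 0) (h1 : c1 (s a) ≠ 0)
    (hev : ∀ᶠ b in 𝓝 a, c1 (s b) ≠ 0 ∧ fh (s b) ≠ 0 ∧ (E b).2 = (qS ε (s b)).2 ∧
      ∃ m : Fin 3 → ℤ, (E b).1 = (qS ε (s b)).1 + CSG.vec m) :
    IsLocalDiffeomorphAt (𝓡 4) (𝓡 4) ∞ (Qm D) (s a) := by
  have ht := abs_lt.1 (qS_time hε hε' h)
  have hH : IsLocalDiffeomorphAt 𝓘(ℝ, CSG.E3 × ℝ) (𝓡 4) ∞ D.H (E a) := by
    rw [hEa]
    exact D.H_loc (qS ε (s a)).1 (qS ε (s a)).2 (by linarith [ht.1]) (by linarith [ht.2])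
      (qS_off hε hε' h) (qS_onC hε hε' h h1)
  have h2 : IsLocalDiffeomorphAt 𝓘(ℝ, V) (𝓡 4) ∞ (D.H ∘ E) a :=
    IsLocalDiffeomorphAt.comp (hf := hE) (g := D.H) (hg := hH)
  have h3 : IsLocalDiffeomorphAt 𝓘(ℝ, V) (𝓡 4) ∞ (Qm D ∘ s) a := by
    apply CSG.ld_congr h2
    filter_upwards [hev] with b hb
    obtain ⟨b1, b2, b3, m, b4⟩ := hb
    have htb := abs_lt.1 (qS_time hε hε' b2)
    have h4 := D.H_per (qS ε (s b)).1 (qS ε (s b)).2 m (by linarith [htb.1]) (by linarith [htb.2])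
      (qS_off hε hε' b2)
    change Qm D (s b) = D.H (E b)
    unfold Qm
    rw [if_neg b1]
    have h5 : E b = ((qS ε (s b)).1 + CSG.vec m, (qS ε (s b)).2) := Prod.ext b4 b3
    rw [h5, h4]
  exact CSG.ld_of_comp_left h3 hs

/-- the kernel of the derivative -/
theorem QmC_E {Ξ : ℝ × ℂ × ℝ → ℝ} {G : ℝ × ℂ × ℝ → ℂ} {u₀ h₀ g' : ℝ}
    (hΞ : ∀ᶠ a in 𝓝 (u₀, (0 : ℂ), h₀), ContDiffAt ℝ ∞ Ξ a)
    (hG : ∀ᶠ a in 𝓝 (u₀, (0 : ℂ), h₀), ContDiffAt ℝ ∞ G a) (hG0 : G (u₀, 0, h₀) ≠ 0)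
    (hd : HasDerivAt (fun h => Ξ (u₀, 0, h)) g' h₀) (hg : g' ≠ 0) :
    IsLocalDiffeomorphAt 𝓘(ℝ, ℝ × ℂ × ℝ) 𝓘(ℝ, CSG.E3 × ℝ) ∞
      (fun a : ℝ × ℂ × ℝ => (pt (1 / 2 + Ξ a) a.1 (1 / 2 + (G a * a.2.1).re),
        1 / 2 + (G a * a.2.1).im)) (u₀, 0, h₀) := by
  have hsm : ∀ᶠ a in 𝓝 (u₀, (0 : ℂ), h₀), ContDiffAt ℝ ∞
      (fun a : ℝ × ℂ × ℝ => (pt (1 / 2 + Ξ a) a.1 (1 / 2 + (G a * a.2.1).re),
        1 / 2 + (G a * a.2.1).im)) a := by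
    filter_upwards [hΞ, hG] with a a1 a2
    have a3 : ContDiffAt ℝ ∞ (fun a : ℝ × ℂ × ℝ => G a * a.2.1) a :=
      a2.mul contDiff_snd.fst.contDiffAt
    have a4 : ContDiffAt ℝ ∞ (fun a : ℝ × ℂ × ℝ => (G a * a.2.1).re) a :=
      Complex.reCLM.contDiff.contDiffAt.comp a a3
    have a5 : ContDiffAt ℝ ∞ (fun a : ℝ × ℂ × ℝ => (G a * a.2.1).im) a :=
      Complex.imCLM.contDiff.contDiffAt.comp a a3
    exact (QmC_pt (contDiffAt_const.add a1) contDiffAt_fst (contDiffAt_const.add a4)).prodMk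
      (contDiffAt_const.add a5)
  refine CSG.ld_of_fderiv hsm (by simp) ?_
  set x₀ : ℝ × ℂ × ℝ := (u₀, 0, h₀) with hx₀
  set f : ℝ × ℂ × ℝ → CSG.E3 × ℝ := fun a => (pt (1 / 2 + Ξ a) a.1 (1 / 2 + (G a * a.2.1).re),
        1 / 2 + (G a * a.2.1).im) with hfdef
  have hf : HasFDerivAt f (fderiv ℝ f x₀) x₀ :=
    (hsm.self_of_nhds.differentiableAt (by simp)).hasFDerivAt
  intro v hv
  set L := fderiv ℝ f x₀ with hL
  -- coordinate 1
  have k1 : v.1 = 0 := by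
    let Λ : (CSG.E3 × ℝ) →L[ℝ] ℝ :=
      (EuclideanSpace.proj 1 : CSG.E3 →L[ℝ] ℝ).comp (ContinuousLinearMap.fst ℝ CSG.E3 ℝ)
    have e1 : HasFDerivAt (Λ ∘ f) (Λ.comp L) x₀ := Λ.hasFDerivAt.comp x₀ hf
    have e2 : HasFDerivAt (Λ ∘ f) (ContinuousLinearMap.fst ℝ ℝ (ℂ × ℝ)) x₀ := by
      have e3 : Λ ∘ f = fun a => a.1 := by
        funext a
        simp [Λ, f]
      rw [e3]
      exact (ContinuousLinearMap.fst ℝ ℝ (ℂ × ℝ)).hasFDerivAt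
    have e4 := e1.unique e2
    have e5 : (Λ.comp L) v = 0 := by
      rw [ContinuousLinearMap.comp_apply, hv, map_zero]
    rw [e4] at e5
    exact e5
  have k2 : v.2.1 = 0 := by
    let Λ : (CSG.E3 × ℝ) →L[ℝ] ℂ :=
      Complex.ofRealCLM.comp ((EuclideanSpace.proj 2 : CSG.E3 →L[ℝ] ℝ).comp
        (ContinuousLinearMap.fst ℝ CSG.E3 ℝ)) +
      Complex.I • Complex.ofRealCLM.comp (ContinuousLinearMap.snd ℝ CSG.E3 ℝ)
    have e1 : HasFDerivAt (Λ ∘ f) (Λ.comp L) x₀ := Λ.hasFDerivAt.comp x₀ hf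
    have dG : HasFDerivAt G (fderiv ℝ G x₀) x₀ :=
      (hG.self_of_nhds.differentiableAt (by simp)).hasFDerivAt
    have d2 : HasFDerivAt (fun a : ℝ × ℂ × ℝ => a.2.1)
        ((ContinuousLinearMap.fst ℝ ℂ ℝ).comp (ContinuousLinearMap.snd ℝ ℝ (ℂ × ℝ))) x₀ :=
      ((ContinuousLinearMap.fst ℝ ℂ ℝ).comp (ContinuousLinearMap.snd ℝ ℝ (ℂ × ℝ))).hasFDerivAt
    have e2 : HasFDerivAt (Λ ∘ f) (G x₀ • ((ContinuousLinearMap.fst ℝ ℂ ℝ).comp
        (ContinuousLinearMap.snd ℝ ℝ (ℂ × ℝ))) + x₀.2.1 • fderiv ℝ G x₀) x₀ := by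
      have e3 : Λ ∘ f = fun a => (1 / 2 + 1 / 2 * Complex.I : ℂ) + G a * a.2.1 := by
        funext a
        apply Complex.ext <;> simp [Λ, f]
      rw [e3]
      exact (dG.mul d2).const_add _
    have e4 := e1.unique e2
    have e5 : (Λ.comp L) v = 0 := by
      rw [ContinuousLinearMap.comp_apply, hv, map_zero]
    rw [e4] at e5
    have e6 : G x₀ * v.2.1 = 0 := by
      simpa [hx₀] using e5
    rcases mul_eq_zero.1 e6 with h | h
    · exact absurd h hG0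
    · exact h
  have k3 : v.2.2 = 0 := by
    let Λ : (CSG.E3 × ℝ) →L[ℝ] ℝ :=
      (EuclideanSpace.proj 0 : CSG.E3 →L[ℝ] ℝ).comp (ContinuousLinearMap.fst ℝ CSG.E3 ℝ)
    have e1 : HasFDerivAt (Λ ∘ f) (Λ.comp L) x₀ := Λ.hasFDerivAt.comp x₀ hf
    have hc : HasDerivAt (fun h : ℝ => ((u₀, 0, h) : ℝ × ℂ × ℝ)) (0, 0, 1) h₀ :=
      (hasDerivAt_const h₀ u₀).prodMk ((hasDerivAt_const h₀ (0 : ℂ)).prodMk (hasDerivAt_id h₀))
    have e1' : HasFDerivAt (Λ ∘ f) (Λ.comp L) ((fun h : ℝ => ((u₀, 0, h) : ℝ × ℂ × ℝ)) h₀) := e1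
    have e2 := HasFDerivAt.comp_hasDerivAt h₀ e1' hc
    have e3 : HasDerivAt (fun h => 1 / 2 + Ξ (u₀, 0, h)) ((Λ.comp L) (0, 0, 1)) h₀ := by
      have e4 : (Λ ∘ f) ∘ (fun h : ℝ => ((u₀, 0, h) : ℝ × ℂ × ℝ)) =
          fun h => 1 / 2 + Ξ (u₀, 0, h) := by
        funext h
        simp [Λ, f]
      rw [← e4]
      exact e2
    have e5 := e3.unique (hd.const_add (1 / 2))
    have e6 : v = v.2.2 • ((0, 0, 1) : ℝ × ℂ × ℝ) := by
      refine Prod.ext ?_ (Prod.ext ?_ ?_)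
      · simp [k1]
      · simp [k2]
      · simp
    have e7 : (Λ.comp L) v = 0 := by
      rw [ContinuousLinearMap.comp_apply, hv, map_zero]
    rw [e6, map_smul, e5, smul_eq_mul] at e7
    rcases mul_eq_zero.1 e7 with h | h
    · exact h
    · exact absurd h hg
  exact Prod.ext k1 (Prod.ext k2 k3)

/-- `‖c1‖²` -/
noncomputable def QmC_R (a : ℝ × ℂ × ℝ) : ℝ := 1 - ‖a.2.1‖ ^ 2 - a.2.2 ^ 2
/-- `fh` -/
noncomputable def QmC_F (a : ℝ × ℂ × ℝ) : ℂ :=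
  ⟨QmC_R a - ‖a.2.1‖ ^ 2, a.2.2 * Real.sqrt (2 - a.2.2 ^ 2)⟩
/-- the chart -/
noncomputable def QmC_s (a : ℝ × ℂ × ℝ) : S4 :=
  RSG.pS4 ((Real.sqrt (QmC_R a) : ℂ) * ex a.1) a.2.1 a.2.2

theorem QmC_R_smooth : ContDiff ℝ ∞ QmC_R := by
  have hn : ContDiff ℝ ∞ fun z : ℂ => ‖z‖ ^ 2 := contDiff_norm_sq ℝ
  exact (contDiff_const.sub (hn.comp contDiff_snd.fst)).sub (contDiff_snd.snd.pow 2)

theorem QmC_sqrt_smooth {a : ℝ × ℂ × ℝ} (h : 0 < QmC_R a) :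
    ContDiffAt ℝ ∞ (fun a => Real.sqrt (QmC_R a)) a :=
  QmC_R_smooth.contDiffAt.sqrt h.ne'

theorem QmC_F_smooth {a : ℝ × ℂ × ℝ} (h : 0 < QmC_R a) : ContDiffAt ℝ ∞ QmC_F a := by
  have hn : ContDiff ℝ ∞ fun z : ℂ => ‖z‖ ^ 2 := contDiff_norm_sq ℝ
  have h1 : ContDiff ℝ ∞ fun z : ℝ × ℝ => (⟨z.1, z.2⟩ : ℂ) :=
    Complex.equivRealProdCLM.symm.contDiff
  have h2 : ContDiffAt ℝ ∞ (fun a : ℝ × ℂ × ℝ => QmC_R a - ‖a.2.1‖ ^ 2) a :=
    QmC_R_smooth.contDiffAt.sub (hn.comp contDiff_snd.fst).contDiffAt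
  have h3 : ContDiffAt ℝ ∞ (fun a : ℝ × ℂ × ℝ => a.2.2 * Real.sqrt (2 - a.2.2 ^ 2)) a := by
    apply contDiff_snd.snd.contDiffAt.mul
    apply ContDiffAt.sqrt
    · exact contDiffAt_const.sub (contDiff_snd.snd.contDiffAt.pow 2)
    · have : 0 ≤ ‖a.2.1‖ ^ 2 := sq_nonneg _
      unfold QmC_R at h
      nlinarith
  exact h1.contDiffAt.comp a (h2.prodMk h3)

theorem QmC_spec {a : ℝ × ℂ × ℝ} (h : 0 < QmC_R a) :
    c1 (QmC_s a) = (Real.sqrt (QmC_R a) : ℂ) * ex a.1 ∧ c2 (QmC_s a) = a.2.1 ∧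
      ht (QmC_s a) = a.2.2 ∧ ‖c1 (QmC_s a)‖ = Real.sqrt (QmC_R a) ∧ fh (QmC_s a) = QmC_F a := by
  have h0 : ‖(Real.sqrt (QmC_R a) : ℂ) * ex a.1‖ = Real.sqrt (QmC_R a) := by
    rw [norm_mul, RSG.ex_norm, Complex.norm_real, Real.norm_of_nonneg (Real.sqrt_nonneg _), mul_one]
  have h1 := RSG.pS4_c (a := (Real.sqrt (QmC_R a) : ℂ) * ex a.1) (b := a.2.1) (h := a.2.2) (by
    rw [h0, Real.sq_sqrt h.le]
    unfold QmC_R
    ring)
  obtain ⟨e1, e2, e3⟩ := h1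
  have e4 : ‖c1 (QmC_s a)‖ = Real.sqrt (QmC_R a) := by
    rw [← h0]
    exact congrArg _ e1
  refine ⟨e1, e2, e3, e4, ?_⟩
  unfold fh QmC_F
  rw [e4, Real.sq_sqrt h.le]
  have e2' : c2 (QmC_s a) = a.2.1 := e2
  have e3' : ht (QmC_s a) = a.2.2 := e3
  rw [e2', e3']

theorem QmC_R_ev {a₀ : ℝ × ℂ × ℝ} (h : 0 < QmC_R a₀) : ∀ᶠ a in 𝓝 a₀, 0 < QmC_R a :=
  QmC_R_smooth.continuous.continuousAt.eventually (lt_mem_nhds h)

theorem QmC_log {r x r₀ x₀ : ℝ} (hr : 0 < r) (hr₀ : 0 < r₀) (h : |x - x₀| < 1 / 2) :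
    (Complex.log (((r : ℂ) * ex x) / ((r₀ : ℂ) * ex x₀))).im = 2 * Real.pi * (x - x₀) := by
  have hne : ((r₀ : ℂ) * ex x₀) ≠ 0 :=
    mul_ne_zero (by exact_mod_cast hr₀.ne') (RSG.ex_ne x₀)
  have h1 : ((r : ℂ) * ex x) / ((r₀ : ℂ) * ex x₀) = ((r / r₀ : ℝ) : ℂ) * ex (x - x₀) := by
    rw [div_eq_iff hne]
    have h2 : ex x = ex (x - x₀) * ex x₀ := by
      rw [← RSG.ex_add]
      congr 1
      ring
    rw [h2, Complex.ofReal_div]
    have h3 : (r₀ : ℂ) ≠ 0 := by exact_mod_cast hr₀.ne'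
    field_simp
  rw [h1, RSG.ex_log (by positivity) (by linarith [(abs_lt.1 h).1]) (by linarith [(abs_lt.1 h).2])]

theorem QmC_s_ld {a₀ : ℝ × ℂ × ℝ} (h : 0 < QmC_R a₀) :
    IsLocalDiffeomorphAt 𝓘(ℝ, ℝ × ℂ × ℝ) (𝓡 4) ∞ QmC_s a₀ := by
  obtain ⟨e1, e2, e3, e4, e5⟩ := QmC_spec h
  set z₀ := QmC_s a₀ with hz₀
  have hR : 0 < Real.sqrt (QmC_R a₀) := Real.sqrt_pos.2 h
  have hc0 : c1 z₀ ≠ 0 := by
    rw [← norm_pos_iff, e4]
    exact hR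
  let g : S4 → ℝ × ℂ × ℝ := fun z =>
    (a₀.1 + (Complex.log (c1 z / c1 z₀)).im / (2 * Real.pi), c2 z, ht z)
  have cc1 := RSG.c1_smooth.continuous
  have N1 : ∀ᶠ z in 𝓝 z₀, c1 z / c1 z₀ ∈ Complex.slitPlane := by
    have c : Continuous fun z : S4 => c1 z / c1 z₀ := cc1.div_const _
    apply c.continuousAt.eventually_mem
    apply Complex.isOpen_slitPlane.mem_nhds
    change c1 z₀ / c1 z₀ ∈ _
    rw [div_self hc0]
    exact Complex.one_mem_slitPlane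
  have N2 : ∀ᶠ z in 𝓝 z₀, c1 z ≠ 0 := cc1.continuousAt.eventually_ne hc0
  have A2 : ∀ᶠ a : ℝ × ℂ × ℝ in 𝓝 a₀, |a.1 - a₀.1| < 1 / 2 := by
    have c : Continuous fun a : ℝ × ℂ × ℝ => |a.1 - a₀.1| := by fun_prop
    apply c.continuousAt.eventually_lt continuousAt_const
    simp
  refine RSG.ld_two (g := g) ?_ ?_ ?_ ?_
  · filter_upwards [QmC_R_ev h] with a ha
    have a1 : ContDiffAt ℝ ∞ (fun a : ℝ × ℂ × ℝ => (Real.sqrt (QmC_R a) : ℂ) * ex a.1) a :=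
      (Complex.ofRealCLM.contDiff.contDiffAt.comp a (QmC_sqrt_smooth ha)).mul
        (RSG.ex_smooth.contDiffAt.comp a contDiffAt_fst)
    refine RSG.pS4_smooth a1.contMDiffAt contDiff_snd.fst.contDiffAt.contMDiffAt
      contDiff_snd.snd.contDiffAt.contMDiffAt ?_
    have h1 : ‖(Real.sqrt (QmC_R a) : ℂ) * ex a.1‖ = Real.sqrt (QmC_R a) := by
      rw [norm_mul, RSG.ex_norm, Complex.norm_real, Real.norm_of_nonneg (Real.sqrt_nonneg _),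
        mul_one]
    rw [h1, Real.sq_sqrt ha.le]
    positivity
  · filter_upwards [N1] with z z1
    have h1 : ContDiffAt ℝ ∞ (fun q : ℂ × ℂ × ℝ => (a₀.1 + (Complex.log (q.1 / c1 z₀)).im /
        (2 * Real.pi), q.2.1, q.2.2)) (c1 z, c2 z, ht z) := by
      have b1 : ContDiffAt ℝ ∞ (fun q : ℂ × ℂ × ℝ => q.1 / c1 z₀) (c1 z, c2 z, ht z) :=
        contDiffAt_fst.div_const _
      have b2 := RSG.GcM_log_smooth b1 z1
      exact (contDiffAt_const.add (b2.div_const _)).prodMk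
        (contDiff_snd.fst.contDiffAt.prodMk contDiff_snd.snd.contDiffAt)
    exact h1.contMDiffAt.comp z
      ((RSG.c1_smooth z).prodMk_space ((RSG.c2_smooth z).prodMk_space (RSG.ht_smooth z)))
  · filter_upwards [QmC_R_ev h, A2] with a ha a2
    obtain ⟨f1, f2, f3, f4, f5⟩ := QmC_spec ha
    simp only [g]
    rw [f1, f2, f3, e1, QmC_log (Real.sqrt_pos.2 ha) hR a2]
    have hp := Real.pi_pos
    refine Prod.ext ?_ rfl
    simp only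
    field_simp
    ring
  · filter_upwards [N2] with z z2
    have s1 := RSG.S4_sq z
    have p1 : 0 < ‖c1 z‖ := norm_pos_iff.2 z2
    have r1 : QmC_R (g z) = ‖c1 z‖ ^ 2 := by
      simp only [QmC_R, g]
      linarith
    have r2 : (Real.sqrt (QmC_R (g z)) : ℂ) * ex (g z).1 = c1 z := by
      rw [r1, Real.sqrt_sq p1.le]
      simp only [g]
      rw [RSG.ex_add]
      have e6 := RSG.ex_arg (p := c1 z / c1 z₀)
      rw [Complex.log_im]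
      rw [norm_div, e4] at e6
      push_cast at e6
      have h2 : (Real.sqrt (QmC_R a₀) : ℂ) ≠ 0 := by exact_mod_cast hR.ne'
      calc (‖c1 z‖ : ℂ) * (ex a₀.1 * ex (Complex.arg (c1 z / c1 z₀) / (2 * Real.pi)))
          = ((Real.sqrt (QmC_R a₀) : ℂ) * ex a₀.1) * ((‖c1 z‖ : ℂ) / (Real.sqrt (QmC_R a₀) : ℂ) *
              ex (Complex.arg (c1 z / c1 z₀) / (2 * Real.pi))) := by field_simp
        _ = c1 z₀ * (c1 z / c1 z₀) := by rw [e6, ← e1]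
        _ = c1 z := by field_simp
    have r3 : QmC_s (g z) = z := by
      unfold QmC_s
      rw [r2]
      exact RSG.pS4_self z
    exact r3

/-- the factor of `etaS` -/
noncomputable def QmC_G (ε : ℝ) (a : ℝ × ℂ × ℝ) : ℂ :=
  (2 * ε : ℝ) * (QmC_F a / ‖QmC_F a‖) * (starRingEnd ℂ) ((Real.sqrt (QmC_R a) : ℂ) * ex a.1)

theorem QmC_G_smooth {ε : ℝ} {a : ℝ × ℂ × ℝ} (h : 0 < QmC_R a) (hF : QmC_F a ≠ 0) :
    ContDiffAt ℝ ∞ (QmC_G ε) a := by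
  have a1 : ContDiffAt ℝ ∞ (fun a : ℝ × ℂ × ℝ => (Real.sqrt (QmC_R a) : ℂ) * ex a.1) a :=
    (Complex.ofRealCLM.contDiff.contDiffAt.comp a (QmC_sqrt_smooth h)).mul
      (RSG.ex_smooth.contDiffAt.comp a contDiffAt_fst)
  have a2 : ContDiffAt ℝ ∞ (fun a : ℝ × ℂ × ℝ =>
      (starRingEnd ℂ) ((Real.sqrt (QmC_R a) : ℂ) * ex a.1)) a :=
    RSG.GcM_conj_smooth.contDiffAt.comp a a1
  have a3 := QmC_F_smooth h
  have a4 := RSG.GcM_norm_smooth a3 hF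
  have a5 : ContDiffAt ℝ ∞ (fun a : ℝ × ℂ × ℝ => QmC_F a / (‖QmC_F a‖ : ℂ)) a := by
    simp only [div_eq_mul_inv]
    exact a3.mul (a4.inv (by exact_mod_cast (norm_pos_iff.2 hF).ne'))
  exact (contDiffAt_const.mul a5).mul a2

theorem QmC_G_ne {ε : ℝ} (hε : 0 < ε) {a : ℝ × ℂ × ℝ} (h : 0 < QmC_R a) (hF : QmC_F a ≠ 0) :
    QmC_G ε a ≠ 0 := by
  have h1 : (‖QmC_F a‖ : ℂ) ≠ 0 := by exact_mod_cast (norm_pos_iff.2 hF).ne'
  have h2 : ((2 * ε : ℝ) : ℂ) ≠ 0 := by exact_mod_cast (by positivity : (2 * ε : ℝ) ≠ 0)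
  have h3 : (Real.sqrt (QmC_R a) : ℂ) * ex a.1 ≠ 0 :=
    mul_ne_zero (by exact_mod_cast (Real.sqrt_pos.2 h).ne') (RSG.ex_ne _)
  exact mul_ne_zero (mul_ne_zero h2 (div_ne_zero hF h1)) ((map_ne_zero _).2 h3)

theorem QmC_eta {ε : ℝ} {a : ℝ × ℂ × ℝ} (h : 0 < QmC_R a) :
    etaS ε (QmC_s a) = QmC_G ε a * a.2.1 := by
  obtain ⟨e1, e2, e3, e4, e5⟩ := QmC_spec h
  unfold etaS QmC_G
  rw [e5, e1, e2]

theorem QmC_us {a : ℝ × ℂ × ℝ} (h : 0 < QmC_R a) : ∃ m : ℤ, a.1 = uS (QmC_s a) + m := by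
  obtain ⟨e1, e2, e3, e4, e5⟩ := QmC_spec h
  have hR : 0 < Real.sqrt (QmC_R a) := Real.sqrt_pos.2 h
  have h1 := RSG.ex_arg (p := c1 (QmC_s a))
  rw [e4] at h1
  have h2 : (Real.sqrt (QmC_R a) : ℂ) * ex (Complex.arg (c1 (QmC_s a)) / (2 * Real.pi)) =
      (Real.sqrt (QmC_R a) : ℂ) * ex a.1 := by rw [h1, ← e1]
  obtain ⟨-, m, hm⟩ := RSG.ex_polar hR hR h2
  exact ⟨m, hm⟩

/-- the case of a given smooth function for the first coordinate -/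
theorem QmC_main {X : Type*} [TopologicalSpace X] [ChartedSpace E4 X] {κ : Equiv.Perm CSG.E3} {ε : ℝ}
    {k : ℤ} (D : PDs κ ε k X) (hε : 0 < ε) (hε' : ε ≤ 1 / 1000) {z : S4} (h1 : c1 z ≠ 0)
    (h2 : c2 z = 0) {Ξ : ℝ × ℂ × ℝ → ℝ} {g' : ℝ}
    (hΞ : ∀ᶠ a in 𝓝 (uS z, (0 : ℂ), ht z), ContDiffAt ℝ ∞ Ξ a)
    (hd : HasDerivAt (fun h => Ξ (uS z, 0, h)) g' (ht z)) (hg : g' ≠ 0)
    (hb : Ξ (uS z, 0, ht z) = xiS ε (QmC_s (uS z, 0, ht z)))
    (hn : ∀ᶠ a in 𝓝 (uS z, (0 : ℂ), ht z), ∃ m : ℤ, Ξ a = xiS ε (QmC_s a) + m) :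
    IsLocalDiffeomorphAt (𝓡 4) (𝓡 4) ∞ (Qm D) z := by
  have s1 := RSG.S4_sq z
  have p1 : 0 < ‖c1 z‖ := norm_pos_iff.2 h1
  rw [h2, norm_zero] at s1
  set a₀ : ℝ × ℂ × ℝ := (uS z, 0, ht z) with ha₀
  have r1 : QmC_R a₀ = ‖c1 z‖ ^ 2 := by
    simp only [QmC_R, ha₀, norm_zero]
    linarith
  have hR : 0 < QmC_R a₀ := by
    rw [r1]
    positivity
  have hF : QmC_F a₀ ≠ 0 := by
    intro h
    have h3 := congrArg Complex.re h
    simp only [QmC_F, Complex.zero_re] at h3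
    rw [r1] at h3
    simp only [ha₀, norm_zero] at h3
    nlinarith
  have hs : QmC_s a₀ = z := by
    unfold QmC_s
    rw [r1, Real.sqrt_sq p1.le]
    have h3 : (‖c1 z‖ : ℂ) * ex a₀.1 = c1 z := RSG.ex_arg
    rw [h3]
    have h4 : a₀.2.1 = c2 z := h2.symm
    rw [h4]
    exact RSG.pS4_self z
  have hFe : ∀ᶠ a in 𝓝 a₀, QmC_F a ≠ 0 :=
    (QmC_F_smooth hR).continuousAt.eventually_ne hF
  have hGe : ∀ᶠ a in 𝓝 a₀, ContDiffAt ℝ ∞ (QmC_G ε) a := by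
    filter_upwards [QmC_R_ev hR, hFe] with a a1 a2
    exact QmC_G_smooth a1 a2
  have hE := QmC_E hΞ hGe (QmC_G_ne hε hR hF) hd hg
  have hfz : fh (QmC_s a₀) ≠ 0 := by
    rw [(QmC_spec hR).2.2.2.2]
    exact hF
  have hcz : c1 (QmC_s a₀) ≠ 0 := by
    rw [hs]
    exact h1
  have key := QmC_base D hε hε' (QmC_s_ld hR) hE ?_ hfz hcz ?_
  · rw [hs] at key
    exact key
  · change (pt (1 / 2 + Ξ a₀) a₀.1 (1 / 2 + (QmC_G ε a₀ * a₀.2.1).re),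
        1 / 2 + (QmC_G ε a₀ * a₀.2.1).im) = qS ε (QmC_s a₀)
    rw [← QmC_eta hR]
    unfold qS
    rw [hb]
    have h5 : a₀.1 = uS (QmC_s a₀) := by rw [hs]
    rw [h5]
  · filter_upwards [QmC_R_ev hR, hFe, hn] with a a1 a2 a3
    obtain ⟨m, hm⟩ := a3
    obtain ⟨m', hm'⟩ := QmC_us a1
    refine ⟨?_, ?_, ?_, ![m, m', 0], ?_⟩
    · rw [← norm_pos_iff, (QmC_spec a1).2.2.2.1]
      exact Real.sqrt_pos.2 a1
    · rw [(QmC_spec a1).2.2.2.2]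
      exact a2
    · change 1 / 2 + (QmC_G ε a * a.2.1).im = _
      rw [← QmC_eta a1]
      rfl
    · change pt (1 / 2 + Ξ a) a.1 (1 / 2 + (QmC_G ε a * a.2.1).re) = _
      rw [← QmC_eta a1, hm, hm']
      unfold qS
      ext i
      fin_cases i
      · simp [CSG.vec, add_assoc]
      · simp [CSG.vec]
      · simp [CSG.vec]

/-- derivative of `fh` along `w = 0` -/
theorem QmC_Fd (u : ℝ) {h : ℝ} (hh : h ^ 2 < 1) :
    HasDerivAt (fun h => QmC_F (u, 0, h))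
      (((-2 * h : ℝ) : ℂ) + (((2 - 2 * h ^ 2) / Real.sqrt (2 - h ^ 2) : ℝ) : ℂ) * Complex.I) h := by
  have hp : 0 < 2 - h ^ 2 := by linarith
  have hs : 0 < Real.sqrt (2 - h ^ 2) := Real.sqrt_pos.2 hp
  have hss := Real.mul_self_sqrt hp.le
  have e1 : HasDerivAt (fun h : ℝ => 1 - h ^ 2) (-2 * h) h := by
    exact ((hasDerivAt_pow 2 h).const_sub 1).congr_deriv (by norm_num)
  have e2 : HasDerivAt (fun h : ℝ => 2 - h ^ 2) (-2 * h) h := by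
    exact ((hasDerivAt_pow 2 h).const_sub 2).congr_deriv (by norm_num)
  have e3 := e2.sqrt hp.ne'
  have e4 : HasDerivAt (fun h : ℝ => h * Real.sqrt (2 - h ^ 2))
      ((2 - 2 * h ^ 2) / Real.sqrt (2 - h ^ 2)) h := by
    refine ((hasDerivAt_id' h).mul e3).congr_deriv ?_
    have h3 : Real.sqrt (2 - h ^ 2) ^ 2 = 2 - h ^ 2 := Real.sq_sqrt hp.le
    field_simp
    rw [h3]
    ring
  have e5 : (fun h : ℝ => QmC_F (u, 0, h)) = fun h : ℝ => ((1 - h ^ 2 : ℝ) : ℂ) +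
      ((h * Real.sqrt (2 - h ^ 2) : ℝ) : ℂ) * Complex.I := by
    funext h
    unfold QmC_F QmC_R
    apply Complex.ext
    · simp only [Complex.add_re, Complex.ofReal_re, Complex.mul_re, Complex.ofReal_im,
        Complex.I_re, Complex.I_im, norm_zero]
      ring
    · simp only [Complex.add_im, Complex.ofReal_re, Complex.mul_im, Complex.ofReal_im,
        Complex.I_re, Complex.I_im]
      ring
  rw [e5]
  exact e1.ofReal_comp.add (e4.ofReal_comp.mul_const _)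

theorem QmC_Fdiv (u : ℝ) {h : ℝ} (hh : h ^ 2 < 1) :
    ((((-2 * h : ℝ) : ℂ) + (((2 - 2 * h ^ 2) / Real.sqrt (2 - h ^ 2) : ℝ) : ℂ) * Complex.I) /
      QmC_F (u, 0, h)).im = 2 / Real.sqrt (2 - h ^ 2) := by
  have hp : 0 < 2 - h ^ 2 := by linarith
  have hs : 0 < Real.sqrt (2 - h ^ 2) := Real.sqrt_pos.2 hp
  have hss := Real.mul_self_sqrt hp.le
  have hF : QmC_F (u, 0, h) = ⟨1 - h ^ 2, h * Real.sqrt (2 - h ^ 2)⟩ := by
    unfold QmC_F QmC_R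
    apply Complex.ext <;> simp
  have hN : Complex.normSq (QmC_F (u, 0, h)) = 1 := by
    rw [hF, Complex.normSq_apply]
    simp only
    nlinarith [hss]
  rw [Complex.div_im, hN, hF]
  simp only [Complex.add_re, Complex.add_im, Complex.ofReal_re, Complex.ofReal_im,
    Complex.mul_re, Complex.mul_im, Complex.I_re, Complex.I_im]
  field_simp
  nlinarith [hss]

theorem QmC_Ld (u : ℝ) {h : ℝ} (hh : h ^ 2 < 1) {σ : ℂ} (hσ : σ ≠ 0)
    (h2 : σ * QmC_F (u, 0, h) ∈ Complex.slitPlane) :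
    HasDerivAt (fun h => (Complex.log (σ * QmC_F (u, 0, h))).im) (2 / Real.sqrt (2 - h ^ 2)) h := by
  have e1 := ((QmC_Fd u hh).const_mul σ).clog_real h2
  rw [mul_div_mul_left _ _ hσ] at e1
  have e2 := Complex.imCLM.hasFDerivAt.comp_hasDerivAt h e1
  rw [← QmC_Fdiv u hh]
  exact e2

theorem QmC_W (h : ℝ) :
    HasDerivAt (fun h : ℝ => wX (1 - h ^ 2)) (2 * h * deriv (CSG.stp (1 / 20) (1 / 10)) (1 - h ^ 2))
      h := by
  have e1 : HasDerivAt (fun h : ℝ => 1 - h ^ 2) (-2 * h) h := by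
    exact ((hasDerivAt_pow 2 h).const_sub 1).congr_deriv (by norm_num)
  have e2 : HasDerivAt (CSG.stp (1 / 20) (1 / 10)) (deriv (CSG.stp (1 / 20) (1 / 10)) (1 - h ^ 2))
      (1 - h ^ 2) :=
    ((CSG.stp_smooth (1 / 20) (1 / 10)).differentiable (by simp) _).hasDerivAt
  have e3 := HasDerivAt.comp (h₂ := CSG.stp (1 / 20) (1 / 10)) (h := fun h : ℝ => 1 - h ^ 2) h e2 e1
  have e4 := (e3.const_sub 1).congr_deriv
    (g' := 2 * h * deriv (CSG.stp (1 / 20) (1 / 10)) (1 - h ^ 2)) (by ring)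
  exact e4

theorem QmC_P {ε h : ℝ} (hh : h ^ 2 < 1) :
    HasDerivAt (fun h : ℝ => 2 * ε * Real.sqrt (1 - h ^ 2) * h)
      (2 * ε * ((1 - 2 * h ^ 2) / Real.sqrt (1 - h ^ 2))) h := by
  have hp : 0 < 1 - h ^ 2 := by linarith
  have hs : 0 < Real.sqrt (1 - h ^ 2) := Real.sqrt_pos.2 hp
  have hss := Real.mul_self_sqrt hp.le
  have e1 : HasDerivAt (fun h : ℝ => 1 - h ^ 2) (-2 * h) h := by
    exact ((hasDerivAt_pow 2 h).const_sub 1).congr_deriv (by norm_num)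
  refine (((e1.sqrt hp.ne').const_mul (2 * ε)).mul (hasDerivAt_id' h)).congr_deriv ?_
  have h3 : Real.sqrt (1 - h ^ 2) ^ 2 = 1 - h ^ 2 := Real.sq_sqrt hp.le
  field_simp
  rw [h3]
  ring

/-- first coordinate, `h₀ ≠ 0` -/
noncomputable def QmC_X (ε : ℝ) (a : ℝ × ℂ × ℝ) : ℝ :=
  (1 - wX (QmC_R a)) * ((Complex.log (-QmC_F a)).im / (2 * Real.pi)) -
    wX (QmC_R a) * (2 * ε * Real.sqrt (QmC_R a) * a.2.2)

theorem QmC_X_eq {ε : ℝ} {a : ℝ × ℂ × ℝ} (h : 0 < QmC_R a) :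
    QmC_X ε a = xiS ε (QmC_s a) := by
  obtain ⟨e1, e2, e3, e4, e5⟩ := QmC_spec h
  unfold QmC_X xiS
  rw [e4, e5, e3, Real.sq_sqrt h.le, Complex.log_im]

theorem QmC_wX_smooth : ContDiff ℝ ∞ wX := contDiff_const.sub (CSG.stp_smooth _ _)

theorem QmC_X_smooth {ε : ℝ} {a : ℝ × ℂ × ℝ} (h : 0 < QmC_R a)
    (hF : -QmC_F a ∈ Complex.slitPlane) : ContDiffAt ℝ ∞ (QmC_X ε) a := by
  have a1 : ContDiffAt ℝ ∞ (fun a => wX (QmC_R a)) a :=
    (QmC_wX_smooth.comp QmC_R_smooth).contDiffAt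
  have a2 : ContDiffAt ℝ ∞ (fun a => (Complex.log (-QmC_F a)).im) a :=
    RSG.GcM_log_smooth (QmC_F_smooth h).neg hF
  have a3 := QmC_sqrt_smooth h
  exact ((contDiffAt_const.sub a1).mul (a2.div_const _)).sub
    (a1.mul ((contDiffAt_const.mul a3).mul contDiff_snd.snd.contDiffAt))

theorem QmC_pos {ε h : ℝ} (hε : 0 < ε) (hε' : ε ≤ 1 / 1000) (hh : h ^ 2 < 1) (h0 : h ≠ 0) (u : ℝ) :
    ∃ g', HasDerivAt (fun h => QmC_X ε (u, 0, h)) g' h ∧ 0 < g' := by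
  have hp : 0 < 2 - h ^ 2 := by linarith
  have hs : 0 < Real.sqrt (2 - h ^ 2) := Real.sqrt_pos.2 hp
  have hq : 0 < 1 - h ^ 2 := by linarith
  have hq' : 0 < Real.sqrt (1 - h ^ 2) := Real.sqrt_pos.2 hq
  have hq1 : Real.sqrt (1 - h ^ 2) ≤ 1 := by
    apply Real.sqrt_le_one.2
    nlinarith [sq_nonneg h]
  have hF : QmC_F (u, 0, h) = ⟨1 - h ^ 2, h * Real.sqrt (2 - h ^ 2)⟩ := by
    unfold QmC_F QmC_R
    apply Complex.ext <;> simp
  have hslit : (-1 : ℂ) * QmC_F (u, 0, h) ∈ Complex.slitPlane := by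
    right
    rw [hF]
    simp [h0, hs.ne']
  have e1 := (QmC_Ld u hh (σ := -1) (by norm_num) hslit).div_const (2 * Real.pi)
  have e2 := QmC_W h
  have e3 := QmC_P (ε := ε) hh
  have e4 := ((e2.const_sub 1).mul e1).sub (e2.mul e3)
  have e5 : (fun h => QmC_X ε (u, 0, h)) = fun h : ℝ =>
      (1 - wX (1 - h ^ 2)) * ((Complex.log (-1 * QmC_F (u, 0, h))).im / (2 * Real.pi)) -
        wX (1 - h ^ 2) * (2 * ε * Real.sqrt (1 - h ^ 2) * h) := by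
    funext h
    unfold QmC_X
    have : QmC_R (u, 0, h) = 1 - h ^ 2 := by simp [QmC_R]
    rw [this, neg_one_mul]
  refine ⟨_, by rw [e5]; exact e4, ?_⟩
  set W := wX (1 - h ^ 2) with hW
  set S := deriv (CSG.stp (1 / 20) (1 / 10)) (1 - h ^ 2) with hS
  set L := (Complex.log (-1 * QmC_F (u, 0, h))).im / (2 * Real.pi) with hL
  have hS0 : 0 ≤ S := CSG.stp_deriv_nonneg (by norm_num) _
  have hW1 : W ≤ 1 := by
    have := CSG.stp_nonneg (1 / 20) (1 / 10) (1 - h ^ 2)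
    rw [hW]
    unfold wX
    linarith
  have hW0 : 0 ≤ W := by
    have := CSG.stp_le_one (1 / 20) (1 / 10) (1 - h ^ 2)
    rw [hW]
    unfold wX
    linarith
  have hpi := Real.pi_pos
  have hd1 : 0 < 2 / Real.sqrt (2 - h ^ 2) / (2 * Real.pi) := by positivity
  -- position of `L`
  have harg : Real.pi / 2 ≤ |Complex.arg (-1 * QmC_F (u, 0, h))| := by
    rw [← not_lt, Complex.abs_arg_lt_pi_div_two_iff, hF]
    rintro (h1 | h1)
    · simp at h1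
      nlinarith [sq_abs h, abs_nonneg h]
    · have := congrArg Complex.re h1
      simp at this
      nlinarith
  have hP : |2 * ε * Real.sqrt (1 - h ^ 2) * h| ≤ 1 / 500 := by
    have h1 : |h| ≤ 1 := ((sq_lt_one_iff_abs_lt_one h).1 hh).le
    rw [abs_mul, abs_of_pos (by positivity)]
    calc 2 * ε * Real.sqrt (1 - h ^ 2) * |h| ≤ 2 * ε * 1 * 1 := by gcongr
      _ ≤ 1 / 500 := by linarith
  have hP' := abs_le.1 hP
  have hsign : 0 ≤ -(h * (L + 2 * ε * Real.sqrt (1 - h ^ 2) * h)) := by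
    rcases lt_or_gt_of_ne h0 with h1 | h1
    · have h2 : 0 ≤ Complex.arg (-1 * QmC_F (u, 0, h)) := by
        rw [Complex.arg_nonneg_iff, hF]
        simp
        nlinarith
      rw [abs_of_nonneg h2] at harg
      have h3 : 1 / 4 ≤ L := by
        rw [hL, Complex.log_im, le_div_iff₀ (by positivity)]
        linarith
      nlinarith [hP'.1]
    · have h2 : Complex.arg (-1 * QmC_F (u, 0, h)) < 0 := by
        rw [Complex.arg_neg_iff, hF]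
        simp
        positivity
      rw [abs_of_neg h2] at harg
      have h3 : L ≤ -(1 / 4) := by
        rw [hL, Complex.log_im, div_le_iff₀ (by positivity)]
        linarith
      nlinarith [hP'.2]
  have hT3 : 0 ≤ S * (-(h * (L + 2 * ε * Real.sqrt (1 - h ^ 2) * h))) := mul_nonneg hS0 hsign
  have hT1 : 0 ≤ (1 - W) * (2 / Real.sqrt (2 - h ^ 2) / (2 * Real.pi)) :=
    mul_nonneg (by linarith) hd1.le
  have hT2 : W = 0 ∨ 2 * ε * ((1 - 2 * h ^ 2) / Real.sqrt (1 - h ^ 2)) < 0 := by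
    by_cases h1 : 1 / 10 ≤ 1 - h ^ 2
    · left
      rw [hW]
      unfold wX
      rw [CSG.stp_one (by norm_num) h1]
      ring
    · right
      apply mul_neg_of_pos_of_neg (by positivity)
      exact div_neg_of_neg_of_pos (by linarith) hq'
  rcases hT2 with h1 | h1
  · rw [h1] at hT1 ⊢
    have : 0 < (1 - 0) * (2 / Real.sqrt (2 - h ^ 2) / (2 * Real.pi)) := by
      rw [sub_zero, one_mul]
      exact hd1
    nlinarith
  · by_cases h2 : W = 1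
    · rw [h2] at hT1 ⊢
      nlinarith
    · have h3 : 0 < (1 - W) * (2 / Real.sqrt (2 - h ^ 2) / (2 * Real.pi)) :=
        mul_pos (by
          have := lt_of_le_of_ne hW1 h2
          linarith) hd1
      have h4 : 0 ≤ -(W * (2 * ε * ((1 - 2 * h ^ 2) / Real.sqrt (1 - h ^ 2)))) := by
        nlinarith
      nlinarith

theorem Qm_ldC {X : Type*} [TopologicalSpace X] [ChartedSpace E4 X] {κ : Equiv.Perm CSG.E3} {ε : ℝ} {k : ℤ}
    (D : PDs κ ε k X) (hε : 0 < ε) (hε' : ε ≤ 1 / 1000) {z : S4} (h1 : c1 z ≠ 0) (h2 : c2 z = 0) :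
    IsLocalDiffeomorphAt (𝓡 4) (𝓡 4) ∞ (Qm D) z := by
  have s1 := RSG.S4_sq z
  have p1 : 0 < ‖c1 z‖ := norm_pos_iff.2 h1
  rw [h2, norm_zero] at s1
  set a₀ : ℝ × ℂ × ℝ := (uS z, 0, ht z) with ha₀
  have r1 : QmC_R a₀ = ‖c1 z‖ ^ 2 := by
    simp only [QmC_R, ha₀, norm_zero]
    linarith
  have hR : 0 < QmC_R a₀ := by
    rw [r1]
    positivity
  have hh : ht z ^ 2 < 1 := by nlinarith [sq_pos_of_pos p1]
  have hF : QmC_F a₀ = ⟨1 - ht z ^ 2, ht z * Real.sqrt (2 - ht z ^ 2)⟩ := by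
    rw [ha₀]
    unfold QmC_F QmC_R
    apply Complex.ext <;> simp
  have hp : 0 < 2 - ht z ^ 2 := by linarith
  have hs : 0 < Real.sqrt (2 - ht z ^ 2) := Real.sqrt_pos.2 hp
  by_cases h0 : ht z = 0
  · -- `h₀ = 0`
    have hF1 : QmC_F a₀ = 1 := by
      rw [hF, h0]
      apply Complex.ext <;> simp
    have hR1 : QmC_R a₀ = 1 := by
      simp [QmC_R, ha₀, h0]
    have hsl : ∀ᶠ a in 𝓝 a₀, QmC_F a ∈ Complex.slitPlane := by
      apply (QmC_F_smooth hR).continuousAt.eventually_mem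
      apply Complex.isOpen_slitPlane.mem_nhds
      rw [hF1]
      exact Complex.one_mem_slitPlane
    have hRb : ∀ᶠ a in 𝓝 a₀, 1 / 10 < QmC_R a :=
      QmC_R_smooth.continuous.continuousAt.eventually (lt_mem_nhds (by rw [hR1]; norm_num))
    have hx : ∀ a : ℝ × ℂ × ℝ, 1 / 10 < QmC_R a →
        xiS ε (QmC_s a) = Complex.arg (-QmC_F a) / (2 * Real.pi) := by
      intro a ha
      obtain ⟨e1, e2, e3, e4, e5⟩ := QmC_spec (a := a) (by linarith)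
      unfold xiS
      rw [e4, Real.sq_sqrt (by linarith), e5]
      unfold wX
      rw [CSG.stp_one (by norm_num) ha.le]
      ring
    have hpi := Real.pi_pos
    have hne : (2 / Real.sqrt (2 - ht z ^ 2)) / (2 * Real.pi) ≠ 0 := by positivity
    refine QmC_main D hε hε' h1 h2
      (Ξ := fun a => (Complex.log (QmC_F a)).im / (2 * Real.pi) + 1 / 2)
      (g' := (2 / Real.sqrt (2 - ht z ^ 2)) / (2 * Real.pi)) ?_ ?_ hne ?_ ?_
    · filter_upwards [QmC_R_ev hR, hsl] with a a1 a2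
      exact ((RSG.GcM_log_smooth (QmC_F_smooth a1) a2).div_const _).add contDiffAt_const
    · have e1 := QmC_Ld (uS z) hh (σ := 1) one_ne_zero (by
        rw [one_mul]
        exact hsl.self_of_nhds)
      simp only [one_mul] at e1
      exact (e1.div_const _).add_const _
    · change (Complex.log (QmC_F a₀)).im / (2 * Real.pi) + 1 / 2 = xiS ε (QmC_s a₀)
      rw [hx a₀ (by rw [hR1]; norm_num), hF1]
      simp only [Complex.log_one, Complex.zero_im, zero_div, zero_add, Complex.arg_neg_one]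
      field_simp
    · filter_upwards [hRb, hsl] with a a1 a2
      rw [hx a a1, Complex.log_im]
      have hn : QmC_F a ≠ 0 := Complex.slitPlane_ne_zero a2
      have hnp : 0 < ‖QmC_F a‖ := norm_pos_iff.2 hn
      have e1 := RSG.ex_arg (p := QmC_F a)
      have e2 := RSG.ex_arg (p := -QmC_F a)
      rw [norm_neg] at e2
      have e3 : (‖QmC_F a‖ : ℂ) * ex (Complex.arg (-QmC_F a) / (2 * Real.pi)) =
          (‖QmC_F a‖ : ℂ) * ex (Complex.arg (QmC_F a) / (2 * Real.pi) + 1 / 2) := by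
        rw [e2, RSG.ex_add, RSG.ex_half, ← mul_assoc, e1]
        ring
      obtain ⟨-, m, hm⟩ := RSG.ex_polar hnp hnp e3
      exact ⟨m, hm⟩
  · -- `h₀ ≠ 0`
    have hsl : ∀ᶠ a in 𝓝 a₀, -QmC_F a ∈ Complex.slitPlane := by
      apply (QmC_F_smooth hR).neg.continuousAt.eventually_mem
      apply Complex.isOpen_slitPlane.mem_nhds
      right
      rw [hF]
      simp [h0, hs.ne']
    obtain ⟨g', hg, hg0⟩ := QmC_pos hε hε' hh h0 (uS z)
    refine QmC_main D hε hε' h1 h2 (Ξ := QmC_X ε) (g' := g') ?_ hg hg0.ne' (QmC_X_eq hR) ?_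
    · filter_upwards [QmC_R_ev hR, hsl] with a a1 a2
      exact QmC_X_smooth a1 a2
    · filter_upwards [QmC_R_ev hR] with a a1
      exact ⟨0, by rw [QmC_X_eq a1]; simp⟩

end Pool.Agent.CSP
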