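import Pool.Agent.CSP.QmA

/-!
# CSP/QmI: injectivity of `Qm`, and its image   (difficulty 3)

* `qS_inj`: `z, z'` with `fh ≠ 0`, `c1 ≠ 0`, `qS ε z' = qS ε z + (vec m, 0)`: then `z = z'`.
  Coordinates: `etaS`: third and fourth coordinate: `|Re η|, |Re η'| < ε` so `m 2 = 0` and `η = η'`.  So
  `2‖c1‖‖c2‖ = ‖η‖/ε =: r` is the same (`etaS_norm`), `0 ≤ r < 1`, `‖fh z‖ = ‖fh z'‖ = √(1 - r²)` (`fh_sq`).
  `uS z' = uS z + m 1`, both in `(-1/2, 1/2]`: `c1/|c1|` is the same, `m 1 = 0`.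
  If `r > 0`: `z = Gc (-1) 1 (l, v, t)`, `z' = Gc (-1) 1 (l', v', t')` (`Gc_eq`), `‖v‖ = ‖v'‖ = r`, `v, v'` have the same
  direction (`uS`), so `v = v'`; `η = ε r ex l` so `l' = l + integer`; `qS_Gc`: `XX ε r (l' + t') = XX ε r (l + t) + n`,
  `= XX ε r (l + t + n)` (`XX_add`), so `l' + t' = l + t + n` (`XX_mono`), `t' = t + integer`, `Gc_per`.
  If `r = 0`: `c2 = 0`; then `fh = (1 - h²) + i h √(2 - h²)`, `‖c1‖² = 1 - h²`, `h = ht z`, and `xiS ε z = g (h)` (see QmC: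
  `g' > 0` away from `h = 0`), or directly: if `xiS ε z = xiS ε z' + m 0`, both in `[-1/2, 1/2]`.  `g` is strictly
  increasing on `(0, 1)` with values in `[-1/2, 0)`, on `(-1, 0)` with values in `(0, 1/2]`, and
  `g (0) = 1/2` (`arg` of a negative number is `π`).  So `m 0 = 0` or the values are `1/2` and `-1/2`; `-1/2` is not
  attained.  For the monotonicity on `(0, 1)` without derivatives: for `0 < h < h' < 1`:
  `a > a'`, `W ≤ W'`, `α < α' < 0` (`α = arg (fh)/2π - 1/2`, `arg fh = arcsin (h √(2 - h²))` is increasing),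
  `P = √(1 - h²) h`: `xiS = α + W (-2 ε P - α)`; if `W' = 0` clear; if `W' > 0` then `h'² ≥ 9/10`...; use
  `-2 ε P - α > 0`: `xiS (h') - xiS (h) = (1 - W')(α' - α) + W' 2 ε (P - P') + (W' - W)(-2 ε P - α)`, where
  `P ≥ P'` if `h² ≥ 1/2`; if `h² < 1/2` then `W = 0`, `xiS (h) = α ≤ -1/4 - ..`, `α(h) ≤ arg/2π - 1/2 ` with
  `arg fh (h²=1/2) = arctan √3 = π/3`, so `xiS (h) ≤ -1/3`, and `xiS (h') ≥ (1-W') α' - W'/500`: compare the cases
  `W' = 0` (clear) and `W' > 0`, `h'² ≥ 9/10`, `α' ≥ -1/4 - 1/50`.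
* `Qm_inj`: `z, z'` with `fh ≠ 0`, `Qm D z = Qm D z'`.  Both `c1 ≠ 0`: `D.H_inj` (`qS_off`, `qS_onC`, `qS_time`) and `qS_inj`.
  Both `c1 = 0`: `D.jc_inj`, `yS_inj`.  Mixed: `D.disjc`.
* `qS_surj`: for real `x0, u` and `η ∈ ℂ`, `‖η‖ < ε`, not (`η = 0` and `x0 - 1/2 ∈ ℤ`), there are `z` with `fh z ≠ 0`,
  `c1 z ≠ 0` and integers `a, b` with `qS ε z = (pt (x0 + a) (u + b) (1/2 + η.re), 1/2 + η.im)`.  If `η ≠ 0`: `r = ‖η‖/ε`, `η = ε r ex l`,
  `v = r ex u`, `φ` with `XX ε r φ = x0` (`XX_surj`), `t = φ - l`, `z = Gc (-1) 1 (l, v, t)`, `qS_Gc`.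
  If `η = 0`: `z = pS4 (√(1 - h²) ex u) 0 h` with `g (h) = x0 - 1/2` mod 1: intermediate value theorem for `g` on `(0, 1)`:
  `g (h) → -1/2` for `h → 0+`, `g (h) → 0-` for `h → 1-`, and on `(-1, 0)`: `g (-h) = -g (h)`; `g (0) = 1/2`.
-/

open scoped Manifold ContDiff Topology

namespace Pool.Agent.CSP
open Pool.Agent.CSG (pt vec)
open Pool.Agent.RSG (E4 S4 ex c1 c2 ht fh)

variable {ε : ℝ}

/-! ### the points with `c2 = 0` -/

/-- `‖xiS‖` at the points with `c2 = 0`, as a function of `a = ‖c1‖²` -/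
noncomputable def QmIG (ε a : ℝ) : ℝ :=
  (1 - wX a) * (1 / 2 - Real.arccos a / (2 * Real.pi)) + wX a * (2 * ε * (Real.sqrt a * Real.sqrt (1 - a)))

theorem QmI_wX_nonneg (a : ℝ) : 0 ≤ wX a := by
  unfold wX
  linarith [CSG.stp_le_one (1 / 20) (1 / 10) a]

theorem QmI_wX_le (a : ℝ) : wX a ≤ 1 := by
  unfold wX
  linarith [CSG.stp_nonneg (1 / 20) (1 / 10) a]

theorem QmI_wX_anti {a b : ℝ} (h : a ≤ b) : wX b ≤ wX a := by
  unfold wX
  linarith [CSG.stp_mono (a := 1 / 20) (b := 1 / 10) (by norm_num) h]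

theorem QmI_A {a : ℝ} (h : 0 ≤ a) : 1 / 4 ≤ 1 / 2 - Real.arccos a / (2 * Real.pi) := by
  have h1 : Real.arccos a ≤ Real.pi / 2 := Real.arccos_le_pi_div_two.2 h
  have hpi := Real.pi_pos
  have h2 : Real.arccos a / (2 * Real.pi) ≤ 1 / 4 := by
    rw [div_le_iff₀ (by positivity)]
    linarith
  linarith

theorem QmI_A_lt {a b : ℝ} (h : 0 ≤ a) (h' : a < b) (h'' : b ≤ 1) :
    1 / 2 - Real.arccos a / (2 * Real.pi) < 1 / 2 - Real.arccos b / (2 * Real.pi) := by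
  have h1 : Real.arccos b < Real.arccos a :=
    Real.strictAntiOn_arccos ⟨by linarith, by linarith⟩ ⟨by linarith, h''⟩ h'
  have hpi := Real.pi_pos
  have h2 : Real.arccos b / (2 * Real.pi) < Real.arccos a / (2 * Real.pi) := by
    gcongr
  linarith

theorem QmI_P {a : ℝ} (h : 0 ≤ a) (h' : a ≤ 1) : Real.sqrt a * Real.sqrt (1 - a) ≤ 1 := by
  have h1 : Real.sqrt a ≤ 1 := Real.sqrt_le_one.2 h'
  have h2 : Real.sqrt (1 - a) ≤ 1 := Real.sqrt_le_one.2 (by linarith)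
  exact mul_le_one₀ h1 (Real.sqrt_nonneg _) h2

theorem QmI_P_lt {a b : ℝ} (h : 0 ≤ a) (h' : a < b) (h'' : b ≤ 1 / 2) :
    Real.sqrt a * Real.sqrt (1 - a) < Real.sqrt b * Real.sqrt (1 - b) := by
  rw [← Real.sqrt_mul h, ← Real.sqrt_mul (by linarith)]
  apply Real.sqrt_lt_sqrt
  · apply mul_nonneg h
    linarith
  · nlinarith

theorem QmIG_lt {ε : ℝ} (hε : 0 < ε) (hε' : ε ≤ 1 / 1000) {a b : ℝ} (h : 0 ≤ a) (h' : a < b)
    (h'' : b ≤ 1) : QmIG ε a < QmIG ε b := by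
  have e : QmIG ε b - QmIG ε a = (1 - wX b) * ((1 / 2 - Real.arccos b / (2 * Real.pi)) -
      (1 / 2 - Real.arccos a / (2 * Real.pi))) + wX b * (2 * ε * (Real.sqrt b * Real.sqrt (1 - b) -
      Real.sqrt a * Real.sqrt (1 - a))) + (wX a - wX b) * ((1 / 2 - Real.arccos a / (2 * Real.pi)) -
      2 * ε * (Real.sqrt a * Real.sqrt (1 - a))) := by
    unfold QmIG
    ring
  have h1 := QmI_A_lt h h' h''
  have h2 := QmI_wX_anti h'.le
  have h3 := QmI_wX_nonneg b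
  have h4 := QmI_wX_le b
  have h5 := QmI_A h
  have h6 := QmI_P h (by linarith)
  have h7 : 0 ≤ Real.sqrt a * Real.sqrt (1 - a) := by positivity
  have h8 : 0 ≤ (wX a - wX b) * ((1 / 2 - Real.arccos a / (2 * Real.pi)) -
      2 * ε * (Real.sqrt a * Real.sqrt (1 - a))) := by
    apply mul_nonneg (by linarith)
    nlinarith
  have h9 : 0 ≤ (1 - wX b) * ((1 / 2 - Real.arccos b / (2 * Real.pi)) -
      (1 / 2 - Real.arccos a / (2 * Real.pi))) := mul_nonneg (by linarith) (by linarith)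
  rcases le_or_gt (1 / 10) b with h10 | h10
  · have h11 : wX b = 0 := XXa_wX_zero h10
    rw [h11] at e
    rw [h11] at h8
    linarith
  · have h12 := QmI_P_lt h h' (by linarith : b ≤ 1 / 2)
    have h13 : 0 < 2 * ε * (Real.sqrt b * Real.sqrt (1 - b) - Real.sqrt a * Real.sqrt (1 - a)) :=
      mul_pos (by linarith) (by linarith)
    rcases eq_or_lt_of_le h3 with h14 | h14
    · rw [← h14] at e
      rw [← h14] at h8
      linarith
    · have := mul_pos h14 h13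
      linarith

theorem QmIG_zero (ε : ℝ) : QmIG ε 0 = 0 := by
  unfold QmIG wX
  rw [CSG.stp_zero (by norm_num) (by norm_num)]
  simp

theorem QmIG_one (ε : ℝ) : QmIG ε 1 = 1 / 2 := by
  unfold QmIG wX
  rw [CSG.stp_one (by norm_num) (by norm_num)]
  simp

theorem QmIG_cont (ε : ℝ) : Continuous (QmIG ε) := by
  have h1 : Continuous wX := continuous_const.sub (CSG.stp_smooth (1 / 20) (1 / 10)).continuous
  unfold QmIG
  exact ((continuous_const.sub h1).mul (continuous_const.sub (Real.continuous_arccos.div_const _))).add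
    (h1.mul (continuous_const.mul (Real.continuous_sqrt.mul
      (Real.continuous_sqrt.comp (continuous_const.sub continuous_id)))))

theorem QmIG_surj (ε : ℝ) {y : ℝ} (h : 0 < y) (h' : y ≤ 1 / 2) : ∃ a, 0 < a ∧ a ≤ 1 ∧ QmIG ε a = y := by
  have h1 := intermediate_value_Icc (f := QmIG ε) (a := 0) (b := 1) zero_le_one (QmIG_cont ε).continuousOn
  rw [QmIG_zero, QmIG_one] at h1
  obtain ⟨a, ha, hay⟩ := h1 ⟨h.le, h'⟩
  refine ⟨a, lt_of_le_of_ne ha.1 fun h2 => ?_, ha.2, hay⟩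
  rw [← h2, QmIG_zero] at hay
  linarith

theorem QmI_xi {ε : ℝ} {z : S4} (h2 : c2 z = 0) :
    (0 < ht z → xiS ε z = -QmIG ε (‖c1 z‖ ^ 2)) ∧ (ht z ≤ 0 → xiS ε z = QmIG ε (‖c1 z‖ ^ 2)) := by
  have hs := RSG.S4_sq z
  rw [h2, norm_zero] at hs
  have hf := RSG.fh_sq z
  rw [h2, norm_zero] at hf
  have hf1 : ‖-fh z‖ = 1 := by
    rw [norm_neg]
    have : ‖fh z‖ ^ 2 = 1 := by linarith
    exact RSG.SphB_one this
  have ha : Real.sqrt (1 - ‖c1 z‖ ^ 2) = |ht z| := by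
    rw [← Real.sqrt_sq_eq_abs]
    congr 1
    linarith
  have hb : Real.sqrt (‖c1 z‖ ^ 2) = ‖c1 z‖ := Real.sqrt_sq (norm_nonneg _)
  have hre : (-fh z).re = -‖c1 z‖ ^ 2 := by
    unfold fh
    rw [h2]
    simp
  have him : (-fh z).im = -(ht z * Real.sqrt (2 - ht z ^ 2)) := by
    unfold fh
    simp
  have hq : 0 < Real.sqrt (2 - ht z ^ 2) := by
    apply Real.sqrt_pos.2
    nlinarith [sq_nonneg ‖c1 z‖]
  have hpi := Real.pi_pos
  constructor
  · intro h
    have h3 : (-fh z).im < 0 := by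
      rw [him]
      have := mul_pos h hq
      linarith
    unfold xiS QmIG
    rw [Complex.arg_of_im_neg h3, hf1, hre, div_one, Real.arccos_neg, ha, hb, abs_of_pos h]
    field_simp
    ring
  · intro h
    have h3 : 0 ≤ (-fh z).im := by
      rw [him]
      have := mul_nonneg (neg_nonneg.2 h) hq.le
      linarith
    have h4 : -fh z ≠ 0 := by
      rw [← norm_ne_zero_iff, hf1]
      exact one_ne_zero
    unfold xiS QmIG
    rw [Complex.arg_of_im_nonneg_of_ne_zero h3 h4, hf1, hre, div_one, Real.arccos_neg, ha, hb,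
      abs_of_nonpos h]
    field_simp
    ring

/-! ### the points with `c2 ≠ 0` -/

theorem QmI_Gc {z : S4} (h : fh z ≠ 0) (h1 : c1 z ≠ 0) (h2 : c2 z ≠ 0) :
    ∃ l t : ℝ, ∃ v : ℂ, v ≠ 0 ∧ ‖v‖ < 1 ∧ z = RSG.Gc (-1) 1 (l, v, t) := by
  have p1 : 0 < ‖c1 z‖ := norm_pos_iff.2 h1
  have p2 : 0 < ‖c2 z‖ := norm_pos_iff.2 h2
  set m := Complex.arg (c1 z) / (2 * Real.pi)
  set t := m - Complex.arg (c2 z) / (2 * Real.pi) with ht'
  set l := Complex.arg (fh z) / (2 * Real.pi) - t with hl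
  have hn : ‖((2 * ‖c1 z‖ * ‖c2 z‖ : ℝ) : ℂ) * ex m‖ = 2 * ‖c1 z‖ * ‖c2 z‖ := by
    rw [norm_mul, RSG.ex_norm, mul_one, Complex.norm_real, Real.norm_of_nonneg (by positivity)]
  refine ⟨l, t, ((2 * ‖c1 z‖ * ‖c2 z‖ : ℝ) : ℂ) * ex m, ?_, ?_, ?_⟩
  · rw [← norm_pos_iff, hn]
    positivity
  · rw [hn]
    exact (RSG.fh_ne_iff z).1 h
  · refine RSG.Gc_eq (-1) 1 h h1 h2 ?_ ?_ ?_
    · have : (((1 : ℤ) : ℝ) * m + ((1 - 1 : ℤ) : ℝ) * t) = m := by push_cast; ring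
      rw [this]
      exact RSG.ex_arg.symm
    · have : (((1 : ℤ) : ℝ) * m + ((-1 : ℤ) : ℝ) * t) = Complex.arg (c2 z) / (2 * Real.pi) := by
        rw [ht']
        push_cast
        ring
      rw [this]
      exact RSG.ex_arg.symm
    · have : l - ((-1 : ℤ) : ℝ) * t = Complex.arg (fh z) / (2 * Real.pi) := by
        rw [hl]
        push_cast
        ring
      rw [this]
      exact RSG.ex_arg.symm

theorem QmI_arg {x y : ℂ} {m : ℤ} (h : Complex.arg y / (2 * Real.pi) = Complex.arg x / (2 * Real.pi) + m) :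
    Complex.arg y = Complex.arg x := by
  have hpi := Real.pi_pos
  have h1 := Complex.neg_pi_lt_arg x
  have h2 := Complex.arg_le_pi x
  have h3 := Complex.neg_pi_lt_arg y
  have h4 := Complex.arg_le_pi y
  have h5 : Complex.arg y = Complex.arg x + m * (2 * Real.pi) := by
    field_simp at h
    linarith
  have h6 : m = 0 := by
    have h7 : (m : ℝ) < 1 := by
      by_contra hcon
      push Not at hcon
      nlinarith
    have h8 : (-1 : ℝ) < m := by
      by_contra hcon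
      push Not at hcon
      nlinarith
    have h9 : m < 1 := by exact_mod_cast h7
    have h10 : -1 < m := by exact_mod_cast h8
    omega
  rw [h5, h6]
  simp

theorem QmI_eta {ε : ℝ} {z : S4} (h2 : c2 z = 0) : etaS ε z = 0 := by
  unfold etaS
  rw [h2, mul_zero]

theorem QmI_pt (a b c : ℝ) : pt a b c 0 = a ∧ pt a b c 1 = b ∧ pt a b c 2 = c := ⟨rfl, rfl, rfl⟩

theorem QmI_vec (m : Fin 3 → ℤ) (i : Fin 3) : vec m i = m i := rfl

theorem qS_inj (hε : 0 < ε) (hε' : ε ≤ 1 / 1000) {z z' : S4} (h : fh z ≠ 0) (h1 : c1 z ≠ 0) (h' : fh z' ≠ 0)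
    (h1' : c1 z' ≠ 0) (m : Fin 3 → ℤ) (he : (qS ε z').1 = (qS ε z).1 + vec m) (he2 : (qS ε z').2 = (qS ε z).2) :
    z = z' := by
  have hη := etaS_lt hε h
  have hη' := etaS_lt hε h'
  have c0 : 1 / 2 + xiS ε z' = 1 / 2 + xiS ε z + m 0 := congrArg (fun x : CSG.E3 => x 0) he
  have c1' : uS z' = uS z + m 1 := congrArg (fun x : CSG.E3 => x 1) he
  have c2' : 1 / 2 + (etaS ε z').re = 1 / 2 + (etaS ε z).re + m 2 := congrArg (fun x : CSG.E3 => x 2) he
  have c3' : 1 / 2 + (etaS ε z').im = 1 / 2 + (etaS ε z).im := he2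
  have hm2 : m 2 = 0 := by
    have h3 := abs_lt.1 (lt_of_le_of_lt (Complex.abs_re_le_norm _) hη)
    have h4 := abs_lt.1 (lt_of_le_of_lt (Complex.abs_re_le_norm _) hη')
    have h7 : ((m 2 : ℤ) : ℝ) < 1 := by linarith [h3.1, h3.2, h4.1, h4.2]
    have h8 : (-1 : ℝ) < ((m 2 : ℤ) : ℝ) := by linarith [h3.1, h3.2, h4.1, h4.2]
    have h9 : m 2 < 1 := by exact_mod_cast h7
    have h10 : -1 < m 2 := by exact_mod_cast h8
    omega
  rw [hm2] at c2'
  push_cast at c2'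
  have heta : etaS ε z' = etaS ε z := Complex.ext (by linarith) (by linarith)
  have n1 := etaS_norm hε h
  have n1' := etaS_norm hε h'
  have p1 : 0 < ‖c1 z‖ := norm_pos_iff.2 h1
  have p1' : 0 < ‖c1 z'‖ := norm_pos_iff.2 h1'
  by_cases h2 : c2 z = 0
  · have h2' : c2 z' = 0 := by
      rw [heta, QmI_eta h2, norm_zero] at n1'
      have h5 : 2 * ‖c1 z'‖ * ‖c2 z'‖ = 0 := by
        rcases mul_eq_zero.1 n1'.symm with h6 | h6
        · exact absurd h6 hε.ne'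
        · exact h6
      rcases mul_eq_zero.1 h5 with h6 | h6
      · linarith
      · exact norm_eq_zero.1 h6
    -- both on `c2 = 0`
    have harg : Complex.arg (c1 z') = Complex.arg (c1 z) := QmI_arg c1'
    have hs := RSG.S4_sq z
    have hs' := RSG.S4_sq z'
    rw [h2, norm_zero] at hs
    rw [h2', norm_zero] at hs'
    set a := ‖c1 z‖ ^ 2 with ha
    set a' := ‖c1 z'‖ ^ 2 with ha'
    have ha0 : 0 < a := by positivity
    have ha0' : 0 < a' := by positivity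
    have ha1 : a ≤ 1 := by nlinarith [sq_nonneg (ht z)]
    have ha1' : a' ≤ 1 := by nlinarith [sq_nonneg (ht z')]
    obtain ⟨X1, X2⟩ := QmI_xi (ε := ε) h2
    obtain ⟨X1', X2'⟩ := QmI_xi (ε := ε) h2'
    rw [← ha] at X1 X2
    rw [← ha'] at X1' X2'
    have G0 : 0 < QmIG ε a := by
      have := QmIG_lt hε hε' le_rfl ha0 ha1
      rwa [QmIG_zero] at this
    have G0' : 0 < QmIG ε a' := by
      have := QmIG_lt hε hε' le_rfl ha0' ha1'
      rwa [QmIG_zero] at this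
    have G1 : QmIG ε a ≤ 1 / 2 ∧ (a < 1 → QmIG ε a < 1 / 2) := by
      have h3 : a < 1 → QmIG ε a < 1 / 2 := fun h4 => by
        have := QmIG_lt hε hε' ha0.le h4 le_rfl
        rwa [QmIG_one] at this
      refine ⟨?_, h3⟩
      rcases eq_or_lt_of_le ha1 with h4 | h4
      · rw [h4, QmIG_one]
      · exact (h3 h4).le
    have G1' : QmIG ε a' ≤ 1 / 2 ∧ (a' < 1 → QmIG ε a' < 1 / 2) := by
      have h3 : a' < 1 → QmIG ε a' < 1 / 2 := fun h4 => by
        have := QmIG_lt hε hε' ha0'.le h4 le_rfl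
        rwa [QmIG_one] at this
      refine ⟨?_, h3⟩
      rcases eq_or_lt_of_le ha1' with h4 | h4
      · rw [h4, QmIG_one]
      · exact (h3 h4).le
    have lt1 : 0 < ht z → a < 1 := fun h3 => by nlinarith
    have lt1' : 0 < ht z' → a' < 1 := fun h3 => by nlinarith
    have hm0 : m 0 = 0 := by
      have hx : (-(1 / 2) < xiS ε z) ∧ xiS ε z ≤ 1 / 2 := by
        rcases lt_or_ge 0 (ht z) with h3 | h3
        · rw [X1 h3]
          constructor
          · linarith [G1.2 (lt1 h3)]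
          · linarith
        · rw [X2 h3]
          constructor
          · linarith
          · exact G1.1
      have hx' : (-(1 / 2) < xiS ε z') ∧ xiS ε z' ≤ 1 / 2 := by
        rcases lt_or_ge 0 (ht z') with h3 | h3
        · rw [X1' h3]
          constructor
          · linarith [G1'.2 (lt1' h3)]
          · linarith
        · rw [X2' h3]
          constructor
          · linarith
          · exact G1'.1
      have h7 : ((m 0 : ℤ) : ℝ) < 1 := by linarith [hx.1, hx.2, hx'.1, hx'.2]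
      have h8 : (-1 : ℝ) < ((m 0 : ℤ) : ℝ) := by linarith [hx.1, hx.2, hx'.1, hx'.2]
      have h9 : m 0 < 1 := by exact_mod_cast h7
      have h10 : -1 < m 0 := by exact_mod_cast h8
      omega
    have hxi : xiS ε z' = xiS ε z := by
      rw [hm0] at c0
      push_cast at c0
      linarith
    have hinj : QmIG ε a = QmIG ε a' → a = a' := by
      intro h3
      rcases lt_trichotomy a a' with h4 | h4 | h4
      · have := QmIG_lt hε hε' ha0.le h4 ha1'
        linarith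
      · exact h4
      · have := QmIG_lt hε hε' ha0'.le h4 ha1
        linarith
    have hnorm : a = a' → ‖c1 z‖ = ‖c1 z'‖ := by
      intro h3
      have : ‖c1 z‖ ^ 2 = ‖c1 z'‖ ^ 2 := h3
      exact (pow_left_inj₀ (norm_nonneg _) (norm_nonneg _) two_ne_zero).1 this
    have hc1 : a = a' → c1 z = c1 z' := fun h3 => Complex.ext_norm_arg (hnorm h3) harg.symm
    have hht : a = a' → (0 < ht z ↔ 0 < ht z') → ht z = ht z' := by
      intro h3 h4
      have h5 : ht z ^ 2 = ht z' ^ 2 := by linarith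
      rcases lt_or_ge 0 (ht z) with h6 | h6
      · exact (pow_left_inj₀ h6.le (h4.1 h6).le two_ne_zero).1 h5
      · have h7 : ht z' ≤ 0 := by
          by_contra hcon
          push Not at hcon
          exact absurd (h4.2 hcon) (not_lt.2 h6)
        have h8 : -ht z = -ht z' := by
          apply (pow_left_inj₀ (neg_nonneg.2 h6) (neg_nonneg.2 h7) two_ne_zero).1
          rw [neg_sq, neg_sq, h5]
        linarith
    rcases lt_or_ge 0 (ht z) with h3 | h3 <;> rcases lt_or_ge 0 (ht z') with h4 | h4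
    · have h5 : a = a' := hinj (by linarith [X1 h3, X1' h4])
      exact RSG.S4_ext (hc1 h5) (h2.trans h2'.symm) (hht h5 ⟨fun _ => h4, fun _ => h3⟩)
    · exfalso
      linarith [X1 h3, X2' h4]
    · exfalso
      linarith [X2 h3, X1' h4]
    · have h5 : a = a' := hinj (by linarith [X2 h3, X2' h4])
      exact RSG.S4_ext (hc1 h5) (h2.trans h2'.symm) (hht h5 ⟨fun h6 => absurd h6 (not_lt.2 h3),
        fun h6 => absurd h6 (not_lt.2 h4)⟩)
  · have h2' : c2 z' ≠ 0 := by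
      intro h3
      rw [← heta, QmI_eta h3, norm_zero] at n1
      have p2 : 0 < ‖c2 z‖ := norm_pos_iff.2 h2
      have : 0 < ε * (2 * ‖c1 z‖ * ‖c2 z‖) := by positivity
      linarith
    obtain ⟨l, t, v, hv, hv1, hz⟩ := QmI_Gc h h1 h2
    obtain ⟨l', t', v', hv', hv1', hz'⟩ := QmI_Gc h' h1' h2'
    obtain ⟨k, hk⟩ := qS_Gc (ε := ε) (l := l) (t := t) hv hv1
    obtain ⟨k', hk'⟩ := qS_Gc (ε := ε) (l := l') (t := t') hv' hv1'
    rw [← hz] at hk
    rw [← hz'] at hk'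
    rw [hk, hk'] at he
    rw [hk, hk'] at he2
    have d0 : XX ε ‖v'‖ (l' + t') + k' = XX ε ‖v‖ (l + t) + k + m 0 :=
      congrArg (fun x : CSG.E3 => x 0) he
    have d1 : Complex.arg v' / (2 * Real.pi) = Complex.arg v / (2 * Real.pi) + m 1 :=
      congrArg (fun x : CSG.E3 => x 1) he
    have d2 : 1 / 2 + (ε * ‖v'‖ * ex l').re = 1 / 2 + (ε * ‖v‖ * ex l).re + m 2 :=
      congrArg (fun x : CSG.E3 => x 2) he
    have d3 : 1 / 2 + (ε * ‖v'‖ * ex l').im = 1 / 2 + (ε * ‖v‖ * ex l).im := he2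
    rw [hm2] at d2
    push_cast at d2
    have hp : 0 < ‖v‖ := norm_pos_iff.2 hv
    have hp' : 0 < ‖v'‖ := norm_pos_iff.2 hv'
    have hee : (ε * ‖v'‖ * ex l' : ℂ) = ε * ‖v‖ * ex l := Complex.ext (by linarith) (by linarith)
    have hee' : (((ε * ‖v‖ : ℝ)) : ℂ) * ex l = ((ε * ‖v'‖ : ℝ) : ℂ) * ex l' := by
      push_cast
      exact hee.symm
    obtain ⟨hr, i, hi⟩ := RSG.ex_polar (by positivity) (by positivity) hee'
    have hr' : ‖v‖ = ‖v'‖ := mul_left_cancel₀ hε.ne' hr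
    have hvv : v = v' := Complex.ext_norm_arg hr' (QmI_arg d1).symm
    subst hvv
    have hXX : XX ε ‖v‖ (l' + t') = XX ε ‖v‖ (l + t + ((k + m 0 - k' : ℤ) : ℝ)) := by
      rw [XX_add]
      push_cast
      linarith
    have ht1 := (XX_mono hε hε' hp hv1).injective hXX
    have ht2 : t' = t + ((k + m 0 - k' - i : ℤ) : ℝ) := by
      push_cast at ht1 ⊢
      linarith
    rw [hz, hz', hi, ht2, RSG.Gc_per]

theorem QmI_uS {a u : ℝ} (ha : 0 < a) : ∃ b : ℤ, Complex.arg ((a : ℂ) * ex u) / (2 * Real.pi) = u + b := by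
  have h1 := RSG.ex_arg (p := (a : ℂ) * ex u)
  rw [norm_mul, RSG.ex_norm, mul_one, Complex.norm_real, Real.norm_of_nonneg ha.le] at h1
  have h2 := mul_left_cancel₀ (by exact_mod_cast ha.ne' : (a : ℂ) ≠ 0) h1
  obtain ⟨m, hm⟩ := RSG.ex_eq_iff.1 h2
  refine ⟨-m, ?_⟩
  push_cast
  linarith

theorem qS_surj (hε : 0 < ε) (hε' : ε ≤ 1 / 1000) (x0 u : ℝ) (η : ℂ) (hη : ‖η‖ < ε)
    (h : ¬ (η = 0 ∧ ∃ a : ℤ, x0 - 1 / 2 = a)) : ∃ (z : S4) (a b : ℤ), fh z ≠ 0 ∧ c1 z ≠ 0 ∧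
      qS ε z = (pt (x0 + a) (u + b) (1 / 2 + η.re), 1 / 2 + η.im) := by
  by_cases h0 : η = 0
  · subst h0
    -- reduce `x0` modulo 1
    have hx : ∀ a : ℤ, x0 - 1 / 2 ≠ a := fun a ha => h ⟨rfl, a, ha⟩
    -- y = x0 - 1/2 - n in (-1/2, 1/2]
    obtain ⟨n, y, hy, hy1, hy2⟩ : ∃ (n : ℤ) (y : ℝ), x0 - 1 / 2 = y + n ∧ -(1 / 2) < y ∧ y ≤ 1 / 2 := by
      refine ⟨-⌊-(x0 - 1 / 2) + 1 / 2⌋, x0 - 1 / 2 + ⌊-(x0 - 1 / 2) + 1 / 2⌋, ?_, ?_, ?_⟩
      · push_cast
        ring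
      · linarith [Int.lt_floor_add_one (-(x0 - 1 / 2) + 1 / 2)]
      · linarith [Int.floor_le (-(x0 - 1 / 2) + 1 / 2)]
    have hy0 : y ≠ 0 := by
      intro h3
      rw [h3, zero_add] at hy
      exact hx n hy
    obtain ⟨a, ha, ha1, hG⟩ := QmIG_surj ε (y := |y|) (abs_pos.2 hy0) (by
      rw [abs_le]
      constructor <;> linarith)
    obtain ⟨b, hb⟩ := QmI_uS (a := Real.sqrt a) (u := u) (Real.sqrt_pos.2 ha)
    -- the sign
    obtain ⟨s, hs, hsy⟩ : ∃ s : ℝ, s ^ 2 = 1 - a ∧ (0 < s → y < 0) ∧ (s ≤ 0 → 0 < y) := by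
      rcases lt_or_gt_of_ne hy0 with h3 | h3
      · refine ⟨Real.sqrt (1 - a), Real.sq_sqrt (by linarith), fun _ => h3, fun h4 => ?_⟩
        exfalso
        have h5 : 1 - a ≤ 0 := Real.sqrt_eq_zero'.1 (le_antisymm h4 (Real.sqrt_nonneg _))
        have h6 : a = 1 := by linarith
        rw [h6, QmIG_one, abs_of_neg h3] at hG
        linarith
      · refine ⟨-Real.sqrt (1 - a), by rw [neg_sq, Real.sq_sqrt (by linarith)], fun h4 => ?_, fun _ => h3⟩
        exfalso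
        linarith [Real.sqrt_nonneg (1 - a)]
    have hn : ‖((Real.sqrt a : ℝ) : ℂ) * ex u‖ = Real.sqrt a := by
      rw [norm_mul, RSG.ex_norm, mul_one, Complex.norm_real, Real.norm_of_nonneg (Real.sqrt_nonneg _)]
    have hn2 : ‖((Real.sqrt a : ℝ) : ℂ) * ex u‖ ^ 2 = a := by
      rw [hn, Real.sq_sqrt ha.le]
    obtain ⟨e1, e2, e3⟩ := RSG.pS4_c (a := ((Real.sqrt a : ℝ) : ℂ) * ex u) (b := 0) (h := s) (by
      rw [hn2, hs, norm_zero]
      ring)
    set z := RSG.pS4 (((Real.sqrt a : ℝ) : ℂ) * ex u) 0 s with hz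
    have hxi : xiS ε z = y := by
      obtain ⟨X1, X2⟩ := QmI_xi (ε := ε) e2
      rw [e1, hn2, hG, e3] at X1 X2
      rcases lt_or_ge 0 s with h3 | h3
      · rw [X1 h3, abs_of_neg (hsy.1 h3), neg_neg]
      · rw [X2 h3, abs_of_pos (hsy.2 h3)]
    refine ⟨z, -n, b, ?_, ?_, ?_⟩
    · rw [RSG.fh_ne_iff, e2, norm_zero, mul_zero]
      exact zero_lt_one
    · rw [e1, ← norm_pos_iff, hn]
      exact Real.sqrt_pos.2 ha
    · unfold qS
      rw [QmI_eta e2, hxi]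
      have h4 : uS z = u + b := by
        unfold uS
        rw [e1, hb]
      rw [h4]
      have h5 : 1 / 2 + y = x0 + ((-n : ℤ) : ℝ) := by
        push_cast
        linarith
      rw [h5]
  · have hp : 0 < ‖η‖ := norm_pos_iff.2 h0
    set r := ‖η‖ / ε with hr
    have hr0 : 0 < r := by positivity
    have hr1 : r < 1 := by
      rw [hr, div_lt_one hε]
      exact hη
    have hεr : ε * r = ‖η‖ := by
      rw [hr]
      field_simp
    obtain ⟨φ, hφ⟩ := XX_surj hε hε' hr0 hr1 x0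
    set l := Complex.arg η / (2 * Real.pi)
    have hl : (‖η‖ : ℂ) * ex l = η := RSG.ex_arg
    have hn : ‖((r : ℝ) : ℂ) * ex u‖ = r := by
      rw [norm_mul, RSG.ex_norm, mul_one, Complex.norm_real, Real.norm_of_nonneg hr0.le]
    have hv0 : ((r : ℝ) : ℂ) * ex u ≠ 0 := by
      rw [← norm_pos_iff, hn]
      exact hr0
    obtain ⟨m, hm⟩ := qS_Gc (ε := ε) (l := l) (t := φ - l) hv0 (by rw [hn]; exact hr1)
    obtain ⟨b, hb⟩ := QmI_uS (a := r) (u := u) hr0
    have hsp := RSG.Gc_spec (-1) 1 (l := l) (t := φ - l) hv0 (by rw [hn]; exact hr1)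
    refine ⟨RSG.Gc (-1) 1 (l, ((r : ℝ) : ℂ) * ex u, φ - l), m, b, hsp.1, hsp.2.1, ?_⟩
    have h3 : l + (φ - l) = φ := by ring
    have h4 : (ε * ‖((r : ℝ) : ℂ) * ex u‖ * ex l : ℂ) = η := by
      rw [hn, ← hl]
      congr 1
      rw [← Complex.ofReal_mul, hεr]
    rw [hm, h3, h4, hn, hφ, hb]

variable {X : Type*} [TopologicalSpace X] [ChartedSpace E4 X] {κ : Equiv.Perm CSG.E3} {k : ℤ}

theorem Qm_inj (D : PDs κ ε k X) (hε : 0 < ε) (hε' : ε ≤ 1 / 1000) {z z' : S4} (h : fh z ≠ 0) (h' : fh z' ≠ 0)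
    (he : Qm D z = Qm D z') : z = z' := by
  have ht1 : ∀ {z : S4}, fh z ≠ 0 → 0 ≤ (qS ε z).2 ∧ (qS ε z).2 < 1 := by
    intro z hz
    have h1 := abs_lt.1 (qS_time hε hε' hz)
    constructor <;> linarith [h1.1, h1.2]
  unfold Qm at he
  by_cases h1 : c1 z = 0
  · by_cases h1' : c1 z' = 0
    · rw [if_pos h1, if_pos h1'] at he
      obtain ⟨h3, -⟩ := D.jc_inj _ _ _ _ (by rw [norm_zero]; exact zero_lt_one)
        (by rw [norm_zero]; exact zero_lt_one) he
      exact yS_inj h1 h1' h3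
    · rw [if_pos h1, if_neg h1'] at he
      exact absurd he (D.disjc (yS z) (qS ε z').1 (qS ε z').2 (qS_off hε hε' h')
        (qS_onC hε hε' h' h1') (ht1 h').1 (ht1 h').2)
  · by_cases h1' : c1 z' = 0
    · rw [if_neg h1, if_pos h1'] at he
      exact absurd he.symm (D.disjc (yS z') (qS ε z).1 (qS ε z).2 (qS_off hε hε' h)
        (qS_onC hε hε' h h1) (ht1 h).1 (ht1 h).2)
    · rw [if_neg h1, if_neg h1'] at he
      obtain ⟨h3, m, h4⟩ := D.H_inj (qS ε z).1 (qS ε z').1 (qS ε z).2 (qS ε z').2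
        (qS_off hε hε' h) (qS_onC hε hε' h h1) (qS_off hε hε' h') (qS_onC hε hε' h' h1')
        (ht1 h).1 (ht1 h).2 (ht1 h').1 (ht1 h').2 he
      exact qS_inj hε hε' h h1 h' h1' m h4 h3.symm

end Pool.Agent.CSP
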