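import Pool.Agent.CSP.XXb
import Pool.Agent.RSG.Sph

/-!
# CSP/QsM: position of the points `qS ε z`   (difficulty 2)

`z : S4`, `fh z ≠ 0`, `c1 z ≠ 0`, `0 < ε ≤ 1/1000`.  `‖etaS ε z‖ = ε · 2 ‖c1‖ ‖c2‖ < ε` (`fh_ne_iff`), so the third
coordinate `1/2 + Re` and `t = 1/2 + Im` are within `ε` of `1/2`: `OffAx` (the third coordinate is not an
integer), `-1/8 < t < 9/8`, `0 ≤ t < 1`.
Not on `C`: if `etaS ε z = 0` then `c2 z = 0`, so `ht² = 1 - ‖c1‖²`, `fh z` has real part `‖c1‖² > 0`;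
`xiS ε z` is not an integer: `|xiS| ≤ 1/2 + 2 ε < 1`, so we need `xiS ≠ 0`.  Let `w = wX (‖c1‖²) ∈ [0, 1]`,
`α = arg (-fh z)/2π`.  `-fh z` has negative real part, so `|arg (-fh z)| > π/2` (`Complex.abs_arg_lt_pi_div_two_iff`..),
`|α| > 1/4`; if `ht ≥ 0` then `Im (-fh) ≤ 0`: either `α < 0`, or `ht = 0`, and then `‖c1‖ = 1`, `w = 0`,
`xiS = α ≠ 0`.  If `ht > 0`: `α < 0`, `xiS = (1 - w) α - w (2 ε ‖c1‖ ht) < 0`.
`ht < 0`: `Im (-fh z) > 0`, `α > 0`, `xiS > 0`.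
-/

open scoped Manifold ContDiff Topology

namespace Pool.Agent.CSP
open Pool.Agent.CSG (pt)
open Pool.Agent.TS (OffAx OnC)
open Pool.Agent.RSG (S4 c1 c2 ht fh)

variable {ε : ℝ}

theorem QsM_sq (z : S4) : ‖c1 z‖ ≤ 1 ∧ |ht z| ≤ 1 := by
  have h := RSG.S4_sq z
  constructor
  · nlinarith [sq_nonneg ‖c2 z‖, sq_nonneg (ht z), norm_nonneg (c1 z)]
  · rw [← sq_le_one_iff_abs_le_one]
    nlinarith [sq_nonneg ‖c2 z‖, sq_nonneg ‖c1 z‖]

theorem QsM_w (a : ℝ) : 0 ≤ wX a ∧ wX a ≤ 1 := by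
  unfold wX
  have h1 := CSG.stp_nonneg (1 / 20) (1 / 10) a
  have h2 := CSG.stp_le_one (1 / 20) (1 / 10) a
  constructor <;> linarith

theorem etaS_norm (hε : 0 < ε) {z : S4} (h : fh z ≠ 0) : ‖etaS ε z‖ = ε * (2 * ‖c1 z‖ * ‖c2 z‖) := by
  have h1 : ‖fh z / (‖fh z‖ : ℂ)‖ = 1 := by
    rw [norm_div, Complex.norm_real, norm_norm, div_self (norm_ne_zero_iff.2 h)]
  unfold etaS
  rw [norm_mul, norm_mul, norm_mul, h1, Complex.norm_real, Complex.norm_conj,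
    Real.norm_of_nonneg (by positivity)]
  ring

theorem etaS_lt (hε : 0 < ε) {z : S4} (h : fh z ≠ 0) : ‖etaS ε z‖ < ε := by
  rw [etaS_norm hε h]
  have := (RSG.fh_ne_iff z).1 h
  nlinarith

theorem QsM_arg (w : ℂ) : |Complex.arg w / (2 * Real.pi)| ≤ 1 / 2 := by
  have hpi := Real.pi_pos
  have h1 := Complex.abs_arg_le_pi w
  rw [abs_div, abs_of_pos (show 0 < 2 * Real.pi by positivity), div_le_iff₀ (by positivity)]
  linarith

theorem QsM_beta (hε : 0 < ε) (hε' : ε ≤ 1 / 1000) (z : S4) : |2 * ε * ‖c1 z‖ * ht z| ≤ 1 / 2 := by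
  obtain ⟨h1, h2⟩ := QsM_sq z
  have h0 := norm_nonneg (c1 z)
  rw [abs_mul, abs_of_nonneg (by positivity : 0 ≤ 2 * ε * ‖c1 z‖)]
  have h3 : 2 * ε * ‖c1 z‖ ≤ 1 / 2 := by nlinarith
  have h4 : 0 ≤ 2 * ε * ‖c1 z‖ := by positivity
  nlinarith [abs_nonneg (ht z)]

theorem xiS_abs (hε : 0 < ε) (hε' : ε ≤ 1 / 1000) (z : S4) : |xiS ε z| ≤ 1 / 2 := by
  unfold xiS
  obtain ⟨w0, w1⟩ := QsM_w (‖c1 z‖ ^ 2)
  obtain ⟨a1, a2⟩ := abs_le.1 (QsM_arg (-fh z))
  obtain ⟨b1, b2⟩ := abs_le.1 (QsM_beta hε hε' z)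
  rw [abs_le]
  constructor <;> nlinarith

theorem qS_off (hε : 0 < ε) (hε' : ε ≤ 1 / 1000) {z : S4} (h : fh z ≠ 0) : OffAx (qS ε z).1 := by
  rintro ⟨-, b, hb⟩
  have h1 : (qS ε z).1 2 = 1 / 2 + (etaS ε z).re := CSG.pt_two' _ _ _
  rw [h1] at hb
  have h2 := (Complex.abs_re_le_norm (etaS ε z)).trans_lt (etaS_lt hε h)
  obtain ⟨h3, h4⟩ := abs_lt.1 h2
  have h5 : (0 : ℝ) < b := by rw [← hb]; linarith
  have h6 : (b : ℝ) < 1 := by rw [← hb]; linarith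
  have h7 : 0 < b := by exact_mod_cast h5
  have h8 : b < 1 := by exact_mod_cast h6
  omega

theorem qS_time (hε : 0 < ε) (hε' : ε ≤ 1 / 1000) {z : S4} (h : fh z ≠ 0) : |(qS ε z).2 - 1 / 2| < ε := by
  have h1 : (qS ε z).2 - 1 / 2 = (etaS ε z).im := by
    show 1 / 2 + (etaS ε z).im - 1 / 2 = _
    ring
  rw [h1]
  exact (Complex.abs_im_le_norm (etaS ε z)).trans_lt (etaS_lt hε h)

/-- on the circle `c2 = 0` the function `xiS` does not vanish -/
theorem QsM_ne (hε : 0 < ε) {z : S4} (h1 : c1 z ≠ 0) (h2 : c2 z = 0) : xiS ε z ≠ 0 := by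
  have hs := RSG.S4_sq z
  rw [h2, norm_zero] at hs
  have hc : 0 < ‖c1 z‖ := norm_pos_iff.2 h1
  have hre : (-fh z).re < 0 := by
    have : (fh z).re = ‖c1 z‖ ^ 2 - ‖c2 z‖ ^ 2 := rfl
    rw [Complex.neg_re, this, h2, norm_zero]
    have := pow_pos hc 2
    linarith
  have him : (-fh z).im = -(ht z * Real.sqrt (2 - ht z ^ 2)) := by
    rw [Complex.neg_im]
    rfl
  have hsq : 0 < Real.sqrt (2 - ht z ^ 2) := by
    apply Real.sqrt_pos.2
    have := pow_pos hc 2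
    nlinarith
  have hpi := Real.pi_pos
  obtain ⟨w0, w1⟩ := QsM_w (‖c1 z‖ ^ 2)
  unfold xiS
  rcases lt_trichotomy (ht z) 0 with ht0 | ht0 | ht0
  · -- ht < 0
    have i1 : 0 < (-fh z).im := by
      rw [him]
      have := mul_pos (neg_pos.2 ht0) hsq
      linarith
    have a1 : 0 ≤ Complex.arg (-fh z) := Complex.arg_nonneg_iff.2 i1.le
    have a2 : Complex.arg (-fh z) ≠ 0 := by
      intro h
      rw [Complex.arg_eq_zero_iff] at h
      linarith [h.1]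
    have a3 : 0 < Complex.arg (-fh z) / (2 * Real.pi) :=
      div_pos (lt_of_le_of_ne a1 (Ne.symm a2)) (by positivity)
    have b1 : 2 * ε * ‖c1 z‖ * ht z < 0 := mul_neg_of_pos_of_neg (by positivity) ht0
    have : 0 < (1 - wX (‖c1 z‖ ^ 2)) * (Complex.arg (-fh z) / (2 * Real.pi)) -
        wX (‖c1 z‖ ^ 2) * (2 * ε * ‖c1 z‖ * ht z) := by
      rcases w0.eq_or_lt with h | h
      · rw [← h]
        simpa using a3
      · have c1 := mul_pos h (neg_pos.2 b1)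
        have c2 := mul_nonneg (sub_nonneg.2 w1) a3.le
        linarith
    exact this.ne'
  · -- ht = 0
    have e1 : ‖c1 z‖ ^ 2 = 1 := by
      rw [ht0] at hs
      linarith
    have e2 : wX 1 = 0 := by
      unfold wX
      rw [CSG.stp_one (by norm_num) (by norm_num)]
      ring
    have e3 : -fh z = ((-1 : ℝ) : ℂ) := by
      apply Complex.ext
      · have : (fh z).re = ‖c1 z‖ ^ 2 - ‖c2 z‖ ^ 2 := rfl
        rw [Complex.neg_re, this, h2, norm_zero, e1, Complex.ofReal_re]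
        ring
      · rw [him, ht0, Complex.ofReal_im]
        ring
    rw [e1, e2, e3, Complex.arg_ofReal_of_neg (by norm_num)]
    have : (1 - 0) * (Real.pi / (2 * Real.pi)) - 0 * (2 * ε * ‖c1 z‖ * ht z) = 1 / 2 := by
      field_simp
      ring
    rw [this]
    norm_num
  · -- ht > 0
    have i1 : (-fh z).im < 0 := by
      rw [him]
      have := mul_pos ht0 hsq
      linarith
    have a1 : Complex.arg (-fh z) < 0 := Complex.arg_neg_iff.2 i1
    have a3 : Complex.arg (-fh z) / (2 * Real.pi) < 0 :=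
      div_neg_of_neg_of_pos a1 (by positivity)
    have b1 : 0 < 2 * ε * ‖c1 z‖ * ht z := mul_pos (by positivity) ht0
    have : (1 - wX (‖c1 z‖ ^ 2)) * (Complex.arg (-fh z) / (2 * Real.pi)) -
        wX (‖c1 z‖ ^ 2) * (2 * ε * ‖c1 z‖ * ht z) < 0 := by
      rcases w0.eq_or_lt with h | h
      · rw [← h]
        simpa using a3
      · have c1 := mul_pos h b1
        have c2 := mul_nonneg (sub_nonneg.2 w1) (neg_nonneg.2 a3.le)
        linarith
    exact this.ne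

theorem qS_onC (hε : 0 < ε) (hε' : ε ≤ 1 / 1000) {z : S4} (h : fh z ≠ 0) (h1 : c1 z ≠ 0) :
    ¬ OnC (qS ε z).1 (qS ε z).2 := by
  rintro ⟨e1, ⟨a, ea⟩, b, eb⟩
  have f1 : (qS ε z).2 = 1 / 2 + (etaS ε z).im := rfl
  have f2 : (qS ε z).1 2 = 1 / 2 + (etaS ε z).re := CSG.pt_two' _ _ _
  have f3 : (qS ε z).1 0 = 1 / 2 + xiS ε z := CSG.pt_zero' _ _ _
  rw [f1] at e1
  rw [f2] at eb
  rw [f3] at ea
  have him : (etaS ε z).im = 0 := by linarith
  have hb : (etaS ε z).re = b := by linarith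
  have ha : xiS ε z = a := by linarith
  have h2 := (Complex.abs_re_le_norm (etaS ε z)).trans_lt (etaS_lt hε h)
  have hb0 : b = 0 := by
    rw [hb] at h2
    have h3 : |(b : ℝ)| < 1 := by linarith
    have h4 : |b| < 1 := by exact_mod_cast h3
    exact Int.abs_lt_one_iff.1 h4
  have ha0 : a = 0 := by
    have h3 := xiS_abs hε hε' z
    rw [ha] at h3
    have h4 : |(a : ℝ)| < 1 := by linarith
    have h5 : |a| < 1 := by exact_mod_cast h4
    exact Int.abs_lt_one_iff.1 h5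
  have hη : etaS ε z = 0 := by
    apply Complex.ext
    · rw [hb, hb0]; simp
    · rw [him]; simp
  have hn := etaS_norm hε h
  rw [hη, norm_zero] at hn
  have hc : 0 < ‖c1 z‖ := norm_pos_iff.2 h1
  have hc2 : c2 z = 0 := by
    by_contra hne
    have : 0 < ‖c2 z‖ := norm_pos_iff.2 hne
    have : 0 < ε * (2 * ‖c1 z‖ * ‖c2 z‖) := by positivity
    linarith
  apply QsM_ne hε h1 hc2
  rw [ha, ha0]
  simp

end Pool.Agent.CSP
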