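import Pool.Agent.CSP.QmB
import Pool.Agent.CSP.QmC
import Pool.Agent.CSP.QmI
import Pool.Agent.RSG.GerM
import Pool.Agent.CSG.Ext

/-!
# CSP/TwA: the twin   (difficulty 3)

`O : OB J κ ε k P`, `D : PDs κ ε k X`.  `κP (l, v, t) = O.kK (l, v, t + l)`: a thick torus (`O.thick`; period 1 in `l`:
`kK (l + 1, v, t + l + 1) = kK (l, v, t + l)`).  We construct `TwinP J κP (-1) 1 X`.
* `Q = Qm D`.
* `A p`: if `p = κP (l, v, t)` with `0 < ‖v‖ < 1`: `A p = Qm D (Gc (-1) 1 (l, v, t))` (well defined: `ThickT.inj` and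
  `Gc_per`: `v` is unique, `l`, `t` up to integers); else if `p = O.Tb (θ, x0, ζ)`, `‖ζ‖ < 5`: `A p = D.jb (θ, x0, ζ)` (well
  defined: `O.b_inj`, `D.jb_per`); else if `p = O.Th (x, t)`, `OffAx x`, `¬ OnCT x t`, `0 ≤ t < 1`:
  `A p = D.H (x, t)` (well defined: `O.T_inj`, `D.H_per`); else anything.
KEY FACTS.
 (1) `A (O.Th (x, t)) = D.H (x, t)` for `0 ≤ t < 1`, `OffAx x`, `¬ OnCT x t`, provided
  `‖(x 2 - 1/2 - b) + i (t - 1/2)‖ ≥ 4/5 ε` for all integers `b`.  Indeed: if `O.Th (x, t) = κP (l, v, t')`,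
  `0 < ‖v‖ < 1`, `v = ‖v‖ ex u`: by `O.glueK` it is `O.Th (pt (t' + l) u (1/2 + (ε‖v‖ ex l).re), 1/2 + (..).im)`, and
  `O.T_inj`: `x = pt .. + vec m`, `t = 1/2 + (ε ‖v‖ ex l).im`: so `‖v‖ ≥ 4/5`, `‖v‖² ≥ 2/5`, and `qS_Gc`, `XX_out`: `qS ε z` is
  (up to integers) the same point `(x, t)`: `Qm D z = D.H (qS ε z) = D.H (x, t)` (`D.H_per`).  If
  `O.Th (x, t) = O.Tb (θ, x0, ζ)`, `‖ζ‖ < 5`: `ζ ≠ 0` (`O.disjb`), `ζ = s ex (t' - 1/2)`, `0 ≤ t' < 1`; `O.glueb` and `O.T_inj`: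
  `t = t'`, `x = pt x0 (ε s ex (..)).im (..).re + vec m`; `D.glueb` gives `D.jb (θ, x0, ζ) = D.H (x, t)`.
 (2) the same for `-(1/8) < t < 9/8` (by `O.T_mon`, `D.H_mon`: for `t < 0`: `O.Th (κ x', t) = O.Th (x', t + 1)`; write
  `x = κ x'`; for `t ≥ 1`: `O.Th (x, t) = O.Th (κ x, t - 1)`; here one needs `OffAx (κ x) ↔ OffAx x` (hypothesis `hoff`)).
 (3) `A (O.Tb (θ, x0, ζ)) = D.jb (θ, x0, ζ)` for `‖ζ‖ < 5` : `O.Tb (..)` is not in the image of `κP`, `‖v‖ < 1`: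
  for `ζ ≠ 0` by `O.glueb`, `O.glueK`, `O.T_inj` (third coordinates: `|ε s ..| ≤ 5 ε` versus within `ε` of `1/2` modulo
  integers; `ε ≤ 1/1000`); for `ζ = 0`: `O.disjb`, and `O.disjbK` for `v = 0`.
 (4) `A (κP (l, v, t)) = Qm D (Gc (-1) 1 (l, v, t))` for `0 < ‖v‖ < 1`.
* `A_loc` at `p` not on the torus (`O.cover`): `p = O.Tb (θ, x0, 0)`: by (3) `A ∘ O.Tb = D.jb` near `(θ, x0, 0)`:
  `ld_of_comp_left` (`D.jb_loc`, `O.b_loc`).  `p = κP (l, v, t)`, `0 < ‖v‖ < 1`: (4), `Gc_ld`, `Qm_ldA/B/C`.  Otherwise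
  `p = O.Th (x, t)` not in the open tube `‖v‖ < 1`: then the condition of (1) holds near `(x, t)` with `4/5`
  (`‖(x 2 - 1/2 - b) + i (t - 1/2)‖ ≥ ε` at the point: else it is in the tube by `O.glueK` or `(x,t)` on `OnCT`), so by
  (2) `A ∘ O.Th = D.H` near `(x, t)`; `¬ OnC x t` as `¬ OnCT x t`.
* `A_inj`: `A p = A p'`.  Write `p` as in `O.cover`.  For `p` in the tube, `A p = Qm D z`, `c1 z, c2 z ≠ 0`; `p` not in the
  tube: `A p = D.H (x, t)` with `(x, t)` at distance `≥ ε`, or `D.jb (θ, x0, 0)`.  Tube/tube: `Qm_inj`, `Gc` determines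
  `v` and `l, t` up to integers (`GerM_phases` / `Gc_spec`).  Tube/no tube: `Qm D z = D.H (qS ε z)`, `‖etaS‖ < ε`
  (`etaS_lt`), contradiction with `D.H_inj`; `D.disjb`.  No tube: `D.H_inj`, `D.jb_inj`, `D.disjb`, `O.T_per`, `O.b_per`.
* `Q_loc`: `Qm_ldA/B/C`.  `Q_inj`: `Qm_inj`.
* `glue`: `z` with the phases `m, m - t, l + t` (`n = -1`, `j = 1`) is `Gc (-1) 1 (l, 2‖c1‖‖c2‖ ex m, t)` (`Gc_eq`), then (4).
* `disj`: `Qm D z ≠ A p` for `c1 z = 0` or `c2 z = 0`.  `p` in the tube: `Qm_inj` (`Gc_spec`: `c1, c2 ≠ 0`).  Else: `c1 z = 0`: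
  `D.disjc`, `D.disjbc`; `c1 z ≠ 0`, `c2 z = 0`: `Qm D z = D.H (qS ε z)` with `‖etaS‖ < ε` as above.
* `cover`: `q ∈ X`, `D.cover`.  `q = D.jb (θ, x0, 0)`: `A (O.Tb (θ, x0, 0))`, not on the torus (`O.disjbK`).  `q = D.jc (y, 0)`:
  `yS_surj`.  `q = D.H (x, t)`: if for some `b` `η = (x 2 - 1/2 - b) + i (t - 1/2)` has norm `< ε`: `qS_surj` (not on
  `C`) and `D.H_per`: `q = Qm D z`.  Otherwise (1) (`¬ OnCT`, and `O.Th (x, t)` is not on the torus: `O.disjK`).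
-/

open scoped Manifold ContDiff Topology

namespace Pool.Agent.CSP
open Pool.Agent.CSG (pt vec)
open Pool.Agent.TS (OffAx OnC)
open Pool.Agent.RSG (E4 S4 ex c1 c2 ht fh Gc)
open Pool.Agent.RBM (TwinP ThickT OnT)

/-! ### elementary -/

/-- position with respect to the torus -/
noncomputable def TwA_w (x : CSG.E3) (t : ℝ) (b : ℤ) : ℂ := ⟨x 2 - 1 / 2 - b, t - 1 / 2⟩

theorem TwA_w_lip (x x' : CSG.E3) (t t' : ℝ) (b : ℤ) :
    ‖TwA_w x t b‖ ≤ ‖TwA_w x' t' b‖ + (|x 2 - x' 2| + |t - t'|) := by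
  have h1 : TwA_w x t b = TwA_w x' t' b + ⟨x 2 - x' 2, t - t'⟩ := by
    apply Complex.ext
    · simp only [TwA_w, Complex.add_re]
      ring
    · simp only [TwA_w, Complex.add_im]
      ring
  have h2 : ‖(⟨x 2 - x' 2, t - t'⟩ : ℂ)‖ ≤ |x 2 - x' 2| + |t - t'| :=
    Complex.norm_le_abs_re_add_abs_im _
  rw [h1]
  exact (norm_add_le _ _).trans (by linarith)

theorem TwA_w_im (x : CSG.E3) (t : ℝ) (b : ℤ) : |t - 1 / 2| ≤ ‖TwA_w x t b‖ := by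
  have := Complex.abs_im_le_norm (TwA_w x t b)
  simpa [TwA_w] using this

theorem TwA_nonCT {x : CSG.E3} {t : ℝ} (h : ∀ b, 0 < ‖TwA_w x t b‖) : ¬ OnCT x t := by
  rintro ⟨rfl, b, hb⟩
  have := h b
  have h0 : TwA_w x (1 / 2) b = 0 := by
    apply Complex.ext
    · simp only [TwA_w, Complex.zero_re]
      rw [hb]
      ring
    · simp [TwA_w]
  rw [h0, norm_zero] at this
  exact lt_irrefl _ this

theorem TwA_OnC {x : CSG.E3} {t : ℝ} (h : ¬ OnCT x t) : ¬ OnC x t := by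
  rintro ⟨h1, -, h2⟩
  exact h ⟨h1, h2⟩

theorem TwA_int {x : ℝ} {a : ℤ} (h : x = a) (h1 : |x| < 1) : x = 0 := by
  have h2 : |(a : ℝ)| < 1 := by rw [← h]; exact h1
  have h3 : |a| < 1 := by exact_mod_cast h2
  have h4 : a = 0 := Int.abs_lt_one_iff.1 h3
  rw [h, h4]
  simp

theorem TwA_ball {r : ℂ} (h0 : r ≠ 0) (h1 : ‖r‖ < 1 / 2) (x0 t : ℝ) :
    OffAx (pt x0 r.im r.re) ∧ ¬ OnCT (pt x0 r.im r.re) t := by
  have hre : |r.re| < 1 / 2 := lt_of_le_of_lt (Complex.abs_re_le_norm r) h1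
  have him : |r.im| < 1 / 2 := lt_of_le_of_lt (Complex.abs_im_le_norm r) h1
  constructor
  · rintro ⟨⟨a, ha⟩, b, hb⟩
    rw [CSG.pt_one'] at ha
    rw [CSG.pt_two'] at hb
    have e1 := TwA_int ha (by linarith)
    have e2 := TwA_int hb (by linarith)
    exact h0 (Complex.ext e2 e1)
  · rintro ⟨-, b, hb⟩
    rw [CSG.pt_two'] at hb
    rw [abs_lt] at hre
    have h2 : (-1 : ℝ) < b := by linarith [hre.1]
    have h3 : (b : ℝ) < 0 := by linarith [hre.2]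
    have h4 : (-1 : ℤ) < b := by exact_mod_cast h2
    have h5 : b < 0 := by exact_mod_cast h3
    omega

theorem TwA_tub {w : ℂ} (h0 : w ≠ 0) (h1 : ‖w‖ < 1 / 2) (x0 u : ℝ) :
    OffAx (pt x0 u (1 / 2 + w.re)) ∧ ¬ OnCT (pt x0 u (1 / 2 + w.re)) (1 / 2 + w.im) ∧
      0 ≤ 1 / 2 + w.im ∧ 1 / 2 + w.im < 1 := by
  have hre : |w.re| < 1 / 2 := lt_of_le_of_lt (Complex.abs_re_le_norm w) h1
  have him : |w.im| < 1 / 2 := lt_of_le_of_lt (Complex.abs_im_le_norm w) h1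
  rw [abs_lt] at him
  refine ⟨?_, ?_, by linarith [him.1], by linarith [him.2]⟩
  · rintro ⟨-, b, hb⟩
    rw [CSG.pt_two'] at hb
    rw [abs_lt] at hre
    have h2 : (0 : ℝ) < b := by linarith [hre.1]
    have h3 : (b : ℝ) < 1 := by linarith [hre.2]
    have h4 : (0 : ℤ) < b := by exact_mod_cast h2
    have h5 : b < 1 := by exact_mod_cast h3
    omega
  · rintro ⟨e1, b, hb⟩
    rw [CSG.pt_two'] at hb
    have e2 : w.re = b := by linarith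
    have e3 := TwA_int e2 (by linarith)
    exact h0 (Complex.ext e3 (by simp only [Complex.zero_im]; linarith))

theorem TwA_off_open {x : CSG.E3} (h : OffAx x) : ∀ᶠ y in 𝓝 x, OffAx y := by
  have hc : ∀ i : Fin 3, IsClosed {y : CSG.E3 | ∃ a : ℤ, y i = a} := by
    intro i
    have h1 : {y : CSG.E3 | ∃ a : ℤ, y i = a} = (fun y : CSG.E3 => y i) ⁻¹' (Set.range ((↑) : ℤ → ℝ)) := by
      ext y
      simp only [Set.mem_ofPred_eq, Set.mem_preimage, Set.mem_range]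
      constructor
      · rintro ⟨a, ha⟩
        exact ⟨a, ha.symm⟩
      · rintro ⟨a, ha⟩
        exact ⟨a, ha.symm⟩
    rw [h1]
    refine IsClosed.preimage ?_ Int.isClosedEmbedding_coe_real.isClosed_range
    fun_prop
  exact ((hc 1).inter (hc 2)).isOpen_compl.mem_nhds h

theorem TwA_ez {ε s l : ℝ} (hε : 0 < ε) (hs : 0 < s) : ‖(ε * s * ex l : ℂ)‖ = ε * s := by
  rw [norm_mul, RSG.ex_norm, mul_one, norm_mul, Complex.norm_real, Complex.norm_real,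
    Real.norm_of_nonneg hε.le, Real.norm_of_nonneg hs.le]

section
variable {E : Type*} [NormedAddCommGroup E] [NormedSpace ℝ E] {HM : Type*} [TopologicalSpace HM]
  {J : ModelWithCorners ℝ E HM} {P : Type*} [TopologicalSpace P] [ChartedSpace HM P]
  {κ : Equiv.Perm CSG.E3} {ε : ℝ} {k : ℤ}

/-- the thick torus -/
noncomputable def kP (O : OB J κ ε k P) (q : ℝ × ℂ × ℝ) : P := O.kK (q.1, q.2.1, q.2.2 + q.1)

theorem TwA_kK_int (O : OB J κ ε k P) (l : ℝ) (v : ℂ) (t : ℝ) (a b : ℤ) :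
    O.kK (l + a, v, t + b) = O.kK (l, v, t) := by
  rw [RSG.GerM_per (f := fun x => O.kK (x, v, t + b)) (fun x => O.thick.perl x v _) l a,
    RSG.GerM_per (f := fun x => O.kK (l, v, x)) (fun x => O.thick.pert l v x) t b]

theorem TwA_kP_int (O : OB J κ ε k P) (l : ℝ) (v : ℂ) (t : ℝ) (a b : ℤ) :
    kP O (l + a, v, t + b) = kP O (l, v, t) := by
  have h := TwA_kK_int O l v (t + l) a (a + b)
  unfold kP
  simp only
  rw [← h]
  congr 3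
  push_cast
  ring

theorem kP_thick (O : OB J κ ε k P) : ThickT J (kP O) := by
  refine ⟨?_, ?_, ?_, ?_⟩
  · intro l v t
    have := TwA_kP_int O l v t 1 0
    simpa using this
  · intro l v t
    have := TwA_kP_int O l v t 0 1
    simpa using this
  · intro l v t hv
    have h1 := O.thick.loc l v (t + l) hv
    have h2 : IsLocalDiffeomorphAt 𝓘(ℝ, ℝ × ℂ × ℝ) 𝓘(ℝ, ℝ × ℂ × ℝ) ∞
        (fun q : ℝ × ℂ × ℝ => (q.1, q.2.1, q.2.2 + q.1)) (l, v, t) :=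
      CSG.ld_of_perm (f := (⟨fun q : ℝ × ℂ × ℝ => (q.1, q.2.1, q.2.2 + q.1),
        fun q : ℝ × ℂ × ℝ => (q.1, q.2.1, q.2.2 - q.1), fun q => by simp, fun q => by simp⟩ :
        ℝ × ℂ × ℝ ≃ ℝ × ℂ × ℝ)) (by
          show ContDiff ℝ ∞ (fun q : ℝ × ℂ × ℝ => (q.1, q.2.1, q.2.2 + q.1))
          fun_prop) (by
          show ContDiff ℝ ∞ (fun q : ℝ × ℂ × ℝ => (q.1, q.2.1, q.2.2 - q.1))
          fun_prop) (l, v, t)
    exact IsLocalDiffeomorphAt.comp (hf := h2) (hg := h1) ..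
  · intro l v t l' v' t' hv hv' he
    obtain ⟨e1, ⟨m, e2⟩, m', e3⟩ := O.thick.inj _ _ _ _ _ _ hv hv' he
    refine ⟨e1, ⟨m, e2⟩, m' - m, ?_⟩
    push_cast
    rw [e2] at e3
    linarith

theorem TwA_kP_Th (O : OB J κ ε k P) {l t : ℝ} {v : ℂ} (h0 : v ≠ 0) (h1 : ‖v‖ < 1) :
    kP O (l, v, t) = O.Th (pt (t + l) (Complex.arg v / (2 * Real.pi)) (1 / 2 + (ε * ‖v‖ * ex l).re),
      1 / 2 + (ε * ‖v‖ * ex l).im) := by
  have h := O.glueK l ‖v‖ (Complex.arg v / (2 * Real.pi)) (t + l) (norm_pos_iff.2 h0) h1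
  rw [RSG.ex_arg] at h
  exact h

theorem TwA_nonT (O : OB J κ ε k P) {l t : ℝ} {v : ℂ} (h0 : v ≠ 0) (h1 : ‖v‖ < 1) :
    ¬ OnT (kP O) (kP O (l, v, t)) := by
  rintro ⟨l', t', h⟩
  exact h0 ((kP_thick O).inj _ _ _ _ _ _ h1 (by simp) h).1

/-! ### the map `A` -/

variable {X : Type*} [TopologicalSpace X] [ChartedSpace E4 X]

/-- the point of the binding chart in the coordinates `Th`, `H` -/
theorem TwA_b_Th (O : OB J κ ε k P) (D : PDs κ ε k X) (hε : 0 < ε) (θ x0 : ℝ) {ζ : ℂ} (h0 : ζ ≠ 0)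
    (h1 : ‖ζ‖ < 5) : ∃ (t : ℝ) (r : ℂ), 0 ≤ t ∧ t < 1 ∧ r ≠ 0 ∧ ‖r‖ < 5 * ε ∧
      O.Tb (θ, x0, ζ) = O.Th (pt x0 r.im r.re, t) ∧ D.jb (θ, x0, ζ) = D.H (pt x0 r.im r.re, t) := by
  set φ : ℝ := Complex.arg ζ / (2 * Real.pi) with hφ
  have hs : 0 < ‖ζ‖ := norm_pos_iff.2 h0
  have ht0 := Int.fract_nonneg (φ + 1 / 2)
  have ht1 := Int.fract_lt_one (φ + 1 / 2)
  have hz : ζ = ‖ζ‖ * ex (Int.fract (φ + 1 / 2) - 1 / 2) := by
    have e1 : Int.fract (φ + 1 / 2) - 1 / 2 = φ + ((-⌊φ + 1 / 2⌋ : ℤ) : ℝ) := by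
      unfold Int.fract
      push_cast
      ring
    rw [e1, RSG.ex_add_int, hφ, RSG.ex_arg]
  generalize Int.fract (φ + 1 / 2) = t at ht0 ht1 hz
  refine ⟨t, ε * ‖ζ‖ * ex (θ + k * (t - 1 / 2)), ht0, ht1, ?_, ?_, ?_, ?_⟩
  · rw [← norm_pos_iff, TwA_ez hε hs]
    positivity
  · rw [TwA_ez hε hs]
    nlinarith
  · have h := O.glueb θ x0 t ‖ζ‖ (by linarith) (by linarith) hs h1
    rw [← hz] at h
    exact h
  · have h := D.glueb θ x0 t ‖ζ‖ (by linarith) (by linarith) hs h1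
    rw [← hz] at h
    exact h

theorem TwA_tub_ball (O : OB J κ ε k P) {w r : ℂ} (hw0 : w ≠ 0) (hw : ‖w‖ < 1 / 8) (hr0 : r ≠ 0)
    (hr : ‖r‖ < 1 / 8) (x0 x0' u t : ℝ) (ht0 : 0 ≤ t) (ht1 : t < 1) :
    O.Th (pt x0 u (1 / 2 + w.re), 1 / 2 + w.im) ≠ O.Th (pt x0' r.im r.re, t) := by
  intro he
  obtain ⟨a1, a2, a3, a4⟩ := TwA_tub hw0 (by linarith) x0 u
  obtain ⟨b1, b2⟩ := TwA_ball hr0 (by linarith) x0' t
  obtain ⟨-, m, hm⟩ := O.T_inj _ _ _ _ a1 a2 b1 b2 a3 a4 ht0 ht1 he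
  obtain ⟨-, -, h3⟩ := CSG.pt_inj_vec hm
  have hre : |w.re| < 1 / 8 := lt_of_le_of_lt (Complex.abs_re_le_norm w) hw
  have hre' : |r.re| < 1 / 8 := lt_of_le_of_lt (Complex.abs_re_le_norm r) hr
  rw [abs_lt] at hre hre'
  have h4 : ((m 2 : ℤ) : ℝ) < 0 := by linarith [hre.1, hre.2, hre'.1, hre'.2]
  have h5 : (-1 : ℝ) < m 2 := by linarith [hre.1, hre.2, hre'.1, hre'.2]
  have h6 : m 2 < 0 := by exact_mod_cast h4
  have h7 : (-1 : ℤ) < m 2 := by exact_mod_cast h5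
  omega

theorem TwA_kP_b (O : OB J κ ε k P) (D : PDs κ ε k X) (hε : 0 < ε) (hε' : ε ≤ 1 / 1000) {l t : ℝ}
    {v : ℂ} (h0 : v ≠ 0) (h1 : ‖v‖ < 1) (θ x0 : ℝ) {ζ : ℂ} (hζ : ‖ζ‖ < 5) :
    kP O (l, v, t) ≠ O.Tb (θ, x0, ζ) := by
  intro he
  rw [TwA_kP_Th O h0 h1] at he
  have hv : 0 < ‖v‖ := norm_pos_iff.2 h0
  have hn := TwA_ez (l := l) hε hv
  have hw0 : (ε * ‖v‖ * ex l : ℂ) ≠ 0 := by
    rw [← norm_pos_iff, hn]
    positivity
  have hw : ‖(ε * ‖v‖ * ex l : ℂ)‖ < 1 / 8 := by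
    rw [hn]
    nlinarith
  by_cases hz : ζ = 0
  · subst hz
    obtain ⟨a1, a2, a3, a4⟩ := TwA_tub hw0 (by linarith) (t + l) (Complex.arg v / (2 * Real.pi))
    exact O.disjb θ x0 _ _ a1 a2 a3 a4 he.symm
  · obtain ⟨t', r, ht0, ht1, hr0, hr, e1, -⟩ := TwA_b_Th O D hε θ x0 hz hζ
    rw [e1] at he
    exact TwA_tub_ball O hw0 hw hr0 (by linarith) _ _ _ _ ht0 ht1 he

open Classical in
/-- the map `A` -/
noncomputable def twA (O : OB J κ ε k P) (D : PDs κ ε k X) (p : P) : X :=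
  if h : ∃ q : ℝ × ℂ × ℝ, q.2.1 ≠ 0 ∧ ‖q.2.1‖ < 1 ∧ p = kP O q then
    Qm D (Gc (-1) 1 h.choose)
  else if h : ∃ q : ℝ × ℝ × ℂ, ‖q.2.2‖ < 5 ∧ p = O.Tb q then D.jb h.choose
  else if h : ∃ q : CSG.E3 × ℝ, OffAx q.1 ∧ ¬ OnCT q.1 q.2 ∧ 0 ≤ q.2 ∧ q.2 < 1 ∧ p = O.Th q then
    D.H h.choose
  else D.H (pt 0 0 0, 0)

theorem twA_tube (O : OB J κ ε k P) (D : PDs κ ε k X) {l t : ℝ} {v : ℂ} (h0 : v ≠ 0)
    (h1 : ‖v‖ < 1) : twA O D (kP O (l, v, t)) = Qm D (Gc (-1) 1 (l, v, t)) := by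
  have h : ∃ q : ℝ × ℂ × ℝ, q.2.1 ≠ 0 ∧ ‖q.2.1‖ < 1 ∧ kP O (l, v, t) = kP O q :=
    ⟨(l, v, t), h0, h1, rfl⟩
  unfold twA
  rw [dif_pos h]
  obtain ⟨g1, g2, g3⟩ := h.choose_spec
  generalize h.choose = q at g1 g2 g3
  obtain ⟨l', v', t'⟩ := q
  dsimp only at g1 g2
  obtain ⟨e1, ⟨m, e2⟩, m', e3⟩ := (kP_thick O).inj _ _ _ _ _ _ h1 g2 g3
  rw [e2, e3, ← e1, RSG.Gc_per]

theorem twA_b (O : OB J κ ε k P) (D : PDs κ ε k X) (hε : 0 < ε) (hε' : ε ≤ 1 / 1000) (θ x0 : ℝ)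
    {ζ : ℂ} (hζ : ‖ζ‖ < 5) : twA O D (O.Tb (θ, x0, ζ)) = D.jb (θ, x0, ζ) := by
  have hn : ¬ ∃ q : ℝ × ℂ × ℝ, q.2.1 ≠ 0 ∧ ‖q.2.1‖ < 1 ∧ O.Tb (θ, x0, ζ) = kP O q := by
    rintro ⟨⟨l, v, t⟩, g1, g2, g3⟩
    exact TwA_kP_b O D hε hε' g1 g2 θ x0 hζ g3.symm
  have h : ∃ q : ℝ × ℝ × ℂ, ‖q.2.2‖ < 5 ∧ O.Tb (θ, x0, ζ) = O.Tb q := ⟨(θ, x0, ζ), hζ, rfl⟩
  unfold twA
  rw [dif_neg hn, dif_pos h]
  obtain ⟨g1, g2⟩ := h.choose_spec
  generalize h.choose = q at g1 g2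
  obtain ⟨θ', x0', ζ'⟩ := q
  dsimp only at g1
  obtain ⟨⟨a, e1⟩, ⟨b, e2⟩, e3⟩ := O.b_inj _ _ _ _ _ _ hζ g1 g2
  rw [e1, e2, e3, D.jb_per]

/-- the coordinates of `Qm D (Gc ..)` far from the torus -/
theorem TwA_out (D : PDs κ ε k X) (hε : 0 < ε) (hε' : ε ≤ 1 / 1000) {l t : ℝ} {v : ℂ} (h0 : v ≠ 0)
    (h1 : ‖v‖ < 1) (h2 : 2 / 5 ≤ ‖v‖ ^ 2) : Qm D (Gc (-1) 1 (l, v, t)) =
      D.H (pt (t + l) (Complex.arg v / (2 * Real.pi)) (1 / 2 + (ε * ‖v‖ * ex l).re),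
        1 / 2 + (ε * ‖v‖ * ex l).im) := by
  have hv : 0 < ‖v‖ := norm_pos_iff.2 h0
  obtain ⟨hf0, hc1, -⟩ := RSG.Gc_spec (-1) 1 (l := l) (t := t) h0 h1
  have e1 : Qm D (Gc (-1) 1 (l, v, t)) = D.H (qS ε (Gc (-1) 1 (l, v, t))) := by
    unfold Qm
    rw [if_neg hc1]
  rw [e1]
  obtain ⟨m, hm⟩ := qS_Gc (ε := ε) (l := l) (t := t) h0 h1
  rw [hm, XX_out h2 h1 hv]
  have hn := TwA_ez (l := l) hε hv
  have hw0 : (ε * ‖v‖ * ex l : ℂ) ≠ 0 := by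
    rw [← norm_pos_iff, hn]
    positivity
  have hw : ‖(ε * ‖v‖ * ex l : ℂ)‖ < 1 / 8 := by
    rw [hn]
    nlinarith
  obtain ⟨a1, a2, a3, a4⟩ := TwA_tub hw0 (by linarith) (t + l) (Complex.arg v / (2 * Real.pi))
  have h := D.H_per (pt (t + l) (Complex.arg v / (2 * Real.pi)) (1 / 2 + (ε * ‖v‖ * ex l).re))
    (1 / 2 + (ε * ‖v‖ * ex l : ℂ).im) ![m, 0, 0] (by linarith) (by linarith) a1
  rw [CSG.pt_add_vec] at h
  rw [← h]
  simp only [Matrix.cons_val_zero, Matrix.cons_val_one, Matrix.cons_val, Int.cast_zero, add_zero]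
  rw [add_comm l t]

theorem twA_Th (O : OB J κ ε k P) (D : PDs κ ε k X) (hε : 0 < ε) (hε' : ε ≤ 1 / 1000)
    {x : CSG.E3} {t : ℝ} (hx : OffAx x) (ht0 : 0 ≤ t) (ht1 : t < 1)
    (hfar : ∀ b, 4 / 5 * ε ≤ ‖TwA_w x t b‖) : twA O D (O.Th (x, t)) = D.H (x, t) := by
  have hct : ¬ OnCT x t := TwA_nonCT fun b => lt_of_lt_of_le (by positivity) (hfar b)
  by_cases hT : ∃ q : ℝ × ℂ × ℝ, q.2.1 ≠ 0 ∧ ‖q.2.1‖ < 1 ∧ O.Th (x, t) = kP O q
  · obtain ⟨⟨l, v, t'⟩, g1, g2, g3⟩ := hT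
    simp only at g1 g2
    rw [g3, twA_tube O D g1 g2]
    rw [TwA_kP_Th O g1 g2] at g3
    have hv : 0 < ‖v‖ := norm_pos_iff.2 g1
    have hn := TwA_ez (l := l) hε hv
    have hw0 : (ε * ‖v‖ * ex l : ℂ) ≠ 0 := by
      rw [← norm_pos_iff, hn]
      positivity
    have hw : ‖(ε * ‖v‖ * ex l : ℂ)‖ < 1 / 8 := by
      rw [hn]
      nlinarith
    obtain ⟨a1, a2, a3, a4⟩ := TwA_tub hw0 (by linarith) (t' + l) (Complex.arg v / (2 * Real.pi))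
    obtain ⟨e1, m, e2⟩ := O.T_inj _ _ _ _ hx hct a1 a2 ht0 ht1 a3 a4 g3
    have e3 : 1 / 2 + (ε * ‖v‖ * ex l : ℂ).re = x 2 + m 2 := by
      have := congrArg (fun y : CSG.E3 => y 2) e2
      simpa [vec] using this
    have hle : 4 / 5 * ε ≤ ε * ‖v‖ := by
      have h := hfar (-m 2)
      have e4 : TwA_w x t (-m 2) = (ε * ‖v‖ * ex l : ℂ) := by
        apply Complex.ext
        · simp only [TwA_w]
          push_cast
          linarith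
        · simp only [TwA_w]
          linarith
      rw [e4, hn] at h
      exact h
    have hv2 : 4 / 5 ≤ ‖v‖ := by nlinarith
    rw [TwA_out D hε hε' g1 g2 (by nlinarith), ← e1, e2]
    rw [← e1] at a3 a4
    exact D.H_per _ _ m (by linarith) (by linarith) hx
  · by_cases hB : ∃ q : ℝ × ℝ × ℂ, ‖q.2.2‖ < 5 ∧ O.Th (x, t) = O.Tb q
    · obtain ⟨⟨θ, x0, ζ⟩, g1, g2⟩ := hB
      simp only at g1
      rw [g2, twA_b O D hε hε' θ x0 g1]
      have hz : ζ ≠ 0 := by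
        rintro rfl
        exact O.disjb θ x0 _ _ hx hct ht0 ht1 g2.symm
      obtain ⟨t', r, ht0', ht1', hr0, hr, e1, e2⟩ := TwA_b_Th O D hε θ x0 hz g1
      rw [e2]
      rw [e1] at g2
      obtain ⟨b1, b2⟩ := TwA_ball hr0 (by linarith) x0 t'
      obtain ⟨e3, m, e4⟩ := O.T_inj _ _ _ _ hx hct b1 b2 ht0 ht1 ht0' ht1' g2
      rw [← e3, e4]
      exact D.H_per _ _ m (by linarith) (by linarith) hx
    · have h : ∃ q : CSG.E3 × ℝ, OffAx q.1 ∧ ¬ OnCT q.1 q.2 ∧ 0 ≤ q.2 ∧ q.2 < 1 ∧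
          O.Th (x, t) = O.Th q := ⟨(x, t), hx, hct, ht0, ht1, rfl⟩
      unfold twA
      rw [dif_neg hT, dif_neg hB, dif_pos h]
      obtain ⟨g1, g2, g3, g4, g5⟩ := h.choose_spec
      generalize h.choose = q at g1 g2 g3 g4 g5
      obtain ⟨x', t'⟩ := q
      dsimp only at g1 g2 g3 g4
      obtain ⟨e1, m, e2⟩ := O.T_inj _ _ _ _ hx hct g1 g2 ht0 ht1 g3 g4 g5
      rw [← e1, e2]
      exact D.H_per _ _ m (by linarith) (by linarith) hx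

theorem twA_Th2 (O : OB J κ ε k P) (D : PDs κ ε k X) (hε : 0 < ε) (hε' : ε ≤ 1 / 1000)
    (hoff : ∀ x, OffAx (κ x) ↔ OffAx x) {x : CSG.E3} {t : ℝ} (hx : OffAx x) (ht0 : -(1 / 8) < t)
    (ht1 : t < 9 / 8) (hfar : ∀ b, 4 / 5 * ε ≤ ‖TwA_w x t b‖) :
    twA O D (O.Th (x, t)) = D.H (x, t) := by
  rcases lt_or_ge t 0 with h | h
  · obtain ⟨y, rfl⟩ : ∃ y, κ y = x := ⟨κ.symm x, κ.apply_symm_apply x⟩
    have hy : OffAx y := (hoff y).1 hx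
    rw [O.T_mon y t ht0 (by linarith) hy, D.H_mon y t ht0 (by linarith) hy]
    refine twA_Th O D hε hε' hy (by linarith) (by linarith) fun b => ?_
    refine le_trans ?_ (TwA_w_im y (t + 1) b)
    rw [abs_of_nonneg (by linarith)]
    linarith
  · rcases lt_or_ge t 1 with h' | h'
    · exact twA_Th O D hε hε' hx h h' hfar
    · have e1 : t = (t - 1) + 1 := by ring
      rw [e1, ← O.T_mon x (t - 1) (by linarith) (by linarith) hx,
        ← D.H_mon x (t - 1) (by linarith) (by linarith) hx]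
      refine twA_Th O D hε hε' ((hoff x).2 hx) (by linarith) (by linarith) fun b => ?_
      refine le_trans ?_ (TwA_w_im (κ x) (t - 1) b)
      rw [abs_of_neg (by linarith)]
      linarith

theorem TwA_tube_of (O : OB J κ ε k P) (hε : 0 < ε) {x : CSG.E3} {t : ℝ} (hx : OffAx x)
    (hct : ¬ OnCT x t) (ht0 : 0 ≤ t) (ht1 : t < 1) {b : ℤ} (hb : ‖TwA_w x t b‖ < ε) :
    ∃ (l : ℝ) (v : ℂ) (t' : ℝ), v ≠ 0 ∧ ‖v‖ < 1 ∧ O.Th (x, t) = kP O (l, v, t') := by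
  set w := TwA_w x t b with hw
  have hw0 : w ≠ 0 := by
    intro h0
    apply hct
    have h1 := congrArg Complex.re h0
    have h2 := congrArg Complex.im h0
    rw [hw] at h1 h2
    simp only [TwA_w, Complex.zero_re, Complex.zero_im] at h1 h2
    exact ⟨by linarith, b, by linarith⟩
  have hn : 0 < ‖w‖ := norm_pos_iff.2 hw0
  set l : ℝ := Complex.arg w / (2 * Real.pi) with hl
  have hs : 0 < ‖w‖ / ε := by positivity
  have hs1 : ‖w‖ / ε < 1 := (div_lt_one hε).2 hb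
  have e1 : (ε * (‖w‖ / ε : ℝ) * ex l : ℂ) = w := by
    have : ((ε : ℂ) * ((‖w‖ / ε : ℝ) : ℂ)) = (‖w‖ : ℂ) := by
      have hε0 : (ε : ℂ) ≠ 0 := by exact_mod_cast hε.ne'
      push_cast
      field_simp
    rw [this, hl, RSG.ex_arg]
  have h := O.glueK l (‖w‖ / ε) (x 1) (x 0) hs hs1
  rw [e1] at h
  have e2 : pt (x 0) (x 1) (1 / 2 + w.re) = x + vec ![0, 0, -b] := by
    conv_rhs => rw [← CSG.pt_eta x]
    rw [CSG.pt_add_vec]
    congr 1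
    · simp
    · simp
    · rw [hw]
      simp only [TwA_w, Matrix.cons_val, Int.cast_neg]
      ring
  have e3 : 1 / 2 + w.im = t := by
    rw [hw]
    simp only [TwA_w]
    ring
  rw [e2, e3, O.T_per x t _ (by linarith) (by linarith) hx hct] at h
  refine ⟨l, (‖w‖ / ε : ℝ) * ex (x 1), x 0 - l, ?_, ?_, ?_⟩
  · rw [← norm_pos_iff, norm_mul, RSG.ex_norm, mul_one, Complex.norm_real,
      Real.norm_of_nonneg hs.le]
    exact hs
  · rw [norm_mul, RSG.ex_norm, mul_one, Complex.norm_real, Real.norm_of_nonneg hs.le]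
    exact hs1
  · rw [← h]
    unfold kP
    simp only
    rw [sub_add_cancel]

theorem TwA_cases (O : OB J κ ε k P) (hε : 0 < ε) {p : P} (hp : ¬ OnT (kP O) p) :
    (∃ (l : ℝ) (v : ℂ) (t : ℝ), v ≠ 0 ∧ ‖v‖ < 1 ∧ p = kP O (l, v, t)) ∨
    (∃ θ x0, p = O.Tb (θ, x0, 0)) ∨
    ∃ (x : CSG.E3) (t : ℝ), OffAx x ∧ 0 ≤ t ∧ t < 1 ∧ (∀ b, ε ≤ ‖TwA_w x t b‖) ∧
      p = O.Th (x, t) := by
  rcases O.cover p with h | ⟨l, τ, h⟩ | ⟨x, t, hx, hct, ht0, ht1, h⟩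
  · exact Or.inr (Or.inl h)
  · refine absurd ⟨l, τ - l, ?_⟩ hp
    rw [h]
    unfold kP
    simp only
    rw [sub_add_cancel]
  · by_cases hb : ∃ b, ‖TwA_w x t b‖ < ε
    · obtain ⟨b, hb⟩ := hb
      obtain ⟨l, v, t', a1, a2, a3⟩ := TwA_tube_of O hε hx hct ht0 ht1 hb
      exact Or.inl ⟨l, v, t', a1, a2, h.trans a3⟩
    · push Not at hb
      exact Or.inr (Or.inr ⟨x, t, hx, ht0, ht1, hb, h⟩)

theorem TwA_Qm_H (D : PDs κ ε k X) {z : S4} (h1 : c1 z ≠ 0) : Qm D z = D.H (qS ε z) := by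
  unfold Qm
  rw [if_neg h1]

theorem TwA_Qm_jc (D : PDs κ ε k X) {z : S4} (h1 : c1 z = 0) : Qm D z = D.jc (yS z, 0) := by
  unfold Qm
  rw [if_pos h1]

theorem TwA_qS_time (hε : 0 < ε) (hε' : ε ≤ 1 / 1000) {z : S4} (h : fh z ≠ 0) :
    0 ≤ (qS ε z).2 ∧ (qS ε z).2 < 1 := by
  have := qS_time hε hε' h
  rw [abs_lt] at this
  constructor <;> linarith [this.1, this.2]

theorem TwA_Qm_far (D : PDs κ ε k X) (hε : 0 < ε) (hε' : ε ≤ 1 / 1000) {z : S4} (h : fh z ≠ 0)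
    {x : CSG.E3} {t : ℝ} (hx : OffAx x) (ht0 : 0 ≤ t) (ht1 : t < 1)
    (hfar : ∀ b, ε ≤ ‖TwA_w x t b‖) : Qm D z ≠ D.H (x, t) := by
  have hct : ¬ OnCT x t := TwA_nonCT fun b => lt_of_lt_of_le hε (hfar b)
  by_cases h1 : c1 z = 0
  · rw [TwA_Qm_jc D h1]
    exact D.disjc _ _ _ hx (TwA_OnC hct) ht0 ht1
  · rw [TwA_Qm_H D h1]
    intro he
    obtain ⟨a1, a2⟩ := TwA_qS_time hε hε' h
    obtain ⟨e1, m, e2⟩ := D.H_inj (qS ε z).1 x (qS ε z).2 t (qS_off hε hε' h)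
      (qS_onC hε hε' h h1) hx (TwA_OnC hct) a1 a2 ht0 ht1 he
    have e3 : x 2 = (qS ε z).1 2 + m 2 := by
      have := congrArg (fun y : CSG.E3 => y 2) e2
      simpa [vec] using this
    have e4 : TwA_w x t (m 2) = etaS ε z := by
      apply Complex.ext
      · simp only [TwA_w]
        rw [e3]
        simp only [qS, CSG.pt_two']
        ring
      · simp only [TwA_w]
        rw [← e1]
        simp only [qS]
        ring
    have := hfar (m 2)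
    rw [e4] at this
    exact absurd (etaS_lt hε h) (not_lt.2 this)

theorem TwA_Qm_b (D : PDs κ ε k X) (hε : 0 < ε) (hε' : ε ≤ 1 / 1000) {z : S4} (h : fh z ≠ 0)
    (θ x0 : ℝ) : Qm D z ≠ D.jb (θ, x0, 0) := by
  by_cases h1 : c1 z = 0
  · rw [TwA_Qm_jc D h1]
    exact D.disjbc _ _ _
  · rw [TwA_Qm_H D h1]
    obtain ⟨a1, a2⟩ := TwA_qS_time hε hε' h
    exact (D.disjb θ x0 (qS ε z).1 (qS ε z).2 (qS_off hε hε' h) (qS_onC hε hε' h h1) a1 a2).symm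

theorem TwA_Qm_ld (D : PDs κ ε k X) (hε : 0 < ε) (hε' : ε ≤ 1 / 1000) {z : S4} (h : fh z ≠ 0) :
    IsLocalDiffeomorphAt (𝓡 4) (𝓡 4) ∞ (Qm D) z := by
  by_cases h1 : c1 z = 0
  · exact Qm_ldA D hε hε' h h1
  · by_cases h2 : c2 z = 0
    · exact Qm_ldC D hε hε' h1 h2
    · exact Qm_ldB D hε hε' h h1 h2

/-- `Gc (-1) 1` is injective modulo periods -/
theorem TwA_Gc_inj {l t l' t' : ℝ} {v v' : ℂ} (h0 : v ≠ 0) (h1 : ‖v‖ < 1) (h0' : v' ≠ 0)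
    (h1' : ‖v'‖ < 1) (he : Gc (-1) 1 (l, v, t) = Gc (-1) 1 (l', v', t')) :
    v = v' ∧ (∃ a : ℤ, l' = l + a) ∧ ∃ b : ℤ, t' = t + b := by
  obtain ⟨hf, hc1, hc2, hn, e1, e2, e3⟩ := RSG.Gc_spec (-1) 1 (l := l) (t := t) h0 h1
  obtain ⟨-, -, -, hn', e1', e2', e3'⟩ := RSG.Gc_spec (-1) 1 (l := l') (t := t') h0' h1'
  rw [← he] at hn' e1' e2' e3'
  generalize Gc (-1) 1 (l, v, t) = z at hf hc1 hc2 hn e1 e2 e3 hn' e1' e2' e3'
  have n1 : (‖c1 z‖ : ℂ) ≠ 0 := by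
    simpa using hc1
  have n2 : (‖c2 z‖ : ℂ) ≠ 0 := by
    simpa using hc2
  have n3 : (‖fh z‖ : ℂ) ≠ 0 := by
    simpa using hf
  have hvv : ‖v‖ = ‖v'‖ := hn.symm.trans hn'
  have hv0 : (‖v‖ : ℂ) ≠ 0 := by simpa using h0
  have f1 := mul_left_cancel₀ n1 (e1.symm.trans e1')
  have f2 := mul_left_cancel₀ n2 (e2.symm.trans e2')
  have f3 := mul_left_cancel₀ n3 (e3.symm.trans e3')
  have g1 : v = v' := by
    simp only [Int.cast_one, sub_self, zero_mul, RSG.ex_zero, mul_one] at f1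
    rw [← hvv] at f1
    field_simp at f1
    exact f1
  subst g1
  have hd : (v / (‖v‖ : ℂ)) ≠ 0 := div_ne_zero h0 hv0
  have f4 := mul_left_cancel₀ hd f2
  obtain ⟨a, ha⟩ := RSG.ex_eq_iff.1 f4
  obtain ⟨b, hb⟩ := RSG.ex_eq_iff.1 f3
  push_cast at ha hb
  refine ⟨rfl, ⟨b + a, ?_⟩, -a, ?_⟩
  · push_cast
    linarith
  · push_cast
    linarith

theorem twin_of_pds {X : Type*} [TopologicalSpace X] [ChartedSpace E4 X] (O : OB J κ ε k P)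
    (D : PDs κ ε k X) (hε : 0 < ε) (hε' : ε ≤ 1 / 1000) (hoff : ∀ x, OffAx (κ x) ↔ OffAx x) :
    Nonempty (TwinP J (kP O) (-1) 1 X) := by
  have hf45 : ∀ {x : CSG.E3} {t : ℝ}, (∀ b, ε ≤ ‖TwA_w x t b‖) →
      ∀ b, 4 / 5 * ε ≤ ‖TwA_w x t b‖ := fun h b => le_trans (by linarith) (h b)
  refine ⟨⟨twA O D, Qm D, ?_, ?_, fun z hz => TwA_Qm_ld D hε hε' hz,
    fun z z' hz hz' he => Qm_inj D hε hε' hz hz' he, ?_, ?_, ?_⟩⟩
  · intro p hp
    rcases TwA_cases O hε hp with ⟨l, v, t, h0, h1, rfl⟩ | ⟨θ, x0, rfl⟩ |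
      ⟨x, t, hx, ht0, ht1, hfar, rfl⟩
    · obtain ⟨hf, hc1, hc2, -⟩ := RSG.Gc_spec (-1) 1 (l := l) (t := t) h0 h1
      have a1 : IsLocalDiffeomorphAt 𝓘(ℝ, ℝ × ℂ × ℝ) (𝓡 4) ∞ (Qm D ∘ Gc (-1) 1) (l, v, t) :=
        IsLocalDiffeomorphAt.comp (hf := RSG.Gc_ld (-1) 1 h0 h1)
          (hg := Qm_ldB D hε hε' hf hc1 hc2) ..
      have a2 : IsLocalDiffeomorphAt 𝓘(ℝ, ℝ × ℂ × ℝ) (𝓡 4) ∞ (twA O D ∘ kP O) (l, v, t) := by
        refine CSG.ld_congr a1 ?_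
        have o1 : ∀ᶠ q : ℝ × ℂ × ℝ in 𝓝 (l, v, t), q.2.1 ≠ 0 :=
          (continuous_fst.comp continuous_snd).continuousAt.eventually_ne h0
        have o2 : ∀ᶠ q : ℝ × ℂ × ℝ in 𝓝 (l, v, t), ‖q.2.1‖ < 1 := by
          have hc : Continuous fun q : ℝ × ℂ × ℝ => ‖q.2.1‖ := by fun_prop
          exact hc.continuousAt.eventually_lt continuousAt_const h1
        filter_upwards [o1, o2] with q q1 q2
        exact twA_tube O D q1 q2
      exact CSG.ld_of_comp_left a2 ((kP_thick O).loc l v t h1)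
    · have a2 : IsLocalDiffeomorphAt 𝓘(ℝ, ℝ × ℝ × ℂ) (𝓡 4) ∞ (twA O D ∘ O.Tb) (θ, x0, 0) := by
        refine CSG.ld_congr (D.jb_loc θ x0 0 (by simp)) ?_
        have o2 : ∀ᶠ q : ℝ × ℝ × ℂ in 𝓝 (θ, x0, 0), ‖q.2.2‖ < 5 := by
          have hc : Continuous fun q : ℝ × ℝ × ℂ => ‖q.2.2‖ := by fun_prop
          exact hc.continuousAt.eventually_lt continuousAt_const (by simp)
        filter_upwards [o2] with q q2
        exact twA_b O D hε hε' q.1 q.2.1 q2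
      exact CSG.ld_of_comp_left a2 (O.b_loc θ x0 0 (by simp))
    · have hct : ¬ OnCT x t := TwA_nonCT fun b => lt_of_lt_of_le hε (hfar b)
      have a2 : IsLocalDiffeomorphAt 𝓘(ℝ, CSG.E3 × ℝ) (𝓡 4) ∞ (twA O D ∘ O.Th) (x, t) := by
        refine CSG.ld_congr (D.H_loc x t (by linarith) (by linarith) hx (TwA_OnC hct)) ?_
        have o1 : ∀ᶠ q : CSG.E3 × ℝ in 𝓝 (x, t), OffAx q.1 :=
          continuous_fst.continuousAt.eventually (TwA_off_open hx)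
        have o2 : ∀ᶠ q : CSG.E3 × ℝ in 𝓝 (x, t), -(1 / 8) < q.2 :=
          continuousAt_const.eventually_lt continuous_snd.continuousAt (by
            show -(1 / 8) < t
            linarith)
        have o3 : ∀ᶠ q : CSG.E3 × ℝ in 𝓝 (x, t), q.2 < 9 / 8 :=
          continuous_snd.continuousAt.eventually_lt continuousAt_const (by
            show t < 9 / 8
            linarith)
        have o4 : ∀ᶠ q : CSG.E3 × ℝ in 𝓝 (x, t), |x 2 - q.1 2| + |t - q.2| < ε / 5 := by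
          have hc : Continuous fun q : CSG.E3 × ℝ => |x 2 - q.1 2| + |t - q.2| := by fun_prop
          refine hc.continuousAt.eventually_lt continuousAt_const ?_
          simp only [sub_self, abs_zero, add_zero]
          positivity
        filter_upwards [o1, o2, o3, o4] with q q1 q2 q3 q4
        refine twA_Th2 O D hε hε' hoff q1 q2 q3 fun b => ?_
        have h1 := TwA_w_lip x q.1 t q.2 b
        have h2 := hfar b
        linarith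
      exact CSG.ld_of_comp_left a2 (O.T_loc x t (by linarith) (by linarith) hx hct)
  · intro p p' hp hp' he
    rcases TwA_cases O hε hp with ⟨l, v, t, h0, h1, rfl⟩ | ⟨θ, x0, rfl⟩ |
      ⟨x, t, hx, ht0, ht1, hfar, rfl⟩
    · obtain ⟨hf, hc1, hc2, -⟩ := RSG.Gc_spec (-1) 1 (l := l) (t := t) h0 h1
      rw [twA_tube O D h0 h1] at he
      rcases TwA_cases O hε hp' with ⟨l', v', t', h0', h1', rfl⟩ | ⟨θ', x0', rfl⟩ |
        ⟨x', t', hx', ht0', ht1', hfar', rfl⟩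
      · obtain ⟨hf', hc1', hc2', -⟩ := RSG.Gc_spec (-1) 1 (l := l') (t := t') h0' h1'
        rw [twA_tube O D h0' h1'] at he
        obtain ⟨e1, ⟨a, e2⟩, b, e3⟩ := TwA_Gc_inj h0 h1 h0' h1' (Qm_inj D hε hε' hf hf' he)
        rw [e2, e3, ← e1, TwA_kP_int]
      · rw [twA_b O D hε hε' θ' x0' (by simp)] at he
        exact absurd he (TwA_Qm_b D hε hε' hf _ _)
      · rw [twA_Th O D hε hε' hx' ht0' ht1' (hf45 hfar')] at he
        exact absurd he (TwA_Qm_far D hε hε' hf hx' ht0' ht1' hfar')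
    · rw [twA_b O D hε hε' θ x0 (by simp)] at he
      rcases TwA_cases O hε hp' with ⟨l', v', t', h0', h1', rfl⟩ | ⟨θ', x0', rfl⟩ |
        ⟨x', t', hx', ht0', ht1', hfar', rfl⟩
      · obtain ⟨hf', -⟩ := RSG.Gc_spec (-1) 1 (l := l') (t := t') h0' h1'
        rw [twA_tube O D h0' h1'] at he
        exact absurd he.symm (TwA_Qm_b D hε hε' hf' _ _)
      · rw [twA_b O D hε hε' θ' x0' (by simp)] at he
        obtain ⟨⟨a, e1⟩, ⟨b, e2⟩, -⟩ := D.jb_inj _ _ _ _ _ _ (by simp) (by simp) he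
        rw [e1, e2, O.b_per]
      · rw [twA_Th O D hε hε' hx' ht0' ht1' (hf45 hfar')] at he
        have hct' : ¬ OnCT x' t' := TwA_nonCT fun b => lt_of_lt_of_le hε (hfar' b)
        exact absurd he (D.disjb _ _ _ _ hx' (TwA_OnC hct') ht0' ht1')
    · rw [twA_Th O D hε hε' hx ht0 ht1 (hf45 hfar)] at he
      have hct : ¬ OnCT x t := TwA_nonCT fun b => lt_of_lt_of_le hε (hfar b)
      rcases TwA_cases O hε hp' with ⟨l', v', t', h0', h1', rfl⟩ | ⟨θ', x0', rfl⟩ |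
        ⟨x', t', hx', ht0', ht1', hfar', rfl⟩
      · obtain ⟨hf', -⟩ := RSG.Gc_spec (-1) 1 (l := l') (t := t') h0' h1'
        rw [twA_tube O D h0' h1'] at he
        exact absurd he.symm (TwA_Qm_far D hε hε' hf' hx ht0 ht1 hfar)
      · rw [twA_b O D hε hε' θ' x0' (by simp)] at he
        exact absurd he.symm (D.disjb _ _ _ _ hx (TwA_OnC hct) ht0 ht1)
      · rw [twA_Th O D hε hε' hx' ht0' ht1' (hf45 hfar')] at he
        have hct' : ¬ OnCT x' t' := TwA_nonCT fun b => lt_of_lt_of_le hε (hfar' b)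
        obtain ⟨e1, m, e2⟩ := D.H_inj _ _ _ _ hx (TwA_OnC hct) hx' (TwA_OnC hct') ht0 ht1 ht0'
          ht1' he
        rw [e2, ← e1]
        exact (O.T_per x t m (by linarith) (by linarith) hx hct).symm
  · intro z l m t hf h1 h2 e1 e2 e3
    have p1 : 0 < ‖c1 z‖ := norm_pos_iff.2 h1
    have p2 : 0 < ‖c2 z‖ := norm_pos_iff.2 h2
    have hr : 0 < 2 * ‖c1 z‖ * ‖c2 z‖ := by positivity
    have hr1 : 2 * ‖c1 z‖ * ‖c2 z‖ < 1 := (RSG.fh_ne_iff z).1 hf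
    have hn : ‖((2 * ‖c1 z‖ * ‖c2 z‖ : ℝ) : ℂ) * ex m‖ = 2 * ‖c1 z‖ * ‖c2 z‖ := by
      rw [norm_mul, RSG.ex_norm, mul_one, Complex.norm_real, Real.norm_of_nonneg hr.le]
    have hv0 : ((2 * ‖c1 z‖ * ‖c2 z‖ : ℝ) : ℂ) * ex m ≠ 0 := by
      rw [← norm_pos_iff, hn]
      exact hr
    rw [twA_tube O D hv0 (by rw [hn]; exact hr1)]
    congr 1
    refine RSG.Gc_eq (-1) 1 hf h1 h2 ?_ ?_ ?_
    · rw [e1]
      simp only [norm_mul, RSG.ex_norm, mul_one, Complex.norm_real, norm_norm]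
      congr 2
      push_cast
      ring
    · rw [e2]
      simp only [norm_mul, RSG.ex_norm, mul_one, Complex.norm_real, norm_norm]
      congr 2
      push_cast
      ring
    · exact e3
  · intro z p hf h12 hp
    rcases TwA_cases O hε hp with ⟨l, v, t, h0, h1, rfl⟩ | ⟨θ, x0, rfl⟩ |
      ⟨x, t, hx, ht0, ht1, hfar, rfl⟩
    · rw [twA_tube O D h0 h1]
      intro he
      obtain ⟨hf', hc1, hc2, -⟩ := RSG.Gc_spec (-1) 1 (l := l) (t := t) h0 h1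
      have e := Qm_inj D hε hε' hf hf' he
      rw [e] at h12
      rcases h12 with h | h
      · exact hc1 h
      · exact hc2 h
    · rw [twA_b O D hε hε' θ x0 (by simp)]
      exact TwA_Qm_b D hε hε' hf _ _
    · rw [twA_Th O D hε hε' hx ht0 ht1 (hf45 hfar)]
      exact TwA_Qm_far D hε hε' hf hx ht0 ht1 hfar
  · intro q
    rcases D.cover q with ⟨θ, x0, rfl⟩ | ⟨y, rfl⟩ | ⟨x, t, hx, hnc, ht0, ht1, rfl⟩
    · refine Or.inl ⟨O.Tb (θ, x0, 0), ?_, (twA_b O D hε hε' θ x0 (by simp)).symm⟩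
      rintro ⟨l, τ, h⟩
      exact O.disjbK l (τ + l) θ x0 h.symm
    · obtain ⟨z, hz1, hz2, hz3⟩ := yS_surj y
      refine Or.inr ⟨z, hz2, ?_⟩
      rw [TwA_Qm_jc D hz1, hz3]
    · by_cases hb : ∃ b, ‖TwA_w x t b‖ < ε
      · obtain ⟨b, hb⟩ := hb
        have hne : ¬ (TwA_w x t b = 0 ∧ ∃ a : ℤ, x 0 - 1 / 2 = a) := by
          rintro ⟨g1, a, g2⟩
          apply hnc
          have h1 := congrArg Complex.re g1
          have h2 := congrArg Complex.im g1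
          simp only [TwA_w, Complex.zero_re, Complex.zero_im] at h1 h2
          exact ⟨by linarith, ⟨a, by linarith⟩, b, by linarith⟩
        obtain ⟨z, a, c, hz1, hz2, hz3⟩ := qS_surj hε hε' (x 0) (x 1) (TwA_w x t b) hb hne
        refine Or.inr ⟨z, hz1, ?_⟩
        rw [TwA_Qm_H D hz2, hz3]
        have e2 : pt (x 0 + a) (x 1 + c) (1 / 2 + (TwA_w x t b).re) = x + vec ![a, c, -b] := by
          conv_rhs => rw [← CSG.pt_eta x]
          rw [CSG.pt_add_vec]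
          congr 1
          simp only [TwA_w, Matrix.cons_val, Int.cast_neg]
          ring
        have e3 : 1 / 2 + (TwA_w x t b).im = t := by
          simp only [TwA_w]
          ring
        rw [e2, e3]
        exact (D.H_per x t _ (by linarith) (by linarith) hx).symm
      · push Not at hb
        refine Or.inl ⟨O.Th (x, t), ?_, (twA_Th O D hε hε' hx ht0 ht1 (hf45 hb)).symm⟩
        rintro ⟨l, τ, h⟩
        have hct : ¬ OnCT x t := TwA_nonCT fun b => lt_of_lt_of_le hε (hb b)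
        exact O.disjK l (τ + l) x t hx hct ht0 ht1 h.symm

end

end Pool.Agent.CSP
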