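import Pool.Agent.CSP.Defs
import Pool.Agent.RSG.ExM

/-!
# CSP/VrM: the rotations `Vr`   (difficulty 2)

`r01 c`, `r02 c` are linear in the vector, smooth in `(c, w)` (coordinates: `contDiff_euclidean`, `pt_zero'` ..,
`pt_eta`), and `r01 c (r01 d w) = r01 (c d) w`, `r01 1 w = w`, `‖r01 c w‖ = ‖w‖` for `‖c‖ = 1`
(`‖w‖² = w0² + w1² + w2²`, `‖c * ⟨w0, w1⟩‖ = ‖⟨w0, w1⟩‖`); the same for `r02`.  `ex` is smooth, `‖ex x‖ = 1`,
`ex x * ex y = ex (x + y)`, `ex (x + m) = ex x` for `m : ℤ` (see RSG/ExM: `ex_add`, `ex_norm`, `ex_add_int`).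
`tht l (u + m) = tht l u + m` (`thc_add_int`), and `thc` is smooth (`thc_smooth`).
* `Vr_inv`, `Vr_inv'`: `r01 (ex (-(l/4))) (r01 (ex (l/4)) w) = w` and `r02 (ex (-θ)) (r02 (ex θ) w) = w`.
* `Vr_zero`: `ex 0 = 1`, `tht 0 u = thc u`.
* `Vr_one`: `tht 1 u = u`, `ex (1/4) = I`, `ex (-1/4) = -I`: `r01 (-I) w = (w1, -w0, w2)`;
  `r02 c` of this is `(Re (c (w1 + i w2)), -w0, Im (c (w1 + i w2)))`; `r01 I` of this is
  `(w0, Re (c (w1 + i w2)), Im (..))`.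
-/

open scoped Manifold ContDiff
open Complex (I)

namespace Pool.Agent.CSP
open Pool.Agent.CSG
open Pool.Agent.RSG (ex)

theorem VrM_ext {v w : E3} (h0 : v 0 = w 0) (h1 : v 1 = w 1) (h2 : v 2 = w 2) : v = w := by
  ext i
  fin_cases i
  · exact h0
  · exact h1
  · exact h2

theorem VrM_pt0 (n u y : ℝ) : pt n u y 0 = n := by simp [pt]
theorem VrM_pt1 (n u y : ℝ) : pt n u y 1 = u := by simp [pt]
theorem VrM_pt2 (n u y : ℝ) : pt n u y 2 = y := by simp [pt]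

theorem VrM_eta (w : E3) : pt (w 0) (w 1) (w 2) = w :=
  VrM_ext (VrM_pt0 _ _ _) (VrM_pt1 _ _ _) (VrM_pt2 _ _ _)

theorem VrM_r01_0 (c : ℂ) (w : E3) : r01 c w 0 = c.re * w 0 - c.im * w 1 := by
  simp [r01, VrM_pt0, Complex.mul_re]
theorem VrM_r01_1 (c : ℂ) (w : E3) : r01 c w 1 = c.re * w 1 + c.im * w 0 := by
  simp [r01, VrM_pt1, Complex.mul_im]
theorem VrM_r01_2 (c : ℂ) (w : E3) : r01 c w 2 = w 2 := by
  simp [r01, VrM_pt2]
theorem VrM_r02_0 (c : ℂ) (w : E3) : r02 c w 0 = c.re * w 0 - c.im * w 2 := by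
  simp [r02, VrM_pt0, Complex.mul_re]
theorem VrM_r02_1 (c : ℂ) (w : E3) : r02 c w 1 = w 1 := by
  simp [r02, VrM_pt1]
theorem VrM_r02_2 (c : ℂ) (w : E3) : r02 c w 2 = c.re * w 2 + c.im * w 0 := by
  simp [r02, VrM_pt2, Complex.mul_im]

theorem VrM_r01_r01 (c d : ℂ) (w : E3) : r01 c (r01 d w) = r01 (c * d) w := by
  refine VrM_ext ?_ ?_ ?_
  · rw [VrM_r01_0, VrM_r01_0, VrM_r01_0, VrM_r01_1, Complex.mul_re, Complex.mul_im]
    ring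
  · rw [VrM_r01_1, VrM_r01_1, VrM_r01_0, VrM_r01_1, Complex.mul_re, Complex.mul_im]
    ring
  · rw [VrM_r01_2, VrM_r01_2, VrM_r01_2]

theorem VrM_r02_r02 (c d : ℂ) (w : E3) : r02 c (r02 d w) = r02 (c * d) w := by
  refine VrM_ext ?_ ?_ ?_
  · rw [VrM_r02_0, VrM_r02_0, VrM_r02_0, VrM_r02_2, Complex.mul_re, Complex.mul_im]
    ring
  · rw [VrM_r02_1, VrM_r02_1, VrM_r02_1]
  · rw [VrM_r02_2, VrM_r02_2, VrM_r02_0, VrM_r02_2, Complex.mul_re, Complex.mul_im]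
    ring

theorem VrM_r01_one (w : E3) : r01 1 w = w := by
  refine VrM_ext ?_ ?_ ?_
  · rw [VrM_r01_0]; simp
  · rw [VrM_r01_1]; simp
  · rw [VrM_r01_2]

theorem VrM_r02_one (w : E3) : r02 1 w = w := by
  refine VrM_ext ?_ ?_ ?_
  · rw [VrM_r02_0]; simp
  · rw [VrM_r02_1]
  · rw [VrM_r02_2]; simp

theorem VrM_sq (c : ℂ) (h : ‖c‖ = 1) : c.re ^ 2 + c.im ^ 2 = 1 := by
  have h1 := Complex.sq_norm c
  rw [h, Complex.normSq_apply] at h1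
  nlinarith

theorem VrM_nsq (w : E3) : ‖w‖ ^ 2 = w 0 ^ 2 + w 1 ^ 2 + w 2 ^ 2 := by
  rw [EuclideanSpace.norm_sq_eq, Fin.sum_univ_three]
  simp only [Real.norm_eq_abs, sq_abs]

theorem VrM_r01_norm {c : ℂ} (h : ‖c‖ = 1) (w : E3) : ‖r01 c w‖ = ‖w‖ := by
  have h1 : ‖r01 c w‖ ^ 2 = ‖w‖ ^ 2 := by
    rw [VrM_nsq, VrM_nsq, VrM_r01_0, VrM_r01_1, VrM_r01_2]
    have h2 := VrM_sq c h
    linear_combination (w 0 ^ 2 + w 1 ^ 2) * h2
  exact (sq_eq_sq₀ (norm_nonneg _) (norm_nonneg _)).1 h1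

theorem VrM_r02_norm {c : ℂ} (h : ‖c‖ = 1) (w : E3) : ‖r02 c w‖ = ‖w‖ := by
  have h1 : ‖r02 c w‖ ^ 2 = ‖w‖ ^ 2 := by
    rw [VrM_nsq, VrM_nsq, VrM_r02_0, VrM_r02_1, VrM_r02_2]
    have h2 := VrM_sq c h
    linear_combination (w 0 ^ 2 + w 2 ^ 2) * h2
  exact (sq_eq_sq₀ (norm_nonneg _) (norm_nonneg _)).1 h1

theorem VrM_r01_smul (c : ℂ) (a : ℝ) (w : E3) : r01 c (a • w) = a • r01 c w := by
  refine VrM_ext ?_ ?_ ?_
  · simp only [PiLp.smul_apply, smul_eq_mul, VrM_r01_0]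
    ring
  · simp only [PiLp.smul_apply, smul_eq_mul, VrM_r01_1]
    ring
  · simp only [PiLp.smul_apply, smul_eq_mul, VrM_r01_2]

theorem VrM_r02_smul (c : ℂ) (a : ℝ) (w : E3) : r02 c (a • w) = a • r02 c w := by
  refine VrM_ext ?_ ?_ ?_
  · simp only [PiLp.smul_apply, smul_eq_mul, VrM_r02_0]
    ring
  · simp only [PiLp.smul_apply, smul_eq_mul, VrM_r02_1]
  · simp only [PiLp.smul_apply, smul_eq_mul, VrM_r02_2]
    ring

theorem VrM_coord {F : Type*} [NormedAddCommGroup F] [NormedSpace ℝ F] {f : F → E3}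
    (h0 : ContDiff ℝ ∞ fun x => f x 0) (h1 : ContDiff ℝ ∞ fun x => f x 1)
    (h2 : ContDiff ℝ ∞ fun x => f x 2) : ContDiff ℝ ∞ f := by
  rw [contDiff_euclidean]
  intro i
  fin_cases i
  · exact h0
  · exact h1
  · exact h2

theorem VrM_coord' {F : Type*} [NormedAddCommGroup F] [NormedSpace ℝ F] {f : F → E3}
    (h : ContDiff ℝ ∞ f) (i : Fin 3) : ContDiff ℝ ∞ fun x => f x i :=
  contDiff_euclidean.1 h i

theorem VrM_r01_smooth {F : Type*} [NormedAddCommGroup F] [NormedSpace ℝ F] {c : F → ℂ} {f : F → E3}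
    (hc : ContDiff ℝ ∞ c) (hf : ContDiff ℝ ∞ f) : ContDiff ℝ ∞ fun x => r01 (c x) (f x) := by
  have hre : ContDiff ℝ ∞ fun x => (c x).re := Complex.reCLM.contDiff.comp hc
  have him : ContDiff ℝ ∞ fun x => (c x).im := Complex.imCLM.contDiff.comp hc
  refine VrM_coord ?_ ?_ ?_
  · simp only [VrM_r01_0]
    exact (hre.mul (VrM_coord' hf 0)).sub (him.mul (VrM_coord' hf 1))
  · simp only [VrM_r01_1]
    exact (hre.mul (VrM_coord' hf 1)).add (him.mul (VrM_coord' hf 0))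
  · simp only [VrM_r01_2]
    exact VrM_coord' hf 2

theorem VrM_r02_smooth {F : Type*} [NormedAddCommGroup F] [NormedSpace ℝ F] {c : F → ℂ} {f : F → E3}
    (hc : ContDiff ℝ ∞ c) (hf : ContDiff ℝ ∞ f) : ContDiff ℝ ∞ fun x => r02 (c x) (f x) := by
  have hre : ContDiff ℝ ∞ fun x => (c x).re := Complex.reCLM.contDiff.comp hc
  have him : ContDiff ℝ ∞ fun x => (c x).im := Complex.imCLM.contDiff.comp hc
  refine VrM_coord ?_ ?_ ?_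
  · simp only [VrM_r02_0]
    exact (hre.mul (VrM_coord' hf 0)).sub (him.mul (VrM_coord' hf 2))
  · simp only [VrM_r02_1]
    exact VrM_coord' hf 1
  · simp only [VrM_r02_2]
    exact (hre.mul (VrM_coord' hf 2)).add (him.mul (VrM_coord' hf 0))

theorem VrM_tht_smooth : ContDiff ℝ ∞ fun q : ℝ × ℝ × E3 => tht q.1 q.2.1 := by
  unfold tht
  have h1 : ContDiff ℝ ∞ fun q : ℝ × ℝ × E3 => thc q.2.1 := thc_smooth.comp (contDiff_fst.comp contDiff_snd)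
  exact ((contDiff_const.sub contDiff_fst).mul h1).add (contDiff_fst.mul (contDiff_fst.comp contDiff_snd))

theorem Vr_smooth : ContDiff ℝ ∞ fun q : ℝ × ℝ × E3 => Vr q.1 q.2.1 q.2.2 := by
  unfold Vr
  have e1 : ContDiff ℝ ∞ fun q : ℝ × ℝ × E3 => ex (q.1 / 4) :=
    RSG.ex_smooth.comp (contDiff_fst.div_const 4)
  have e2 : ContDiff ℝ ∞ fun q : ℝ × ℝ × E3 => ex (-(q.1 / 4)) :=
    RSG.ex_smooth.comp (contDiff_fst.div_const 4).neg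
  have e3 : ContDiff ℝ ∞ fun q : ℝ × ℝ × E3 => ex (-tht q.1 q.2.1) :=
    RSG.ex_smooth.comp VrM_tht_smooth.neg
  exact VrM_r01_smooth e1 (VrM_r02_smooth e3 (VrM_r01_smooth e2 (contDiff_snd.comp contDiff_snd)))

theorem Vr'_smooth : ContDiff ℝ ∞ fun q : ℝ × ℝ × E3 => Vr' q.1 q.2.1 q.2.2 := by
  unfold Vr'
  have e1 : ContDiff ℝ ∞ fun q : ℝ × ℝ × E3 => ex (q.1 / 4) :=
    RSG.ex_smooth.comp (contDiff_fst.div_const 4)
  have e2 : ContDiff ℝ ∞ fun q : ℝ × ℝ × E3 => ex (-(q.1 / 4)) :=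
    RSG.ex_smooth.comp (contDiff_fst.div_const 4).neg
  have e3 : ContDiff ℝ ∞ fun q : ℝ × ℝ × E3 => ex (tht q.1 q.2.1) :=
    RSG.ex_smooth.comp VrM_tht_smooth
  exact VrM_r01_smooth e1 (VrM_r02_smooth e3 (VrM_r01_smooth e2 (contDiff_snd.comp contDiff_snd)))

theorem VrM_ex1 (x : ℝ) : ex (-x) * ex x = 1 := by
  rw [← RSG.ex_add, neg_add_cancel, RSG.ex_zero]
theorem VrM_ex2 (x : ℝ) : ex x * ex (-x) = 1 := by
  rw [← RSG.ex_add, add_neg_cancel, RSG.ex_zero]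

theorem Vr_inv (l u : ℝ) (w : E3) : Vr l u (Vr' l u w) = w := by
  unfold Vr Vr'
  rw [VrM_r01_r01 (ex (-(l / 4))), VrM_ex1, VrM_r01_one, VrM_r02_r02, VrM_ex1, VrM_r02_one, VrM_r01_r01,
    VrM_ex2, VrM_r01_one]
theorem Vr_inv' (l u : ℝ) (w : E3) : Vr' l u (Vr l u w) = w := by
  unfold Vr Vr'
  rw [VrM_r01_r01 (ex (-(l / 4))), VrM_ex1, VrM_r01_one, VrM_r02_r02, VrM_ex2, VrM_r02_one, VrM_r01_r01,
    VrM_ex2, VrM_r01_one]
theorem Vr_norm (l u : ℝ) (w : E3) : ‖Vr l u w‖ = ‖w‖ := by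
  unfold Vr
  rw [VrM_r01_norm (RSG.ex_norm _), VrM_r02_norm (RSG.ex_norm _), VrM_r01_norm (RSG.ex_norm _)]
theorem Vr'_norm (l u : ℝ) (w : E3) : ‖Vr' l u w‖ = ‖w‖ := by
  unfold Vr'
  rw [VrM_r01_norm (RSG.ex_norm _), VrM_r02_norm (RSG.ex_norm _), VrM_r01_norm (RSG.ex_norm _)]
theorem Vr_smul (l u c : ℝ) (w : E3) : Vr l u (c • w) = c • Vr l u w := by
  unfold Vr
  rw [VrM_r01_smul, VrM_r02_smul, VrM_r01_smul]
theorem Vr'_smul (l u c : ℝ) (w : E3) : Vr' l u (c • w) = c • Vr' l u w := by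
  unfold Vr'
  rw [VrM_r01_smul, VrM_r02_smul, VrM_r01_smul]

theorem VrM_tht_per (l u : ℝ) (m : ℤ) : tht l (u + m) = tht l u + m := by
  unfold tht
  rw [thc_add_int]
  ring

theorem Vr_per (l u : ℝ) (m : ℤ) (w : E3) : Vr l (u + m) w = Vr l u w := by
  unfold Vr
  have e1 : -tht l (u + m) = -tht l u + ((-m : ℤ) : ℝ) := by
    rw [VrM_tht_per]
    push_cast
    ring
  rw [e1, RSG.ex_add_int]
theorem Vr'_per (l u : ℝ) (m : ℤ) (w : E3) : Vr' l (u + m) w = Vr' l u w := by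
  unfold Vr'
  rw [VrM_tht_per, RSG.ex_add_int]

theorem VrM_V0 (u : ℝ) (w : E3) : Vr 0 u w = r02 (ex (-thc u)) w := by
  unfold Vr tht
  have e0 : ex 0 = 1 := RSG.ex_zero
  have e1 : -((1 - 0) * thc u + 0 * u) = -thc u := by ring
  rw [zero_div, neg_zero, e0, e1, VrM_r01_one, VrM_r01_one]
theorem VrM_V'0 (u : ℝ) (w : E3) : Vr' 0 u w = r02 (ex (thc u)) w := by
  unfold Vr' tht
  have e0 : ex 0 = 1 := RSG.ex_zero
  have e1 : (1 - 0) * thc u + 0 * u = thc u := by ring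
  rw [zero_div, neg_zero, e0, e1, VrM_r01_one, VrM_r01_one]

theorem Vr_zero (u : ℝ) (w : E3) :
    Vr 0 u w = pt (ex (-thc u) * ⟨w 0, w 2⟩).re (w 1) (ex (-thc u) * ⟨w 0, w 2⟩).im := VrM_V0 u w
theorem Vr'_zero (u : ℝ) (w : E3) :
    Vr' 0 u w = pt (ex (thc u) * ⟨w 0, w 2⟩).re (w 1) (ex (thc u) * ⟨w 0, w 2⟩).im := VrM_V'0 u w

theorem VrM_one (c : ℂ) (w : E3) :
    r01 (ex (1 / 4)) (r02 c (r01 (ex (-(1 / 4))) w)) =
      pt (w 0) (c * ⟨w 1, w 2⟩).re (c * ⟨w 1, w 2⟩).im := by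
  have e1 : ex (1 / 4) = I := RSG.ex_quarter
  have e2 : ex (-(1 / 4)) = -I := by
    rw [RSG.ex_neg, e1, Complex.conj_I]
  rw [e1, e2]
  refine VrM_ext ?_ ?_ ?_
  · rw [VrM_r01_0, VrM_r02_1, VrM_r02_0, VrM_r01_0, VrM_r01_1, VrM_r01_2, VrM_pt0]
    simp
  · rw [VrM_r01_1, VrM_r02_0, VrM_r02_1, VrM_r01_0, VrM_r01_2, VrM_r01_1, VrM_pt1, Complex.mul_re]
    simp
  · rw [VrM_r01_2, VrM_r02_2, VrM_r01_2, VrM_r01_0, VrM_pt2, Complex.mul_im]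
    simp

theorem Vr_one (u : ℝ) (w : E3) :
    Vr 1 u w = pt (w 0) (ex (-u) * ⟨w 1, w 2⟩).re (ex (-u) * ⟨w 1, w 2⟩).im := by
  unfold Vr tht
  have e1 : -((1 - 1) * thc u + 1 * u) = -u := by ring
  rw [e1]
  exact VrM_one _ w
theorem Vr'_one (u : ℝ) (w : E3) :
    Vr' 1 u w = pt (w 0) (ex u * ⟨w 1, w 2⟩).re (ex u * ⟨w 1, w 2⟩).im := by
  unfold Vr' tht
  have e1 : (1 - 1) * thc u + 1 * u = u := by ring
  rw [e1]
  exact VrM_one _ w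

end Pool.Agent.CSP
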