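import Pool.Agent.CSP.Defs
import Pool.Agent.CSG.FunBasic

/-!
# CSP/XXa: the function `XX`, calculus   (difficulty 3)

Notation: `0 < r < 1`, `ρ = √(1 - r²)`, `0 < ρ < 1`, `X = ρ cos 2πφ`, `Y = ρ sin 2πφ`, `R = √(1 - Y²)`, so
`Y² = (1 - r²) sin²`, `R² = r² + X² > X²`, `R > |X|`, `R > 0`.  `a = aX = (R + X)/2 > 0`, `h = hX = Y/√(1 + R)`.
`a (1 - h²) ..`: `h² = Y²/(1 + R) = 1 - R`, `(R - X)/2 = r²/(4 a)`.  `P = √a h`.
Derivatives with respect to `φ` (all functions are smooth in `(r, φ)`, as `1 - Y² > 0`, `1 - r² > 0`, `a > 0`,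
`1 + R > 0`; `fun_prop`-style or `HasDerivAt`): `X' = -2πY`, `Y' = 2πX`, `R' = -Y Y'/R = -2πXY/R`,
`a' = -πY (X + R)/R = -2πYa/R`,
`P' = -π (1 - 2a) √a √(1 + R) / R`   (compute: `h' = Y'/√(1+R) - Y R'/(2 (1+R)^(3/2))
  = 2πX/√(1+R) + πXY²/(R (1+R)^(3/2)) = (πX/√(1+R)) (2 + (1 - R)/R) = πX √(1+R)/R`, using `Y² = (1-R)(1+R)`;
  `(√a)' = a'/(2√a) = -πY √a/R`;
  `P' = -πY√a/R · Y/√(1+R) + √a πX √(1+R)/R = π√a √(1+R)/R · (X - (1 - R)) = -π√a√(1+R)/R (1 - R - X)`, and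
  `1 - R - X = 1 - 2a`.)
For `0 ≤ φ ≤ 1`: `XX0 = 1/2 + (1 - w)(φ - 1/2) - 2 ε w P`, `w = wX a`, `w' = -stp' a'` (`stp' ≥ 0`).
`XX0' = (1 - w) + 2 ε w (-P') - w' ((φ - 1/2) + 2 ε P)`.
* If `w ≠ 0` then `a ≤ 1/10`, `-P' > 0`.  So the first two terms are `≥ 0` and their sum is `> 0`.
* The third term: `- w' = stp' a'`, `a' = -2πYa/R` has the sign of `-Y`; `(φ - 1/2) + 2 ε P` has the sign of
  `-Y`, too: for `0 ≤ φ ≤ 1/2`, `Y ≥ 0`, `P ≥ 0`, and `1/2 - φ ≥ 2 ε P`: indeed `P = √a h ≤ h ≤ Y`,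
  `Y ≤ sin 2πφ = sin (2π (1/2 - φ)) ≤ 2π (1/2 - φ)`, and `2 ε · 2π ≤ 1`.  For `1/2 ≤ φ ≤ 1` symmetric.
  So the third term is `≥ 0`.
Hence `0 < XX0'` on `[0, 1]` (one may work on `-1/8 < φ < 9/8`: near `φ = 0, 1`: `Y` small; there
`X > 0`, `a ≥ R/2`...; simply: for `|φ - round φ| ≤ 1/8`: `|sin 2πφ| ≤ cos 2πφ`, so `Y² ≤ 1/2`, `R ≥ 7/10`,
`a ≥ 7/20 > 1/10`, `w = 0`, and `XX0 = φ`).  Therefore `XX ε r φ = φ` for `|φ - round φ| ≤ 1/8`, and for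
`m < φ < m + 1`: `XX ε r φ = m + XX0 ε r (φ - m)`; the two descriptions give smoothness everywhere.
* `XX_out`: `r² ≥ 2/5`: `4 a (R - X)/2 = r²`, `(R - X)/2 ≤ 1`, so `a ≥ 1/10`, `w = 0`.
-/

open scoped Manifold ContDiff Topology

namespace Pool.Agent.CSP
open Pool.Agent.CSG

variable {ε r : ℝ}

/-! ### auxiliary lemmas -/

/-- `R` -/
noncomputable def XXaR (r φ : ℝ) : ℝ := Real.sqrt (1 - (1 - r ^ 2) * Real.sin (2 * Real.pi * φ) ^ 2)

theorem XXa_arg_pos (hr : 0 < r) (hr' : r < 1) (φ : ℝ) :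
    0 < 1 - (1 - r ^ 2) * Real.sin (2 * Real.pi * φ) ^ 2 := by
  have h1 := Real.sin_sq_add_cos_sq (2 * Real.pi * φ)
  have h2 := sq_nonneg (Real.cos (2 * Real.pi * φ))
  have h3 : r ^ 2 < 1 := by nlinarith
  have h4 : 0 < r ^ 2 := by positivity
  have h5 : 0 ≤ (1 - r ^ 2) * Real.cos (2 * Real.pi * φ) ^ 2 := mul_nonneg (by linarith) h2
  nlinarith

theorem XXaR_sq (hr : 0 < r) (hr' : r < 1) (φ : ℝ) :
    XXaR r φ ^ 2 = 1 - (1 - r ^ 2) * Real.sin (2 * Real.pi * φ) ^ 2 :=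
  Real.sq_sqrt (XXa_arg_pos hr hr' φ).le

theorem XXaR_pos (hr : 0 < r) (hr' : r < 1) (φ : ℝ) : 0 < XXaR r φ :=
  Real.sqrt_pos.2 (XXa_arg_pos hr hr' φ)

theorem XXa_rho_sq (hr : 0 < r) (hr' : r < 1) : Real.sqrt (1 - r ^ 2) ^ 2 = 1 - r ^ 2 :=
  Real.sq_sqrt (by nlinarith)

theorem XXa_rho_pos (hr : 0 < r) (hr' : r < 1) : 0 < Real.sqrt (1 - r ^ 2) :=
  Real.sqrt_pos.2 (by nlinarith)

theorem XXa_rho_lt (hr : 0 < r) (hr' : r < 1) : Real.sqrt (1 - r ^ 2) < 1 := by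
  have h1 := XXa_rho_sq hr hr'
  have h2 := XXa_rho_pos hr hr'
  have h4 : 0 < r ^ 2 := by positivity
  nlinarith

theorem XXaR_le_one (hr : 0 < r) (hr' : r < 1) (φ : ℝ) : XXaR r φ ≤ 1 := by
  have h1 := XXaR_sq hr hr' φ
  have h2 := XXaR_pos hr hr' φ
  have h3 : 0 ≤ (1 - r ^ 2) * Real.sin (2 * Real.pi * φ) ^ 2 :=
    mul_nonneg (by nlinarith) (sq_nonneg _)
  nlinarith

theorem XXa_aX (r φ : ℝ) : aX r φ = (XXaR r φ + Real.sqrt (1 - r ^ 2) * Real.cos (2 * Real.pi * φ)) / 2 :=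
  rfl

theorem XXa_hX (r φ : ℝ) : hX r φ = Real.sqrt (1 - r ^ 2) * Real.sin (2 * Real.pi * φ) /
    Real.sqrt (1 + XXaR r φ) := rfl

/-- `R² - X² = r²` -/
theorem XXa_RX (hr : 0 < r) (hr' : r < 1) (φ : ℝ) :
    XXaR r φ ^ 2 - (Real.sqrt (1 - r ^ 2) * Real.cos (2 * Real.pi * φ)) ^ 2 = r ^ 2 := by
  rw [XXaR_sq hr hr', mul_pow, XXa_rho_sq hr hr']
  have h1 := Real.sin_sq_add_cos_sq (2 * Real.pi * φ)
  linear_combination (r ^ 2 - 1) * h1

theorem XXa_absX (hr : 0 < r) (hr' : r < 1) (φ : ℝ) :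
    |Real.sqrt (1 - r ^ 2) * Real.cos (2 * Real.pi * φ)| < XXaR r φ := by
  apply abs_lt_of_sq_lt_sq _ (XXaR_pos hr hr' φ).le
  have h1 := XXa_RX hr hr' φ
  have h2 : 0 < r ^ 2 := by positivity
  linarith

theorem aX_pos (hr : 0 < r) (hr' : r < 1) (φ : ℝ) : 0 < aX r φ := by
  have h1 := abs_lt.1 (XXa_absX hr hr' φ)
  rw [XXa_aX]
  linarith [h1.1]

theorem XXa_a_le (hr : 0 < r) (hr' : r < 1) (φ : ℝ) : aX r φ ≤ 1 := by
  have h1 := abs_lt.1 (XXa_absX hr hr' φ)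
  have h2 := XXaR_le_one hr hr' φ
  rw [XXa_aX]
  linarith [h1.2]

theorem XX_add (ε r φ : ℝ) (m : ℤ) : XX ε r (φ + m) = XX ε r φ + m := by
  unfold XX
  rw [Int.floor_add_intCast, Int.fract_add_intCast]
  push_cast
  ring

theorem XX_mid {φ : ℝ} {m : ℤ} (h : m ≤ φ) (h' : φ < m + 1) : XX ε r φ = m + XX0 ε r (φ - m) := by
  have hf : ⌊φ⌋ = m := by
    rw [Int.floor_eq_iff]
    exact ⟨h, h'⟩
  unfold XX
  rw [Int.fract, hf]

theorem XXa_wX_zero {a : ℝ} (h : 1 / 10 ≤ a) : wX a = 0 := by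
  unfold wX
  rw [CSG.stp_one (by norm_num) h, sub_self]

theorem XXa_XX0_of {φ : ℝ} (h : 1 / 10 ≤ aX r φ) : XX0 ε r φ = φ := by
  unfold XX0
  rw [XXa_wX_zero h]
  ring

theorem XXa_cos {φ : ℝ} {m : ℤ} (h : |φ - m| ≤ 1 / 8) : 1 / 2 ≤ Real.cos (2 * Real.pi * φ) ^ 2 ∧
    0 ≤ Real.cos (2 * Real.pi * φ) := by
  have h1 : Real.cos (2 * Real.pi * φ) = Real.cos |2 * Real.pi * (φ - m)| := by
    rw [Real.cos_abs]
    have : 2 * Real.pi * (φ - m) = 2 * Real.pi * φ - m * (2 * Real.pi) := by ring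
    rw [this, Real.cos_sub_int_mul_two_pi]
  have hpi := Real.pi_pos
  have h2 : |2 * Real.pi * (φ - m)| ≤ Real.pi / 4 := by
    rw [abs_mul, abs_of_pos (by positivity : 0 < 2 * Real.pi)]
    nlinarith
  have h3 : Real.cos (Real.pi / 4) ≤ Real.cos |2 * Real.pi * (φ - m)| :=
    Real.cos_le_cos_of_nonneg_of_le_pi (abs_nonneg _) (by linarith) h2
  rw [Real.cos_pi_div_four] at h3
  rw [h1]
  have h4 : Real.sqrt 2 ^ 2 = 2 := Real.sq_sqrt (by norm_num)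
  have h5 : 0 < Real.sqrt 2 := Real.sqrt_pos.2 (by norm_num)
  constructor
  · nlinarith
  · linarith

theorem XXa_a_near (hr : 0 < r) (hr' : r < 1) {φ : ℝ} {m : ℤ} (h : |φ - m| ≤ 1 / 8) :
    1 / 10 ≤ aX r φ := by
  obtain ⟨h1, h2⟩ := XXa_cos h
  have h3 := Real.sin_sq_add_cos_sq (2 * Real.pi * φ)
  have h4 := XXaR_sq hr hr' φ
  have h5 := XXaR_pos hr hr' φ
  have h6 := XXa_rho_pos hr hr'
  have h7 : 0 ≤ Real.sqrt (1 - r ^ 2) * Real.cos (2 * Real.pi * φ) := mul_nonneg h6.le h2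
  have h8 : 0 < r ^ 2 := by positivity
  have h9 : 0 ≤ Real.sin (2 * Real.pi * φ) ^ 2 := sq_nonneg _
  have h10 : 1 / 2 ≤ XXaR r φ ^ 2 := by
    rw [h4]
    nlinarith
  have h11 : 1 / 5 ≤ XXaR r φ := by nlinarith
  rw [XXa_aX]
  linarith

theorem XX_near (hr : 0 < r) (hr' : r < 1) {φ : ℝ} {m : ℤ} (h : |φ - m| ≤ 1 / 8) : XX ε r φ = φ := by
  obtain ⟨h1, h2⟩ := abs_le.1 h
  rcases lt_or_ge φ m with h3 | h3
  · rw [XX_mid (m := m - 1) (by push_cast; linarith) (by push_cast; linarith), XXa_XX0_of]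
    · push_cast
      ring
    · apply XXa_a_near hr hr' (m := 1)
      push_cast
      have : φ - (m - 1) - 1 = φ - m := by ring
      rw [this]
      exact h
  · rw [XX_mid (m := m) h3 (by linarith), XXa_XX0_of]
    · ring
    · apply XXa_a_near hr hr' (m := 0)
      push_cast
      rw [sub_zero]
      exact h

theorem XX_out (hr : 2 / 5 ≤ r ^ 2) (hr' : r < 1) (h0 : 0 < r) (φ : ℝ) : XX ε r φ = φ := by
  unfold XX
  rw [XXa_XX0_of, Int.floor_add_fract]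
  set ψ := Int.fract φ
  have h1 := XXa_RX h0 hr' ψ
  have h2 := abs_lt.1 (XXa_absX h0 hr' ψ)
  have h3 := XXaR_le_one h0 hr' ψ
  have h4 := aX_pos h0 hr' ψ
  rw [XXa_aX] at h4 ⊢
  set X := Real.sqrt (1 - r ^ 2) * Real.cos (2 * Real.pi * ψ)
  set R := XXaR r ψ
  have h5 : (R - X) / 2 ≤ 1 := by linarith [h2.1]
  have h6 : (R + X) / 2 * ((R - X) / 2) = r ^ 2 / 4 := by
    linear_combination h1 / 4
  nlinarith

/-- `XX0` is smooth. -/
theorem XXa_XX0_smooth (hr : 0 < r) (hr' : r < 1) (φ : ℝ) :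
    ContDiffAt ℝ ∞ (fun q : ℝ × ℝ => XX0 ε q.1 q.2) (r, φ) := by
  have f1 : ContDiffAt ℝ ∞ (fun q : ℝ × ℝ => q.1) (r, φ) := contDiffAt_fst
  have f2 : ContDiffAt ℝ ∞ (fun q : ℝ × ℝ => q.2) (r, φ) := contDiffAt_snd
  have g1 : ContDiffAt ℝ ∞ (fun q : ℝ × ℝ => 1 - q.1 ^ 2) (r, φ) := contDiffAt_const.sub (f1.pow 2)
  have g2 : ContDiffAt ℝ ∞ (fun q : ℝ × ℝ => Real.sin (2 * Real.pi * q.2)) (r, φ) :=
    Real.contDiff_sin.contDiffAt.comp (r, φ) (contDiffAt_const.mul f2)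
  have g3 : ContDiffAt ℝ ∞ (fun q : ℝ × ℝ => Real.cos (2 * Real.pi * q.2)) (r, φ) :=
    Real.contDiff_cos.contDiffAt.comp (r, φ) (contDiffAt_const.mul f2)
  have g4 : ContDiffAt ℝ ∞ (fun q : ℝ × ℝ => Real.sqrt (1 - q.1 ^ 2)) (r, φ) :=
    g1.sqrt (by have : 0 < 1 - r ^ 2 := by nlinarith
                exact this.ne')
  have g5 : ContDiffAt ℝ ∞ (fun q : ℝ × ℝ => XXaR q.1 q.2) (r, φ) :=
    (contDiffAt_const.sub (g1.mul (g2.pow 2))).sqrt (XXa_arg_pos hr hr' φ).ne'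
  have g6 : ContDiffAt ℝ ∞ (fun q : ℝ × ℝ => aX q.1 q.2) (r, φ) :=
    (g5.add (g4.mul g3)).div_const 2
  have g7 : ContDiffAt ℝ ∞ (fun q : ℝ × ℝ => Real.sqrt (1 + XXaR q.1 q.2)) (r, φ) :=
    (contDiffAt_const.add g5).sqrt (by have := XXaR_pos hr hr' φ
                                       exact (by linarith : (0:ℝ) < 1 + XXaR r φ).ne')
  have g8 : ContDiffAt ℝ ∞ (fun q : ℝ × ℝ => hX q.1 q.2) (r, φ) :=
    (g4.mul g2).div g7 (by have := XXaR_pos hr hr' φ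
                           exact (Real.sqrt_pos.2 (by linarith : (0:ℝ) < 1 + XXaR r φ)).ne')
  have g9 : ContDiffAt ℝ ∞ (fun q : ℝ × ℝ => Real.sqrt (aX q.1 q.2)) (r, φ) :=
    g6.sqrt (aX_pos hr hr' φ).ne'
  have g10 : ContDiffAt ℝ ∞ (fun q : ℝ × ℝ => wX (aX q.1 q.2)) (r, φ) :=
    contDiffAt_const.sub (((CSG.stp_smooth (1 / 20) (1 / 10)).contDiffAt).comp (r, φ) g6)
  exact (contDiffAt_const.add ((contDiffAt_const.sub g10).mul (f2.sub contDiffAt_const))).sub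
    (g10.mul ((contDiffAt_const.mul g9).mul g8))

theorem XX_smooth (hr : 0 < r) (hr' : r < 1) (φ : ℝ) :
    ContDiffAt ℝ ∞ (fun q : ℝ × ℝ => XX ε q.1 q.2) (r, φ) := by
  have hr1 : ∀ᶠ q : ℝ × ℝ in 𝓝 (r, φ), 0 < q.1 ∧ q.1 < 1 := by
    have : Set.Ioo (0:ℝ) 1 ∈ 𝓝 r := Ioo_mem_nhds hr hr'
    exact continuousAt_fst.preimage_mem_nhds (x := ((r, φ) : ℝ × ℝ)) this
  rcases eq_or_ne (Int.fract φ) 0 with h0 | h0
  · -- near an integer
    have hφ : φ = ⌊φ⌋ := by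
      have := Int.floor_add_fract φ
      rw [h0, add_zero] at this
      exact this.symm
    apply (contDiffAt_snd (𝕜 := ℝ) (n := ∞) (p := ((r, φ) : ℝ × ℝ))).congr_of_eventuallyEq
    have h1 : ∀ᶠ q : ℝ × ℝ in 𝓝 (r, φ), |q.2 - ⌊φ⌋| < 1 / 8 := by
      have : Set.Ioo (φ - 1 / 8) (φ + 1 / 8) ∈ 𝓝 φ := Ioo_mem_nhds (by linarith) (by linarith)
      have h2 := continuousAt_snd.preimage_mem_nhds (x := ((r, φ) : ℝ × ℝ)) this
      filter_upwards [h2] with q hq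
      obtain ⟨h3, h4⟩ := hq
      rw [abs_lt, ← hφ]
      constructor <;> linarith
    filter_upwards [hr1, h1] with q hq hq'
    exact XX_near hq.1 hq.2 hq'.le
  · have h1 : (⌊φ⌋ : ℝ) < φ := by
      have h2 := Int.floor_add_fract φ
      have h3 := Int.fract_nonneg φ
      have h4 : 0 < Int.fract φ := lt_of_le_of_ne h3 (Ne.symm h0)
      linarith
    have h2 : φ < ⌊φ⌋ + 1 := Int.lt_floor_add_one φ
    have h3 : ContDiffAt ℝ ∞ (fun q : ℝ × ℝ => (⌊φ⌋ : ℝ) + XX0 ε q.1 (q.2 - ⌊φ⌋)) (r, φ) := by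
      have h4 : ContDiffAt ℝ ∞ (fun q : ℝ × ℝ => ((q.1, q.2 - ⌊φ⌋) : ℝ × ℝ)) (r, φ) :=
        contDiffAt_fst.prodMk (contDiffAt_snd.sub contDiffAt_const)
      exact contDiffAt_const.add (ContDiffAt.comp (g := fun q : ℝ × ℝ => XX0 ε q.1 q.2)
      (f := fun q : ℝ × ℝ => ((q.1, q.2 - ⌊φ⌋) : ℝ × ℝ)) (r, φ)
      (XXa_XX0_smooth hr hr' (φ - ⌊φ⌋)) h4)
    apply h3.congr_of_eventuallyEq
    have h5 : Set.Ioo (⌊φ⌋ : ℝ) (⌊φ⌋ + 1) ∈ 𝓝 φ := Ioo_mem_nhds h1 h2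
    have h6 := continuousAt_snd.preimage_mem_nhds (x := ((r, φ) : ℝ × ℝ)) h5
    filter_upwards [h6] with q hq
    exact XX_mid hq.1.le hq.2

theorem XXa_R_deriv (hr : 0 < r) (hr' : r < 1) (φ : ℝ) :
    HasDerivAt (fun φ => XXaR r φ) (-(2 * Real.pi * (Real.sqrt (1 - r ^ 2) * Real.cos (2 * Real.pi * φ)) *
      (Real.sqrt (1 - r ^ 2) * Real.sin (2 * Real.pi * φ))) / XXaR r φ) φ := by
  have h0 : HasDerivAt (fun φ : ℝ => 2 * Real.pi * φ) (2 * Real.pi) φ := by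
    simpa using (hasDerivAt_id φ).const_mul (2 * Real.pi)
  have h1 : HasDerivAt (fun φ : ℝ => Real.sin (2 * Real.pi * φ))
      (Real.cos (2 * Real.pi * φ) * (2 * Real.pi)) φ := h0.sin
  have h2 : HasDerivAt (fun φ : ℝ => 1 - (1 - r ^ 2) * Real.sin (2 * Real.pi * φ) ^ 2)
      (-((1 - r ^ 2) * ((2 : ℕ) * Real.sin (2 * Real.pi * φ) ^ (2 - 1) *
        (Real.cos (2 * Real.pi * φ) * (2 * Real.pi))))) φ := by
    simpa using ((h1.pow 2).const_mul (1 - r ^ 2)).const_sub 1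
  have h3 := h2.sqrt (XXa_arg_pos hr hr' φ).ne'
  refine h3.congr_deriv ?_
  have h4 := XXa_rho_sq hr hr'
  have h5 := XXaR_pos hr hr' φ
  change _ / (2 * XXaR r φ) = _
  field_simp
  push_cast
  linear_combination (2 * Real.sin (2 * Real.pi * φ) * Real.cos (2 * Real.pi * φ)) * h4

theorem XXa_a_deriv (hr : 0 < r) (hr' : r < 1) (φ : ℝ) :
    HasDerivAt (fun φ => aX r φ) (-(2 * Real.pi * (Real.sqrt (1 - r ^ 2) * Real.sin (2 * Real.pi * φ)) *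
      aX r φ) / XXaR r φ) φ := by
  have h0 : HasDerivAt (fun φ : ℝ => 2 * Real.pi * φ) (2 * Real.pi) φ := by
    simpa using (hasDerivAt_id φ).const_mul (2 * Real.pi)
  have h1 := (h0.cos).const_mul (Real.sqrt (1 - r ^ 2))
  have h2 := ((XXa_R_deriv hr hr' φ).add h1).div_const 2
  refine h2.congr_deriv ?_
  have h5 := XXaR_pos hr hr' φ
  rw [XXa_aX]
  field_simp
  ring

theorem XXa_h_deriv (hr : 0 < r) (hr' : r < 1) (φ : ℝ) :
    HasDerivAt (fun φ => hX r φ) (Real.pi * (Real.sqrt (1 - r ^ 2) * Real.cos (2 * Real.pi * φ)) *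
      Real.sqrt (1 + XXaR r φ) / XXaR r φ) φ := by
  have h0 : HasDerivAt (fun φ : ℝ => 2 * Real.pi * φ) (2 * Real.pi) φ := by
    simpa using (hasDerivAt_id φ).const_mul (2 * Real.pi)
  have h1 := (h0.sin).const_mul (Real.sqrt (1 - r ^ 2))
  have hR := XXaR_pos hr hr' φ
  have h2 : HasDerivAt (fun φ => Real.sqrt (1 + XXaR r φ)) _ φ :=
    ((XXa_R_deriv hr hr' φ).const_add 1).sqrt (by linarith)
  have hS : 0 < Real.sqrt (1 + XXaR r φ) := Real.sqrt_pos.2 (by linarith)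
  have hS2 : Real.sqrt (1 + XXaR r φ) ^ 2 = 1 + XXaR r φ := Real.sq_sqrt (by linarith)
  have h3 := h1.div h2 hS.ne'
  refine h3.congr_deriv ?_
  have h4 := XXaR_sq hr hr' φ
  have h5 := XXa_rho_sq hr hr'
  set R := XXaR r φ
  set S := Real.sqrt (1 + R)
  set ρ := Real.sqrt (1 - r ^ 2)
  set s := Real.sin (2 * Real.pi * φ)
  set c := Real.cos (2 * Real.pi * φ)
  have h6 : ρ ^ 2 * s ^ 2 = 1 - R ^ 2 := by
    rw [h4, h5]
    ring
  field_simp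
  linear_combination (ρ * c) * h6 - (ρ * c) * (S ^ 2 + 1 - R) * hS2

/-- `P = √a h` -/
noncomputable def XXaP (r φ : ℝ) : ℝ := Real.sqrt (aX r φ) * hX r φ

theorem XXa_P_deriv (hr : 0 < r) (hr' : r < 1) (φ : ℝ) :
    HasDerivAt (fun φ => XXaP r φ) (-(Real.pi * Real.sqrt (aX r φ) * Real.sqrt (1 + XXaR r φ) *
      (1 - 2 * aX r φ)) / XXaR r φ) φ := by
  have ha := aX_pos hr hr' φ
  have hR := XXaR_pos hr hr' φ
  have h1 := (XXa_a_deriv hr hr' φ).sqrt ha.ne'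
  have h2 := h1.mul (XXa_h_deriv hr hr' φ)
  refine h2.congr_deriv ?_
  have hS : 0 < Real.sqrt (1 + XXaR r φ) := Real.sqrt_pos.2 (by linarith)
  have hS2 : Real.sqrt (1 + XXaR r φ) ^ 2 = 1 + XXaR r φ := Real.sq_sqrt (by linarith)
  have hA : 0 < Real.sqrt (aX r φ) := Real.sqrt_pos.2 ha
  have hA2 : Real.sqrt (aX r φ) ^ 2 = aX r φ := Real.sq_sqrt ha.le
  have h4 := XXaR_sq hr hr' φ
  have h5 := XXa_rho_sq hr hr'
  have h7 := XXa_aX r φ
  rw [XXa_hX]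
  set R := XXaR r φ
  set S := Real.sqrt (1 + R)
  set ρ := Real.sqrt (1 - r ^ 2)
  set s := Real.sin (2 * Real.pi * φ)
  set c := Real.cos (2 * Real.pi * φ)
  set a := aX r φ
  set A := Real.sqrt a
  have h6 : ρ ^ 2 * s ^ 2 = 1 - R ^ 2 := by
    rw [h4, h5]
    ring
  have h8 : ρ * c = 2 * a - R := by
    rw [h7]
    ring
  have h9 : (ρ * s) * (ρ * s) = (1 - R) * S ^ 2 := by
    rw [hS2]
    linear_combination h6
  have hne : R * (A * S) ≠ 0 := by positivity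
  have e1 : -(2 * Real.pi * (ρ * s) * a) / R / (2 * A) * (ρ * s / S) =
      -(Real.pi * a * ((ρ * s) * (ρ * s))) / (R * (A * S)) := by
    field_simp
  have e2 : A * (Real.pi * (ρ * c) * S / R) = (Real.pi * (A ^ 2 * S ^ 2 * (ρ * c))) / (R * (A * S)) := by
    field_simp
  have e3 : -(Real.pi * A * S * (1 - 2 * a)) / R =
      -(Real.pi * (A ^ 2 * S ^ 2 * (1 - 2 * a))) / (R * (A * S)) := by
    field_simp
  rw [e1, e2, e3, ← add_div]
  congr 1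
  linear_combination (-(Real.pi * a)) * h9 + (Real.pi * (A ^ 2 * S ^ 2)) * h8 +
    (Real.pi * S ^ 2 * (1 - R)) * hA2

theorem XXa_P_le (hr : 0 < r) (hr' : r < 1) (φ : ℝ) : ∃ θ : ℝ, 0 ≤ θ ∧ θ ≤ 1 ∧
    XXaP r φ = θ * Real.sin (2 * Real.pi * φ) := by
  have ha := aX_pos hr hr' φ
  have ha1 := XXa_a_le hr hr' φ
  have hR := XXaR_pos hr hr' φ
  have hS : 1 ≤ Real.sqrt (1 + XXaR r φ) := by
    rw [Real.one_le_sqrt]
    linarith
  have hA : 0 ≤ Real.sqrt (aX r φ) := Real.sqrt_nonneg _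
  have hA1 : Real.sqrt (aX r φ) ≤ 1 := by
    rw [Real.sqrt_le_one]
    exact ha1
  have hρ := XXa_rho_pos hr hr'
  have hρ1 := XXa_rho_lt hr hr'
  refine ⟨Real.sqrt (aX r φ) * (Real.sqrt (1 - r ^ 2) / Real.sqrt (1 + XXaR r φ)), by positivity, ?_, ?_⟩
  · have h1 : Real.sqrt (1 - r ^ 2) / Real.sqrt (1 + XXaR r φ) ≤ 1 := by
      rw [div_le_one (by linarith)]
      linarith
    have h2 : 0 ≤ Real.sqrt (1 - r ^ 2) / Real.sqrt (1 + XXaR r φ) := by positivity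
    exact mul_le_one₀ hA1 h2 h1
  · unfold XXaP
    rw [XXa_hX]
    ring

/-- the sign of the third term -/
theorem XXa_sign (hε : 0 < ε) (hε' : ε ≤ 1 / 1000) (hr : 0 < r) (hr' : r < 1) {φ : ℝ} (h0 : 0 ≤ φ)
    (h1 : φ ≤ 1) : Real.sin (2 * Real.pi * φ) * ((φ - 1 / 2) + 2 * ε * XXaP r φ) ≤ 0 := by
  obtain ⟨θ, hθ, hθ1, hP⟩ := XXa_P_le hr hr' φ
  rw [hP]
  have hpi := Real.pi_pos
  have hpi4 := Real.pi_le_four
  set s := Real.sin (2 * Real.pi * φ)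
  have hs : s = - Real.sin (2 * Real.pi * (φ - 1 / 2)) := by
    have : 2 * Real.pi * (φ - 1 / 2) = 2 * Real.pi * φ - Real.pi := by ring
    rw [this, Real.sin_sub_pi, neg_neg]
  rcases le_or_gt φ (1 / 2) with h | h
  · have hs0 : 0 ≤ s := Real.sin_nonneg_of_nonneg_of_le_pi (by positivity) (by nlinarith)
    have hs1 : s ≤ 2 * Real.pi * (1 / 2 - φ) := by
      have h2 : 0 ≤ 2 * Real.pi * (1 / 2 - φ) := by
        apply mul_nonneg (by positivity)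
        linarith
      have h3 : s = Real.sin (2 * Real.pi * (1 / 2 - φ)) := by
        rw [hs, ← Real.sin_neg]
        congr 1
        ring
      rw [h3]
      exact Real.sin_le h2
    have h4 : 2 * ε * (θ * s) ≤ 1 / 2 - φ := by
      have h5 : θ * s ≤ s := by nlinarith
      have h6 : 2 * ε * (θ * s) ≤ 2 * ε * (2 * Real.pi * (1 / 2 - φ)) := by
        apply mul_le_mul_of_nonneg_left _ (by linarith)
        linarith
      have h7 : 2 * ε * (2 * Real.pi) ≤ 1 := by nlinarith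
      have h8 : 0 ≤ 1 / 2 - φ := by linarith
      nlinarith
    apply mul_nonpos_of_nonneg_of_nonpos hs0
    linarith
  · have hs0 : s ≤ 0 := by
      rw [hs, neg_nonpos]
      exact Real.sin_nonneg_of_nonneg_of_le_pi (mul_nonneg (by positivity) (by linarith)) (by nlinarith)
    have hs1 : -s ≤ 2 * Real.pi * (φ - 1 / 2) := by
      rw [hs, neg_neg]
      exact Real.sin_le (mul_nonneg (by positivity) (by linarith))
    have h4 : -(φ - 1 / 2) ≤ 2 * ε * (θ * s) := by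
      have h5 : s ≤ θ * s := by nlinarith
      have h6 : 2 * ε * (-(2 * Real.pi * (φ - 1 / 2))) ≤ 2 * ε * (θ * s) := by
        apply mul_le_mul_of_nonneg_left _ (by linarith)
        linarith
      have h7 : 2 * ε * (2 * Real.pi) ≤ 1 := by nlinarith
      have h8 : 0 ≤ φ - 1 / 2 := by linarith
      nlinarith
    apply mul_nonpos_of_nonpos_of_nonneg hs0
    linarith

theorem XXa_XX0_deriv (hε : 0 < ε) (hε' : ε ≤ 1 / 1000) (hr : 0 < r) (hr' : r < 1) {φ : ℝ} (h0 : 0 ≤ φ)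
    (h1 : φ ≤ 1) : ∃ d : ℝ, 0 < d ∧ HasDerivAt (fun φ => XX0 ε r φ) d φ := by
  have ha := aX_pos hr hr' φ
  have hR := XXaR_pos hr hr' φ
  have hS : 0 < Real.sqrt (1 + XXaR r φ) := Real.sqrt_pos.2 (by linarith)
  have hA : 0 < Real.sqrt (aX r φ) := Real.sqrt_pos.2 ha
  have hρ := XXa_rho_pos hr hr'
  have hst : HasDerivAt (CSG.stp (1 / 20) (1 / 10)) (deriv (CSG.stp (1 / 20) (1 / 10)) (aX r φ)) (aX r φ) :=
    ((CSG.stp_smooth (1 / 20) (1 / 10)).differentiable (by simp) _).hasDerivAt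
  have hD := CSG.stp_deriv_nonneg (a := 1 / 20) (b := 1 / 10) (by norm_num) (aX r φ)
  set D := deriv (CSG.stp (1 / 20) (1 / 10)) (aX r φ)
  have hw : HasDerivAt (fun φ => wX (aX r φ)) (-(D * (-(2 * Real.pi * (Real.sqrt (1 - r ^ 2) *
      Real.sin (2 * Real.pi * φ)) * aX r φ) / XXaR r φ))) φ := by
    exact (hst.comp φ (XXa_a_deriv hr hr' φ)).const_sub 1
  have hP := XXa_P_deriv hr hr' φ
  have hid : HasDerivAt (fun φ : ℝ => φ - 1 / 2) 1 φ := (hasDerivAt_id φ).sub_const _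
  have htot := (((hw.const_sub 1).mul hid).const_add (1 / 2)).sub (hw.mul (hP.const_mul (2 * ε)))
  have hfun : (fun φ => XX0 ε r φ) = fun φ => (1 / 2 + (1 - wX (aX r φ)) * (φ - 1 / 2)) -
      wX (aX r φ) * (2 * ε * XXaP r φ) := by
    funext φ
    unfold XX0 XXaP
    ring
  rw [hfun]
  refine ⟨_, ?_, htot⟩
  have hsign := XXa_sign hε hε' hr hr' h0 h1
  have hw0 : 0 ≤ wX (aX r φ) := by
    unfold wX
    linarith [CSG.stp_le_one (1 / 20) (1 / 10) (aX r φ)]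
  have hw1 : wX (aX r φ) ≤ 1 := by
    unfold wX
    linarith [CSG.stp_nonneg (1 / 20) (1 / 10) (aX r φ)]
  have hwz : 1 / 10 ≤ aX r φ → wX (aX r φ) = 0 := XXa_wX_zero
  set w := wX (aX r φ)
  set R := XXaR r φ
  set S := Real.sqrt (1 + R)
  set ρ := Real.sqrt (1 - r ^ 2)
  set s := Real.sin (2 * Real.pi * φ)
  set a := aX r φ
  set A := Real.sqrt a
  set P := XXaP r φ
  have hpi := Real.pi_pos
  have e : -(-(D * (-(2 * Real.pi * (ρ * s) * a) / R))) * (φ - 1 / 2) + (1 - w) * 1 -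
      (-(D * (-(2 * Real.pi * (ρ * s) * a) / R)) * (2 * ε * P) +
        w * (2 * ε * (-(Real.pi * A * S * (1 - 2 * a)) / R))) =
      (1 - w) + w * (2 * ε * (Real.pi * A * S * (1 - 2 * a) / R)) +
        D * (2 * Real.pi * ρ * a / R) * (-(s * ((φ - 1 / 2) + 2 * ε * P))) := by
    ring
  have h3 : 0 ≤ D * (2 * Real.pi * ρ * a / R) * (-(s * ((φ - 1 / 2) + 2 * ε * P))) :=
    mul_nonneg (mul_nonneg hD (by positivity)) (by linarith)
  have h4 : 0 < (1 - w) + w * (2 * ε * (Real.pi * A * S * (1 - 2 * a) / R)) := by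
    rcases le_or_gt (1 / 10) a with h | h
    · rw [hwz h]
      norm_num
    · have h5 : 0 < 2 * ε * (Real.pi * A * S * (1 - 2 * a) / R) := by
        have h6 : 0 < 1 - 2 * a := by linarith
        positivity
      rcases eq_or_lt_of_le hw0 with h7 | h7
      · rw [← h7]
        norm_num
      · have := mul_pos h7 h5
        linarith
  linarith

theorem XX_deriv (hε : 0 < ε) (hε' : ε ≤ 1 / 1000) (hr : 0 < r) (hr' : r < 1) (φ : ℝ) :
    0 < deriv (fun φ => XX ε r φ) φ := by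
  rcases eq_or_ne (Int.fract φ) 0 with h0 | h0
  · have hφ : φ = ⌊φ⌋ := by
      have := Int.floor_add_fract φ
      rw [h0, add_zero] at this
      exact this.symm
    have h1 : (fun φ => XX ε r φ) =ᶠ[𝓝 φ] fun φ => φ := by
      have : Set.Ioo (φ - 1 / 8) (φ + 1 / 8) ∈ 𝓝 φ := Ioo_mem_nhds (by linarith) (by linarith)
      filter_upwards [this] with q hq
      apply XX_near hr hr' (m := ⌊φ⌋)
      rw [← hφ, abs_le]
      constructor <;> linarith [hq.1, hq.2]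
    rw [h1.deriv_eq]
    simp
  · have h1 : (⌊φ⌋ : ℝ) < φ := by
      have h2 := Int.floor_add_fract φ
      have h3 := Int.fract_nonneg φ
      have h4 : 0 < Int.fract φ := lt_of_le_of_ne h3 (Ne.symm h0)
      linarith
    have h2 : φ < ⌊φ⌋ + 1 := Int.lt_floor_add_one φ
    obtain ⟨d, hd, hd'⟩ := XXa_XX0_deriv (φ := φ - ⌊φ⌋) hε hε' hr hr' (by linarith) (by linarith)
    have h3 : HasDerivAt (fun φ' : ℝ => (⌊φ⌋ : ℝ) + XX0 ε r (φ' - ⌊φ⌋)) d φ := by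
      have h4 : HasDerivAt (fun φ' : ℝ => φ' - ⌊φ⌋) 1 φ := (hasDerivAt_id φ).sub_const _
      have h5 := HasDerivAt.comp (h₂ := fun φ => XX0 ε r φ) φ hd' h4
      rw [mul_one] at h5
      exact h5.const_add _
    have h6 : (fun φ => XX ε r φ) =ᶠ[𝓝 φ] fun φ' : ℝ => (⌊φ⌋ : ℝ) + XX0 ε r (φ' - ⌊φ⌋) := by
      filter_upwards [Ioo_mem_nhds h1 h2] with q hq
      exact XX_mid hq.1.le hq.2
    rw [h6.deriv_eq, h3.deriv]
    exact hd

end Pool.Agent.CSP
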