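import Pool.Agent.CSP.XXa
import Pool.Agent.RSG.GcM

/-!
# CSP/XXb: the coordinates of the points `Gc (-1) 1 (l, v, t)`   (difficulty 2)

`z = Gc (-1) 1 (l, v, t)`, `0 < ‖v‖ < 1`.  `Gc_spec`: `c1 z = ‖c1 z‖ (v/‖v‖)`,
`c2 z = ‖c2 z‖ (v/‖v‖) ex (-t)`, `fh z = ‖fh z‖ ex (l + t)`, `2 ‖c1‖ ‖c2‖ = ‖v‖`, so `‖fh z‖ = √(1 - ‖v‖²)` (`fh_sq`).
By definition of `pG` (`pG_c`), with `f = fh z`: `‖c1 z‖² = (√(1 - f.im²) + f.re)/2 = aX ‖v‖ φ`,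
`ht z = f.im/√(1 + √(1 - f.im²)) = hX ‖v‖ φ`, `φ = l + t`.
* `etaS`: `2 ε ex (l + t) ‖c1‖ conj (v/‖v‖) ‖c2‖ (v/‖v‖) ex (-t) = ε ‖v‖ ex l`.
* `uS z = arg (v/‖v‖)/2π = arg v / 2π` (`Complex.arg_real_mul`).
* `xiS`: `-fh z = ρ ex (φ - 1/2)`; let `m = ⌊φ⌋`, `φ' = Int.fract φ ∈ [0, 1)`.  If `φ' > 0` then
  `φ' - 1/2 ∈ (-1/2, 1/2)` and `arg (-fh z)/2π = φ' - 1/2`: `1/2 + xiS = XX0 ε ‖v‖ φ'` (`aX`, `hX` have period 1),
  so `1/2 + xiS = XX ε ‖v‖ φ - m`.  If `φ' = 0`: `arg = π`, `w = 0` (`XX_near` situation: `aX ≥ 1/10`), `1/2 + xiS = 1`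
  and `XX0 = 0`: the integer is `1 - m`.
* `XX_surj`: `XX ε r` is continuous (`XX_smooth`) and `XX (φ + m) = XX φ + m`, so unbounded in both directions;
  intermediate value theorem.  `XX_mono`: `strictMono_of_deriv_pos`.
-/

open scoped Manifold ContDiff Topology

namespace Pool.Agent.CSP
open Pool.Agent.CSG (pt)
open Pool.Agent.RSG (ex c1 c2 ht fh Gc)

variable {ε r : ℝ}

theorem XX_mono (hε : 0 < ε) (hε' : ε ≤ 1 / 1000) (hr : 0 < r) (hr' : r < 1) :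
    StrictMono fun φ => XX ε r φ := strictMono_of_deriv_pos (XX_deriv hε hε' hr hr')

theorem XXb_cont (hr : 0 < r) (hr' : r < 1) : Continuous fun φ => XX ε r φ := by
  rw [continuous_iff_continuousAt]
  intro φ
  have h := (XX_smooth (ε := ε) hr hr' φ).continuousAt
  exact ContinuousAt.comp (f := fun φ : ℝ => (r, φ)) (g := fun q : ℝ × ℝ => XX ε q.1 q.2) h
    (by fun_prop)

theorem XX_surj (hε : 0 < ε) (hε' : ε ≤ 1 / 1000) (hr : 0 < r) (hr' : r < 1) (x : ℝ) :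
    ∃ φ, XX ε r φ = x := by
  have hc := XXb_cont (ε := ε) hr hr'
  have h := mem_range_of_exists_le_of_exists_ge hc (c := x)
    ⟨0 + (⌊x - XX ε r 0⌋ : ℤ), by
      rw [XX_add]
      have := Int.floor_le (x - XX ε r 0)
      linarith⟩
    ⟨0 + (⌈x - XX ε r 0⌉ : ℤ), by
      rw [XX_add]
      have := Int.le_ceil (x - XX ε r 0)
      linarith⟩
  obtain ⟨φ, hφ⟩ := h
  exact ⟨φ, hφ⟩

/-- the data of the point -/
theorem XXb_all {l t : ℝ} {v : ℂ} (h0 : v ≠ 0) (h1 : ‖v‖ < 1) :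
    ‖c1 (Gc (-1) 1 (l, v, t))‖ ^ 2 = aX ‖v‖ (l + t) ∧
    ht (Gc (-1) 1 (l, v, t)) = hX ‖v‖ (l + t) ∧
    c1 (Gc (-1) 1 (l, v, t)) = ‖c1 (Gc (-1) 1 (l, v, t))‖ * (v / ‖v‖) ∧
    c2 (Gc (-1) 1 (l, v, t)) = ‖c2 (Gc (-1) 1 (l, v, t))‖ * (v / ‖v‖ * RSG.ex (-t)) ∧
    fh (Gc (-1) 1 (l, v, t)) = (Real.sqrt (1 - ‖v‖ ^ 2) : ℂ) * ex (l + t) ∧
    2 * ‖c1 (Gc (-1) 1 (l, v, t))‖ * ‖c2 (Gc (-1) 1 (l, v, t))‖ = ‖v‖ := by
  have hs := RSG.Gc_spec (-1) 1 (l := l) (t := t) h0 h1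
  obtain ⟨s1, s2, s3, s4, s5, s6, s7⟩ := hs
  have e1 : ((1 : ℝ) - ((1 : ℤ) : ℝ)) * t = 0 := by push_cast; ring
  have e2 : -((1 : ℤ) : ℝ) * t = -t := by push_cast; ring
  have e3 : l - ((-1 : ℤ) : ℝ) * t = l + t := by push_cast; ring
  rw [e1, RSG.ex_zero, mul_one] at s5
  rw [e2] at s6
  have n1 := RSG.GcM_norm h0 0
  have n2 := RSG.GcM_norm h0 (-t)
  have nf : ‖(Real.sqrt (1 - ‖v‖ ^ 2) : ℂ) * ex (l + t)‖ < 1 := by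
    rw [RSG.GcM_nf]; exact RSG.GcM_sqrt_lt h0
  have hG : Gc (-1) 1 (l, v, t) = RSG.pG (v / ‖v‖ * ex 0) (v / ‖v‖ * ex (-t))
      ((Real.sqrt (1 - ‖v‖ ^ 2) : ℂ) * ex (l + t)) := by
    show RSG.pG _ _ _ = _
    rw [e1, e2, e3]
  have him : ((Real.sqrt (1 - ‖v‖ ^ 2) : ℂ) * ex (l + t)).im =
      Real.sqrt (1 - ‖v‖ ^ 2) * Real.sin (2 * Real.pi * (l + t)) := by
    rw [Complex.im_ofReal_mul, RSG.ex_im]
  have hre : ((Real.sqrt (1 - ‖v‖ ^ 2) : ℂ) * ex (l + t)).re =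
      Real.sqrt (1 - ‖v‖ ^ 2) * Real.cos (2 * Real.pi * (l + t)) := by
    rw [Complex.re_ofReal_mul, RSG.ex_re]
  have hsq : Real.sqrt (1 - ‖v‖ ^ 2) ^ 2 = 1 - ‖v‖ ^ 2 :=
    Real.sq_sqrt (by nlinarith [norm_nonneg v])
  have him2 : ((Real.sqrt (1 - ‖v‖ ^ 2) : ℂ) * ex (l + t)).im ^ 2 =
      (1 - ‖v‖ ^ 2) * Real.sin (2 * Real.pi * (l + t)) ^ 2 := by
    rw [him, mul_pow, hsq]
  obtain ⟨a1, a2, a3⟩ := RSG.PGm_all n1 n2 nf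
  obtain ⟨p1, p2, p3⟩ := RSG.PGm_pos nf
  refine ⟨?_, ?_, s5, s6, ?_, s4⟩
  · rw [hG, a1, RSG.PGm_norm p1.le n1, him2, hre]
    rfl
  · rw [hG, a3, him2, him]
    rfl
  · rw [hG]
    exact RSG.pG_fh n1 n2 nf

theorem Gc_a {l t : ℝ} {v : ℂ} (h0 : v ≠ 0) (h1 : ‖v‖ < 1) :
    ‖c1 (Gc (-1) 1 (l, v, t))‖ ^ 2 = aX ‖v‖ (l + t) ∧ ht (Gc (-1) 1 (l, v, t)) = hX ‖v‖ (l + t) :=
  ⟨(XXb_all h0 h1).1, (XXb_all h0 h1).2.1⟩

/-- `aX` and `hX` have period `1` -/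
theorem XXb_per (r φ : ℝ) (m : ℤ) : aX r (φ - m) = aX r φ ∧ hX r (φ - m) = hX r φ := by
  have e : 2 * Real.pi * (φ - m) = 2 * Real.pi * φ - m * (2 * Real.pi) := by ring
  unfold aX hX
  rw [e, Real.sin_sub_int_mul_two_pi, Real.cos_sub_int_mul_two_pi]
  exact ⟨rfl, rfl⟩

/-- near the integers -/
theorem XXb_w {r : ℝ} (hr : 0 < r) (hr' : r < 1) : wX (aX r 0) = 0 := by
  have h1 : 0 ≤ Real.sqrt (1 - r ^ 2) := Real.sqrt_nonneg _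
  have h2 : aX r 0 = (1 + Real.sqrt (1 - r ^ 2)) / 2 := by
    unfold aX
    simp
  unfold wX
  rw [CSG.stp_one (by norm_num) (by rw [h2]; linarith)]
  ring

theorem XXb_eta {l t : ℝ} {v : ℂ} (h0 : v ≠ 0) (h1 : ‖v‖ < 1) :
    etaS ε (Gc (-1) 1 (l, v, t)) = (ε * ‖v‖ : ℝ) * ex l := by
  obtain ⟨-, -, e1, e2, e3, e4⟩ := XXb_all (l := l) (t := t) h0 h1
  have hv : (‖v‖ : ℂ) ≠ 0 := by exact_mod_cast (norm_ne_zero_iff.2 h0)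
  have hρ : (Real.sqrt (1 - ‖v‖ ^ 2) : ℂ) ≠ 0 := by
    exact_mod_cast (RSG.GcM_sqrt_pos h1).ne'
  unfold etaS
  set a := ‖c1 (Gc (-1) 1 (l, v, t))‖ with ha
  set b := ‖c2 (Gc (-1) 1 (l, v, t))‖ with hb
  have hnf : ‖fh (Gc (-1) 1 (l, v, t))‖ = Real.sqrt (1 - ‖v‖ ^ 2) := by
    rw [e3, RSG.GcM_nf]
  rw [hnf, e3, e1, e2, map_mul, Complex.conj_ofReal, mul_div_cancel_left₀ _ hρ]
  have hcc : (starRingEnd ℂ) (v / ‖v‖) * (v / ‖v‖) = 1 := by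
    rw [map_div₀, Complex.conj_ofReal, div_mul_div_comm, Complex.conj_mul', ← sq, div_self]
    exact pow_ne_zero 2 hv
  have hex : ex (l + t) * ex (-t) = ex l := by
    rw [← RSG.ex_add]
    congr 1
    ring
  have e4' : (2 : ℂ) * a * b = ‖v‖ := by exact_mod_cast e4
  rw [← hex]
  push_cast
  generalize (starRingEnd ℂ) (v / ‖v‖) = q1 at hcc
  generalize v / (‖v‖ : ℂ) = q2 at hcc
  rw [← e4']
  linear_combination (2 * ε * ex (l + t) * a * b * ex (-t)) * hcc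

theorem XXb_u {l t : ℝ} {v : ℂ} (h0 : v ≠ 0) (h1 : ‖v‖ < 1) :
    uS (Gc (-1) 1 (l, v, t)) = Complex.arg v / (2 * Real.pi) := by
  obtain ⟨-, -, e1, -, -, e4⟩ := XXb_all (l := l) (t := t) h0 h1
  have hv : 0 < ‖v‖ := norm_pos_iff.2 h0
  have ha : 0 < ‖c1 (Gc (-1) 1 (l, v, t))‖ := by
    rcases (norm_nonneg (c1 (Gc (-1) 1 (l, v, t)))).eq_or_lt with h | h
    · rw [← h] at e4
      simp at e4
      exact absurd (norm_eq_zero.1 e4.symm) h0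
    · exact h
  unfold uS
  rw [e1]
  have : v / (‖v‖ : ℂ) = ((‖v‖⁻¹ : ℝ) : ℂ) * v := by
    push_cast
    rw [div_eq_mul_inv, mul_comm]
  rw [Complex.arg_real_mul _ ha, this, Complex.arg_real_mul _ (by positivity)]

theorem XXb_arg {ρ φ : ℝ} (hρ : 0 < ρ) (h1 : 0 < φ) (h2 : φ < 1) :
    Complex.arg (-((ρ : ℂ) * ex φ)) / (2 * Real.pi) = φ - 1 / 2 := by
  have e : -((ρ : ℂ) * ex φ) = (ρ : ℂ) * ex (φ - 1 / 2) := by
    have : ex φ = ex (φ - 1 / 2) * ex (1 / 2) := by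
      rw [← RSG.ex_add]
      congr 1
      ring
    rw [this, RSG.ex_half]
    ring
  have h := RSG.ex_log hρ (x := φ - 1 / 2) (by linarith) (by linarith)
  rw [Complex.log_im] at h
  rw [e, h]
  have := Real.pi_ne_zero
  field_simp

theorem qS_Gc {l t : ℝ} {v : ℂ} (h0 : v ≠ 0) (h1 : ‖v‖ < 1) :
    ∃ m : ℤ, qS ε (Gc (-1) 1 (l, v, t)) =
      (pt (XX ε ‖v‖ (l + t) + m) (Complex.arg v / (2 * Real.pi)) (1 / 2 + (ε * ‖v‖ * ex l).re),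
        1 / 2 + (ε * ‖v‖ * ex l).im) := by
  have heta : etaS ε (Gc (-1) 1 (l, v, t)) = ε * ‖v‖ * ex l := by
    rw [XXb_eta h0 h1]
    push_cast
    ring
  have hu := XXb_u (l := l) (t := t) h0 h1
  obtain ⟨a1, a2, -, -, e3, -⟩ := XXb_all (l := l) (t := t) h0 h1
  have hv : 0 < ‖v‖ := norm_pos_iff.2 h0
  have hρ := RSG.GcM_sqrt_pos h1
  have hx : ∃ m : ℤ, 1 / 2 + xiS ε (Gc (-1) 1 (l, v, t)) = XX ε ‖v‖ (l + t) + m := by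
    have hc : ‖c1 (Gc (-1) 1 (l, v, t))‖ = Real.sqrt (aX ‖v‖ (l + t)) := by
      rw [← a1, Real.sqrt_sq (norm_nonneg _)]
    unfold xiS
    rw [a1, a2, hc, e3]
    set φ := l + t with hφ
    obtain ⟨p1, p2⟩ := XXb_per ‖v‖ φ ⌊φ⌋
    have hf : φ - ⌊φ⌋ = Int.fract φ := rfl
    rw [hf] at p1 p2
    have hex : ex φ = ex (Int.fract φ) := by
      have : φ = Int.fract φ + ⌊φ⌋ := (Int.fract_add_floor φ).symm
      conv_lhs => rw [this]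
      rw [RSG.ex_add_int]
    rcases (Int.fract_nonneg φ).eq_or_lt with h | h
    · refine ⟨1 - ⌊φ⌋, ?_⟩
      have hw := XXb_w hv h1
      have h3 : aX ‖v‖ φ = aX ‖v‖ 0 := by rw [← p1, ← h]
      have h4 : Complex.arg (-((Real.sqrt (1 - ‖v‖ ^ 2) : ℂ) * ex φ)) = Real.pi := by
        rw [hex, ← h, RSG.ex_zero, mul_one, ← Complex.ofReal_neg]
        exact Complex.arg_ofReal_of_neg (by linarith)
      have h5 : XX ε ‖v‖ φ = ⌊φ⌋ := by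
        unfold XX XX0
        rw [← h, hw]
        ring
      rw [h3, hw, h4, h5]
      have := Real.pi_ne_zero
      push_cast
      field_simp
      ring
    · refine ⟨-⌊φ⌋, ?_⟩
      rw [hex, XXb_arg hρ h (Int.fract_lt_one φ)]
      unfold XX XX0
      rw [p1, p2]
      push_cast
      ring
  obtain ⟨m, hm⟩ := hx
  refine ⟨m, ?_⟩
  unfold qS
  rw [heta, hu, hm]

end Pool.Agent.CSP
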